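import Mathlib

open Finset Nat
open scoped BigOperators

namespace Pool.Agent.Helper65.BL

/-- Upper Mertens type bound at powers of two. -/
lemma sum_log_div_le (m : ℕ) :
    ∑ p ∈ primesLE (2 ^ m), Real.log p / p ≤ 3 * m := by
  induction m with
  | zero => simp
  | succ m ih =>
    have hsub : primesLE (2 ^ m) ⊆ primesLE (2 ^ (m + 1)) :=
      primesLE_mono (Nat.pow_le_pow_right (by norm_num) (by omega))
    rw [← sum_sdiff hsub]
    have h2m : (0 : ℝ) < 2 ^ m := by positivity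
    have h1 : ∑ p ∈ primesLE (2 ^ (m + 1)) \ primesLE (2 ^ m), Real.log p / p ≤
        ∑ p ∈ primesLE (2 ^ (m + 1)), Real.log p / 2 ^ m := by
      calc ∑ p ∈ primesLE (2 ^ (m + 1)) \ primesLE (2 ^ m), Real.log p / p
          ≤ ∑ p ∈ primesLE (2 ^ (m + 1)) \ primesLE (2 ^ m), Real.log p / 2 ^ m := by
            apply sum_le_sum
            intro p hp
            rw [mem_sdiff, mem_primesLE, mem_primesLE] at hp
            have hlt : 2 ^ m < p := by
              by_contra hle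
              push Not at hle
              exact hp.2 ⟨hle, hp.1.2⟩
            have hp1 : (1 : ℝ) ≤ p := by exact_mod_cast hp.1.2.one_lt.le
            apply div_le_div_of_nonneg_left (Real.log_nonneg hp1) h2m
            exact_mod_cast hlt.le
        _ ≤ _ := by
            apply sum_le_sum_of_subset_of_nonneg sdiff_subset
            intro p hp _
            have hp1 : (1 : ℝ) ≤ p := by exact_mod_cast (mem_primesLE.mp hp).2.one_lt.le
            exact div_nonneg (Real.log_nonneg hp1) h2m.le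
    have h2 : ∑ p ∈ primesLE (2 ^ (m + 1)), Real.log p / 2 ^ m ≤ 3 := by
      rw [← sum_div, div_le_iff₀ h2m, ← Chebyshev.theta_eq_sum_primesLE_log]
      refine le_trans (Chebyshev.theta_le_log4_mul_x (by positivity)) ?_
      push_cast
      rw [pow_succ]
      have h4 : Real.log 4 ≤ 3 / 2 := by
        have : Real.log 4 = 2 * Real.log 2 := by
          rw [show (4 : ℝ) = 2 ^ 2 by norm_num, Real.log_pow]; norm_num
        have := Real.log_two_lt_d9
        linarith
      nlinarith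
    push_cast
    linarith

/-- telescoping -/
lemma sum_inv_mul_pred (n : ℕ) :
    ∑ p ∈ primesLE n, (1 : ℝ) / (p * (p - 1)) ≤ 1 := by
  have h : ∑ p ∈ primesLE n, (1 : ℝ) / (p * (p - 1)) ≤ ∑ k ∈ Ico 2 (n + 2), (1 : ℝ) / (k * (k - 1)) := by
    apply sum_le_sum_of_subset_of_nonneg
    · intro p hp
      rw [mem_primesLE] at hp
      rw [mem_Ico]
      have := hp.2.two_le
      omega
    · intro k hk _
      rw [mem_Ico] at hk
      have : (2 : ℝ) ≤ k := by exact_mod_cast hk.1
      apply div_nonneg zero_le_one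
      nlinarith
  refine le_trans h ?_
  have h2 : ∀ N : ℕ, ∑ k ∈ Ico 2 (N + 2), (1 : ℝ) / (k * (k - 1)) = 1 - 1 / (N + 1) := by
    intro N
    induction N with
    | zero => simp
    | succ N ih =>
      rw [sum_Ico_succ_top (by omega), ih]
      push_cast
      have e1 : (N : ℝ) + 1 ≠ 0 := by positivity
      have e2 : (N : ℝ) + 2 ≠ 0 := by positivity
      have h3 : (N : ℝ) + 2 - 1 = N + 1 := by ring
      have h4 : (N : ℝ) + 1 + 1 = N + 2 := by ring
      rw [h3, h4]
      field_simp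
      ring
  rw [h2]
  have : (0 : ℝ) ≤ 1 / ((n : ℝ) + 1) := by positivity
  linarith

/-- Lower Mertens bound at powers of two. -/
lemma sum_inv_ge {m : ℕ} (hm : 1 ≤ m) :
    Real.log m - 2 ≤ ∑ p ∈ primesLE (2 ^ m), (1 : ℝ) / p := by
  -- Euler product
  let f : ℕ →* ℝ :=
    { toFun := fun n => (n : ℝ)⁻¹
      map_one' := by simp
      map_mul' := fun a b => by push_cast; rw [mul_inv] }
  have hf : ∀ {p : ℕ}, p.Prime → ‖f p‖ < 1 := by
    intro p hp
    have h2 : (2 : ℝ) ≤ p := by exact_mod_cast hp.two_le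
    change ‖(p : ℝ)⁻¹‖ < 1
    rw [norm_inv, Real.norm_natCast]
    exact inv_lt_one_of_one_lt₀ (by linarith)
  obtain ⟨hs1, hs2⟩ := EulerProduct.summable_and_hasSum_smoothNumbers_prod_primesBelow_geometric hf
    (2 ^ m + 1)
  -- harmonic lower bound
  have hprod : Real.log (2 ^ m + 1 : ℕ) ≤ ∏ p ∈ primesLE (2 ^ m), (1 - (p : ℝ)⁻¹)⁻¹ := by
    have h1 : Real.log ((2 ^ m : ℕ) + 1 : ℕ) ≤ (harmonic (2 ^ m) : ℝ) := log_add_one_le_harmonic _
    refine le_trans h1 ?_
    have h2 : (∏ p ∈ primesLE (2 ^ m), (1 - (p : ℝ)⁻¹)⁻¹) =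
        ∏ p ∈ (2 ^ m + 1).primesBelow, (1 - f p)⁻¹ := rfl
    rw [h2, harmonic_eq_sum_Icc]
    push_cast
    -- sum over a finite subset of the smooth numbers
    have hmem : ∀ i ∈ Icc 1 (2 ^ m), i ∈ (2 ^ m + 1).smoothNumbers := by
      intro i hi
      rw [mem_Icc] at hi
      exact mem_smoothNumbers_of_lt (by omega) (by omega)
    let T : Finset ((2 ^ m + 1).smoothNumbers) := (Icc (1 : ℕ) (2 ^ m)).attach.map
      ⟨fun i => (⟨i.1, hmem i.1 i.2⟩ : (2 ^ m + 1).smoothNumbers), fun a b h => by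
        have := congrArg (fun z : (2 ^ m + 1).smoothNumbers => (z : ℕ)) h
        exact Subtype.ext this⟩
    have h3 : ∑ i ∈ Icc (1 : ℕ) (2 ^ m), (((i : ℕ) : ℝ))⁻¹ = ∑ i ∈ T, f (i : ℕ) := by
      rw [sum_map, ← sum_attach]
      rfl
    rw [h3]
    apply sum_le_hasSum _ _ hs2
    intro i _
    change (0 : ℝ) ≤ ((i : ℕ) : ℝ)⁻¹
    positivity
  have hpos : ∀ p ∈ primesLE (2 ^ m), (0 : ℝ) < 1 - (p : ℝ)⁻¹ := by
    intro p hp
    have h2 : (2 : ℝ) ≤ p := by exact_mod_cast (mem_primesLE.mp hp).2.two_le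
    have : (p : ℝ)⁻¹ < 1 := inv_lt_one_of_one_lt₀ (by linarith)
    linarith
  have hm0 : (0 : ℝ) < m := by exact_mod_cast hm
  have hlog2 := Real.log_two_gt_d9
  have h4 : (m : ℝ) * Real.log 2 ≤ Real.log (2 ^ m + 1 : ℕ) := by
    rw [← Real.log_pow]
    apply Real.log_le_log (by positivity)
    push_cast; linarith
  have h5 : Real.log ((m : ℝ) * Real.log 2) ≤
      ∑ p ∈ primesLE (2 ^ m), Real.log ((1 - (p : ℝ)⁻¹)⁻¹) := by
    rw [← Real.log_prod (fun p hp => inv_ne_zero (hpos p hp).ne')]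
    apply Real.log_le_log (by positivity)
    linarith
  have h6 : ∑ p ∈ primesLE (2 ^ m), Real.log ((1 - (p : ℝ)⁻¹)⁻¹) ≤
      ∑ p ∈ primesLE (2 ^ m), ((1 : ℝ) / p + 1 / (p * (p - 1))) := by
    apply sum_le_sum
    intro p hp
    have h2 : (2 : ℝ) ≤ p := by exact_mod_cast (mem_primesLE.mp hp).2.two_le
    have hp0 : (p : ℝ) ≠ 0 := by positivity
    have hp1 : (p : ℝ) - 1 ≠ 0 := by
      have : (0 : ℝ) < (p : ℝ) - 1 := by linarith
      exact this.ne'
    refine le_trans (Real.log_le_sub_one_of_pos (inv_pos.mpr (hpos p hp))) (le_of_eq ?_)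
    have : 1 - (p : ℝ)⁻¹ = (p - 1) / p := by field_simp
    rw [this, inv_div]
    field_simp
    ring
  rw [sum_add_distrib] at h6
  have h7 := sum_inv_mul_pred (2 ^ m)
  have h8 : Real.log ((m : ℝ) * Real.log 2) = Real.log m + Real.log (Real.log 2) :=
    Real.log_mul hm0.ne' (by positivity)
  have h9 : -(1 : ℝ) ≤ Real.log (Real.log 2) := by
    rw [Real.le_log_iff_exp_le (by positivity)]
    have : Real.exp (-1) ≤ 1 / 2 := by
      rw [Real.exp_neg, inv_le_comm₀ (Real.exp_pos 1) (by norm_num)]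
      have := Real.add_one_le_exp (1 : ℝ)
      norm_num
      linarith
    linarith
  linarith

end Pool.Agent.Helper65.BL
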