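import Mathlib

open scoped BigOperators
open Finset

namespace Pool.Agent.Helper65.RG

/-- Geometric decay beats polynomial growth, uniformly in `δ`. -/
lemma decay (s : ℝ) (hs : 0 ≤ s) : ∃ C : ℝ, 1 ≤ C ∧ ∀ δ : ℝ, 0 < δ → δ ≤ 1 → ∀ k : ℕ,
    ((1 + δ)⁻¹) ^ k * (1 + (k : ℝ)) ^ s ≤ C * δ ^ (-s) := by
  obtain ⟨j, hj⟩ := exists_nat_ge (max s 1)
  have hj1 : (1 : ℝ) ≤ j := le_trans (le_max_right _ _) hj
  have hjs : s ≤ j := le_trans (le_max_left _ _) hj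
  have hjpos : (0 : ℝ) < j := by linarith
  have hj0 : j ≠ 0 := by
    rintro rfl
    norm_num at hjpos
  refine ⟨(2 * (j : ℝ)) ^ j, one_le_pow₀ (by linarith), ?_⟩
  intro δ hδ hδ1 k
  have h1k : (0 : ℝ) < 1 + k := by positivity
  -- the basic bound
  have hB : ((1 + (k : ℝ)) * δ) ^ j ≤ (2 * (j : ℝ)) ^ j * (1 + δ) ^ k := by
    have h1 : 1 + (((k : ℝ) + j) / j) * δ ≤ (1 + δ) ^ (((k : ℝ) + j) / j) := by
      apply one_add_mul_self_le_rpow_one_add (by linarith)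
      rw [le_div_iff₀ hjpos]
      have : (0 : ℝ) ≤ k := Nat.cast_nonneg k
      linarith
    have h2 : ((1 + (k : ℝ)) * δ) / j ≤ (1 + δ) ^ (((k : ℝ) + j) / j) := by
      refine le_trans ?_ h1
      rw [div_mul_eq_mul_div]
      have : (1 + (k : ℝ)) * δ ≤ ((k : ℝ) + j) * δ := by
        apply mul_le_mul_of_nonneg_right _ hδ.le
        linarith
      have := div_le_div_of_nonneg_right this hjpos.le
      linarith
    have h3 : (((1 + (k : ℝ)) * δ) / j) ^ j ≤ ((1 + δ) ^ (((k : ℝ) + j) / j)) ^ j :=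
      pow_le_pow_left₀ (by positivity) h2 j
    have h4 : ((1 + δ) ^ (((k : ℝ) + j) / j)) ^ j = (1 + δ) ^ k * (1 + δ) ^ j := by
      rw [← Real.rpow_natCast ((1 + δ) ^ (((k : ℝ) + j) / j)) j, ← Real.rpow_mul (by linarith),
        div_mul_cancel₀ _ hjpos.ne', Real.rpow_add (by linarith), Real.rpow_natCast,
        Real.rpow_natCast]
    rw [h4, div_pow, div_le_iff₀ (by positivity)] at h3
    calc ((1 + (k : ℝ)) * δ) ^ j ≤ (1 + δ) ^ k * (1 + δ) ^ j * (j : ℝ) ^ j := h3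
      _ ≤ (1 + δ) ^ k * 2 ^ j * (j : ℝ) ^ j := by
          gcongr
          linarith
      _ = (2 * (j : ℝ)) ^ j * (1 + δ) ^ k := by rw [mul_pow]; ring
  have hC1 : (1 : ℝ) ≤ (2 * (j : ℝ)) ^ j := one_le_pow₀ (by linarith)
  have hpow : (0 : ℝ) < (1 + δ) ^ k := by positivity
  rw [inv_pow, ← div_eq_inv_mul, div_le_iff₀ hpow]
  have hδs : δ ^ (-s) = (δ ^ s)⁻¹ := Real.rpow_neg hδ.le s
  rw [hδs, mul_assoc, mul_comm ((δ ^ s)⁻¹), ← mul_assoc, ← div_eq_mul_inv,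
    le_div_iff₀ (Real.rpow_pos_of_pos hδ s), ← Real.mul_rpow h1k.le hδ.le]
  rcases le_or_gt 1 ((1 + (k : ℝ)) * δ) with h | h
  · calc ((1 + (k : ℝ)) * δ) ^ s ≤ ((1 + (k : ℝ)) * δ) ^ (j : ℝ) :=
          Real.rpow_le_rpow_of_exponent_le h hjs
      _ = ((1 + (k : ℝ)) * δ) ^ j := Real.rpow_natCast _ _
      _ ≤ _ := hB
  · calc ((1 + (k : ℝ)) * δ) ^ s ≤ 1 := Real.rpow_le_one (by positivity) h.le hs
      _ ≤ (2 * (j : ℝ)) ^ j * (1 + δ) ^ k := by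
          have : (1 : ℝ) ≤ (1 + δ) ^ k := one_le_pow₀ (by linarith)
          nlinarith

end Pool.Agent.Helper65.RG
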