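import Mathlib

open scoped BigOperators
open Finset

namespace Pool.Agent.Helper65.RG

/-- `KB K C`: the nonnegative bilinear form with kernel `K` is bounded by `C`. -/
def KB {ι : Type*} [Fintype ι] (K : ι → ι → ℝ) (C : ℝ) : Prop :=
  ∀ x y : ι → ℝ, (∀ i, 0 ≤ x i) → (∀ i, 0 ≤ y i) →
    ∑ i, ∑ j, K i j * x j * y i ≤ C * (√(∑ i, x i ^ 2) * √(∑ i, y i ^ 2))

variable {ι : Type*} [Fintype ι]

lemma KB.mono {K L : ι → ι → ℝ} {C D : ℝ} (h : KB L C) (hK : ∀ i j, K i j ≤ L i j) (hCD : C ≤ D) :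
    KB K D := by
  intro x y hx hy
  calc ∑ i, ∑ j, K i j * x j * y i ≤ ∑ i, ∑ j, L i j * x j * y i := by
        apply sum_le_sum; intro i _
        apply sum_le_sum; intro j _
        have := mul_le_mul_of_nonneg_right (hK i j) (hx j)
        exact mul_le_mul_of_nonneg_right this (hy i)
    _ ≤ C * (√(∑ i, x i ^ 2) * √(∑ i, y i ^ 2)) := h x y hx hy
    _ ≤ _ := mul_le_mul_of_nonneg_right hCD (by positivity)

lemma KB.add {K L : ι → ι → ℝ} {C D : ℝ} (h : KB K C) (h' : KB L D) :
    KB (fun i j => K i j + L i j) (C + D) := by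
  intro x y hx hy
  have h1 := h x y hx hy
  have h2 := h' x y hx hy
  calc ∑ i, ∑ j, (K i j + L i j) * x j * y i
      = ∑ i, ∑ j, K i j * x j * y i + ∑ i, ∑ j, L i j * x j * y i := by
        rw [← sum_add_distrib]
        apply sum_congr rfl; intro i _
        rw [← sum_add_distrib]
        apply sum_congr rfl; intro j _
        ring
    _ ≤ _ := by linarith

lemma KB.smul {K : ι → ι → ℝ} {C : ℝ} (h : KB K C) {c : ℝ} (hc : 0 ≤ c) :
    KB (fun i j => c * K i j) (c * C) := by
  intro x y hx hy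
  have h1 := h x y hx hy
  calc ∑ i, ∑ j, (c * K i j) * x j * y i = c * ∑ i, ∑ j, K i j * x j * y i := by
        rw [mul_sum]
        apply sum_congr rfl; intro i _
        rw [mul_sum]
        apply sum_congr rfl; intro j _
        ring
    _ ≤ c * (C * (√(∑ i, x i ^ 2) * √(∑ i, y i ^ 2))) := mul_le_mul_of_nonneg_left h1 hc
    _ = _ := by ring

lemma cs (x y : ι → ℝ) : ∑ i, x i * y i ≤ √(∑ i, x i ^ 2) * √(∑ i, y i ^ 2) := by
  exact Real.sum_mul_le_sqrt_mul_sqrt _ _ _

/-- Transposition. -/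
lemma KB.transpose {K : ι → ι → ℝ} {C : ℝ} (h : KB K C) : KB (fun i j => K j i) C := by
  intro x y hx hy
  have := h y x hy hx
  rw [sum_comm]
  calc ∑ j, ∑ i, K j i * x j * y i = ∑ i, ∑ j, K i j * y j * x i := by
        apply sum_congr rfl; intro i _
        apply sum_congr rfl; intro j _
        ring
    _ ≤ _ := this
    _ = _ := by ring

/-- Reindexing by an equivalence. -/
lemma KB.reindex {K : ι → ι → ℝ} {C : ℝ} (h : KB K C) (e : ι ≃ ι) :
    KB (fun i j => K (e i) (e j)) C := by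
  intro x y hx hy
  have := h (fun i => x (e.symm i)) (fun i => y (e.symm i)) (fun i => hx _) (fun i => hy _)
  have e1 : ∑ i, (x (e.symm i)) ^ 2 = ∑ i, x i ^ 2 := Equiv.sum_comp e.symm (fun i => x i ^ 2)
  have e2 : ∑ i, (y (e.symm i)) ^ 2 = ∑ i, y i ^ 2 := Equiv.sum_comp e.symm (fun i => y i ^ 2)
  rw [e1, e2] at this
  refine le_trans (le_of_eq ?_) this
  rw [← Equiv.sum_comp e (fun i => ∑ j, K i j * x (e.symm j) * y (e.symm i))]
  apply sum_congr rfl; intro i _
  rw [← Equiv.sum_comp e (fun j => K (e i) j * x (e.symm j) * y (e.symm (e i)))]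
  apply sum_congr rfl; intro j _
  simp

/-- rank-one domination -/
lemma KB.rankOne {K : ι → ι → ℝ} {u v : ι → ℝ} (hK : ∀ i j, K i j ≤ u i * v j) :
    KB K (√(∑ i, u i ^ 2) * √(∑ i, v i ^ 2)) := by
  intro x y hx hy
  calc ∑ i, ∑ j, K i j * x j * y i ≤ ∑ i, ∑ j, (u i * y i) * (v j * x j) := by
        apply sum_le_sum; intro i _
        apply sum_le_sum; intro j _
        have := mul_le_mul_of_nonneg_right (hK i j) (hx j)
        have := mul_le_mul_of_nonneg_right this (hy i)
        linarith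
    _ = (∑ i, u i * y i) * (∑ j, v j * x j) := by
        rw [sum_mul_sum]
    _ ≤ |∑ i, u i * y i| * |∑ j, v j * x j| := by
        rw [← abs_mul]; exact le_abs_self _
    _ ≤ (√(∑ i, u i ^ 2) * √(∑ i, y i ^ 2)) * (√(∑ i, v i ^ 2) * √(∑ i, x i ^ 2)) := by
        apply mul_le_mul _ _ (abs_nonneg _) (by positivity)
        · apply abs_le.mpr
          constructor
          · have := cs (fun i => - u i) y
            simp only [neg_mul, sum_neg_distrib, neg_sq] at this
            linarith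
          · exact cs u y
        · apply abs_le.mpr
          constructor
          · have := cs (fun i => - v i) x
            simp only [neg_mul, sum_neg_distrib, neg_sq] at this
            linarith
          · exact cs v x
    _ = _ := by ring

/-- Column bound: each column of `K` is `v j` times an `ℓ²` function of norm at most `κ`. -/
lemma KB.column {K : ι → ι → ℝ} {L : ι → ι → ℝ} {v : ι → ℝ} {κ : ℝ} (hv : ∀ j, 0 ≤ v j)
    (hκ : 0 ≤ κ)
    (hK : ∀ i j, K i j ≤ L i j * v j) (hL : ∀ j, ∑ i, L i j ^ 2 ≤ κ ^ 2) :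
    KB K (κ * √(∑ i, v i ^ 2)) := by
  intro x y hx hy
  have h1 : ∀ j, ∑ i, L i j * y i ≤ κ * √(∑ i, y i ^ 2) := by
    intro j
    refine le_trans (cs (fun i => L i j) y) ?_
    apply mul_le_mul_of_nonneg_right _ (Real.sqrt_nonneg _)
    rw [← Real.sqrt_sq hκ]
    exact Real.sqrt_le_sqrt (hL j)
  calc ∑ i, ∑ j, K i j * x j * y i ≤ ∑ i, ∑ j, (v j * x j) * (L i j * y i) := by
        apply sum_le_sum; intro i _
        apply sum_le_sum; intro j _
        have := mul_le_mul_of_nonneg_right (hK i j) (hx j)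
        have := mul_le_mul_of_nonneg_right this (hy i)
        linarith
    _ = ∑ j, (v j * x j) * ∑ i, (L i j * y i) := by
        rw [sum_comm]
        apply sum_congr rfl; intro j _
        rw [mul_sum]
    _ ≤ ∑ j, (v j * x j) * (κ * √(∑ i, y i ^ 2)) := by
        apply sum_le_sum; intro j _
        exact mul_le_mul_of_nonneg_left (h1 j) (mul_nonneg (hv j) (hx j))
    _ = (∑ j, v j * x j) * (κ * √(∑ i, y i ^ 2)) := by rw [sum_mul]
    _ ≤ (√(∑ i, v i ^ 2) * √(∑ i, x i ^ 2)) * (κ * √(∑ i, y i ^ 2)) := by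
        apply mul_le_mul_of_nonneg_right (cs v x) (by positivity)
    _ = _ := by ring

/-- Schur test with a positive weight `h`. -/
lemma KB.schur {K : ι → ι → ℝ} {h : ι → ℝ} {A B : ℝ} (hh : ∀ i, 0 < h i) (hK0 : ∀ i j, 0 ≤ K i j)
    (hA : 0 ≤ A) (hB : 0 ≤ B)
    (h1 : ∀ i, ∑ j, K i j * h j ≤ A * h i) (h2 : ∀ j, ∑ i, K i j * h i ≤ B * h j) :
    KB K (√A * √B) := by
  intro x y hx hy
  -- K x_j y_i = (√(K h_j/h_i) y_i) (√(K h_i/h_j) x_j)
  have key : ∑ i, ∑ j, K i j * x j * y i ≤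
      √(∑ p : ι × ι, (√(K p.1 p.2 * h p.2 / h p.1) * y p.1) ^ 2) *
      √(∑ p : ι × ι, (√(K p.1 p.2 * h p.1 / h p.2) * x p.2) ^ 2) := by
    have := cs (ι := ι × ι) (fun p => √(K p.1 p.2 * h p.2 / h p.1) * y p.1)
      (fun p => √(K p.1 p.2 * h p.1 / h p.2) * x p.2)
    refine le_trans (le_of_eq ?_) this
    rw [Fintype.sum_prod_type]
    apply sum_congr rfl; intro i _
    apply sum_congr rfl; intro j _
    have e1 : √(K i j * h j / h i) * √(K i j * h i / h j) = K i j := by
      rw [← Real.sqrt_mul (by have := hK0 i j; have := hh i; have := hh j; positivity)]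
      have : K i j * h j / h i * (K i j * h i / h j) = K i j ^ 2 := by
        have := (hh i).ne'
        have := (hh j).ne'
        field_simp
      rw [this, Real.sqrt_sq (hK0 i j)]
    calc K i j * x j * y i = (√(K i j * h j / h i) * √(K i j * h i / h j)) * x j * y i := by rw [e1]
      _ = _ := by ring
  have s1 : ∑ p : ι × ι, (√(K p.1 p.2 * h p.2 / h p.1) * y p.1) ^ 2 ≤ A * ∑ i, y i ^ 2 := by
    rw [Fintype.sum_prod_type, mul_sum]
    apply sum_le_sum; intro i _
    have : ∀ j, (√(K i j * h j / h i) * y i) ^ 2 = (K i j * h j) * (y i ^ 2 / h i) := by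
      intro j
      rw [mul_pow, Real.sq_sqrt (by have := hK0 i j; have := hh i; have := hh j; positivity)]
      ring
    simp only [this]
    rw [← sum_mul]
    calc (∑ j, K i j * h j) * (y i ^ 2 / h i) ≤ (A * h i) * (y i ^ 2 / h i) :=
          mul_le_mul_of_nonneg_right (h1 i) (div_nonneg (sq_nonneg _) (hh i).le)
      _ = A * y i ^ 2 := by have := (hh i).ne'; field_simp
  have s2 : ∑ p : ι × ι, (√(K p.1 p.2 * h p.1 / h p.2) * x p.2) ^ 2 ≤ B * ∑ i, x i ^ 2 := by
    rw [Fintype.sum_prod_type_right, mul_sum]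
    apply sum_le_sum; intro j _
    have : ∀ i, (√(K i j * h i / h j) * x j) ^ 2 = (K i j * h i) * (x j ^ 2 / h j) := by
      intro i
      rw [mul_pow, Real.sq_sqrt (by have := hK0 i j; have := hh i; have := hh j; positivity)]
      ring
    simp only [this]
    rw [← sum_mul]
    calc (∑ i, K i j * h i) * (x j ^ 2 / h j) ≤ (B * h j) * (x j ^ 2 / h j) :=
          mul_le_mul_of_nonneg_right (h2 j) (div_nonneg (sq_nonneg _) (hh j).le)
      _ = B * x j ^ 2 := by have := (hh j).ne'; field_simp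
  calc ∑ i, ∑ j, K i j * x j * y i ≤ _ := key
    _ ≤ √(A * ∑ i, y i ^ 2) * √(B * ∑ i, x i ^ 2) :=
        mul_le_mul (Real.sqrt_le_sqrt s1) (Real.sqrt_le_sqrt s2) (Real.sqrt_nonneg _)
          (Real.sqrt_nonneg _)
    _ = _ := by
        rw [Real.sqrt_mul hA, Real.sqrt_mul hB]
        ring

end Pool.Agent.Helper65.RG
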