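import Mathlib
import Pool.Agent.Helper65.RG1
import Pool.Agent.Helper65.RG2

open scoped BigOperators
open Finset

namespace Pool.Agent.Helper65.RG

/-- Weights of the block of length `N`. -/
noncomputable def w (a γ : ℝ) (N n : ℕ) : ℝ :=
  if 2 * n ≤ N then (1 + (n : ℝ)) ^ a else (1 + (N : ℝ)) ^ γ * (1 + ((N - n : ℕ) : ℝ)) ^ (-a)

lemma w_pos (a γ : ℝ) (N n : ℕ) : 0 < w a γ N n := by
  unfold w
  split_ifs
  · positivity
  · positivity

/-- The kernel of the resolvent without the sign/phase. -/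
noncomputable def k1 (δ : ℝ) (i j : ℕ) : ℝ := if j ≤ i then ((1 + δ)⁻¹) ^ (i - j + 1) else 0

noncomputable def k2 (a δ : ℝ) (i j : ℕ) : ℝ :=
  k1 δ i j * (((i - j : ℕ) : ℝ) ^ a * (1 + (j : ℝ)) ^ (-a))

noncomputable def k3 (a δ : ℝ) (N i j : ℕ) : ℝ :=
  k1 δ i j * (((i - j : ℕ) : ℝ) ^ a * (1 + ((N - i : ℕ) : ℝ)) ^ (-a))

noncomputable def k4 (a γ δ : ℝ) (N i j : ℕ) : ℝ :=
  if N + 1 ≤ 4 * (1 + (i - j)) then
    k1 δ i j * ((1 + ((i - j : ℕ) : ℝ)) ^ γ * ((1 + (j : ℝ)) ^ (-a) * (1 + ((N - i : ℕ) : ℝ)) ^ (-a)))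
  else 0

lemma k1_nonneg {δ : ℝ} (hδ : 0 < δ) (i j : ℕ) : 0 ≤ k1 δ i j := by
  unfold k1; split_ifs <;> positivity

lemma k2_nonneg {a δ : ℝ} (hδ : 0 < δ) (i j : ℕ) : 0 ≤ k2 a δ i j := by
  unfold k2; have := k1_nonneg hδ i j; positivity

lemma k3_nonneg {a δ : ℝ} (hδ : 0 < δ) (N i j : ℕ) : 0 ≤ k3 a δ N i j := by
  unfold k3; have := k1_nonneg hδ i j; positivity

lemma k4_nonneg {a γ δ : ℝ} (hδ : 0 < δ) (N i j : ℕ) : 0 ≤ k4 a γ δ N i j := by
  unfold k4; have := k1_nonneg hδ i j; split_ifs <;> positivity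

/-- ratio of powers -/
lemma ratio_le {a : ℝ} (ha : 0 ≤ a) (j d : ℕ) :
    (1 + ((j + d : ℕ) : ℝ)) ^ a * (1 + (j : ℝ)) ^ (-a) ≤
      2 ^ a * (1 + ((d : ℝ)) ^ a * (1 + (j : ℝ)) ^ (-a)) := by
  have hj : (0 : ℝ) < 1 + j := by positivity
  have h1 : (1 + ((j + d : ℕ) : ℝ)) ≤ 2 * max (1 + (j : ℝ)) d := by
    push_cast
    have := le_max_left (1 + (j : ℝ)) d
    have := le_max_right (1 + (j : ℝ)) d
    linarith
  have h2 : (1 + ((j + d : ℕ) : ℝ)) ^ a ≤ 2 ^ a * (max (1 + (j : ℝ)) d) ^ a := by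
    rw [← Real.mul_rpow (by norm_num) (by positivity)]
    exact Real.rpow_le_rpow (by positivity) h1 ha
  have h3 : (max (1 + (j : ℝ)) d) ^ a ≤ (1 + (j : ℝ)) ^ a + (d : ℝ) ^ a := by
    rcases le_total (1 + (j : ℝ)) d with h | h
    · rw [max_eq_right h]
      have : (0 : ℝ) ≤ (1 + (j : ℝ)) ^ a := by positivity
      linarith
    · rw [max_eq_left h]
      have : (0 : ℝ) ≤ (d : ℝ) ^ a := by positivity
      linarith
  have h4 : (1 + (j : ℝ)) ^ a * (1 + (j : ℝ)) ^ (-a) = 1 := by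
    rw [← Real.rpow_add hj]; simp
  have hp : (0 : ℝ) ≤ (1 + (j : ℝ)) ^ (-a) := by positivity
  calc (1 + ((j + d : ℕ) : ℝ)) ^ a * (1 + (j : ℝ)) ^ (-a)
      ≤ (2 ^ a * (max (1 + (j : ℝ)) d) ^ a) * (1 + (j : ℝ)) ^ (-a) :=
        mul_le_mul_of_nonneg_right h2 hp
    _ ≤ (2 ^ a * ((1 + (j : ℝ)) ^ a + (d : ℝ) ^ a)) * (1 + (j : ℝ)) ^ (-a) := by
        apply mul_le_mul_of_nonneg_right _ hp
        apply mul_le_mul_of_nonneg_left h3 (by positivity)
    _ = 2 ^ a * ((1 + (j : ℝ)) ^ a * (1 + (j : ℝ)) ^ (-a) + (d : ℝ) ^ a * (1 + (j : ℝ)) ^ (-a)) := by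
        ring
    _ = _ := by rw [h4]

/-- The four term domination of the weighted kernel. -/
lemma dom {a γ δ : ℝ} (ha : 0 ≤ a) (hγ : 0 ≤ γ) (hγa : γ ≤ 2 * a) (hδ : 0 < δ) (N i j : ℕ)
    (hij : j ≤ i) (hiN : i ≤ N) :
    k1 δ i j * (w a γ N i / w a γ N j) ≤
      (16 : ℝ) ^ a * (k1 δ i j + k2 a δ i j + k3 a δ N i j) +
        (4 : ℝ) ^ γ * k4 a γ δ N i j := by
  obtain ⟨d, rfl⟩ := Nat.exists_eq_add_of_le hij
  have hk := k1_nonneg hδ (j + d) j
  have hk2 := k2_nonneg (a := a) hδ (j + d) j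
  have hk3 := k3_nonneg (a := a) hδ N (j + d) j
  have hk4 := k4_nonneg (a := a) (γ := γ) hδ N (j + d) j
  have h216 : (2 : ℝ) ^ a ≤ 16 ^ a := Real.rpow_le_rpow (by norm_num) (by norm_num) ha
  have h4γ : (0 : ℝ) ≤ 4 ^ γ := by positivity
  have h16 : (0 : ℝ) ≤ 16 ^ a := by positivity
  have hsub : j + d - j = d := by omega
  by_cases h1 : 2 * (j + d) ≤ N
  · -- both in lower half
    have h2 : 2 * j ≤ N := by omega
    have e : w a γ N (j + d) / w a γ N j
        = (1 + ((j + d : ℕ) : ℝ)) ^ a * (1 + (j : ℝ)) ^ (-a) := by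
      unfold w
      rw [if_pos h1, if_pos h2, Real.rpow_neg (by positivity), div_eq_mul_inv]
    rw [e]
    have := mul_le_mul_of_nonneg_left (ratio_le ha j d) hk
    have e2 : k1 δ (j + d) j * (2 ^ a * (1 + ((d : ℝ)) ^ a * (1 + (j : ℝ)) ^ (-a)))
        = 2 ^ a * (k1 δ (j + d) j + k2 a δ (j + d) j) := by
      unfold k2; rw [hsub]; ring
    rw [e2] at this
    calc _ ≤ 2 ^ a * (k1 δ (j + d) j + k2 a δ (j + d) j) := this
      _ ≤ 16 ^ a * (k1 δ (j + d) j + k2 a δ (j + d) j) :=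
          mul_le_mul_of_nonneg_right h216 (by positivity)
      _ ≤ _ := by nlinarith
  · by_cases h2 : 2 * j ≤ N
    · -- crossing
      have e : w a γ N (j + d) / w a γ N j
          = (1 + (N : ℝ)) ^ γ * ((1 + (j : ℝ)) ^ (-a) * (1 + ((N - (j + d) : ℕ) : ℝ)) ^ (-a)) := by
        unfold w
        rw [if_neg h1, if_pos h2, Real.rpow_neg (by positivity) (y := a) (x := 1 + (j : ℝ)),
          div_eq_mul_inv]
        ring
      rw [e]
      by_cases hP : N + 1 ≤ 4 * (1 + d)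
      · have hle : (1 + (N : ℝ)) ^ γ ≤ 4 ^ γ * (1 + (d : ℝ)) ^ γ := by
          rw [← Real.mul_rpow (by norm_num) (by positivity)]
          apply Real.rpow_le_rpow (by positivity) _ hγ
          have : ((N + 1 : ℕ) : ℝ) ≤ ((4 * (1 + d) : ℕ) : ℝ) := by exact_mod_cast hP
          push_cast at this
          linarith
        have e4 : k4 a γ δ N (j + d) j = k1 δ (j + d) j * ((1 + (d : ℝ)) ^ γ *
            ((1 + (j : ℝ)) ^ (-a) * (1 + ((N - (j + d) : ℕ) : ℝ)) ^ (-a))) := by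
          unfold k4
          rw [hsub, if_pos hP]
        have hq : 0 ≤ (1 + (j : ℝ)) ^ (-a) * (1 + ((N - (j + d) : ℕ) : ℝ)) ^ (-a) := by positivity
        calc k1 δ (j + d) j * ((1 + (N : ℝ)) ^ γ *
              ((1 + (j : ℝ)) ^ (-a) * (1 + ((N - (j + d) : ℕ) : ℝ)) ^ (-a)))
            ≤ k1 δ (j + d) j * ((4 ^ γ * (1 + (d : ℝ)) ^ γ) *
              ((1 + (j : ℝ)) ^ (-a) * (1 + ((N - (j + d) : ℕ) : ℝ)) ^ (-a))) := by
              apply mul_le_mul_of_nonneg_left _ hk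
              exact mul_le_mul_of_nonneg_right hle hq
          _ = 4 ^ γ * k4 a γ δ N (j + d) j := by rw [e4]; ring
          _ ≤ _ := by
              have : 0 ≤ (16 : ℝ) ^ a * (k1 δ (j + d) j + k2 a δ (j + d) j + k3 a δ N (j + d) j) := by
                positivity
              linarith
      · -- short crossing: everything is comparable to N
        have hjN : ((1 + (N : ℝ)) / 4) ≤ 1 + (j : ℝ) := by
          have : N + 1 ≤ 4 * (1 + j) := by omega
          have : ((N + 1 : ℕ) : ℝ) ≤ ((4 * (1 + j) : ℕ) : ℝ) := by exact_mod_cast this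
          push_cast at this
          linarith
        have hiN' : ((1 + (N : ℝ)) / 4) ≤ 1 + ((N - (j + d) : ℕ) : ℝ) := by
          have : N + 1 ≤ 4 * (1 + (N - (j + d))) := by omega
          have : ((N + 1 : ℕ) : ℝ) ≤ ((4 * (1 + (N - (j + d))) : ℕ) : ℝ) := by exact_mod_cast this
          rw [Nat.cast_mul, Nat.cast_add 1] at this
          push_cast at this ⊢
          linarith
        have hN4 : (0 : ℝ) < (1 + (N : ℝ)) / 4 := by positivity
        have b1 : (1 + (j : ℝ)) ^ (-a) ≤ ((1 + (N : ℝ)) / 4) ^ (-a) :=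
          Real.rpow_le_rpow_of_nonpos hN4 hjN (by linarith)
        have b2 : (1 + ((N - (j + d) : ℕ) : ℝ)) ^ (-a) ≤ ((1 + (N : ℝ)) / 4) ^ (-a) :=
          Real.rpow_le_rpow_of_nonpos hN4 hiN' (by linarith)
        have b3 : (1 + (N : ℝ)) ^ γ *
            ((1 + (j : ℝ)) ^ (-a) * (1 + ((N - (j + d) : ℕ) : ℝ)) ^ (-a)) ≤ 16 ^ a := by
          calc (1 + (N : ℝ)) ^ γ *
              ((1 + (j : ℝ)) ^ (-a) * (1 + ((N - (j + d) : ℕ) : ℝ)) ^ (-a))
              ≤ (1 + (N : ℝ)) ^ (2 * a) *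
                (((1 + (N : ℝ)) / 4) ^ (-a) * ((1 + (N : ℝ)) / 4) ^ (-a)) := by
                apply mul_le_mul
                · exact Real.rpow_le_rpow_of_exponent_le (by
                    have : (0 : ℝ) ≤ N := Nat.cast_nonneg N
                    linarith) hγa
                · exact mul_le_mul b1 b2 (by positivity) (by positivity)
                · positivity
                · positivity
            _ = 16 ^ a := by
                rw [← Real.rpow_add hN4, Real.div_rpow (by positivity) (by norm_num),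
                  show (16 : ℝ) = 4 ^ (2 : ℝ) by norm_num, ← Real.rpow_mul (by norm_num)]
                have e1 : (1 + (N : ℝ)) ^ (2 * a) * (1 + (N : ℝ)) ^ (-a + -a) = 1 := by
                  rw [← Real.rpow_add (by positivity)]
                  have : 2 * a + (-a + -a) = 0 := by ring
                  rw [this, Real.rpow_zero]
                have e2 : (4 : ℝ) ^ (-a + -a) = ((4 : ℝ) ^ (2 * a))⁻¹ := by
                  rw [← Real.rpow_neg (by norm_num)]
                  congr 1; ring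
                rw [e2, div_inv_eq_mul, ← mul_assoc, e1, one_mul]
        calc k1 δ (j + d) j * ((1 + (N : ℝ)) ^ γ *
              ((1 + (j : ℝ)) ^ (-a) * (1 + ((N - (j + d) : ℕ) : ℝ)) ^ (-a)))
            ≤ k1 δ (j + d) j * 16 ^ a := mul_le_mul_of_nonneg_left b3 hk
          _ ≤ _ := by
              have h5 : 0 ≤ (16 : ℝ) ^ a * k2 a δ (j + d) j := by positivity
              have h6 : 0 ≤ (16 : ℝ) ^ a * k3 a δ N (j + d) j := by positivity
              have h7 : 0 ≤ (4 : ℝ) ^ γ * k4 a γ δ N (j + d) j := by positivity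
              nlinarith
    · -- both in the upper half
      have e : w a γ N (j + d) / w a γ N j
          = (1 + ((N - j : ℕ) : ℝ)) ^ a * (1 + ((N - (j + d) : ℕ) : ℝ)) ^ (-a) := by
        unfold w
        rw [if_neg h1, if_neg h2, Real.rpow_neg (by positivity) (y := a) (x := 1 + ((N - j : ℕ) : ℝ))]
        have hN0 : (1 + (N : ℝ)) ^ γ ≠ 0 := by positivity
        have : (1 + ((N - j : ℕ) : ℝ)) ^ a ≠ 0 := by positivity
        field_simp
      rw [e]
      have hNj : N - j = (N - (j + d)) + d := by omega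
      rw [hNj]
      have := mul_le_mul_of_nonneg_left (ratio_le ha (N - (j + d)) d) hk
      have e2 : k1 δ (j + d) j * (2 ^ a * (1 + ((d : ℝ)) ^ a * (1 + ((N - (j + d) : ℕ) : ℝ)) ^ (-a)))
          = 2 ^ a * (k1 δ (j + d) j + k3 a δ N (j + d) j) := by
        unfold k3; rw [hsub]; ring
      rw [e2] at this
      calc _ ≤ 2 ^ a * (k1 δ (j + d) j + k3 a δ N (j + d) j) := this
        _ ≤ 16 ^ a * (k1 δ (j + d) j + k3 a δ N (j + d) j) :=
            mul_le_mul_of_nonneg_right h216 (by positivity)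
        _ ≤ _ := by nlinarith

end Pool.Agent.Helper65.RG
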