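import Mathlib
import Pool.Agent.Helper65.RG3

open scoped BigOperators
open Finset

namespace Pool.Agent.Helper65.RG

lemma sum_row {g : ℕ → ℝ} {B : ℝ} (hB : ∀ K, ∑ k ∈ range K, g k ≤ B) {N i : ℕ} (hi : i ≤ N) :
    ∑ j ∈ range (N + 1), (if j ≤ i then g (i - j) else 0) ≤ B := by
  have h1 : ∑ j ∈ range (N + 1), (if j ≤ i then g (i - j) else 0)
      = ∑ j ∈ range (i + 1), g (i - j) := by
    rw [← sum_filter]
    apply sum_congr _ (fun _ _ => rfl)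
    ext j
    simp only [mem_filter, mem_range]
    omega
  rw [h1]
  have h2 := sum_range_reflect g (i + 1)
  simp only [Nat.add_sub_cancel] at h2
  rw [h2]
  exact hB _

lemma sum_col {g : ℕ → ℝ} {B : ℝ} (hB : ∀ K, ∑ k ∈ range K, g k ≤ B) {N j : ℕ} (_ : j ≤ N) :
    ∑ i ∈ range (N + 1), (if j ≤ i then g (i - j) else 0) ≤ B := by
  have h1 : ∑ i ∈ range (N + 1), (if j ≤ i then g (i - j) else 0)
      = ∑ i ∈ Ico j (N + 1), g (i - j) := by
    rw [← sum_filter]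
    apply sum_congr _ (fun _ _ => rfl)
    ext i
    simp only [mem_filter, mem_range, mem_Ico]
    omega
  rw [h1, sum_Ico_eq_sum_range]
  simp only [Nat.add_sub_cancel_left]
  exact hB _

lemma geom_sum_le {δ : ℝ} (hδ : 0 < δ) (K : ℕ) :
    ∑ k ∈ range K, ((1 + δ)⁻¹) ^ (k + 1) ≤ δ⁻¹ := by
  have hq0 : 0 ≤ (1 + δ)⁻¹ := by positivity
  have hq1 : (1 + δ)⁻¹ < 1 := inv_lt_one_of_one_lt₀ (by linarith)
  have h1 : ∑ k ∈ range K, ((1 + δ)⁻¹) ^ (k + 1) = (1 + δ)⁻¹ * ∑ k ∈ range K, ((1 + δ)⁻¹) ^ k := by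
    rw [mul_sum]; apply sum_congr rfl; intro k _; ring
  rw [h1]
  have h2 : ∑ k ∈ range K, ((1 + δ)⁻¹) ^ k ≤ (1 - (1 + δ)⁻¹)⁻¹ := by
    have := geom_sum_eq hq1.ne K
    rw [this, div_eq_mul_inv, ← neg_mul_neg, ← inv_neg, neg_sub, neg_sub]
    have h3 : (0 : ℝ) < (1 - (1 + δ)⁻¹)⁻¹ := inv_pos.mpr (by linarith)
    have h4 : (0 : ℝ) ≤ ((1 + δ)⁻¹) ^ K := by positivity
    nlinarith
  calc (1 + δ)⁻¹ * ∑ k ∈ range K, ((1 + δ)⁻¹) ^ k ≤ (1 + δ)⁻¹ * (1 - (1 + δ)⁻¹)⁻¹ :=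
        mul_le_mul_of_nonneg_left h2 hq0
    _ = δ⁻¹ := by
        have h1δ : (1 + δ) ≠ 0 := by positivity
        have : 1 - (1 + δ)⁻¹ = δ / (1 + δ) := by field_simp; ring
        rw [this, inv_div]
        field_simp

lemma polygeom (s : ℝ) (hs : 0 ≤ s) : ∃ C : ℝ, 0 ≤ C ∧ ∀ δ : ℝ, 0 < δ → δ ≤ 1 → ∀ K : ℕ,
    ∑ k ∈ range K, ((1 + δ)⁻¹) ^ k * (1 + (k : ℝ)) ^ s ≤ C * δ ^ (-(s + 1)) := by
  obtain ⟨C, hC1, hC⟩ := decay s hs
  refine ⟨C * 3 ^ s * 4, by positivity, ?_⟩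
  intro δ hδ hδ1 K
  have hδ3 : 0 < δ / 3 := by positivity
  have hδ31 : δ / 3 ≤ 1 := by linarith
  have hsq : ∀ k : ℕ, ((1 + δ)⁻¹) ^ k ≤ ((1 + δ / 3)⁻¹) ^ k * ((1 + δ / 3)⁻¹) ^ k := by
    intro k
    rw [← mul_pow]
    apply pow_le_pow_left₀ (by positivity)
    rw [← mul_inv]
    apply inv_anti₀ (by positivity)
    nlinarith
  have h1 : ∀ k : ℕ, ((1 + δ)⁻¹) ^ k * (1 + (k : ℝ)) ^ s ≤
      (C * (δ / 3) ^ (-s)) * ((1 + δ / 3)⁻¹) ^ k := by
    intro k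
    calc ((1 + δ)⁻¹) ^ k * (1 + (k : ℝ)) ^ s
        ≤ (((1 + δ / 3)⁻¹) ^ k * ((1 + δ / 3)⁻¹) ^ k) * (1 + (k : ℝ)) ^ s :=
          mul_le_mul_of_nonneg_right (hsq k) (by positivity)
      _ = (((1 + δ / 3)⁻¹) ^ k * (1 + (k : ℝ)) ^ s) * ((1 + δ / 3)⁻¹) ^ k := by ring
      _ ≤ (C * (δ / 3) ^ (-s)) * ((1 + δ / 3)⁻¹) ^ k :=
          mul_le_mul_of_nonneg_right (hC _ hδ3 hδ31 k) (by positivity)
  calc ∑ k ∈ range K, ((1 + δ)⁻¹) ^ k * (1 + (k : ℝ)) ^ s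
      ≤ ∑ k ∈ range K, (C * (δ / 3) ^ (-s)) * ((1 + δ / 3)⁻¹) ^ k := sum_le_sum fun k _ => h1 k
    _ = (C * (δ / 3) ^ (-s)) * ((1 + δ / 3) * ∑ k ∈ range K, ((1 + δ / 3)⁻¹) ^ (k + 1)) := by
        rw [mul_sum, mul_sum]
        apply sum_congr rfl; intro k _
        have : (1 + δ / 3) ≠ 0 := by positivity
        rw [pow_succ]
        field_simp
    _ ≤ (C * (δ / 3) ^ (-s)) * ((1 + δ / 3) * (δ / 3)⁻¹) := by
        apply mul_le_mul_of_nonneg_left _ (by positivity)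
        exact mul_le_mul_of_nonneg_left (geom_sum_le hδ3 K) (by positivity)
    _ ≤ (C * (δ / 3) ^ (-s)) * ((4 / 3) * (δ / 3)⁻¹) := by
        apply mul_le_mul_of_nonneg_left _ (by positivity)
        apply mul_le_mul_of_nonneg_right _ (by positivity)
        linarith
    _ = C * 3 ^ s * 4 * δ ^ (-(s + 1)) := by
        rw [Real.div_rpow hδ.le (by norm_num), neg_add, Real.rpow_add hδ,
          Real.rpow_neg (by norm_num : (0 : ℝ) ≤ 3), div_inv_eq_mul, inv_div, Real.rpow_neg_one]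
        ring

lemma kb1 {δ : ℝ} (hδ : 0 < δ) (N : ℕ) :
    KB (fun i j : Fin (N + 1) => k1 δ i j) δ⁻¹ := by
  have hd : 0 ≤ δ⁻¹ := by positivity
  have := KB.schur (ι := Fin (N + 1)) (K := fun i j => k1 δ i j) (h := fun _ => 1) (A := δ⁻¹)
    (B := δ⁻¹) (fun _ => one_pos) (fun i j => k1_nonneg hδ _ _) hd hd ?_ ?_
  · rwa [Real.mul_self_sqrt hd] at this
  · intro i
    simp only [mul_one]
    rw [Fin.sum_univ_eq_sum_range (fun j => k1 δ i j) (N + 1)]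
    unfold k1
    exact sum_row (g := fun k => ((1 + δ)⁻¹) ^ (k + 1)) (geom_sum_le hδ) (by omega)
  · intro j
    simp only [mul_one]
    rw [Fin.sum_univ_eq_sum_range (fun i => k1 δ i j) (N + 1)]
    unfold k1
    exact sum_col (g := fun k => ((1 + δ)⁻¹) ^ (k + 1)) (geom_sum_le hδ) (by omega)

lemma k3_eq (a δ : ℝ) (N : ℕ) (i j : Fin (N + 1)) :
    k3 a δ N i j = k2 a δ (Fin.rev j : Fin (N + 1)) (Fin.rev i : Fin (N + 1)) := by
  unfold k3 k2 k1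
  rw [Fin.val_rev, Fin.val_rev]
  have hi := i.isLt
  have hj := j.isLt
  by_cases h : (j : ℕ) ≤ i
  · have h' : N + 1 - (i + 1 : ℕ) ≤ N + 1 - (j + 1 : ℕ) := by omega
    rw [if_pos h, if_pos h']
    have e1 : N + 1 - (j + 1 : ℕ) - (N + 1 - (i + 1 : ℕ)) = i - j := by omega
    have e2 : N + 1 - (i + 1 : ℕ) = N - i := by omega
    rw [e1, e2]
  · have h' : ¬ (N + 1 - (i + 1 : ℕ) ≤ N + 1 - (j + 1 : ℕ)) := by omega
    rw [if_neg h, if_neg h']
    simp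

lemma kb3_of_kb2 {a δ C : ℝ} (N : ℕ) (h : KB (fun i j : Fin (N + 1) => k2 a δ i j) C) :
    KB (fun i j : Fin (N + 1) => k3 a δ N i j) C := by
  have h2 := (h.transpose).reindex (Fin.revPerm)
  simp only [Fin.revPerm_apply] at h2
  have : (fun i j : Fin (N + 1) => k3 a δ N i j)
      = fun i j : Fin (N + 1) => k2 a δ (Fin.rev j : Fin (N + 1)) (Fin.rev i : Fin (N + 1)) := by
    ext i j; exact k3_eq a δ N i j
  rw [this]
  exact h2

/-- sum of squares of `(1+j)^(-a)` in the summable range -/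
lemma sumsq_summable {a : ℝ} (ha : 1 / 2 < a) : ∃ S : ℝ, 0 ≤ S ∧ ∀ N : ℕ,
    ∑ j : Fin (N + 1), ((1 + ((j : ℕ) : ℝ)) ^ (-a)) ^ 2 ≤ S := by
  have hs : Summable (fun n : ℕ => (1 : ℝ) / ((n + 1 : ℕ) : ℝ) ^ (2 * a)) :=
    (summable_nat_add_iff 1).mpr (Real.summable_one_div_nat_rpow.mpr (by linarith))
  refine ⟨∑' n : ℕ, (1 : ℝ) / ((n + 1 : ℕ) : ℝ) ^ (2 * a), tsum_nonneg fun n => by positivity, ?_⟩
  intro N
  rw [Fin.sum_univ_eq_sum_range (fun j : ℕ => ((1 + (j : ℝ)) ^ (-a)) ^ 2) (N + 1)]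
  refine le_trans (le_of_eq ?_) (hs.sum_le_tsum (range (N + 1)) (fun n _ => by positivity))
  apply sum_congr rfl; intro j _
  rw [← Real.rpow_natCast, ← Real.rpow_mul (by positivity), one_div, ← Real.rpow_neg (by positivity)]
  push_cast
  rw [add_comm (1 : ℝ) (j : ℝ)]
  congr 1
  ring

lemma sumsq_rev {a : ℝ} (N : ℕ) :
    ∑ i : Fin (N + 1), ((1 + ((N - (i : ℕ) : ℕ) : ℝ)) ^ (-a)) ^ 2 =
      ∑ j : Fin (N + 1), ((1 + ((j : ℕ) : ℝ)) ^ (-a)) ^ 2 := by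
  rw [← Equiv.sum_comp Fin.revPerm]
  apply sum_congr rfl; intro i _
  rw [Fin.revPerm_apply, Fin.val_rev]
  have : N - (N + 1 - ((i : ℕ) + 1)) = i := by have := i.isLt; omega
  rw [this]

theorem kernel_bound_A {α : ℝ} (hα : 1 < α) : ∃ C : ℝ, 0 ≤ C ∧ ∀ δ : ℝ, 0 < δ → δ ≤ 1 → ∀ N : ℕ,
    KB (fun i j : Fin (N + 1) => k1 δ i j * (w (α - 1 / 2) α N i / w (α - 1 / 2) α N j))
      (C * δ ^ (-α)) := by
  set a := α - 1 / 2 with ha_def
  have ha : 1 / 2 < a := by rw [ha_def]; linarith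
  have ha0 : 0 ≤ a := by linarith
  obtain ⟨S, hS0, hS⟩ := sumsq_summable ha
  obtain ⟨C1, hC10, hC1⟩ := polygeom (2 * a) (by linarith)
  obtain ⟨C2, hC21, hC2⟩ := decay α (by linarith)
  refine ⟨16 ^ a * (1 + √C1 * √S + √C1 * √S) + 4 ^ α * (C2 * S), by positivity, ?_⟩
  intro δ hδ hδ1 N
  have hδα : 0 < δ ^ (-α) := by positivity
  have hδ1α : δ⁻¹ ≤ δ ^ (-α) := by
    rw [← Real.rpow_neg_one]
    exact Real.rpow_le_rpow_of_exponent_ge hδ hδ1 (by linarith)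
  -- k1
  have b1 : KB (fun i j : Fin (N + 1) => k1 δ i j) (1 * δ ^ (-α)) :=
    (kb1 hδ N).mono (fun _ _ => le_rfl) (by linarith)
  -- k2
  have b2 : KB (fun i j : Fin (N + 1) => k2 a δ i j) ((√C1 * √S) * δ ^ (-α)) := by
    have := KB.column (ι := Fin (N + 1)) (K := fun i j => k2 a δ i j)
      (L := fun i j => k1 δ i j * ((((i : ℕ) - (j : ℕ) : ℕ) : ℝ)) ^ a)
      (v := fun j => (1 + ((j : ℕ) : ℝ)) ^ (-a)) (κ := √C1 * δ ^ (-α))
      (fun j => by positivity) (by positivity) ?_ ?_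
    · refine this.mono (fun _ _ => le_rfl) ?_
      calc √C1 * δ ^ (-α) * √(∑ i : Fin (N + 1), ((1 + ((i : ℕ) : ℝ)) ^ (-a)) ^ 2)
          ≤ √C1 * δ ^ (-α) * √S := by
            apply mul_le_mul_of_nonneg_left _ (by positivity)
            exact Real.sqrt_le_sqrt (hS N)
        _ = _ := by ring
    · intro i j
      unfold k2
      rw [mul_assoc]
    · intro j
      have e1 : ∀ i : ℕ, (k1 δ i j * (((i - (j : ℕ) : ℕ) : ℝ)) ^ a) ^ 2 ≤
          if (j : ℕ) ≤ i then (fun k : ℕ => ((1 + δ)⁻¹) ^ k * (1 + (k : ℝ)) ^ (2 * a)) (i - j)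
          else 0 := by
        intro i
        unfold k1
        split_ifs with h
        · simp only
          rw [mul_pow]
          apply mul_le_mul
          · rw [← pow_mul]
            exact pow_le_pow_of_le_one (by positivity) (inv_le_one_of_one_le₀ (by linarith))
              (by omega)
          · rw [← Real.rpow_natCast, ← Real.rpow_mul (by positivity)]
            push_cast
            rw [mul_comm a 2]
            apply Real.rpow_le_rpow (by positivity) _ (by positivity)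
            linarith
          · positivity
          · positivity
        · simp
      calc ∑ i : Fin (N + 1), (k1 δ i j * (((i : ℕ) - (j : ℕ) : ℕ) : ℝ) ^ a) ^ 2
          = ∑ i ∈ range (N + 1), (k1 δ i j * (((i - (j : ℕ) : ℕ) : ℝ)) ^ a) ^ 2 :=
            Fin.sum_univ_eq_sum_range (fun i => (k1 δ i j * (((i - (j : ℕ) : ℕ) : ℝ)) ^ a) ^ 2) _
        _ ≤ ∑ i ∈ range (N + 1), if (j : ℕ) ≤ i then
            (fun k : ℕ => ((1 + δ)⁻¹) ^ k * (1 + (k : ℝ)) ^ (2 * a)) (i - j) else 0 :=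
            sum_le_sum fun i _ => e1 i
        _ ≤ C1 * δ ^ (-(2 * a + 1)) := sum_col (hC1 δ hδ hδ1) (by have := j.isLt; omega)
        _ = (√C1 * δ ^ (-α)) ^ 2 := by
            rw [mul_pow, Real.sq_sqrt hC10, ← Real.rpow_natCast (δ ^ (-α)), ← Real.rpow_mul hδ.le]
            congr 2
            rw [ha_def]; push_cast; ring
  have b3 := kb3_of_kb2 N b2
  -- k4
  have b4 : KB (fun i j : Fin (N + 1) => k4 a α δ N i j) ((C2 * S) * δ ^ (-α)) := by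
    have := KB.rankOne (ι := Fin (N + 1)) (K := fun i j => k4 a α δ N i j)
      (u := fun i => (C2 * δ ^ (-α)) * (1 + ((N - (i : ℕ) : ℕ) : ℝ)) ^ (-a))
      (v := fun j => (1 + ((j : ℕ) : ℝ)) ^ (-a)) ?_
    · refine this.mono (fun _ _ => le_rfl) ?_
      have e : ∑ i : Fin (N + 1), ((C2 * δ ^ (-α)) * (1 + ((N - (i : ℕ) : ℕ) : ℝ)) ^ (-a)) ^ 2
          = (C2 * δ ^ (-α)) ^ 2 * ∑ j : Fin (N + 1), ((1 + ((j : ℕ) : ℝ)) ^ (-a)) ^ 2 := by
        rw [← sumsq_rev N, mul_sum]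
        apply sum_congr rfl; intro i _
        rw [mul_pow]
      rw [e, Real.sqrt_mul (by positivity), Real.sqrt_sq (by positivity), mul_assoc,
        Real.mul_self_sqrt (by positivity)]
      calc C2 * δ ^ (-α) * ∑ j : Fin (N + 1), ((1 + ((j : ℕ) : ℝ)) ^ (-a)) ^ 2
          ≤ C2 * δ ^ (-α) * S := mul_le_mul_of_nonneg_left (hS N) (by positivity)
        _ = _ := by ring
    · intro i j
      unfold k4 k1
      split_ifs with h1 h2
      · have := hC2 δ hδ hδ1 (i - j)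
        have h3 : ((1 + δ)⁻¹) ^ ((i : ℕ) - (j : ℕ) + 1) ≤ ((1 + δ)⁻¹) ^ ((i : ℕ) - (j : ℕ)) :=
          pow_le_pow_of_le_one (by positivity) (inv_le_one_of_one_le₀ (by linarith)) (by omega)
        have h4 : 0 ≤ (1 + ((j : ℕ) : ℝ)) ^ (-a) * (1 + ((N - (i : ℕ) : ℕ) : ℝ)) ^ (-a) := by
          positivity
        calc _ = (((1 + δ)⁻¹) ^ ((i : ℕ) - (j : ℕ) + 1) * (1 + (((i : ℕ) - (j : ℕ) : ℕ) : ℝ)) ^ α) *
              ((1 + ((j : ℕ) : ℝ)) ^ (-a) * (1 + ((N - (i : ℕ) : ℕ) : ℝ)) ^ (-a)) := by ring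
          _ ≤ (C2 * δ ^ (-α)) *
              ((1 + ((j : ℕ) : ℝ)) ^ (-a) * (1 + ((N - (i : ℕ) : ℕ) : ℝ)) ^ (-a)) := by
              apply mul_le_mul_of_nonneg_right _ h4
              refine le_trans ?_ this
              exact mul_le_mul_of_nonneg_right h3 (by positivity)
          _ = _ := by ring
      · rw [zero_mul]; positivity
      · positivity
  have hk := (((b1.add b2).add b3).smul (c := (16 : ℝ) ^ a) (by positivity)).add
    (b4.smul (c := (4 : ℝ) ^ α) (by positivity))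
  refine hk.mono ?_ (le_of_eq (by ring))
  intro i j
  by_cases hij : (j : ℕ) ≤ i
  · exact dom ha0 (by linarith) (by rw [ha_def]; linarith) hδ N i j hij (by have := i.isLt; omega)
  · have h0 : k1 δ (i : ℕ) j = 0 := by unfold k1; rw [if_neg hij]
    rw [h0, zero_mul]
    have := k2_nonneg (a := a) hδ i j
    have := k3_nonneg (a := a) hδ N i j
    have := k4_nonneg (a := a) (γ := α) hδ N i j
    positivity

end Pool.Agent.Helper65.RG
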