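import Mathlib
import Pool.Agent.Helper65.RG4

open scoped BigOperators
open Finset

namespace Pool.Agent.Helper65.RG

lemma decay1 {δ : ℝ} (hδ : 0 < δ) (hδ1 : δ ≤ 1) (k : ℕ) :
    ((1 + δ)⁻¹) ^ k ≤ δ⁻¹ * (1 + (k : ℝ))⁻¹ := by
  have h1 : 1 + (k : ℝ) * δ ≤ (1 + δ) ^ k := one_add_mul_le_pow (by linarith) k
  have h2 : δ * (1 + (k : ℝ)) ≤ (1 + δ) ^ k := by
    refine le_trans ?_ h1
    nlinarith
  rw [inv_pow, ← mul_inv]
  exact inv_anti₀ (by positivity) h2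

/-- `∑_{j<K} (1+j)^(-s) ≤ K^(1-s)/(1-s)` for `0 < s < 1`. -/
lemma sum_small {s : ℝ} (hs0 : 0 < s) (hs1 : s < 1) (K : ℕ) :
    ∑ j ∈ range K, (1 + (j : ℝ)) ^ (-s) ≤ (K : ℝ) ^ (1 - s) / (1 - s) := by
  have h1s : 0 < 1 - s := by linarith
  induction K with
  | zero => simp [Real.zero_rpow h1s.ne']
  | succ K ih =>
    rw [sum_range_succ]
    have hK : (0 : ℝ) < 1 + K := by positivity
    have hb : (1 + (-(1 + (K : ℝ))⁻¹)) ^ (1 - s) ≤ 1 + (1 - s) * (-(1 + (K : ℝ))⁻¹) := by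
      apply rpow_one_add_le_one_add_mul_self _ h1s.le (by linarith)
      have : (1 + (K : ℝ))⁻¹ ≤ 1 := inv_le_one_of_one_le₀ (by
        have : (0 : ℝ) ≤ K := Nat.cast_nonneg K
        linarith)
      linarith
    have e1 : (1 + (-(1 + (K : ℝ))⁻¹)) = K / (1 + K) := by field_simp; ring
    rw [e1, Real.div_rpow (Nat.cast_nonneg K) hK.le, div_le_iff₀ (by positivity)] at hb
    have e2 : (1 + (1 - s) * (-(1 + (K : ℝ))⁻¹)) * (1 + (K : ℝ)) ^ (1 - s)
        = (1 + (K : ℝ)) ^ (1 - s) - (1 - s) * (1 + (K : ℝ)) ^ (-s) := by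
      have : (1 + (K : ℝ)) ^ (-s) = (1 + (K : ℝ)) ^ (1 - s) * (1 + (K : ℝ))⁻¹ := by
        rw [← Real.rpow_neg_one, ← Real.rpow_add hK]; congr 1; ring
      rw [this]; ring
    rw [e2] at hb
    have : ((K + 1 : ℕ) : ℝ) = 1 + (K : ℝ) := by push_cast; ring
    rw [this]
    have e3 : (1 + (K : ℝ)) ^ (-s) ≤ ((1 + (K : ℝ)) ^ (1 - s) - (K : ℝ) ^ (1 - s)) / (1 - s) := by
      rw [le_div_iff₀ h1s]; linarith
    calc _ ≤ (K : ℝ) ^ (1 - s) / (1 - s) +
          ((1 + (K : ℝ)) ^ (1 - s) - (K : ℝ) ^ (1 - s)) / (1 - s) := add_le_add ih e3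
      _ = _ := by ring

/-- Tail sums: `∑_{i<K} (1+j+i)^(-s) ≤ (2^s/(s-1)) (1+j)^(1-s)` for `1 < s < 2`. -/
lemma sum_tail {s : ℝ} (hs1 : 1 < s) (hs2 : s < 2) (j K : ℕ) :
    ∑ i ∈ range K, (1 + ((j + i : ℕ) : ℝ)) ^ (-s) ≤
      (2 ^ s / (s - 1)) * ((1 + (j : ℝ)) ^ (1 - s) - (1 + ((j + K : ℕ) : ℝ)) ^ (1 - s)) := by
  have h1s : 0 < s - 1 := by linarith
  induction K with
  | zero => simp
  | succ K ih =>
    rw [sum_range_succ]
    set t : ℝ := 1 + ((j + K : ℕ) : ℝ) with ht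
    have ht1 : 1 ≤ t := by rw [ht]; have : (0 : ℝ) ≤ ((j + K : ℕ) : ℝ) := Nat.cast_nonneg _; linarith
    have ht0 : 0 < t := by linarith
    have e0 : (1 + ((j + (K + 1) : ℕ) : ℝ)) = 1 + t := by rw [ht]; push_cast; ring
    rw [e0]
    -- key: t^(-s) ≤ 2^s/(s-1) * (t^(1-s) - (1+t)^(1-s))
    have key : t ^ (-s) ≤ (2 ^ s / (s - 1)) * (t ^ (1 - s) - (1 + t) ^ (1 - s)) := by
      have hb : (1 + (-(1 + t)⁻¹)) ^ (s - 1) ≤ 1 + (s - 1) * (-(1 + t)⁻¹) := by
        apply rpow_one_add_le_one_add_mul_self _ h1s.le (by linarith)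
        have : (1 + t)⁻¹ ≤ 1 := inv_le_one_of_one_le₀ (by linarith)
        linarith
      have e1 : (1 + (-(1 + t)⁻¹)) = t / (1 + t) := by field_simp; ring
      rw [e1] at hb
      set x := (s - 1) * (1 + t)⁻¹ with hx
      have hx0 : 0 ≤ x := by positivity
      have hx1 : x < 1 := by
        rw [hx, ← div_eq_mul_inv, div_lt_one (by positivity)]
        linarith
      have hb2 : (t / (1 + t)) ^ (s - 1) ≤ 1 - x := by
        calc _ ≤ _ := hb
          _ = 1 - x := by rw [hx]; ring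
      have hpos : 0 < (t / (1 + t)) ^ (s - 1) := by positivity
      -- invert
      have hb3 : 1 + x ≤ ((t / (1 + t)) ^ (s - 1))⁻¹ := by
        rw [le_inv_comm₀ (by positivity) hpos]
        refine le_trans hb2 ?_
        rw [← one_div, le_div_iff₀ (by positivity)]
        nlinarith
      have e2 : ((t / (1 + t)) ^ (s - 1))⁻¹ = t ^ (1 - s) * ((1 + t) ^ (1 - s))⁻¹ := by
        rw [← Real.rpow_neg (by positivity), neg_sub, Real.div_rpow ht0.le (by positivity),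
          div_eq_mul_inv]
      rw [e2, ← div_eq_mul_inv, le_div_iff₀ (by positivity)] at hb3
      have e3 : (1 + x) * (1 + t) ^ (1 - s) = (1 + t) ^ (1 - s) + (s - 1) * (1 + t) ^ (-s) := by
        have : (1 + t) ^ (-s) = (1 + t) ^ (1 - s) * (1 + t)⁻¹ := by
          rw [← Real.rpow_neg_one, ← Real.rpow_add (by positivity)]; congr 1; ring
        rw [this, hx]; ring
      rw [e3] at hb3
      have e4 : 2 ^ (-s) * t ^ (-s) ≤ (1 + t) ^ (-s) := by
        rw [← Real.mul_rpow (by norm_num) ht0.le]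
        exact Real.rpow_le_rpow_of_nonpos (by positivity) (by linarith) (by linarith)
      have e5 : (s - 1) * (2 ^ (-s) * t ^ (-s)) ≤ t ^ (1 - s) - (1 + t) ^ (1 - s) := by
        have := mul_le_mul_of_nonneg_left e4 h1s.le
        linarith
      have h2s : (0 : ℝ) < 2 ^ s := by positivity
      have e6 : (2 : ℝ) ^ s * 2 ^ (-s) = 1 := by rw [← Real.rpow_add (by norm_num)]; simp
      calc t ^ (-s) = (2 ^ s / (s - 1)) * ((s - 1) * (2 ^ (-s) * t ^ (-s))) := by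
            have : (2 : ℝ) ^ s / (s - 1) * ((s - 1) * (2 ^ (-s) * t ^ (-s)))
              = ((2 : ℝ) ^ s * 2 ^ (-s)) * t ^ (-s) := by field_simp
            rw [this, e6, one_mul]
        _ ≤ _ := mul_le_mul_of_nonneg_left e5 (by positivity)
    calc _ ≤ (2 ^ s / (s - 1)) * ((1 + (j : ℝ)) ^ (1 - s) - t ^ (1 - s)) +
          (2 ^ s / (s - 1)) * (t ^ (1 - s) - (1 + t) ^ (1 - s)) := add_le_add ih key
      _ = _ := by ring

noncomputable def hk (a : ℝ) (i j : ℕ) : ℝ :=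
  if j ≤ i then (1 + (i : ℝ)) ^ (a - 1) * (1 + (j : ℝ)) ^ (-a) else 0

lemma kb_hardy {a : ℝ} (ha0 : 0 < a) (ha1 : a < 1 / 2) : ∃ C : ℝ, 0 ≤ C ∧ ∀ N : ℕ,
    KB (fun i j : Fin (N + 1) => hk a i j) C := by
  set s1 := a + 1 / 2 with hs1
  set s2 := 3 / 2 - a with hs2
  have h1 : 0 < 1 - s1 := by rw [hs1]; linarith
  have h2 : 0 < s2 - 1 := by rw [hs2]; linarith
  refine ⟨√(1 / (1 - s1)) * √(2 ^ s2 / (s2 - 1)), by positivity, ?_⟩
  intro N
  refine KB.schur (ι := Fin (N + 1)) (K := fun i j => hk a i j)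
    (h := fun i => (1 + ((i : ℕ) : ℝ)) ^ (-(1 / 2) : ℝ)) (fun i => by positivity) ?_
    (by positivity) (by positivity) ?_ ?_
  · intro i j; unfold hk; split_ifs <;> positivity
  · intro i
    have e : ∀ j : ℕ, hk a i j * (1 + (j : ℝ)) ^ (-(1 / 2) : ℝ) =
        if j ≤ (i : ℕ) then (1 + ((i : ℕ) : ℝ)) ^ (a - 1) * (1 + (j : ℝ)) ^ (-s1) else 0 := by
      intro j
      unfold hk
      split_ifs with h
      · rw [mul_assoc, ← Real.rpow_add (by positivity)]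
        congr 2; rw [hs1]; ring
      · simp
    calc ∑ j : Fin (N + 1), hk a i j * (1 + ((j : ℕ) : ℝ)) ^ (-(1 / 2) : ℝ)
        = ∑ j ∈ range (N + 1), hk a i j * (1 + (j : ℝ)) ^ (-(1 / 2) : ℝ) :=
          Fin.sum_univ_eq_sum_range (fun j => hk a i j * (1 + (j : ℝ)) ^ (-(1 / 2) : ℝ)) _
      _ = ∑ j ∈ range ((i : ℕ) + 1), (1 + ((i : ℕ) : ℝ)) ^ (a - 1) * (1 + (j : ℝ)) ^ (-s1) := by
          simp only [e]
          rw [← sum_filter]
          apply sum_congr _ (fun _ _ => rfl)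
          ext j
          simp only [mem_filter, mem_range]
          have := i.isLt
          omega
      _ = (1 + ((i : ℕ) : ℝ)) ^ (a - 1) * ∑ j ∈ range ((i : ℕ) + 1), (1 + (j : ℝ)) ^ (-s1) := by
          rw [mul_sum]
      _ ≤ (1 + ((i : ℕ) : ℝ)) ^ (a - 1) * ((((i : ℕ) + 1 : ℕ) : ℝ) ^ (1 - s1) / (1 - s1)) := by
          apply mul_le_mul_of_nonneg_left _ (by positivity)
          exact sum_small (by rw [hs1]; linarith) (by linarith) _
      _ = 1 / (1 - s1) * (1 + ((i : ℕ) : ℝ)) ^ (-(1 / 2) : ℝ) := by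
          have e1 : (((i : ℕ) + 1 : ℕ) : ℝ) = 1 + ((i : ℕ) : ℝ) := by push_cast; ring
          have e2 : (1 + ((i : ℕ) : ℝ)) ^ (-(1 / 2) : ℝ)
              = (1 + ((i : ℕ) : ℝ)) ^ (a - 1) * (1 + ((i : ℕ) : ℝ)) ^ (1 - s1) := by
            rw [← Real.rpow_add (by positivity)]; congr 1; rw [hs1]; ring
          rw [e1, e2]; ring
  · intro j
    have e : ∀ i : ℕ, hk a i j * (1 + (i : ℝ)) ^ (-(1 / 2) : ℝ) =
        if (j : ℕ) ≤ i then (1 + ((j : ℕ) : ℝ)) ^ (-a) * (1 + (i : ℝ)) ^ (-s2) else 0 := by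
      intro i
      unfold hk
      split_ifs with h
      · rw [mul_comm ((1 + (i : ℝ)) ^ (a - 1)), mul_assoc, ← Real.rpow_add (by positivity)]
        congr 2; rw [hs2]; ring
      · simp
    calc ∑ i : Fin (N + 1), hk a i j * (1 + ((i : ℕ) : ℝ)) ^ (-(1 / 2) : ℝ)
        = ∑ i ∈ range (N + 1), hk a i j * (1 + (i : ℝ)) ^ (-(1 / 2) : ℝ) :=
          Fin.sum_univ_eq_sum_range (fun i => hk a i j * (1 + (i : ℝ)) ^ (-(1 / 2) : ℝ)) _
      _ = ∑ i ∈ Ico (j : ℕ) (N + 1), (1 + ((j : ℕ) : ℝ)) ^ (-a) * (1 + (i : ℝ)) ^ (-s2) := by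
          simp only [e]
          rw [← sum_filter]
          apply sum_congr _ (fun _ _ => rfl)
          ext i
          simp only [mem_filter, mem_range, mem_Ico]
          omega
      _ = (1 + ((j : ℕ) : ℝ)) ^ (-a) *
          ∑ i ∈ range (N + 1 - j), (1 + (((j : ℕ) + i : ℕ) : ℝ)) ^ (-s2) := by
          rw [← mul_sum, sum_Ico_eq_sum_range]
      _ ≤ (1 + ((j : ℕ) : ℝ)) ^ (-a) * ((2 ^ s2 / (s2 - 1)) * (1 + ((j : ℕ) : ℝ)) ^ (1 - s2)) := by
          apply mul_le_mul_of_nonneg_left _ (by positivity)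
          refine le_trans (sum_tail (by linarith) (by rw [hs2]; linarith) _ _) ?_
          apply mul_le_mul_of_nonneg_left _ (by positivity)
          have : 0 ≤ (1 + (((j : ℕ) + (N + 1 - (j : ℕ)) : ℕ) : ℝ)) ^ (1 - s2) := by positivity
          linarith
      _ = 2 ^ s2 / (s2 - 1) * (1 + ((j : ℕ) : ℝ)) ^ (-(1 / 2) : ℝ) := by
          have e2 : (1 + ((j : ℕ) : ℝ)) ^ (-(1 / 2) : ℝ)
              = (1 + ((j : ℕ) : ℝ)) ^ (-a) * (1 + ((j : ℕ) : ℝ)) ^ (1 - s2) := by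
            rw [← Real.rpow_add (by positivity)]; congr 1; rw [hs2]; ring
          rw [e2]; ring

theorem kernel_bound_B {a : ℝ} (ha0 : 0 < a) (ha1 : a < 1 / 2) : ∃ C : ℝ, 0 ≤ C ∧
    ∀ δ : ℝ, 0 < δ → δ ≤ 1 → ∀ N : ℕ,
    KB (fun i j : Fin (N + 1) => k1 δ i j * (w a (2 * a) N i / w a (2 * a) N j))
      (C * δ⁻¹) := by
  obtain ⟨CH, hCH0, hCH⟩ := kb_hardy ha0 ha1
  have h12 : 0 < 1 - 2 * a := by linarith
  refine ⟨16 ^ a * (1 + (1 + 2 * CH) + (1 + 2 * CH)) + 4 ^ (2 * a) * (4 / (1 - 2 * a)),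
    by positivity, ?_⟩
  intro δ hδ hδ1 N
  have hd : 0 < δ⁻¹ := by positivity
  have b1 : KB (fun i j : Fin (N + 1) => k1 δ i j) (1 * δ⁻¹) := by
    rw [one_mul]; exact kb1 hδ N
  have b2 : KB (fun i j : Fin (N + 1) => k2 a δ i j) ((1 + 2 * CH) * δ⁻¹) := by
    have := (kb1 hδ N).add ((hCH N).smul (c := 2 * δ⁻¹) (by positivity))
    refine this.mono ?_ (le_of_eq (by ring))
    intro i j
    by_cases hij : (j : ℕ) ≤ i
    · have hk0 := k1_nonneg hδ i j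
      have hh0 : 0 ≤ hk a i j := by unfold hk; split_ifs <;> positivity
      by_cases h2 : (i : ℕ) ≤ 2 * j
      · have : (((i : ℕ) - (j : ℕ) : ℕ) : ℝ) ^ a * (1 + ((j : ℕ) : ℝ)) ^ (-a) ≤ 1 := by
          have h3 : (((i : ℕ) - (j : ℕ) : ℕ) : ℝ) ≤ 1 + ((j : ℕ) : ℝ) := by
            have : (((i : ℕ) - (j : ℕ) : ℕ) : ℝ) ≤ ((1 + j : ℕ) : ℝ) := by
              exact_mod_cast (by omega : (i : ℕ) - (j : ℕ) ≤ 1 + j)
            push_cast at this; linarith
          rw [Real.rpow_neg (by positivity), ← div_eq_mul_inv, div_le_one (by positivity)]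
          exact Real.rpow_le_rpow (by positivity) h3 ha0.le
        unfold k2
        have := mul_le_mul_of_nonneg_left this hk0
        have : 0 ≤ 2 * δ⁻¹ * hk a i j := by positivity
        linarith
      · have hk1 : k1 δ i j ≤ δ⁻¹ * (1 + (((i : ℕ) - (j : ℕ) : ℕ) : ℝ))⁻¹ := by
          unfold k1
          rw [if_pos hij]
          refine le_trans ?_ (decay1 hδ hδ1 _)
          exact pow_le_pow_of_le_one (by positivity) (inv_le_one_of_one_le₀ (by linarith)) (by omega)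
        have hd1 : (0 : ℝ) < 1 + (((i : ℕ) - (j : ℕ) : ℕ) : ℝ) := by positivity
        have h3 : k2 a δ i j ≤ δ⁻¹ * ((1 + (((i : ℕ) - (j : ℕ) : ℕ) : ℝ)) ^ (a - 1) *
            (1 + ((j : ℕ) : ℝ)) ^ (-a)) := by
          unfold k2
          calc k1 δ i j * ((((i : ℕ) - (j : ℕ) : ℕ) : ℝ) ^ a * (1 + ((j : ℕ) : ℝ)) ^ (-a))
              ≤ (δ⁻¹ * (1 + (((i : ℕ) - (j : ℕ) : ℕ) : ℝ))⁻¹) *
                ((1 + (((i : ℕ) - (j : ℕ) : ℕ) : ℝ)) ^ a * (1 + ((j : ℕ) : ℝ)) ^ (-a)) := by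
                apply mul_le_mul hk1 _ (by positivity) (by positivity)
                apply mul_le_mul_of_nonneg_right _ (by positivity)
                exact Real.rpow_le_rpow (by positivity) (by linarith) ha0.le
            _ = _ := by
                rw [sub_eq_add_neg a 1, Real.rpow_add hd1, Real.rpow_neg_one]
                ring
        have h4 : (1 + (((i : ℕ) - (j : ℕ) : ℕ) : ℝ)) ^ (a - 1) ≤
            2 * (1 + ((i : ℕ) : ℝ)) ^ (a - 1) := by
          have h5 : (1 + ((i : ℕ) : ℝ)) / 2 ≤ 1 + (((i : ℕ) - (j : ℕ) : ℕ) : ℝ) := by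
            have : ((1 + i : ℕ) : ℝ) ≤ ((2 * (1 + ((i : ℕ) - (j : ℕ))) : ℕ) : ℝ) := by
              exact_mod_cast (by omega : 1 + (i : ℕ) ≤ 2 * (1 + ((i : ℕ) - (j : ℕ))))
            rw [Nat.cast_mul, Nat.cast_add 1 ((i : ℕ) - (j : ℕ))] at this
            push_cast at this ⊢
            linarith
          calc (1 + (((i : ℕ) - (j : ℕ) : ℕ) : ℝ)) ^ (a - 1)
              ≤ ((1 + ((i : ℕ) : ℝ)) / 2) ^ (a - 1) :=
                Real.rpow_le_rpow_of_nonpos (by positivity) h5 (by linarith)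
            _ = 2 ^ (1 - a) * (1 + ((i : ℕ) : ℝ)) ^ (a - 1) := by
                rw [Real.div_rpow (by positivity) (by norm_num), div_eq_mul_inv,
                  ← Real.rpow_neg (by norm_num), neg_sub, mul_comm]
            _ ≤ 2 ^ (1 : ℝ) * (1 + ((i : ℕ) : ℝ)) ^ (a - 1) := by
                apply mul_le_mul_of_nonneg_right _ (by positivity)
                exact Real.rpow_le_rpow_of_exponent_le (by norm_num) (by linarith)
            _ = _ := by rw [Real.rpow_one]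
        have h6 : hk a i j = (1 + ((i : ℕ) : ℝ)) ^ (a - 1) * (1 + ((j : ℕ) : ℝ)) ^ (-a) := by
          unfold hk; rw [if_pos hij]
        calc k2 a δ i j ≤ _ := h3
          _ ≤ δ⁻¹ * ((2 * (1 + ((i : ℕ) : ℝ)) ^ (a - 1)) * (1 + ((j : ℕ) : ℝ)) ^ (-a)) := by
              apply mul_le_mul_of_nonneg_left _ hd.le
              exact mul_le_mul_of_nonneg_right h4 (by positivity)
          _ = 2 * δ⁻¹ * hk a i j := by rw [h6]; ring
          _ ≤ _ := by linarith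
    · have h0 : k1 δ (i : ℕ) j = 0 := by unfold k1; rw [if_neg hij]
      have h1 : hk a (i : ℕ) j = 0 := by unfold hk; rw [if_neg hij]
      unfold k2
      rw [h0, h1]; simp
  have b3 := kb3_of_kb2 N b2
  have b4 : KB (fun i j : Fin (N + 1) => k4 a (2 * a) δ N i j) ((4 / (1 - 2 * a)) * δ⁻¹) := by
    have hN1 : (0 : ℝ) < (N : ℝ) + 1 := by positivity
    have := KB.rankOne (ι := Fin (N + 1)) (K := fun i j => k4 a (2 * a) δ N i j)
      (u := fun i => (4 * δ⁻¹ * ((N : ℝ) + 1) ^ (2 * a - 1)) *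
        (1 + ((N - (i : ℕ) : ℕ) : ℝ)) ^ (-a))
      (v := fun j => (1 + ((j : ℕ) : ℝ)) ^ (-a)) ?_
    · refine this.mono (fun _ _ => le_rfl) ?_
      have e : ∑ i : Fin (N + 1), ((4 * δ⁻¹ * ((N : ℝ) + 1) ^ (2 * a - 1)) *
          (1 + ((N - (i : ℕ) : ℕ) : ℝ)) ^ (-a)) ^ 2
          = (4 * δ⁻¹ * ((N : ℝ) + 1) ^ (2 * a - 1)) ^ 2 *
            ∑ j : Fin (N + 1), ((1 + ((j : ℕ) : ℝ)) ^ (-a)) ^ 2 := by
        rw [← sumsq_rev N, mul_sum]
        apply sum_congr rfl; intro i _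
        rw [mul_pow]
      rw [e, Real.sqrt_mul (by positivity), Real.sqrt_sq (by positivity), mul_assoc,
        Real.mul_self_sqrt (by positivity)]
      have hsum : ∑ j : Fin (N + 1), ((1 + ((j : ℕ) : ℝ)) ^ (-a)) ^ 2 ≤
          ((N : ℝ) + 1) ^ (1 - 2 * a) / (1 - 2 * a) := by
        rw [Fin.sum_univ_eq_sum_range (fun j : ℕ => ((1 + (j : ℝ)) ^ (-a)) ^ 2) (N + 1)]
        have := sum_small (s := 2 * a) (by linarith) (by linarith) (N + 1)
        push_cast at this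
        refine le_trans (le_of_eq ?_) this
        apply sum_congr rfl; intro j _
        rw [← Real.rpow_natCast, ← Real.rpow_mul (by positivity)]
        congr 1; push_cast; ring
      calc 4 * δ⁻¹ * ((N : ℝ) + 1) ^ (2 * a - 1) *
            ∑ j : Fin (N + 1), ((1 + ((j : ℕ) : ℝ)) ^ (-a)) ^ 2
          ≤ 4 * δ⁻¹ * ((N : ℝ) + 1) ^ (2 * a - 1) *
            (((N : ℝ) + 1) ^ (1 - 2 * a) / (1 - 2 * a)) :=
            mul_le_mul_of_nonneg_left hsum (by positivity)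
        _ = 4 * δ⁻¹ * (((N : ℝ) + 1) ^ (2 * a - 1) * ((N : ℝ) + 1) ^ (1 - 2 * a)) /
            (1 - 2 * a) := by ring
        _ = (4 / (1 - 2 * a)) * δ⁻¹ := by
            rw [← Real.rpow_add hN1]
            have : 2 * a - 1 + (1 - 2 * a) = 0 := by ring
            rw [this, Real.rpow_zero]; ring
    · intro i j
      have hnn : 0 ≤ (4 * δ⁻¹ * ((N : ℝ) + 1) ^ (2 * a - 1)) *
        (1 + ((N - (i : ℕ) : ℕ) : ℝ)) ^ (-a) * (1 + ((j : ℕ) : ℝ)) ^ (-a) := by positivity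
      unfold k4 k1
      split_ifs with h1 h2
      · have h3 : ((1 + δ)⁻¹) ^ ((i : ℕ) - (j : ℕ) + 1) ≤
            δ⁻¹ * (1 + (((i : ℕ) - (j : ℕ) : ℕ) : ℝ))⁻¹ := by
          refine le_trans ?_ (decay1 hδ hδ1 _)
          exact pow_le_pow_of_le_one (by positivity) (inv_le_one_of_one_le₀ (by linarith)) (by omega)
        have hd1 : (0 : ℝ) < 1 + (((i : ℕ) - (j : ℕ) : ℕ) : ℝ) := by positivity
        have h4 : 0 ≤ (1 + ((j : ℕ) : ℝ)) ^ (-a) * (1 + ((N - (i : ℕ) : ℕ) : ℝ)) ^ (-a) := by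
          positivity
        have h5 : (1 + (((i : ℕ) - (j : ℕ) : ℕ) : ℝ)) ^ (2 * a - 1) ≤
            4 * ((N : ℝ) + 1) ^ (2 * a - 1) := by
          have h6 : ((N : ℝ) + 1) / 4 ≤ 1 + (((i : ℕ) - (j : ℕ) : ℕ) : ℝ) := by
            have : ((N + 1 : ℕ) : ℝ) ≤ ((4 * (1 + ((i : ℕ) - (j : ℕ))) : ℕ) : ℝ) := by
              exact_mod_cast h1
            rw [Nat.cast_mul, Nat.cast_add 1 ((i : ℕ) - (j : ℕ))] at this
            push_cast at this ⊢
            linarith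
          calc (1 + (((i : ℕ) - (j : ℕ) : ℕ) : ℝ)) ^ (2 * a - 1)
              ≤ (((N : ℝ) + 1) / 4) ^ (2 * a - 1) :=
                Real.rpow_le_rpow_of_nonpos (by positivity) h6 (by linarith)
            _ = 4 ^ (1 - 2 * a) * ((N : ℝ) + 1) ^ (2 * a - 1) := by
                rw [Real.div_rpow (by positivity) (by norm_num), div_eq_mul_inv,
                  ← Real.rpow_neg (by norm_num), neg_sub, mul_comm]
            _ ≤ 4 ^ (1 : ℝ) * ((N : ℝ) + 1) ^ (2 * a - 1) := by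
                apply mul_le_mul_of_nonneg_right _ (by positivity)
                exact Real.rpow_le_rpow_of_exponent_le (by norm_num) (by linarith)
            _ = _ := by rw [Real.rpow_one]
        calc _ = (((1 + δ)⁻¹) ^ ((i : ℕ) - (j : ℕ) + 1) *
              (1 + (((i : ℕ) - (j : ℕ) : ℕ) : ℝ)) ^ (2 * a)) *
              ((1 + ((j : ℕ) : ℝ)) ^ (-a) * (1 + ((N - (i : ℕ) : ℕ) : ℝ)) ^ (-a)) := by ring
          _ ≤ ((δ⁻¹ * (1 + (((i : ℕ) - (j : ℕ) : ℕ) : ℝ))⁻¹) *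
              (1 + (((i : ℕ) - (j : ℕ) : ℕ) : ℝ)) ^ (2 * a)) *
              ((1 + ((j : ℕ) : ℝ)) ^ (-a) * (1 + ((N - (i : ℕ) : ℕ) : ℝ)) ^ (-a)) := by
              apply mul_le_mul_of_nonneg_right _ h4
              exact mul_le_mul_of_nonneg_right h3 (by positivity)
          _ = (δ⁻¹ * (1 + (((i : ℕ) - (j : ℕ) : ℕ) : ℝ)) ^ (2 * a - 1)) *
              ((1 + ((j : ℕ) : ℝ)) ^ (-a) * (1 + ((N - (i : ℕ) : ℕ) : ℝ)) ^ (-a)) := by
              rw [sub_eq_add_neg (2 * a) 1, Real.rpow_add hd1, Real.rpow_neg_one]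
              ring
          _ ≤ (δ⁻¹ * (4 * ((N : ℝ) + 1) ^ (2 * a - 1))) *
              ((1 + ((j : ℕ) : ℝ)) ^ (-a) * (1 + ((N - (i : ℕ) : ℕ) : ℝ)) ^ (-a)) := by
              apply mul_le_mul_of_nonneg_right _ h4
              exact mul_le_mul_of_nonneg_left h5 hd.le
          _ = _ := by ring
      · rw [zero_mul]; exact hnn
      · exact hnn
  have hk := (((b1.add b2).add b3).smul (c := (16 : ℝ) ^ a) (by positivity)).add
    (b4.smul (c := (4 : ℝ) ^ (2 * a)) (by positivity))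
  refine hk.mono ?_ (le_of_eq (by ring))
  intro i j
  by_cases hij : (j : ℕ) ≤ i
  · exact dom ha0.le (by linarith) le_rfl hδ N i j hij (by have := i.isLt; omega)
  · have h0 : k1 δ (i : ℕ) j = 0 := by unfold k1; rw [if_neg hij]
    rw [h0, zero_mul]
    have := k2_nonneg (a := a) hδ i j
    have := k3_nonneg (a := a) hδ N i j
    have := k4_nonneg (a := a) (γ := 2 * a) hδ N i j
    positivity

end Pool.Agent.Helper65.RG
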