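import Mathlib
import Pool.Agent.Helper65.RG5

open scoped BigOperators
open Finset Matrix

namespace Pool.Agent.Helper65.RG

/-- The weighted nilpotent shift of size `N+1`. -/
noncomputable def Tm (a γ : ℝ) (N : ℕ) : Matrix (Fin (N + 1)) (Fin (N + 1)) ℂ :=
  fun i j => if (i : ℕ) = j + 1 then ((w a γ N i / w a γ N j : ℝ) : ℂ) else 0

/-- The resolvent of the weighted nilpotent shift. -/
noncomputable def Rm (a γ : ℝ) (N : ℕ) (z : ℂ) : Matrix (Fin (N + 1)) (Fin (N + 1)) ℂ :=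
  fun i j => if (j : ℕ) ≤ i then (z⁻¹) ^ ((i : ℕ) - j + 1) * ((w a γ N i / w a γ N j : ℝ) : ℂ) else 0

lemma Tm_mul_apply_zero (a γ : ℝ) (N : ℕ) (M : Matrix (Fin (N + 1)) (Fin (N + 1)) ℂ)
    (i j : Fin (N + 1)) (hi : (i : ℕ) = 0) : (Tm a γ N * M) i j = 0 := by
  rw [Matrix.mul_apply]
  apply sum_eq_zero
  intro k _
  unfold Tm
  rw [if_neg (by omega), zero_mul]

lemma Tm_mul_apply_succ (a γ : ℝ) (N : ℕ) (M : Matrix (Fin (N + 1)) (Fin (N + 1)) ℂ)
    (i i' j : Fin (N + 1)) (hi : (i : ℕ) = i' + 1) :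
    (Tm a γ N * M) i j = ((w a γ N i / w a γ N i' : ℝ) : ℂ) * M i' j := by
  rw [Matrix.mul_apply, sum_eq_single i']
  · unfold Tm
    rw [if_pos hi]
  · intro k _ hk
    unfold Tm
    rw [if_neg, zero_mul]
    intro h
    apply hk
    apply Fin.ext
    omega
  · intro h; exact absurd (mem_univ _) h

lemma resolvent_mul (a γ : ℝ) (N : ℕ) {z : ℂ} (hz : z ≠ 0) :
    (z • (1 : Matrix (Fin (N + 1)) (Fin (N + 1)) ℂ) - Tm a γ N) * Rm a γ N z = 1 := by
  ext i j
  rw [sub_mul, smul_mul_assoc, one_mul, Matrix.sub_apply, Matrix.smul_apply]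
  by_cases hi : (i : ℕ) = 0
  · rw [Tm_mul_apply_zero _ _ _ _ _ _ hi]
    unfold Rm
    by_cases hij : i = j
    · subst hij
      have hw := (w_pos a γ N i).ne'
      rw [if_pos le_rfl, Matrix.one_apply_eq, div_self hw]
      simp [hz]
    · have : ¬ (j : ℕ) ≤ i := by
        intro h
        apply hij
        apply Fin.ext
        omega
      rw [if_neg this, Matrix.one_apply_ne hij]
      simp
  · obtain ⟨i', hi'⟩ : ∃ i' : Fin (N + 1), (i : ℕ) = i' + 1 := by
      have := i.isLt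
      exact ⟨⟨i - 1, by omega⟩, by simp only; omega⟩
    rw [Tm_mul_apply_succ _ _ _ _ _ _ _ hi']
    have hwi := (w_pos a γ N i).ne'
    have hwi' := (w_pos a γ N i').ne'
    have hwj := (w_pos a γ N j).ne'
    unfold Rm
    by_cases hij : i = j
    · subst hij
      rw [if_pos le_rfl, Matrix.one_apply_eq, if_neg (by omega), div_self hwi]
      simp [hz]
    · rw [Matrix.one_apply_ne hij]
      by_cases hle : (j : ℕ) ≤ i
      · have hne : (i : ℕ) ≠ j := fun h => hij (Fin.ext h)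
        have hle' : (j : ℕ) ≤ i' := by omega
        rw [if_pos hle, if_pos hle']
        have e : (i : ℕ) - j + 1 = ((i' : ℕ) - j + 1) + 1 := by omega
        rw [e, pow_succ (z⁻¹) ((i' : ℕ) - j + 1), smul_eq_mul]
        have e2 : ((w a γ N i / w a γ N i' : ℝ) : ℂ) * ((z⁻¹) ^ ((i' : ℕ) - j + 1) *
            ((w a γ N i' / w a γ N j : ℝ) : ℂ)) =
            (z⁻¹) ^ ((i' : ℕ) - j + 1) * ((w a γ N i / w a γ N j : ℝ) : ℂ) := by
          have : (w a γ N i / w a γ N j) = (w a γ N i / w a γ N i') * (w a γ N i' / w a γ N j) := by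
            field_simp
          rw [this]; push_cast; ring
        rw [e2]
        have e3 : z * (z⁻¹ ^ ((i' : ℕ) - j + 1) * z⁻¹ * ((w a γ N i / w a γ N j : ℝ) : ℂ))
            = (z * z⁻¹) * (z⁻¹ ^ ((i' : ℕ) - j + 1) * ((w a γ N i / w a γ N j : ℝ) : ℂ)) := by ring
        rw [e3, mul_inv_cancel₀ hz, one_mul, sub_self]
      · rw [if_neg hle, if_neg (by omega)]
        simp

lemma Tm_pow (a γ : ℝ) (N k : ℕ) (i j : Fin (N + 1)) :
    (Tm a γ N ^ k) i j =
      if (i : ℕ) = j + k then ((w a γ N i / w a γ N j : ℝ) : ℂ) else 0 := by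
  induction k generalizing i j with
  | zero =>
    rw [pow_zero]
    by_cases hij : i = j
    · subst hij
      rw [Matrix.one_apply_eq, if_pos (by simp), div_self (w_pos a γ N i).ne']
      simp
    · rw [Matrix.one_apply_ne hij, if_neg]
      intro h
      exact hij (Fin.ext (by omega))
  | succ k ih =>
    rw [pow_succ']
    by_cases hi : (i : ℕ) = 0
    · rw [Tm_mul_apply_zero _ _ _ _ _ _ hi, if_neg (by omega)]
    · obtain ⟨i', hi'⟩ : ∃ i' : Fin (N + 1), (i : ℕ) = i' + 1 := by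
        have := i.isLt
        exact ⟨⟨i - 1, by omega⟩, by simp only; omega⟩
      rw [Tm_mul_apply_succ _ _ _ _ _ _ _ hi', ih]
      have hwi' := (w_pos a γ N i').ne'
      have hwj := (w_pos a γ N j).ne'
      by_cases h : (i : ℕ) = j + (k + 1)
      · rw [if_pos h, if_pos (by omega)]
        have : (w a γ N i / w a γ N j) = (w a γ N i / w a γ N i') * (w a γ N i' / w a γ N j) := by
          field_simp
        rw [this]; push_cast; ring
      · rw [if_neg h, if_neg (by omega), mul_zero]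

/-- Kernel domination gives an operator norm bound. -/
lemma norm_clm_le {ι : Type*} [Fintype ι] [DecidableEq ι] {M : Matrix ι ι ℂ} {K : ι → ι → ℝ} {C : ℝ}
    (hC : 0 ≤ C) (hK : KB K C) (hM : ∀ i j, ‖M i j‖ ≤ K i j) :
    ‖toEuclideanCLM (n := ι) (𝕜 := ℂ) M‖ ≤ C := by
  apply ContinuousLinearMap.opNorm_le_bound _ hC
  intro x
  set y := toEuclideanCLM (n := ι) (𝕜 := ℂ) M x with hy
  -- ‖y‖^2 ≤ C ‖x‖ ‖y‖
  have h1 : ‖y‖ ^ 2 ≤ C * (‖x‖ * ‖y‖) := by
    have e1 : ‖y‖ ^ 2 = ∑ i, ‖y.ofLp i‖ ^ 2 := EuclideanSpace.norm_sq_eq y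
    have e2 : ∀ i, ‖y.ofLp i‖ ≤ ∑ j, K i j * ‖x.ofLp j‖ := by
      intro i
      have : y.ofLp i = ∑ j, M i j * x.ofLp j := by
        rw [hy, ofLp_toEuclideanCLM]; rfl
      rw [this]
      refine le_trans (norm_sum_le _ _) (sum_le_sum fun j _ => ?_)
      rw [norm_mul]
      exact mul_le_mul_of_nonneg_right (hM i j) (norm_nonneg _)
    calc ‖y‖ ^ 2 = ∑ i, ‖y.ofLp i‖ * ‖y.ofLp i‖ := by
          rw [e1]; apply sum_congr rfl; intro i _; ring
      _ ≤ ∑ i, (∑ j, K i j * ‖x.ofLp j‖) * ‖y.ofLp i‖ :=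
          sum_le_sum fun i _ => mul_le_mul_of_nonneg_right (e2 i) (norm_nonneg _)
      _ = ∑ i, ∑ j, K i j * ‖x.ofLp j‖ * ‖y.ofLp i‖ := by
          apply sum_congr rfl; intro i _; rw [sum_mul]
      _ ≤ C * (√(∑ i, ‖x.ofLp i‖ ^ 2) * √(∑ i, ‖y.ofLp i‖ ^ 2)) :=
          hK _ _ (fun _ => norm_nonneg _) (fun _ => norm_nonneg _)
      _ = C * (‖x‖ * ‖y‖) := by
          rw [EuclideanSpace.norm_eq x, EuclideanSpace.norm_eq y]
  rcases eq_or_lt_of_le (norm_nonneg y) with h | h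
  · rw [← h]; positivity
  · have : ‖y‖ * ‖y‖ ≤ (C * ‖x‖) * ‖y‖ := by nlinarith
    exact le_of_mul_le_mul_right this h

/-- entries are bounded by the operator norm -/
lemma entry_le_norm {ι : Type*} [Fintype ι] [DecidableEq ι] (M : Matrix ι ι ℂ) (i j : ι) :
    ‖M i j‖ ≤ ‖toEuclideanCLM (n := ι) (𝕜 := ℂ) M‖ := by
  have h1 := (toEuclideanCLM (n := ι) (𝕜 := ℂ) M).le_opNorm (EuclideanSpace.single j 1)
  rw [PiLp.norm_single, norm_one, mul_one] at h1
  refine le_trans ?_ h1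
  have h2 : (toEuclideanCLM (n := ι) (𝕜 := ℂ) M (EuclideanSpace.single j 1)).ofLp i = M i j := by
    rw [ofLp_toEuclideanCLM]
    simp [Matrix.mulVec, dotProduct]
  rw [← h2]
  exact PiLp.norm_apply_le _ i

end Pool.Agent.Helper65.RG
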