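import Mathlib

namespace Pool.Agent.Helper65.RG

universe u

/-- Condition `(R_α)` for a bounded operator `T` on a complex Hilbert space `H`:
the spectrum of `T` lies in the closed unit disc and, for some `c > 0`,
`‖(z - T)⁻¹‖ ≤ c / (|z| - 1)^α` whenever `1 < |z| ≤ 2`. -/
def ResolventCondition {H : Type u} [NormedAddCommGroup H] [InnerProductSpace ℂ H]
    [CompleteSpace H] (α : ℝ) (T : H →L[ℂ] H) : Prop :=
  spectrum ℂ T ⊆ Metric.closedBall 0 1 ∧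
    ∃ c : ℝ, 0 < c ∧ ∀ z : ℂ, 1 < ‖z‖ → ‖z‖ ≤ 2 → ‖resolvent T z‖ ≤ c / (‖z‖ - 1) ^ α

/-- The optimal exponent `γ(α)`: the infimum of all `γ ≥ 0` such that
`sup_n ‖T ^ n‖ / (1 + n) ^ γ < ∞` for every complex Hilbert space `H` and every bounded `T` on `H`
satisfying `(R_α)`. -/
noncomputable def optimalExponent (α : ℝ) : ℝ :=
  sInf {γ : ℝ | 0 ≤ γ ∧ ∀ (H : Type u) [NormedAddCommGroup H] [InnerProductSpace ℂ H]
    [CompleteSpace H] (T : H →L[ℂ] H), ResolventCondition α T →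
      ∃ M : ℝ, ∀ n : ℕ, ‖T ^ n‖ ≤ M * (1 + (n : ℝ)) ^ γ}

end Pool.Agent.Helper65.RG
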