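import Mathlib
import Pool.Agent.Helper65.RG6
import Pool.Agent.Helper65.RGDefs

open scoped BigOperators ENNReal
open Finset Matrix

namespace Pool.Agent.Helper65.RG

universe u

/-- The blocks. -/
abbrev Blk (i : ULift.{u} ℕ) : Type := EuclideanSpace ℂ (Fin (i.down + 1))

/-- The Hilbert sum of all blocks. -/
abbrev HS : Type u := lp (fun i : ULift.{u} ℕ => Blk i) 2

/-- abstract direct sum lemma -/
lemma exists_operator {a γ s C : ℝ} (hC : 0 ≤ C)
    (hK : ∀ δ : ℝ, 0 < δ → δ ≤ 1 → ∀ N : ℕ,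
      KB (fun i j : Fin (N + 1) => k1 δ i j * (w a γ N i / w a γ N j)) (C * δ ^ (-s))) :
    ∃ T : HS.{u} →L[ℂ] HS.{u}, ResolventCondition s T ∧ ∀ n : ℕ, (1 + (n : ℝ)) ^ γ ≤ ‖T ^ n‖ := by
  -- blocks of `T`
  have hTN : ∀ N : ℕ, ‖toEuclideanCLM (n := Fin (N + 1)) (𝕜 := ℂ) (Tm a γ N)‖ ≤ 4 * C := by
    intro N
    have h1 := (hK 1 one_pos le_rfl N).smul (c := 4) (by norm_num)
    rw [Real.one_rpow, mul_one] at h1
    refine norm_clm_le (by positivity) h1 ?_
    intro i j
    have hk1 := k1_nonneg (δ := 1) one_pos i j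
    have hw1 := w_pos a γ N i
    have hw2 := w_pos a γ N j
    unfold Tm
    split_ifs with h
    · rw [Complex.norm_real, Real.norm_of_nonneg (by positivity)]
      have : k1 1 (i : ℕ) j = 1 / 4 := by
        unfold k1
        rw [if_pos (by omega), h]
        have : (j : ℕ) + 1 - j + 1 = 2 := by omega
        rw [this]; norm_num
      rw [this]
      linarith
    · rw [norm_zero]; positivity
  set T : HS.{u} →L[ℂ] HS.{u} := lp.mapCLM 2
    (fun i : ULift.{u} ℕ => (toEuclideanCLM (n := Fin (i.down + 1)) (𝕜 := ℂ) (Tm a γ i.down)))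
    (by positivity) (fun i => hTN i.down) with hT
  have hTapp : ∀ (x : HS.{u}) (i : ULift.{u} ℕ),
      (T x) i = toEuclideanCLM (n := Fin (i.down + 1)) (𝕜 := ℂ) (Tm a γ i.down) (x i) := by
    intro x i; rfl
  have hTpow : ∀ (n : ℕ) (x : HS.{u}) (i : ULift.{u} ℕ),
      ((T ^ n) x) i = toEuclideanCLM (n := Fin (i.down + 1)) (𝕜 := ℂ) (Tm a γ i.down ^ n) (x i) := by
    intro n
    induction n with
    | zero => intro x i; rw [pow_zero, pow_zero, map_one]; rfl
    | succ n ih =>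
      intro x i
      rw [pow_succ', pow_succ', map_mul, mul_apply_eq_comp,
        mul_apply_eq_comp, hTapp, ih]
  -- the inverse of `z - T`
  have hinv : ∀ z : ℂ, 1 < ‖z‖ → ∃ R : HS.{u} →L[ℂ] HS.{u},
      ‖R‖ ≤ C * (min (‖z‖ - 1) 1) ^ (-s) ∧
      (algebraMap ℂ (HS.{u} →L[ℂ] HS.{u}) z - T) * R = 1 ∧
      R * (algebraMap ℂ (HS.{u} →L[ℂ] HS.{u}) z - T) = 1 := by
    intro z hz
    have hz0 : z ≠ 0 := by
      rintro rfl
      simp at hz
      linarith
    set δ := min (‖z‖ - 1) 1 with hδ_def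
    have hδ : 0 < δ := lt_min (by linarith) one_pos
    have hδ1 : δ ≤ 1 := min_le_right _ _
    have hδz : 1 + δ ≤ ‖z‖ := by have := min_le_left (‖z‖ - 1) 1; linarith
    have hRN : ∀ N : ℕ, ‖toEuclideanCLM (n := Fin (N + 1)) (𝕜 := ℂ) (Rm a γ N z)‖ ≤
        C * δ ^ (-s) := by
      intro N
      refine norm_clm_le (by positivity) (hK δ hδ hδ1 N) ?_
      intro i j
      have hw1 := w_pos a γ N i
      have hw2 := w_pos a γ N j
      unfold Rm k1
      split_ifs with h
      · rw [norm_mul, norm_pow, norm_inv, Complex.norm_real, Real.norm_of_nonneg (by positivity)]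
        apply mul_le_mul_of_nonneg_right _ (by positivity)
        apply pow_le_pow_left₀ (by positivity)
        exact inv_anti₀ (by positivity) hδz
      · simp
    set R : HS.{u} →L[ℂ] HS.{u} := lp.mapCLM 2
      (fun i : ULift.{u} ℕ => (toEuclideanCLM (n := Fin (i.down + 1)) (𝕜 := ℂ) (Rm a γ i.down z)))
      (by positivity) (fun i => hRN i.down) with hR
    have hRapp : ∀ (x : HS.{u}) (i : ULift.{u} ℕ),
        (R x) i = toEuclideanCLM (n := Fin (i.down + 1)) (𝕜 := ℂ) (Rm a γ i.down z) (x i) := by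
      intro x i; rfl
    have hzapp : ∀ (x : HS.{u}) (i : ULift.{u} ℕ),
        ((algebraMap ℂ (HS.{u} →L[ℂ] HS.{u}) z - T) x) i
        = toEuclideanCLM (n := Fin (i.down + 1)) (𝕜 := ℂ) (z • 1 - Tm a γ i.down) (x i) := by
      intro x i
      rw [map_sub, map_smul, map_one, _root_.sub_apply, Algebra.algebraMap_eq_smul_one]
      rfl
    refine ⟨R, lp.norm_mapCLM_le _ _ _ _, ?_, ?_⟩
    · ext1 x
      apply lp.ext
      funext i
      rw [mul_apply_eq_comp, hzapp, hRapp, ← mul_apply_eq_comp, ← map_mul,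
        resolvent_mul _ _ _ hz0, map_one]
      rfl
    · ext1 x
      apply lp.ext
      funext i
      rw [mul_apply_eq_comp, hRapp, hzapp, ← mul_apply_eq_comp, ← map_mul,
        mul_eq_one_comm.mp (resolvent_mul _ _ _ hz0), map_one]
      rfl
  refine ⟨T, ⟨?_, C + 1, by linarith, ?_⟩, ?_⟩
  · intro z hz
    rw [mem_closedBall_zero_iff]
    by_contra hlt
    push Not at hlt
    obtain ⟨R, _, h1, h2⟩ := hinv z hlt
    exact hz (isUnit_iff_exists.mpr ⟨R, h1, h2⟩)
  · intro z hz hz2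
    obtain ⟨R, hR, h1, h2⟩ := hinv z hz
    have hres : resolvent T z = R := by
      unfold resolvent
      exact Ring.inverse_unit (⟨_, R, h1, h2⟩ : (HS.{u} →L[ℂ] HS.{u})ˣ)
    rw [hres]
    have hmin : min (‖z‖ - 1) 1 = ‖z‖ - 1 := min_eq_left (by linarith)
    rw [hmin] at hR
    have hpos : 0 < ‖z‖ - 1 := by linarith
    calc ‖R‖ ≤ C * (‖z‖ - 1) ^ (-s) := hR
      _ ≤ (C + 1) * (‖z‖ - 1) ^ (-s) := by
          apply mul_le_mul_of_nonneg_right (by linarith) (by positivity)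
      _ = (C + 1) / (‖z‖ - 1) ^ s := by rw [Real.rpow_neg hpos.le, div_eq_mul_inv]
  · intro n
    have h1 : ‖toEuclideanCLM (n := Fin (n + 1)) (𝕜 := ℂ) (Tm a γ n ^ n)‖ ≤ ‖T ^ n‖ := by
      apply ContinuousLinearMap.opNorm_le_bound _ (norm_nonneg _)
      intro x
      set X : HS.{u} := lp.single 2 (ULift.up n) x with hX
      have hXn : ‖X‖ = ‖x‖ := lp.norm_single (by norm_num) _ _
      have h2 : ((T ^ n) X) (ULift.up n)
          = toEuclideanCLM (n := Fin (n + 1)) (𝕜 := ℂ) (Tm a γ n ^ n) x := by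
        rw [hTpow]
        congr 1
        rw [hX]
        exact lp.single_apply_self _ _ _
      rw [← h2, ← hXn]
      exact le_trans (lp.norm_apply_le_norm (by norm_num) _ _) ((T ^ n).le_opNorm X)
    refine le_trans ?_ h1
    refine le_trans ?_ (entry_le_norm (Tm a γ n ^ n) (Fin.last n) 0)
    rw [Tm_pow, if_pos (by simp)]
    have hw0 : w a γ n 0 = 1 := by
      unfold w; rw [if_pos (by omega)]; simp
    have hwn : w a γ n n = (1 + (n : ℝ)) ^ γ := by
      unfold w
      split_ifs with h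
      · have : n = 0 := by omega
        subst this; simp
      · simp
    rw [Complex.norm_real]
    simp only [Fin.val_last, Fin.val_zero]
    rw [hw0, hwn, div_one]
    exact le_abs_self _

/-- For `α > 1` the growth order `n^α` is attained on Hilbert space. -/
theorem attained {α : ℝ} (hα : 1 < α) :
    ∃ T : HS.{u} →L[ℂ] HS.{u}, ResolventCondition α T ∧ ∀ n : ℕ, (1 + (n : ℝ)) ^ α ≤ ‖T ^ n‖ := by
  obtain ⟨C, hC0, hC⟩ := kernel_bound_A hα
  exact exists_operator (a := α - 1 / 2) (γ := α) hC0 hC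

/-- For `α = 1` every exponent `γ < 1` is attained on Hilbert space. -/
theorem attained_one {γ : ℝ} (hγ0 : 0 < γ) (hγ : γ < 1) :
    ∃ T : HS.{u} →L[ℂ] HS.{u}, ResolventCondition 1 T ∧ ∀ n : ℕ, (1 + (n : ℝ)) ^ γ ≤ ‖T ^ n‖ := by
  obtain ⟨C, hC0, hC⟩ := kernel_bound_B (a := γ / 2) (by linarith) (by linarith)
  refine exists_operator (a := γ / 2) (γ := γ) (s := 1) hC0 ?_
  intro δ hδ hδ1 N
  have := hC δ hδ hδ1 N
  rw [mul_div_cancel₀ _ (by norm_num : (2 : ℝ) ≠ 0)] at this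
  rw [Real.rpow_neg_one]
  exact this

/-- The general upper bound. -/
theorem upper {H : Type u} [NormedAddCommGroup H] [InnerProductSpace ℂ H]
    [CompleteSpace H] {α : ℝ} {T : H →L[ℂ] H} (hT : ResolventCondition α T) :
    ∃ M : ℝ, ∀ n : ℕ, ‖T ^ n‖ ≤ M * (1 + (n : ℝ)) ^ α := by
  obtain ⟨hsp, c, hc, hres⟩ := hT
  have hrad : spectralRadius ℂ T ≤ 1 := by
    unfold spectralRadius
    apply iSup₂_le
    intro z hz
    have := hsp hz
    rw [mem_closedBall_zero_iff] at this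
    exact_mod_cast (show ‖z‖₊ ≤ 1 from this)
  refine ⟨2 * c * Real.exp 1, ?_⟩
  intro n
  have hn1 : (0 : ℝ) < 1 + (n : ℝ) := by positivity
  -- radius
  set ε : ℝ := (1 + (n : ℝ))⁻¹ with hε
  have hε0 : 0 < ε := by positivity
  have hε1 : ε ≤ 1 := inv_le_one_of_one_le₀ (by
    have : (0 : ℝ) ≤ n := Nat.cast_nonneg n
    linarith)
  set r : ℝ := (1 + ε)⁻¹ with hr
  have hr0 : 0 < r := by positivity
  have hr1 : r < 1 := inv_lt_one_of_one_lt₀ (by linarith)
  set f : ℂ → (H →L[ℂ] H) := fun z => Ring.inverse (1 - z • T) with hf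
  obtain ⟨ρ, hρ⟩ : ∃ ρ : NNReal, (ρ : ℝ) = r := ⟨⟨r, hr0.le⟩, rfl⟩
  have hρ0 : 0 < ρ := by
    rw [← NNReal.coe_pos, hρ]; exact hr0
  have hdiff : DifferentiableOn ℂ f (Metric.closedBall 0 (ρ : ℝ)) := by
    apply spectrum.differentiableOn_inverse_one_sub_smul
    have h1 : (ρ : ℝ≥0∞) < 1 := by
      rw [ENNReal.coe_lt_one_iff, ← NNReal.coe_lt_coe, hρ]
      exact hr1
    refine lt_of_lt_of_le h1 ?_
    rw [ENNReal.one_le_inv]
    exact hrad
  have hps := hdiff.hasFPowerSeriesOnBall hρ0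
  have hps2 := spectrum.hasFPowerSeriesOnBall_inverse_one_sub_smul ℂ T
  have heq := hps2.hasFPowerSeriesAt.eq_formalMultilinearSeries hps.hasFPowerSeriesAt
  have h1 : ‖T ^ n‖ = ‖cauchyPowerSeries f 0 r n‖ := by
    have := congrFun heq n
    have h2 : ‖ContinuousMultilinearMap.mkPiRing ℂ (Fin n) (T ^ n)‖ = ‖T ^ n‖ :=
      ContinuousMultilinearMap.norm_mkPiRing _
    rw [← h2, this, hρ]
  rw [h1]
  refine le_trans (norm_cauchyPowerSeries_le f 0 r n) ?_
  -- bound of `f` on the circle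
  have hbound : ∀ θ : ℝ, ‖f (circleMap 0 r θ)‖ ≤ 2 * c * (1 + (n : ℝ)) ^ α := by
    intro θ
    set z := circleMap 0 r θ with hz
    have hznorm : ‖z‖ = r := by rw [hz, norm_circleMap_zero, abs_of_pos hr0]
    have hz0 : z ≠ 0 := by
      intro h; rw [h, norm_zero] at hznorm; linarith
    have hzi : ‖z⁻¹‖ = 1 + ε := by rw [norm_inv, hznorm, hr, inv_inv]
    have e1 : f z = z⁻¹ • resolvent T z⁻¹ := by
      rw [hf]
      simp only
      unfold resolvent
      have hfac : (1 : H →L[ℂ] H) - z • T = z • (algebraMap ℂ (H →L[ℂ] H) z⁻¹ - T) := by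
        rw [smul_sub, Algebra.algebraMap_eq_smul_one, smul_smul, mul_inv_cancel₀ hz0, one_smul]
      rw [hfac]
      have hu : IsUnit (algebraMap ℂ (H →L[ℂ] H) z⁻¹ - T) := by
        by_contra hnu
        have hmem : z⁻¹ ∈ spectrum ℂ T := hnu
        have := hsp hmem
        rw [mem_closedBall_zero_iff, hzi] at this
        linarith
      obtain ⟨U, hU⟩ := hu
      rw [← hU]
      have : z • (U : H →L[ℂ] H) = ((Units.mk0 z hz0 • U : (H →L[ℂ] H)ˣ) : H →L[ℂ] H) := rfl
      rw [this, Ring.inverse_unit, Ring.inverse_unit]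
      rfl
    have hle : ‖resolvent T z⁻¹‖ ≤ c / ε ^ α := by
      have := hres z⁻¹ (by rw [hzi]; linarith) (by rw [hzi]; linarith)
      rw [hzi] at this
      simpa using this
    rw [e1, norm_smul, hzi]
    calc (1 + ε) * ‖resolvent T z⁻¹‖ ≤ 2 * (c / ε ^ α) := by
          apply mul_le_mul (by linarith) hle (norm_nonneg _) (by norm_num)
      _ = 2 * c * (1 + (n : ℝ)) ^ α := by
          rw [hε, Real.inv_rpow hn1.le, div_inv_eq_mul]; ring
  have hint : ∫ θ : ℝ in 0..2 * Real.pi, ‖f (circleMap 0 r θ)‖ ≤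
      2 * Real.pi * (2 * c * (1 + (n : ℝ)) ^ α) := by
    have hpi := Real.pi_pos
    have := intervalIntegral.norm_integral_le_of_norm_le_const (a := 0) (b := 2 * Real.pi)
      (f := fun θ : ℝ => ‖f (circleMap 0 r θ)‖) (C := 2 * c * (1 + (n : ℝ)) ^ α) ?_
    · rw [sub_zero, abs_of_pos (by positivity : (0 : ℝ) < 2 * Real.pi)] at this
      calc _ ≤ ‖∫ θ : ℝ in 0..2 * Real.pi, ‖f (circleMap 0 r θ)‖‖ := le_abs_self _
        _ ≤ _ := this
        _ = _ := by ring
    · intro θ _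
      rw [norm_norm]
      exact hbound θ
  have hrn : |r|⁻¹ ^ n ≤ Real.exp 1 := by
    rw [abs_of_pos hr0, hr, inv_inv]
    calc (1 + ε) ^ n ≤ (Real.exp ε) ^ n := by
          apply pow_le_pow_left₀ (by positivity)
          have := Real.add_one_le_exp ε
          linarith
      _ = Real.exp (n * ε) := by rw [← Real.exp_nat_mul]
      _ ≤ Real.exp 1 := by
          apply Real.exp_le_exp.mpr
          rw [hε, ← div_eq_mul_inv, div_le_one hn1]
          linarith
  have hpi := Real.pi_pos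
  have hA : (0 : ℝ) ≤ 2 * c * (1 + (n : ℝ)) ^ α := by positivity
  calc ((2 * Real.pi)⁻¹ * ∫ θ : ℝ in 0..2 * Real.pi, ‖f (circleMap 0 r θ)‖) * |r|⁻¹ ^ n
      ≤ ((2 * Real.pi)⁻¹ * (2 * Real.pi * (2 * c * (1 + (n : ℝ)) ^ α))) * Real.exp 1 := by
        apply mul_le_mul _ hrn (by positivity) (by positivity)
        exact mul_le_mul_of_nonneg_left hint (by positivity)
    _ = 2 * c * Real.exp 1 * (1 + (n : ℝ)) ^ α := by
        rw [← mul_assoc, inv_mul_cancel₀ (by positivity), one_mul]; ring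

end Pool.Agent.Helper65.RG
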