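import Mathlib

open Complex MeasureTheory Filter Topology
open scoped BigOperators

namespace Pool.Agent.Helper65.BL

/-- Normalised Haar measure on the circle `ℝ/ℤ`. -/
noncomputable def hm : Measure UnitAddCircle := AddCircle.haarAddCircle

instance : IsProbabilityMeasure hm := inferInstanceAs (IsProbabilityMeasure AddCircle.haarAddCircle)

variable {ι : Type*} [Fintype ι]

/-- Product measure on the torus. -/
noncomputable def PT (ι : Type*) [Fintype ι] : Measure (ι → UnitAddCircle) :=
  Measure.pi (fun _ => hm)

instance : IsProbabilityMeasure (PT ι) := by unfold PT; infer_instance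

lemma integral_fourier (n : ℤ) : ∫ y, fourier n y ∂hm = if n = 0 then 1 else 0 := by
  have h := congrFun (fourierCoeff_fourier (T := (1 : ℝ)) n) 0
  unfold fourierCoeff at h
  simp only [neg_zero, fourier_zero, one_smul] at h
  unfold hm
  rw [h]
  by_cases hn : n = 0
  · subst hn; simp
  · rw [Pi.single_eq_of_ne (Ne.symm hn), if_neg hn]

lemma integral_mFourier (n : ι → ℤ) :
    ∫ y, UnitAddTorus.mFourier n y ∂(PT ι) = if n = 0 then 1 else 0 := by
  unfold PT
  have : (fun y : ι → UnitAddCircle => UnitAddTorus.mFourier n y) =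
      fun y => ∏ i, fourier (n i) (y i) := rfl
  rw [this, integral_fintype_prod_eq_prod (fun i y => (fourier (n i) y : ℂ))]
  simp only [integral_fourier]
  by_cases hn : n = 0
  · subst hn; simp
  · rw [if_neg hn]
    obtain ⟨i, hi⟩ : ∃ i, n i ≠ 0 := by
      by_contra hcon
      push Not at hcon
      exact hn (funext hcon)
    exact Finset.prod_eq_zero (Finset.mem_univ i) (if_neg hi)

/-- The flow on the torus with frequencies `log q_i`. -/
noncomputable def flow (q : ι → ℕ) (t : ℝ) : ι → UnitAddCircle :=
  fun i => ((-(t * Real.log (q i)) / (2 * Real.pi) : ℝ) : UnitAddCircle)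

lemma flow_continuous (q : ι → ℕ) : Continuous (flow q) := by
  unfold flow
  apply continuous_pi
  intro i
  apply (AddCircle.continuous_mk' (1 : ℝ)).comp
  fun_prop

lemma fourier_flow (q : ι → ℕ) (t : ℝ) (i : ι) (n : ℤ) :
    fourier n (flow q t i) = Complex.exp (-(n * (t * Real.log (q i)) : ℝ) * I) := by
  unfold flow
  rw [fourier_coe_apply]
  congr 1
  have hpi : (Real.pi : ℂ) ≠ 0 := by exact_mod_cast Real.pi_ne_zero
  push_cast
  field_simp

lemma mFourier_flow (q : ι → ℕ) (t : ℝ) (n : ι → ℤ) :
    UnitAddTorus.mFourier n (flow q t) =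
      Complex.exp (-(t * ∑ i, n i * Real.log (q i) : ℝ) * I) := by
  have : UnitAddTorus.mFourier n (flow q t) = ∏ i, fourier (n i) (flow q t i) := rfl
  rw [this]
  simp only [fourier_flow]
  rw [← Complex.exp_sum]
  congr 1
  rw [← Finset.sum_mul]
  congr 1
  push_cast
  rw [Finset.mul_sum, ← Finset.sum_neg_distrib]
  apply Finset.sum_congr rfl
  intro i _
  ring

/-- Logarithms of distinct primes are linearly independent over the integers. -/
lemma log_primes_indep {q : ι → ℕ} (hq : ∀ i, (q i).Prime) (hinj : Function.Injective q)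
    {n : ι → ℤ} (h : ∑ i, (n i : ℝ) * Real.log (q i) = 0) : n = 0 := by
  classical
  -- positive and negative parts
  have hnat : ∏ i, (q i) ^ (n i).toNat = ∏ i, (q i) ^ (-(n i)).toNat := by
    have hR : ∏ i, ((q i : ℝ)) ^ (n i).toNat = ∏ i, ((q i : ℝ)) ^ (-(n i)).toNat := by
      apply Real.log_injOn_pos
      · exact Set.mem_Ioi.mpr (Finset.prod_pos fun i _ => by have := (hq i).pos; positivity)
      · exact Set.mem_Ioi.mpr (Finset.prod_pos fun i _ => by have := (hq i).pos; positivity)
      · rw [Real.log_prod, Real.log_prod]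
        · simp only [Real.log_pow]
          rw [← sub_eq_zero, ← Finset.sum_sub_distrib, ← h]
          apply Finset.sum_congr rfl
          intro i _
          rw [← sub_mul]
          congr 1
          have := Int.toNat_sub_toNat_neg (n i)
          exact_mod_cast this
        · intro i _; have := (hq i).pos; positivity
        · intro i _; have := (hq i).pos; positivity
    exact_mod_cast hR
  funext j
  have h1 : (∏ i, (q i) ^ (n i).toNat).factorization (q j) =
      (∏ i, (q i) ^ (-(n i)).toNat).factorization (q j) := by rw [hnat]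
  have h2 : ∀ e : ι → ℕ, (∏ i, (q i) ^ e i).factorization (q j) = e j := by
    intro e
    rw [Nat.factorization_prod (fun i _ => pow_ne_zero _ (hq i).ne_zero), Finsupp.finsetSum_apply,
      Finset.sum_eq_single j]
    · rw [(hq j).factorization_pow, Finsupp.single_eq_same]
    · intro i _ hij
      rw [(hq i).factorization_pow, Finsupp.single_eq_of_ne]
      intro h
      exact hij (hinj h.symm)
    · intro h; exact absurd (Finset.mem_univ j) h
  rw [h2, h2] at h1
  simp only [Pi.zero_apply]
  omega

/-- mean over `[-T, T]` -/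
noncomputable def meanT (T : ℝ) (f : ℝ → ℂ) : ℂ := (1 / (2 * T) : ℝ) • ∫ t in (-T)..T, f t

lemma meanT_exp {lam : ℝ} (hl : lam ≠ 0) :
    Tendsto (fun T : ℝ => meanT T (fun t => Complex.exp (-(t * lam : ℝ) * I))) atTop (𝓝 0) := by
  have hb : ∀ T : ℝ, 0 < T → ‖meanT T (fun t => Complex.exp (-(t * lam : ℝ) * I))‖ ≤
      |lam|⁻¹ * T⁻¹ := by
    intro T hT
    have hc : (-(lam : ℂ) * I) ≠ 0 := by
      simp [hl]
    have e : ∫ t in (-T)..T, Complex.exp (-(t * lam : ℝ) * I) =
        (Complex.exp ((-(lam : ℂ) * I) * T) - Complex.exp ((-(lam : ℂ) * I) * (-T : ℝ))) / (-(lam : ℂ) * I) := by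
      rw [← integral_exp_mul_complex hc]
      apply intervalIntegral.integral_congr
      intro t _
      simp only
      congr 1
      push_cast
      ring
    unfold meanT
    rw [e, norm_smul]
    have h1 : ∀ s : ℝ, ‖Complex.exp ((-(lam : ℂ) * I) * s)‖ = 1 := by
      intro s
      rw [Complex.norm_exp]
      simp
    have h2 : ‖Complex.exp ((-(lam : ℂ) * I) * T) - Complex.exp ((-(lam : ℂ) * I) * (-T : ℝ))‖ ≤ 2 := by
      refine le_trans (norm_sub_le _ _) ?_
      rw [h1, h1]; norm_num
    have h3 : ‖(-(lam : ℂ) * I)‖ = |lam| := by simp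
    rw [norm_div (Complex.exp ((-(lam : ℂ) * I) * T) - Complex.exp ((-(lam : ℂ) * I) * (-T : ℝ))), h3,
      Real.norm_of_nonneg (by positivity)]
    have hlpos : 0 < |lam| := abs_pos.mpr hl
    calc 1 / (2 * T) * (‖Complex.exp ((-(lam : ℂ) * I) * T) - Complex.exp ((-(lam : ℂ) * I) * (-T : ℝ))‖ / |lam|)
        ≤ 1 / (2 * T) * (2 / |lam|) := by gcongr
      _ = |lam|⁻¹ * T⁻¹ := by field_simp
  rw [tendsto_zero_iff_norm_tendsto_zero]
  refine tendsto_of_tendsto_of_tendsto_of_le_of_le' tendsto_const_nhds
    (?_ : Tendsto (fun T : ℝ => |lam|⁻¹ * T⁻¹) atTop (𝓝 0)) (Eventually.of_forall fun _ => norm_nonneg _) ?_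
  · have := tendsto_inv_atTop_zero (𝕜 := ℝ)
    simpa using this.const_mul (|lam|⁻¹)
  · filter_upwards [eventually_gt_atTop 0] with T hT
    exact hb T hT

/-- Kronecker-Weyl equidistribution for the flow with frequencies `log q_i`. -/
theorem equidist {q : ι → ℕ} (hq : ∀ i, (q i).Prime) (hinj : Function.Injective q)
    (h : C(UnitAddTorus ι, ℂ)) :
    Tendsto (fun T : ℝ => meanT T (fun t => h (flow q t))) atTop (𝓝 (∫ y, h y ∂(PT ι))) := by
  -- step 1: finite combinations of characters
  have hspan : ∀ g ∈ Submodule.span ℂ (Set.range (UnitAddTorus.mFourier (d := ι))),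
      Tendsto (fun T : ℝ => meanT T (fun t => g (flow q t))) atTop (𝓝 (∫ y, g y ∂(PT ι))) := by
    intro g hg
    induction hg using Submodule.span_induction with
    | mem x hx =>
      obtain ⟨n, rfl⟩ := hx
      rw [integral_mFourier]
      simp only [mFourier_flow]
      by_cases hn : n = 0
      · subst hn
        rw [if_pos rfl]
        refine tendsto_const_nhds.congr' ?_
        filter_upwards [eventually_gt_atTop 0] with T hT
        unfold meanT
        simp only [Pi.zero_apply, Int.cast_zero, zero_mul, Finset.sum_const_zero, mul_zero,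
          Complex.ofReal_zero, neg_zero, Complex.exp_zero, intervalIntegral.integral_const]
        rw [smul_smul]
        have : (1 / (2 * T)) * (T - -T) = 1 := by field_simp; ring
        rw [this, one_smul]
      · rw [if_neg hn]
        apply meanT_exp
        intro h0
        exact hn (log_primes_indep hq hinj h0)
    | zero =>
      simp only [ContinuousMap.zero_apply, integral_zero]
      unfold meanT
      simp
    | add x y _ _ hx hy =>
      have h1 := hx.add hy
      have e1 : (∫ y_1, x y_1 ∂(PT ι)) + ∫ y_1, y y_1 ∂(PT ι) = ∫ y_1, (x + y) y_1 ∂(PT ι) := by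
        rw [← integral_add]
        · rfl
        · exact x.continuous.integrable_of_hasCompactSupport (HasCompactSupport.of_compactSpace _)
        · exact y.continuous.integrable_of_hasCompactSupport (HasCompactSupport.of_compactSpace _)
      rw [e1] at h1
      refine h1.congr ?_
      intro T
      unfold meanT
      rw [← smul_add, ← intervalIntegral.integral_add]
      · rfl
      · exact (x.continuous.comp (flow_continuous q)).intervalIntegrable _ _
      · exact (y.continuous.comp (flow_continuous q)).intervalIntegrable _ _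
    | smul a x _ hx =>
      have h1 := hx.const_smul a
      have e1 : a • (∫ y_1, x y_1 ∂(PT ι)) = ∫ y_1, (a • x) y_1 ∂(PT ι) := by
        rw [← integral_smul]; rfl
      rw [e1] at h1
      refine h1.congr ?_
      intro T
      unfold meanT
      rw [smul_comm, ← intervalIntegral.integral_smul]
      rfl
  -- step 2: density
  rw [Metric.tendsto_atTop]
  intro ε hε
  have hdense : h ∈ (Submodule.span ℂ (Set.range (UnitAddTorus.mFourier (d := ι)))).topologicalClosure := by
    rw [UnitAddTorus.span_mFourier_closure_eq_top]; trivial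
  have hdense' : h ∈ closure ((Submodule.span ℂ (Set.range (UnitAddTorus.mFourier (d := ι)))) :
      Set C(UnitAddTorus ι, ℂ)) := hdense
  obtain ⟨g, hg, hgd⟩ := Metric.mem_closure_iff.mp hdense' (ε / 3) (by positivity)
  have hsup : ∀ y, ‖h y - g y‖ ≤ ε / 3 := by
    intro y
    have := (h - g).norm_coe_le_norm y
    rw [dist_eq_norm] at hgd
    exact le_trans this hgd.le
  obtain ⟨T1, hT1⟩ := (Metric.tendsto_atTop.mp (hspan g hg)) (ε / 3) (by positivity)
  refine ⟨max T1 1, ?_⟩
  intro T hT
  have hT1' : T1 ≤ T := le_trans (le_max_left _ _) hT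
  have hTpos : 0 < T := lt_of_lt_of_le one_pos (le_trans (le_max_right _ _) hT)
  have h1 := hT1 T hT1'
  have h2 : ‖meanT T (fun t => h (flow q t)) - meanT T (fun t => g (flow q t))‖ ≤ ε / 3 := by
    unfold meanT
    rw [← smul_sub, ← intervalIntegral.integral_sub]
    · rw [norm_smul, Real.norm_of_nonneg (by positivity)]
      have := intervalIntegral.norm_integral_le_of_norm_le_const (a := -T) (b := T)
        (f := fun t => h (flow q t) - g (flow q t)) (C := ε / 3) (fun t _ => hsup _)
      rw [abs_of_pos (by linarith : 0 < T - -T)] at this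
      calc 1 / (2 * T) * ‖∫ t in (-T)..T, h (flow q t) - g (flow q t)‖
          ≤ 1 / (2 * T) * (ε / 3 * (T - -T)) := mul_le_mul_of_nonneg_left this (by positivity)
        _ = ε / 3 := by field_simp; ring
    · exact (h.continuous.comp (flow_continuous q)).intervalIntegrable _ _
    · exact (g.continuous.comp (flow_continuous q)).intervalIntegrable _ _
  have hint : ∀ f : C(UnitAddTorus ι, ℂ), Integrable (fun y => f y) (PT ι) := fun f =>
    f.continuous.integrable_of_hasCompactSupport (HasCompactSupport.of_compactSpace _)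
  have h3 : ‖(∫ y, g y ∂(PT ι)) - ∫ y, h y ∂(PT ι)‖ ≤ ε / 3 := by
    rw [← integral_sub (hint g) (hint h)]
    have := norm_integral_le_of_norm_le_const (μ := PT ι) (f := fun y => g y - h y) (C := ε / 3)
      (ae_of_all _ fun y => by rw [norm_sub_rev]; exact hsup y)
    simpa using this
  rw [dist_eq_norm] at h1 ⊢
  calc ‖meanT T (fun t => h (flow q t)) - ∫ y, h y ∂(PT ι)‖
      = ‖(meanT T (fun t => h (flow q t)) - meanT T (fun t => g (flow q t))) +
        (meanT T (fun t => g (flow q t)) - ∫ y, g y ∂(PT ι)) +
        ((∫ y, g y ∂(PT ι)) - ∫ y, h y ∂(PT ι))‖ := by congr 1; ring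
    _ ≤ ‖meanT T (fun t => h (flow q t)) - meanT T (fun t => g (flow q t))‖ +
        ‖meanT T (fun t => g (flow q t)) - ∫ y, g y ∂(PT ι)‖ +
        ‖(∫ y, g y ∂(PT ι)) - ∫ y, h y ∂(PT ι)‖ := norm_add₃_le
    _ < ε := by linarith

end Pool.Agent.Helper65.BL
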