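import Mathlib
import Pool.Agent.Helper65.BL2

open Complex MeasureTheory Filter Topology
open scoped BigOperators

namespace Pool.Agent.Helper65.BL

/-- Dirichlet polynomials as functions. -/
def IsDP (D : ℂ → ℂ) : Prop :=
  ∃ (N : ℕ) (c : ℕ → ℂ), ∀ s : ℂ, D s = ∑ n ∈ Finset.Icc 1 N, c n * (n : ℂ) ^ (-s)

lemma IsDP.zero : IsDP (fun _ => 0) := ⟨0, fun _ => 0, fun s => by simp⟩

lemma IsDP.monomial (a : ℂ) {n : ℕ} (hn : 1 ≤ n) : IsDP (fun s => a * (n : ℂ) ^ (-s)) := by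
  refine ⟨n, fun k => if k = n then a else 0, fun s => ?_⟩
  rw [Finset.sum_eq_single n]
  · simp
  · intro b _ hb
    simp [hb]
  · intro h
    exact absurd (Finset.mem_Icc.mpr ⟨hn, le_rfl⟩) h

lemma IsDP.const (a : ℂ) : IsDP (fun _ => a) := by
  have := IsDP.monomial a (n := 1) le_rfl
  simpa using this

lemma IsDP.add {D E : ℂ → ℂ} (hD : IsDP D) (hE : IsDP E) : IsDP (fun s => D s + E s) := by
  obtain ⟨N, c, hc⟩ := hD
  obtain ⟨M, d, hd⟩ := hE
  refine ⟨max N M, fun n => (if n ≤ N then c n else 0) + (if n ≤ M then d n else 0), fun s => ?_⟩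
  simp only [hc, hd, add_mul]
  rw [Finset.sum_add_distrib]
  congr 1
  · symm
    have hsub : Finset.Icc 1 N ⊆ Finset.Icc 1 (max N M) := Finset.Icc_subset_Icc_right (le_max_left _ _)
    rw [← Finset.sum_subset hsub]
    · apply Finset.sum_congr rfl
      intro n hn
      rw [if_pos (Finset.mem_Icc.mp hn).2]
    · intro n hn hn'
      have h1 : ¬ n ≤ N := by
        intro h
        exact hn' (Finset.mem_Icc.mpr ⟨(Finset.mem_Icc.mp hn).1, h⟩)
      rw [if_neg h1, zero_mul]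
  · symm
    have hsub : Finset.Icc 1 M ⊆ Finset.Icc 1 (max N M) := Finset.Icc_subset_Icc_right (le_max_right _ _)
    rw [← Finset.sum_subset hsub]
    · apply Finset.sum_congr rfl
      intro n hn
      rw [if_pos (Finset.mem_Icc.mp hn).2]
    · intro n hn hn'
      have h1 : ¬ n ≤ M := by
        intro h
        exact hn' (Finset.mem_Icc.mpr ⟨(Finset.mem_Icc.mp hn).1, h⟩)
      rw [if_neg h1, zero_mul]

lemma IsDP.const_mul {D : ℂ → ℂ} (a : ℂ) (hD : IsDP D) : IsDP (fun s => a * D s) := by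
  obtain ⟨N, c, hc⟩ := hD
  refine ⟨N, fun n => a * c n, fun s => ?_⟩
  simp only [hc]
  rw [Finset.mul_sum]
  apply Finset.sum_congr rfl
  intro n _
  ring

lemma IsDP.sum {α : Type*} (S : Finset α) {D : α → ℂ → ℂ} (h : ∀ i ∈ S, IsDP (D i)) :
    IsDP (fun s => ∑ i ∈ S, D i s) := by
  classical
  induction S using Finset.induction_on with
  | empty => simpa using IsDP.zero
  | insert a S ha ih =>
    simp only [Finset.sum_insert ha]
    exact (h a (Finset.mem_insert_self _ _)).add (ih fun i hi => h i (Finset.mem_insert_of_mem hi))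

lemma IsDP.mul {D E : ℂ → ℂ} (hD : IsDP D) (hE : IsDP E) : IsDP (fun s => D s * E s) := by
  obtain ⟨N, c, hc⟩ := hD
  obtain ⟨M, d, hd⟩ := hE
  have e : (fun s => D s * E s) = fun s => ∑ n ∈ Finset.Icc 1 N, ∑ k ∈ Finset.Icc 1 M,
      (c n * d k) * ((n * k : ℕ) : ℂ) ^ (-s) := by
    funext s
    rw [hc, hd, Finset.sum_mul]
    apply Finset.sum_congr rfl
    intro n _
    rw [Finset.mul_sum]
    apply Finset.sum_congr rfl
    intro k _
    rw [Nat.cast_mul, Complex.natCast_mul_natCast_cpow]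
    ring
  rw [e]
  apply IsDP.sum
  intro n hn
  apply IsDP.sum
  intro k hk
  apply IsDP.monomial
  have h1 := (Finset.mem_Icc.mp hn).1
  have h2 := (Finset.mem_Icc.mp hk).1
  exact Nat.mul_pos h1 h2

lemma IsDP.prod {α : Type*} (S : Finset α) {D : α → ℂ → ℂ} (h : ∀ i ∈ S, IsDP (D i)) :
    IsDP (fun s => ∏ i ∈ S, D i s) := by
  classical
  induction S using Finset.induction_on with
  | empty => simpa using IsDP.const 1
  | insert a S ha ih =>
    simp only [Finset.prod_insert ha]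
    exact (h a (Finset.mem_insert_self _ _)).mul (ih fun i hi => h i (Finset.mem_insert_of_mem hi))

lemma IsDP.sub {D E : ℂ → ℂ} (hD : IsDP D) (hE : IsDP E) : IsDP (fun s => D s - E s) := by
  have := hD.add (hE.const_mul (-1))
  refine Eq.mp ?_ this
  congr 1
  funext s
  ring

lemma IsDP.differentiable {D : ℂ → ℂ} (hD : IsDP D) : Differentiable ℂ D := by
  obtain ⟨N, c, hc⟩ := hD
  have e : D = fun s => ∑ n ∈ Finset.Icc 1 N, c n * (n : ℂ) ^ (-s) := funext hc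
  rw [e]
  apply Differentiable.fun_sum
  intro n hn
  apply Differentiable.const_mul
  apply Differentiable.const_cpow
  · fun_prop
  · left
    have := (Finset.mem_Icc.mp hn).1
    exact_mod_cast (by omega : n ≠ 0)

lemma IsDP.continuous {D : ℂ → ℂ} (hD : IsDP D) : Continuous D := hD.differentiable.continuous

/-- Upper bound for the mean value of `|D(it)|^{1/2}`. -/
def MeanLe (D : ℂ → ℂ) (B : ℝ) : Prop :=
  ∀ ε : ℝ, 0 < ε → ∃ T₀ : ℝ, 0 < T₀ ∧ ∀ T ≥ T₀,
    (1 / (2 * T)) * ∫ t in (-T)..T, ‖D ((t : ℂ) * Complex.I)‖ ^ (1 / 2 : ℝ) < B + ε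

lemma MeanLe.mono {D : ℂ → ℂ} {B C : ℝ} (h : MeanLe D B) (hBC : B ≤ C) : MeanLe D C := by
  intro ε hε
  obtain ⟨T₀, h0, h1⟩ := h ε hε
  exact ⟨T₀, h0, fun T hT => lt_of_lt_of_le (h1 T hT) (by linarith)⟩

lemma cont_half {D : ℂ → ℂ} (hD : Continuous D) :
    Continuous (fun t : ℝ => ‖D ((t : ℂ) * Complex.I)‖ ^ (1 / 2 : ℝ)) := by
  apply Continuous.rpow_const
  · apply Continuous.norm
    apply hD.comp
    fun_prop
  · intro t
    right
    norm_num

lemma MeanLe.add {D E : ℂ → ℂ} {B C : ℝ} (hDc : Continuous D) (hEc : Continuous E)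
    (hD : MeanLe D B) (hE : MeanLe E C) : MeanLe (fun s => D s + E s) (B + C) := by
  intro ε hε
  obtain ⟨T₀, h0, h1⟩ := hD (ε / 2) (by positivity)
  obtain ⟨T₁, h0', h1'⟩ := hE (ε / 2) (by positivity)
  refine ⟨max T₀ T₁, lt_of_lt_of_le h0 (le_max_left _ _), fun T hT => ?_⟩
  have a1 := h1 T (le_trans (le_max_left _ _) hT)
  have a2 := h1' T (le_trans (le_max_right _ _) hT)
  have hTpos : 0 < T := lt_of_lt_of_le h0 (le_trans (le_max_left _ _) hT)
  have i1 := (cont_half hDc).intervalIntegrable (μ := volume) (-T) T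
  have i2 := (cont_half hEc).intervalIntegrable (μ := volume) (-T) T
  have i3 := (cont_half (hDc.add hEc)).intervalIntegrable (μ := volume) (-T) T
  have h3 : ∫ t in (-T)..T, ‖D ((t : ℂ) * Complex.I) + E ((t : ℂ) * Complex.I)‖ ^ (1 / 2 : ℝ) ≤
      (∫ t in (-T)..T, ‖D ((t : ℂ) * Complex.I)‖ ^ (1 / 2 : ℝ)) +
        ∫ t in (-T)..T, ‖E ((t : ℂ) * Complex.I)‖ ^ (1 / 2 : ℝ) := by
    rw [← intervalIntegral.integral_add i1 i2]
    apply intervalIntegral.integral_mono_on (by linarith) i3 (i1.add i2)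
    intro t _
    calc ‖D ((t : ℂ) * Complex.I) + E ((t : ℂ) * Complex.I)‖ ^ (1 / 2 : ℝ)
        ≤ (‖D ((t : ℂ) * Complex.I)‖ + ‖E ((t : ℂ) * Complex.I)‖) ^ (1 / 2 : ℝ) := by
          apply Real.rpow_le_rpow (norm_nonneg _) (norm_add_le _ _) (by norm_num)
      _ ≤ _ := Real.rpow_add_le_add_rpow (norm_nonneg _) (norm_nonneg _) (by norm_num) (by norm_num)
  have hpos : 0 ≤ 1 / (2 * T) := by positivity
  calc (1 / (2 * T)) * ∫ t in (-T)..T, ‖D ((t : ℂ) * Complex.I) + E ((t : ℂ) * Complex.I)‖ ^ (1 / 2 : ℝ)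
      ≤ (1 / (2 * T)) * ((∫ t in (-T)..T, ‖D ((t : ℂ) * Complex.I)‖ ^ (1 / 2 : ℝ)) +
        ∫ t in (-T)..T, ‖E ((t : ℂ) * Complex.I)‖ ^ (1 / 2 : ℝ)) := mul_le_mul_of_nonneg_left h3 hpos
    _ < B + C + ε := by rw [mul_add]; linarith

variable {ι : Type*} [Fintype ι]

/-- Transfer from the torus. -/
lemma meanLe_of_torus {q : ι → ℕ} (hq : ∀ i, (q i).Prime) (hinj : Function.Injective q)
    {D : ℂ → ℂ} {Ψ : (ι → UnitAddCircle) → ℂ} (hΨ : Continuous Ψ)
    (h : ∀ t : ℝ, D ((t : ℂ) * Complex.I) = Ψ (flow q t)) :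
    MeanLe D (∫ y, ‖Ψ y‖ ^ (1 / 2 : ℝ) ∂(PT ι)) := by
  intro ε hε
  have hc : Continuous (fun y => ((‖Ψ y‖ ^ (1 / 2 : ℝ) : ℝ) : ℂ)) := by
    apply Complex.continuous_ofReal.comp
    apply Continuous.rpow_const hΨ.norm
    intro y; right; norm_num
  have h1 := equidist hq hinj (⟨_, hc⟩ : C(UnitAddTorus ι, ℂ))
  rw [Metric.tendsto_atTop] at h1
  obtain ⟨T₁, hT₁⟩ := h1 ε hε
  refine ⟨max T₁ 1, lt_of_lt_of_le one_pos (le_max_right _ _), fun T hT => ?_⟩
  have h2 := hT₁ T (le_trans (le_max_left _ _) hT)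
  simp only [ContinuousMap.coe_mk] at h2
  unfold meanT at h2
  have h3 : ∫ t in (-T)..T, ((‖Ψ (flow q t)‖ ^ (1 / 2 : ℝ) : ℝ) : ℂ) =
      ((∫ t in (-T)..T, ‖Ψ (flow q t)‖ ^ (1 / 2 : ℝ) : ℝ) : ℂ) := intervalIntegral.integral_ofReal
  rw [h3, integral_complex_ofReal, dist_eq_norm, Complex.real_smul, ← Complex.ofReal_mul, ← Complex.ofReal_sub,
    Complex.norm_real, Real.norm_eq_abs, abs_lt] at h2
  have h4 : ∫ t in (-T)..T, ‖D ((t : ℂ) * Complex.I)‖ ^ (1 / 2 : ℝ) =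
      ∫ t in (-T)..T, ‖Ψ (flow q t)‖ ^ (1 / 2 : ℝ) := by
    apply intervalIntegral.integral_congr
    intro t _
    simp only [h]
  rw [h4]
  linarith [h2.2]

end Pool.Agent.Helper65.BL
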