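import Mathlib
import Pool.Agent.Helper65.BL2
open Complex MeasureTheory Filter Topology
open scoped BigOperators
namespace Pool.Agent.Helper65.BL

/-- squared modulus of the factor -/
noncomputable def gg (c : ℂ) (y : UnitAddCircle) : ℝ := ‖1 + c * fourier 1 y‖ ^ 2

/-- linear part -/
noncomputable def aa (c : ℂ) (y : UnitAddCircle) : ℝ := (c * fourier 1 y).re

lemma norm_fourier_one (n : ℤ) (y : UnitAddCircle) : ‖(fourier n y : ℂ)‖ = 1 := by
  rw [fourier_apply]; exact Circle.norm_coe _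

lemma gg_eq (c : ℂ) (y : UnitAddCircle) : gg c y = 1 + 2 * aa c y + ‖c‖ ^ 2 := by
  unfold gg aa
  have h : ‖c‖ ^ 2 = ‖c * fourier 1 y‖ ^ 2 := by rw [norm_mul, norm_fourier_one, mul_one]
  rw [h, ← Complex.normSq_eq_norm_sq, ← Complex.normSq_eq_norm_sq, Complex.normSq_apply,
    Complex.normSq_apply]
  simp only [Complex.add_re, Complex.one_re, Complex.add_im, Complex.one_im]
  ring

lemma abs_aa_le (c : ℂ) (y : UnitAddCircle) : |aa c y| ≤ ‖c‖ := by
  unfold aa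
  refine le_trans (Complex.abs_re_le_norm _) ?_
  rw [norm_mul, norm_fourier_one, mul_one]

lemma gg_pos {c : ℂ} (hc : ‖c‖ < 1) (y : UnitAddCircle) : 0 < gg c y := by
  have h1 := abs_le.mp (abs_aa_le c y)
  rw [gg_eq]
  nlinarith [h1.1, h1.2]

lemma gg_continuous (c : ℂ) : Continuous (gg c) := by
  unfold gg
  fun_prop

lemma aa_continuous (c : ℂ) : Continuous (aa c) := by
  unfold aa
  fun_prop

lemma aa_shift (c : ℂ) (y : UnitAddCircle) : aa c (y + ((1 / 2 : ℝ) : UnitAddCircle)) = - aa c y := by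
  have h := fourier_add_half_inv_index (T := (1 : ℝ)) (n := 1) one_ne_zero one_pos y
  have e : ((1 : ℝ) / 2 / ((1 : ℤ) : ℝ)) = 1 / 2 := by norm_num
  rw [e] at h
  unfold aa
  rw [h]
  simp

lemma integrable_hm {E : Type*} [NormedAddCommGroup E] {f : UnitAddCircle → E} (hf : Continuous f) :
    Integrable f hm :=
  hf.integrable_of_hasCompactSupport (HasCompactSupport.of_compactSpace _)

lemma integral_shift {E : Type*} [NormedAddCommGroup E] [NormedSpace ℝ E] (f : UnitAddCircle → E) (h : UnitAddCircle) :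
    ∫ y, f (y + h) ∂hm = ∫ y, f y ∂hm := by
  unfold hm
  exact integral_add_right_eq_self f h

lemma integral_aa_sq (c : ℂ) : ∫ y, (aa c y) ^ 2 ∂hm = ‖c‖ ^ 2 / 2 := by
  have h1 : ∀ y, (aa c y) ^ 2 = ‖c‖ ^ 2 / 2 + ((c ^ 2 / 2) * fourier 2 y).re := by
    intro y
    have h2 : (fourier 2 y : ℂ) = fourier 1 y * fourier 1 y := by
      rw [← fourier_add]; norm_num
    have h3 : ‖c‖ ^ 2 = ‖c * fourier 1 y‖ ^ 2 := by rw [norm_mul, norm_fourier_one, mul_one]
    rw [h3, h2]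
    have h4 : c ^ 2 / 2 * ((fourier 1 y : ℂ) * fourier 1 y) = (c * fourier 1 y) * (c * fourier 1 y) / 2 := by ring
    rw [h4, ← Complex.normSq_eq_norm_sq, Complex.normSq_apply]
    unfold aa
    have h5 : ((c * fourier 1 y) * (c * fourier 1 y) / 2).re =
      ((c * fourier 1 y).re * (c * fourier 1 y).re - (c * fourier 1 y).im * (c * fourier 1 y).im) / 2 := by
      rw [← Complex.mul_re]
      simp
    rw [h5]; ring
  simp only [h1]
  rw [integral_add (integrable_const _)]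
  · have h6 : ∫ y, ((c ^ 2 / 2) * (fourier 2 y : ℂ)).re ∂hm = (∫ y, (c ^ 2 / 2) * (fourier 2 y : ℂ) ∂hm).re := by
      have := integral_re (μ := hm) (f := fun y => (c ^ 2 / 2) * (fourier 2 y : ℂ)) (integrable_hm (by fun_prop))
      exact this
    rw [h6, integral_const_mul, integral_fourier]
    simp
  · apply integrable_hm
    fun_prop

lemma integral_gg (c : ℂ) : ∫ y, gg c y ∂hm = 1 + ‖c‖ ^ 2 := by
  have h1 : ∀ y, gg c y = (1 + ‖c‖ ^ 2) + (2 * c * fourier 1 y).re := by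
    intro y
    rw [gg_eq]; unfold aa
    have : (2 * c * fourier 1 y).re = 2 * (c * fourier 1 y).re := by
      rw [mul_assoc]; simp
    rw [this]; ring
  simp only [h1]
  rw [integral_add (integrable_const _)]
  · have h6 : ∫ y, (2 * c * (fourier 1 y : ℂ)).re ∂hm = (∫ y, 2 * c * (fourier 1 y : ℂ) ∂hm).re := by
      have := integral_re (μ := hm) (f := fun y => 2 * c * (fourier 1 y : ℂ)) (integrable_hm (by fun_prop))
      exact this
    rw [h6, integral_const_mul, integral_fourier]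
    simp
  · apply integrable_hm
    fun_prop

lemma pair_bound {g g' α β : ℝ} (hg : 0 < g) (hg' : 0 < g') :
    ‖(g : ℂ) * Complex.exp (α * I) + g' * Complex.exp (β * I)‖ ≤
      g + g' - g * g' * (1 - Real.cos (α - β)) / (g + g') := by
  set D := g * g' * (1 - Real.cos (α - β)) / (g + g') with hD
  have hs : 0 < g + g' := by linarith
  have hcos := Real.neg_one_le_cos (α - β)
  have hcos' := Real.cos_le_one (α - β)
  have hDs : D * (g + g') = g * g' * (1 - Real.cos (α - β)) := by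
    rw [hD]; field_simp
  have hgg : 0 < g * g' := mul_pos hg hg'
  have hD0 : 0 ≤ D := by
    rw [hD]
    apply div_nonneg _ hs.le
    apply mul_nonneg hgg.le
    linarith
  have hDle : D ≤ g + g' := by
    rw [hD, div_le_iff₀ hs]
    nlinarith [sq_nonneg (g - g')]
  have hsq : ‖(g : ℂ) * Complex.exp (α * I) + g' * Complex.exp (β * I)‖ ^ 2 =
      g ^ 2 + g' ^ 2 + 2 * (g * g') * Real.cos (α - β) := by
    rw [← Complex.normSq_eq_norm_sq, Complex.normSq_apply, Complex.exp_ofReal_mul_I, Complex.exp_ofReal_mul_I]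
    simp only [Complex.add_re, Complex.mul_re, Complex.ofReal_re, Complex.ofReal_im, Complex.add_im,
      Complex.mul_im, zero_mul, sub_zero, add_zero, Complex.I_re, Complex.I_im, mul_zero, mul_one, zero_add]
    rw [Real.cos_sub]
    have h1 := Real.sin_sq_add_cos_sq α
    have h2 := Real.sin_sq_add_cos_sq β
    linear_combination (g ^ 2) * h1 + g' ^ 2 * h2
  refine le_of_sq_le_sq ?_ (by linarith)
  rw [hsq]
  nlinarith [sq_nonneg D]

lemma log_ratio {a ρ : ℝ} (ha : 0 ≤ a) (haρ : a ≤ ρ) (hρ : ρ ≤ 1 / 2) :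
    a ≤ Real.log (1 + 2 * a + ρ ^ 2) - Real.log (1 - 2 * a + ρ ^ 2) ∧
    Real.log (1 + 2 * a + ρ ^ 2) - Real.log (1 - 2 * a + ρ ^ 2) ≤ 16 * a := by
  have hρ0 : 0 ≤ ρ := le_trans ha haρ
  have h1 : 1 / 4 ≤ 1 - 2 * a + ρ ^ 2 := by nlinarith [sq_nonneg (1 - ρ)]
  have h2 : 1 + 2 * a + ρ ^ 2 ≤ 9 / 4 := by nlinarith
  have h3 : 0 < 1 + 2 * a + ρ ^ 2 := by positivity
  have h4 : 0 < 1 - 2 * a + ρ ^ 2 := by linarith
  rw [← Real.log_div h3.ne' h4.ne']
  constructor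
  · have h5 := Real.one_sub_inv_le_log_of_pos (div_pos h3 h4)
    refine le_trans ?_ h5
    rw [inv_div]
    rw [le_sub_iff_add_le, ← le_sub_iff_add_le', div_le_iff₀ h3]
    nlinarith
  · refine le_trans (Real.log_le_sub_one_of_pos (div_pos h3 h4)) ?_
    rw [sub_le_iff_le_add, div_le_iff₀ h4]
    nlinarith

/-- single factor -/
noncomputable def ff (c : ℂ) (ξ : ℝ) (y : UnitAddCircle) : ℂ :=
  (gg c y : ℂ) * Complex.exp ((ξ * Real.log (gg c y) : ℝ) * I)

lemma ff_continuous {c : ℂ} (hc : ‖c‖ < 1) (ξ : ℝ) : Continuous (ff c ξ) := by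
  unfold ff
  apply Continuous.mul
  · exact Complex.continuous_ofReal.comp (gg_continuous c)
  · apply Complex.continuous_exp.comp
    apply Continuous.mul _ continuous_const
    apply Complex.continuous_ofReal.comp
    apply Continuous.mul continuous_const
    exact (gg_continuous c).log (fun y => (gg_pos hc y).ne')

lemma norm_ff {c : ℂ} (hc : ‖c‖ < 1) (ξ : ℝ) (y : UnitAddCircle) : ‖ff c ξ y‖ = gg c y := by
  unfold ff
  rw [norm_mul, Complex.norm_exp_ofReal_mul_I, mul_one, Complex.norm_real, Real.norm_of_nonneg (gg_pos hc y).le]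

lemma ff_trivial {c : ℂ} (hc : ‖c‖ < 1) (ξ : ℝ) : ‖∫ y, ff c ξ y ∂hm‖ ≤ 1 + ‖c‖ ^ 2 := by
  refine le_trans (norm_integral_le_integral_norm _) ?_
  simp only [norm_ff hc, integral_gg]
  exact le_rfl

lemma ff_pair {c : ℂ} (hc : ‖c‖ ≤ 1 / 2) {ξ : ℝ} (hξ : 6 * |ξ| * ‖c‖ ≤ 1) (y : UnitAddCircle) :
    ‖ff c ξ y + ff c ξ (y + ((1 / 2 : ℝ) : UnitAddCircle))‖ ≤
      2 * (1 + ‖c‖ ^ 2) - ξ ^ 2 * (aa c y) ^ 2 / 25 := by
  have hc1 : ‖c‖ < 1 := by linarith
  set y' := y + ((1 / 2 : ℝ) : UnitAddCircle) with hy'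
  have hc0 := norm_nonneg c
  have ha := abs_aa_le c y
  have hg := gg_eq c y
  have hg' : gg c y' = 1 - 2 * aa c y + ‖c‖ ^ 2 := by rw [gg_eq, hy', aa_shift]; ring
  have hgp := gg_pos hc1 y
  have hgp' := gg_pos hc1 y'
  refine le_trans (pair_bound hgp hgp') ?_
  set d := Real.log (gg c y) - Real.log (gg c y') with hd
  have e : ξ * Real.log (gg c y) - ξ * Real.log (gg c y') = ξ * d := by rw [hd]; ring
  rw [e]
  have hdb : |aa c y| ≤ |d| ∧ |d| ≤ 16 * |aa c y| := by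
    rcases le_total 0 (aa c y) with h0 | h0
    · have := log_ratio h0 (le_trans (le_abs_self _) ha) hc
      rw [← hg, ← hg', ← hd] at this
      have hd0 : 0 ≤ d := le_trans h0 this.1
      rw [abs_of_nonneg h0, abs_of_nonneg hd0]
      exact this
    · have h0' : 0 ≤ - aa c y := by linarith
      have := log_ratio h0' (le_trans (neg_le_abs _) ha) hc
      have e1 : 1 + 2 * -aa c y + ‖c‖ ^ 2 = gg c y' := by rw [hg']; ring
      have e2 : 1 - 2 * -aa c y + ‖c‖ ^ 2 = gg c y := by rw [hg]; ring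
      rw [e1, e2] at this
      have e3 : Real.log (gg c y') - Real.log (gg c y) = -d := by rw [hd]; ring
      rw [e3] at this
      have hd0 : d ≤ 0 := by linarith [this.1]
      rw [abs_of_nonpos h0, abs_of_nonpos hd0]
      exact this
  have hpi : |ξ * d| ≤ Real.pi := by
    rw [abs_mul]
    have h1 : |ξ| * |d| ≤ |ξ| * (16 * ‖c‖) := by
      apply mul_le_mul_of_nonneg_left _ (abs_nonneg _)
      linarith [hdb.2]
    have := Real.pi_gt_three
    nlinarith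
  have hcos := Real.cos_le_one_sub_mul_cos_sq hpi
  have hpi2 : Real.pi ^ 2 ≤ 10 := by
    have := Real.pi_lt_d2
    have := Real.pi_pos
    nlinarith
  have hpi2' : 1 / 5 ≤ 2 / Real.pi ^ 2 := by
    rw [div_le_div_iff₀ (by norm_num) (by positivity)]
    linarith
  have h2 : ξ ^ 2 * (aa c y) ^ 2 / 5 ≤ 1 - Real.cos (ξ * d) := by
    have h3 : (aa c y) ^ 2 ≤ d ^ 2 := sq_le_sq.mpr hdb.1
    have h4 : ξ ^ 2 * (aa c y) ^ 2 ≤ (ξ * d) ^ 2 := by
      rw [mul_pow]
      exact mul_le_mul_of_nonneg_left h3 (sq_nonneg _)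
    have h5 : 1 / 5 * (ξ * d) ^ 2 ≤ 2 / Real.pi ^ 2 * (ξ * d) ^ 2 :=
      mul_le_mul_of_nonneg_right hpi2' (sq_nonneg _)
    linarith
  have hsum : gg c y + gg c y' = 2 * (1 + ‖c‖ ^ 2) := by rw [hg, hg']; ring
  have hprod : 9 / 16 ≤ gg c y * gg c y' := by
    rw [hg, hg']
    have h6 : (aa c y) ^ 2 ≤ ‖c‖ ^ 2 := by
      rw [← sq_abs (aa c y)]
      exact pow_le_pow_left₀ (abs_nonneg _) ha 2
    have h7 : ‖c‖ ^ 2 ≤ 1 / 4 := by nlinarith
    nlinarith
  rw [hsum]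
  have hq : 9 / 40 ≤ gg c y * gg c y' / (2 * (1 + ‖c‖ ^ 2)) := by
    rw [le_div_iff₀ (by positivity)]
    have h7 : ‖c‖ ^ 2 ≤ 1 / 4 := by nlinarith
    linarith
  have h8 : gg c y * gg c y' * (1 - Real.cos (ξ * d)) / (2 * (1 + ‖c‖ ^ 2)) =
      gg c y * gg c y' / (2 * (1 + ‖c‖ ^ 2)) * (1 - Real.cos (ξ * d)) := by ring
  rw [h8]
  have h9 : 0 ≤ ξ ^ 2 * (aa c y) ^ 2 := by positivity
  have h10 : 9 / 40 * (ξ ^ 2 * (aa c y) ^ 2 / 5) ≤
      gg c y * gg c y' / (2 * (1 + ‖c‖ ^ 2)) * (1 - Real.cos (ξ * d)) := by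
    apply mul_le_mul hq h2 (by positivity) (by linarith)
  linarith

lemma ff_main {c : ℂ} (hc : ‖c‖ ≤ 1 / 2) {ξ : ℝ} (hξ : 6 * |ξ| * ‖c‖ ≤ 1) :
    ‖∫ y, ff c ξ y ∂hm‖ ≤ (1 + ‖c‖ ^ 2) * (1 - ξ ^ 2 * ‖c‖ ^ 2 / 125) := by
  have hc1 : ‖c‖ < 1 := by linarith
  have hint := integrable_hm (ff_continuous hc1 ξ)
  have hcont' : Continuous (fun y => ff c ξ (y + ((1 / 2 : ℝ) : UnitAddCircle))) :=
    (ff_continuous hc1 ξ).comp (continuous_add_const _)
  have hint' := integrable_hm hcont'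
  have h1 : ∫ y, ff c ξ y ∂hm = (1 / 2 : ℝ) • ∫ y, (ff c ξ y + ff c ξ (y + ((1 / 2 : ℝ) : UnitAddCircle))) ∂hm := by
    rw [integral_add hint hint', integral_shift (ff c ξ), ← two_smul ℝ, smul_smul]
    norm_num
  rw [h1, norm_smul]
  have h2 : ‖∫ y, (ff c ξ y + ff c ξ (y + ((1 / 2 : ℝ) : UnitAddCircle))) ∂hm‖ ≤
      ∫ y, (2 * (1 + ‖c‖ ^ 2) - ξ ^ 2 * (aa c y) ^ 2 / 25) ∂hm := by
    refine le_trans (norm_integral_le_integral_norm _) ?_
    apply integral_mono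
    · exact (integrable_hm ((ff_continuous hc1 ξ).add hcont')).norm
    · apply integrable_hm
      have := aa_continuous c
      fun_prop
    · intro y
      exact ff_pair hc hξ y
  have h3 : ∫ y, (2 * (1 + ‖c‖ ^ 2) - ξ ^ 2 * (aa c y) ^ 2 / 25) ∂hm =
      2 * (1 + ‖c‖ ^ 2) - ξ ^ 2 * ‖c‖ ^ 2 / 50 := by
    rw [integral_sub (integrable_const _)]
    · have e : ∀ y, ξ ^ 2 * (aa c y) ^ 2 / 25 = (ξ ^ 2 / 25) * (aa c y) ^ 2 := fun y => by ring
      simp only [e]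
      rw [integral_const_mul (ξ ^ 2 / 25), integral_aa_sq]
      simp
      ring
    · apply integrable_hm
      have := aa_continuous c
      fun_prop
  rw [h3] at h2
  rw [Real.norm_of_nonneg (by norm_num)]
  have hc0 := norm_nonneg c
  have h7 : ‖c‖ ^ 2 ≤ 1 / 4 := by nlinarith
  have h8 : 0 ≤ ξ ^ 2 * ‖c‖ ^ 2 := by positivity
  have h9 : ‖c‖ ^ 2 * (ξ ^ 2 * ‖c‖ ^ 2) ≤ 1 / 4 * (ξ ^ 2 * ‖c‖ ^ 2) := mul_le_mul_of_nonneg_right h7 h8
  nlinarith

end Pool.Agent.Helper65.BL
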