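import Mathlib
import Pool.Agent.Helper65.BL1
import Pool.Agent.Helper65.BL4
open Complex MeasureTheory Filter Topology
open scoped BigOperators
namespace Pool.Agent.Helper65.BL

/-- index set -/
abbrev PI (m : ℕ) : Type := {p : ℕ // p ∈ Nat.primesLE (2 ^ m)}

/-- normalisation -/
noncomputable def ZZ (m : ℕ) : ℝ := ∏ p ∈ Nat.primesLE (2 ^ m), (1 + 1 / (p : ℝ))

lemma ZZ_eq (m : ℕ) : ZZ m = ∏ i : PI m, (1 + 1 / ((i : ℕ) : ℝ)) := by
  unfold ZZ
  exact (Finset.prod_coe_sort (Nat.primesLE (2 ^ m)) (fun p => 1 + 1 / (p : ℝ))).symm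

lemma ZZ_pos (m : ℕ) : 0 < ZZ m := by
  unfold ZZ
  apply Finset.prod_pos
  intro p _
  positivity

lemma one_le_ZZ (m : ℕ) : 1 ≤ ZZ m := by
  unfold ZZ
  calc (1 : ℝ) = ∏ p ∈ Nat.primesLE (2 ^ m), (1 : ℝ) := by simp
    _ ≤ _ := by
      apply Finset.prod_le_prod
      · intro p _; exact zero_le_one
      · intro p _
        have : (0 : ℝ) ≤ 1 / (p : ℝ) := by positivity
        linarith

/-- ZZ grows at least linearly -/
lemma ZZ_ge {m : ℕ} (hm : 1 ≤ m) : (m : ℝ) ≤ 50 * ZZ m := by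
  have h1 := sum_inv_ge hm
  have h2 : Real.log (ZZ m) = ∑ p ∈ Nat.primesLE (2 ^ m), Real.log (1 + 1 / (p : ℝ)) := by
    unfold ZZ
    rw [Real.log_prod]
    intro p _
    positivity
  have h3 : ∑ p ∈ Nat.primesLE (2 ^ m), ((1 : ℝ) / p - 1 / (p * (p - 1))) ≤
      ∑ p ∈ Nat.primesLE (2 ^ m), Real.log (1 + 1 / (p : ℝ)) := by
    apply Finset.sum_le_sum
    intro p hp
    have hp2 : (2 : ℝ) ≤ p := by exact_mod_cast (Nat.mem_primesLE.mp hp).2.two_le
    have hp0 : (0 : ℝ) < p := by linarith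
    have hp1 : (0 : ℝ) < (p : ℝ) - 1 := by linarith
    refine le_trans ?_ (Real.one_sub_inv_le_log_of_pos (by positivity))
    have e : 1 - (1 + 1 / (p : ℝ))⁻¹ = 1 / (p + 1) := by field_simp; ring
    rw [e]
    have e2 : (1 : ℝ) / p - 1 / (p * (p - 1)) = (p - 2) / (p * (p - 1)) := by field_simp; ring
    rw [e2, div_le_div_iff₀ (by positivity) (by positivity)]
    nlinarith
  rw [Finset.sum_sub_distrib] at h3
  have h4 := sum_inv_mul_pred (2 ^ m)
  have hm0 : (0 : ℝ) < m := by exact_mod_cast hm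
  have h5 : Real.log m ≤ Real.log (50 * ZZ m) := by
    rw [Real.log_mul (by norm_num) (ZZ_pos m).ne', h2]
    have h6 : (3 : ℝ) ≤ Real.log 50 := by
      rw [Real.le_log_iff_exp_le (by norm_num)]
      have := Real.exp_one_lt_d9
      have h7 : Real.exp 3 = (Real.exp 1) ^ 3 := by rw [← Real.exp_nat_mul]; norm_num
      rw [h7]
      have h8 : (Real.exp 1) ^ 3 ≤ (2.7182818286 : ℝ) ^ 3 := pow_le_pow_left₀ (Real.exp_pos 1).le this.le 3
      refine le_trans h8 (by norm_num)
    linarith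
  exact (Real.log_le_log_iff hm0 (mul_pos (by norm_num) (ZZ_pos m))).mp h5

/-- damping factor -/
noncomputable def tau (p : ℕ) (ξ : ℝ) : ℝ :=
  if 4 ≤ p ∧ 36 * ξ ^ 2 ≤ (p : ℝ) then 1 - ξ ^ 2 / (125 * p) else 1

lemma tau_nonneg (p : ℕ) (ξ : ℝ) : 0 ≤ tau p ξ := by
  unfold tau
  split_ifs with h
  · have hp : (4 : ℝ) ≤ p := by exact_mod_cast h.1
    have : ξ ^ 2 / (125 * p) ≤ 1 := by
      rw [div_le_one (by positivity)]
      have := sq_nonneg ξ
      linarith [h.2]
    linarith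
  · norm_num

lemma tau_le_one (p : ℕ) (ξ : ℝ) : tau p ξ ≤ 1 := by
  unfold tau
  split_ifs with h
  · have : 0 ≤ ξ ^ 2 / (125 * p) := by positivity
    linarith
  · exact le_rfl

lemma tau_measurable (p : ℕ) : Measurable (tau p) := by
  unfold tau
  apply Measurable.ite
  · by_cases h : 4 ≤ p
    · have : {a : ℝ | 4 ≤ p ∧ 36 * a ^ 2 ≤ (p : ℝ)} = {a : ℝ | 36 * a ^ 2 ≤ (p : ℝ)} := by
        ext a; simp [h]
      rw [this]
      exact measurableSet_le (by fun_prop) measurable_const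
    · have : {a : ℝ | 4 ≤ p ∧ 36 * a ^ 2 ≤ (p : ℝ)} = ∅ := by
        ext a; simp [h]
      rw [this]
      exact MeasurableSet.empty
  · fun_prop
  · fun_prop

lemma ff_tau {p : ℕ} (hp : 2 ≤ p) {c : ℂ} (hc : ‖c‖ ^ 2 = 1 / (p : ℝ)) (ξ : ℝ) :
    ‖∫ y, ff c ξ y ∂hm‖ ≤ (1 + 1 / (p : ℝ)) * tau p ξ := by
  have hp2 : (2 : ℝ) ≤ p := by exact_mod_cast hp
  have hc0 := norm_nonneg c
  have hc1 : ‖c‖ < 1 := by
    have : ‖c‖ ^ 2 < 1 := by
      rw [hc, div_lt_one (by linarith)]; linarith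
    nlinarith
  unfold tau
  split_ifs with h
  · have hp4 : (4 : ℝ) ≤ p := by exact_mod_cast h.1
    have hc2 : ‖c‖ ^ 2 ≤ 1 / 4 := by
      rw [hc]
      exact one_div_le_one_div_of_le (by norm_num) hp4
    have hch : ‖c‖ ≤ 1 / 2 := by nlinarith
    have hξ : 6 * |ξ| * ‖c‖ ≤ 1 := by
      have h1 : (6 * |ξ| * ‖c‖) ^ 2 ≤ 1 := by
        rw [mul_pow, hc, mul_pow, sq_abs, mul_one_div, div_le_one (by linarith)]
        linarith [h.2]
      have h2 : 0 ≤ 6 * |ξ| * ‖c‖ := by positivity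
      nlinarith
    have := ff_main hch hξ
    rw [hc] at this
    refine le_trans this (le_of_eq ?_)
    field_simp
  · have := ff_trivial hc1 ξ
    rw [hc] at this
    rw [mul_one]
    exact this

/-- The product damping tends to zero. -/
lemma prod_tau_tendsto {ξ : ℝ} (hξ : 0 < ξ) :
    Tendsto (fun m : ℕ => ∏ p ∈ Nat.primesLE (2 ^ m), tau p ξ) atTop (𝓝 0) := by
  obtain ⟨n0, hn0⟩ := exists_nat_ge (36 * ξ ^ 2 + 4)
  have hbound : ∀ m : ℕ, 1 ≤ m → ∏ p ∈ Nat.primesLE (2 ^ m), tau p ξ ≤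
      Real.exp (-(ξ ^ 2 / 125 * (Real.log m - 2 - n0))) := by
    intro m hm
    have h1 : ∀ p ∈ Nat.primesLE (2 ^ m), tau p ξ ≤
        Real.exp (-(ξ ^ 2 / 125 * ((1 : ℝ) / p - (if p < n0 then 1 else 0)))) := by
      intro p hp
      have hp2 : (2 : ℝ) ≤ p := by exact_mod_cast (Nat.mem_primesLE.mp hp).2.two_le
      split_ifs with h
      · refine le_trans (tau_le_one p ξ) ?_
        rw [Real.one_le_exp_iff]
        have : (1 : ℝ) / p ≤ 1 := by rw [div_le_one (by linarith)]; linarith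
        have h2 : 0 ≤ ξ ^ 2 / 125 := by positivity
        nlinarith
      · push Not at h
        have hpn : (n0 : ℝ) ≤ p := by exact_mod_cast h
        have hh : 4 ≤ p ∧ 36 * ξ ^ 2 ≤ (p : ℝ) := by
          constructor
          · have : (4 : ℝ) ≤ p := by nlinarith [sq_nonneg ξ]
            exact_mod_cast this
          · linarith
        unfold tau
        rw [if_pos hh]
        have h3 := Real.add_one_le_exp (-(ξ ^ 2 / 125 * ((1 : ℝ) / p - 0)))
        refine le_trans (le_of_eq ?_) h3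
        field_simp
        ring
    calc ∏ p ∈ Nat.primesLE (2 ^ m), tau p ξ ≤
        ∏ p ∈ Nat.primesLE (2 ^ m), Real.exp (-(ξ ^ 2 / 125 * ((1 : ℝ) / p - (if p < n0 then 1 else 0)))) :=
          Finset.prod_le_prod (fun p _ => tau_nonneg p ξ) h1
      _ = Real.exp (∑ p ∈ Nat.primesLE (2 ^ m), -(ξ ^ 2 / 125 * ((1 : ℝ) / p - (if p < n0 then 1 else 0)))) :=
          (Real.exp_sum _ _).symm
      _ ≤ Real.exp (-(ξ ^ 2 / 125 * (Real.log m - 2 - n0))) := by
          apply Real.exp_le_exp.mpr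
          rw [Finset.sum_neg_distrib, neg_le_neg_iff, ← Finset.mul_sum, Finset.sum_sub_distrib]
          apply mul_le_mul_of_nonneg_left _ (by positivity)
          have h4 := sum_inv_ge hm
          have h5 : ∑ p ∈ Nat.primesLE (2 ^ m), (if p < n0 then (1 : ℝ) else 0) ≤ n0 := by
            rw [← Finset.sum_filter, Finset.sum_const, nsmul_eq_mul, mul_one]
            have : ((Nat.primesLE (2 ^ m)).filter (fun p => p < n0)).card ≤ n0 := by
              calc ((Nat.primesLE (2 ^ m)).filter (fun p => p < n0)).card ≤ (Finset.range n0).card := by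
                    apply Finset.card_le_card
                    intro p hp
                    rw [Finset.mem_filter] at hp
                    exact Finset.mem_range.mpr hp.2
                _ = n0 := Finset.card_range n0
            exact_mod_cast this
          linarith
  have hlim : Tendsto (fun m : ℕ => Real.exp (-(ξ ^ 2 / 125 * (Real.log m - 2 - n0)))) atTop (𝓝 0) := by
    apply Real.tendsto_exp_neg_atTop_nhds_zero.comp
    apply Tendsto.const_mul_atTop (by positivity)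
    apply tendsto_atTop_add_const_right
    apply tendsto_atTop_add_const_right
    exact Real.tendsto_log_atTop.comp tendsto_natCast_atTop_atTop
  refine tendsto_of_tendsto_of_tendsto_of_le_of_le' tendsto_const_nhds hlim ?_ ?_
  · exact Eventually.of_forall fun m => Finset.prod_nonneg fun p _ => tau_nonneg p ξ
  · filter_upwards [eventually_ge_atTop 1] with m hm
    exact hbound m hm

/-- the frequency average -/
noncomputable def om (m : ℕ) : ℝ :=
  ∫ ξ in Set.Ioi (0 : ℝ), Real.exp (-ξ) * ∏ p ∈ Nat.primesLE (2 ^ m), tau p ξ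

lemma prod_tau_mem (m : ℕ) (ξ : ℝ) : 0 ≤ ∏ p ∈ Nat.primesLE (2 ^ m), tau p ξ ∧
    ∏ p ∈ Nat.primesLE (2 ^ m), tau p ξ ≤ 1 :=
  ⟨Finset.prod_nonneg fun p _ => tau_nonneg p ξ,
    Finset.prod_le_one (fun p _ => tau_nonneg p ξ) (fun p _ => tau_le_one p ξ)⟩

lemma om_meas (m : ℕ) : Measurable (fun ξ : ℝ => Real.exp (-ξ) * ∏ p ∈ Nat.primesLE (2 ^ m), tau p ξ) := by
  apply Measurable.mul
  · fun_prop
  · exact Finset.measurable_fun_prod _ (fun p _ => tau_measurable p)

lemma om_integrable (m : ℕ) : IntegrableOn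
    (fun ξ : ℝ => Real.exp (-ξ) * ∏ p ∈ Nat.primesLE (2 ^ m), tau p ξ) (Set.Ioi 0) := by
  apply Integrable.mono' (integrableOn_exp_neg_Ioi 0)
  · exact (om_meas m).aestronglyMeasurable
  · refine Eventually.of_forall fun ξ => ?_
    rw [Real.norm_of_nonneg (mul_nonneg (Real.exp_pos _).le (prod_tau_mem m ξ).1)]
    exact mul_le_of_le_one_right (Real.exp_pos _).le (prod_tau_mem m ξ).2

lemma om_tendsto : Tendsto om atTop (𝓝 0) := by
  unfold om
  have key : Tendsto (fun m : ℕ => ∫ ξ in Set.Ioi (0 : ℝ), Real.exp (-ξ) * ∏ p ∈ Nat.primesLE (2 ^ m), tau p ξ)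
      atTop (𝓝 (∫ ξ in Set.Ioi (0 : ℝ), (0 : ℝ))) := ?_
  · simpa using key
  apply tendsto_integral_of_dominated_convergence (fun ξ => Real.exp (-ξ))
  · intro m
    exact (om_meas m).aestronglyMeasurable
  · exact integrableOn_exp_neg_Ioi 0
  · intro m
    refine Eventually.of_forall fun ξ => ?_
    rw [Real.norm_of_nonneg (mul_nonneg (Real.exp_pos _).le (prod_tau_mem m ξ).1)]
    exact mul_le_of_le_one_right (Real.exp_pos _).le (prod_tau_mem m ξ).2
  · refine (ae_restrict_iff' measurableSet_Ioi).mpr (Eventually.of_forall fun ξ hξ => ?_)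
    have := (prod_tau_tendsto (Set.mem_Ioi.mp hξ)).const_mul (Real.exp (-ξ))
    simpa using this

end Pool.Agent.Helper65.BL
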