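import Mathlib
import Pool.Agent.Helper65.BL5
open Complex MeasureTheory Filter Topology
open scoped BigOperators
namespace Pool.Agent.Helper65.BL

/-- product of the squared factors -/
noncomputable def bb {m : ℕ} (c : PI m → ℂ) (y : PI m → UnitAddCircle) : ℝ := ∏ i, gg (c i) (y i)

variable {m : ℕ} {c : PI m → ℂ}

lemma norm_c_lt (hc : ∀ i : PI m, ‖c i‖ ^ 2 = 1 / ((i : ℕ) : ℝ)) (i : PI m) : ‖c i‖ < 1 := by
  have hp2 : (2 : ℝ) ≤ ((i : ℕ) : ℝ) := by exact_mod_cast (Nat.mem_primesLE.mp i.2).2.two_le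
  have hc0 := norm_nonneg (c i)
  have : ‖c i‖ ^ 2 < 1 := by
    rw [hc, div_lt_one (by linarith)]; linarith
  nlinarith

lemma bb_pos (hc : ∀ i : PI m, ‖c i‖ ^ 2 = 1 / ((i : ℕ) : ℝ)) (y : PI m → UnitAddCircle) : 0 < bb c y :=
  Finset.prod_pos fun i _ => gg_pos (norm_c_lt hc i) _

lemma bb_continuous : Continuous (bb c) := by
  unfold bb
  apply continuous_finsetProd
  intro i _
  exact (gg_continuous (c i)).comp (continuous_apply i)

lemma integrable_PT {ι : Type*} [Fintype ι] {E : Type*} [NormedAddCommGroup E] [SecondCountableTopology E]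
    {f : (ι → UnitAddCircle) → E} (hf : Continuous f) :
    Integrable f (PT ι) :=
  hf.integrable_of_hasCompactSupport (HasCompactSupport.of_compactSpace _)

lemma integral_bb (hc : ∀ i : PI m, ‖c i‖ ^ 2 = 1 / ((i : ℕ) : ℝ)) :
    ∫ y, bb c y ∂(PT (PI m)) = ZZ m := by
  unfold bb PT
  rw [integral_fintype_prod_eq_prod (fun (i : PI m) y => gg (c i) y), ZZ_eq]
  apply Finset.prod_congr rfl
  intro i _
  rw [integral_gg, hc]

lemma exp_quad {u : ℝ} (hu : 0 ≤ u) : 1 + u ^ 2 ≤ 2 * Real.exp u := by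
  have := Real.quadratic_le_exp_of_nonneg hu
  nlinarith

lemma min_le_kernel {v : ℝ} (hv : 0 < v) : min (v ^ 2) 1 ≤ 2 * (v / (1 + (Real.log v) ^ 2)) := by
  set u := Real.log v with hu
  have hpos : 0 < 1 + u ^ 2 := by positivity
  rcases le_total 1 v with h | h
  · refine le_trans (min_le_right _ _) ?_
    have hu0 : 0 ≤ u := Real.log_nonneg h
    have h1 := exp_quad hu0
    rw [hu, Real.exp_log hv, ← hu] at h1
    rw [← mul_div_assoc, le_div_iff₀ hpos]
    linarith
  · refine le_trans (min_le_left _ _) ?_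
    have hu0 : u ≤ 0 := Real.log_nonpos hv.le h
    have h1 := exp_quad (neg_nonneg.mpr hu0)
    rw [hu, Real.exp_neg, Real.exp_log hv, ← hu, neg_sq] at h1
    rw [← mul_div_assoc, le_div_iff₀ hpos, pow_two, mul_assoc, mul_comm 2 v]
    apply mul_le_mul_of_nonneg_left _ hv.le
    calc v * (1 + u ^ 2) ≤ v * (2 * v⁻¹) := mul_le_mul_of_nonneg_left h1 hv.le
      _ = 2 := by field_simp

lemma kernel_integral (u : ℝ) :
    ∫ ξ in Set.Ioi (0 : ℝ), Complex.exp ((-1 + u * I) * ξ) = 1 / (1 - u * I) := by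
  have h : (-1 + (u : ℂ) * I).re < 0 := by simp
  rw [integral_exp_mul_complex_Ioi h]
  simp only [Complex.ofReal_zero, mul_zero, Complex.exp_zero]
  have h1 : (-1 + (u : ℂ) * I) ≠ 0 := by
    intro h0
    rw [h0] at h
    simp at h
  have h2 : (1 - (u : ℂ) * I) ≠ 0 := by
    intro h0
    apply h1
    linear_combination -h0
  rw [div_eq_div_iff h1 h2]
  ring

lemma kernel_re (u v : ℝ) : ((v : ℂ) * (1 / (1 - u * I))).re = v / (1 + u ^ 2) := by
  rw [Complex.re_ofReal_mul, Complex.div_re]
  simp [Complex.normSq_apply]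
  field_simp

theorem chaos (hc : ∀ i : PI m, ‖c i‖ ^ 2 = 1 / ((i : ℕ) : ℝ)) :
    ∫ y, min ((bb c y / (ZZ m) ^ 2) ^ 2) 1 ∂(PT (PI m)) ≤ 2 * om m / ZZ m := by
  have hZ := ZZ_pos m
  set v : (PI m → UnitAddCircle) → ℝ := fun y => bb c y / (ZZ m) ^ 2 with hv
  have hvpos : ∀ y, 0 < v y := fun y => div_pos (bb_pos hc y) (by positivity)
  have hvc : Continuous v := bb_continuous.div_const _
  have hlogc : Continuous (fun y => Real.log (v y)) := hvc.log fun y => (hvpos y).ne'
  set h : (PI m → UnitAddCircle) → ℝ → ℂ := fun y ξ =>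
    (v y : ℂ) * Complex.exp ((-1 + (Real.log (v y) : ℝ) * I) * ξ) with hh
  -- joint integrability
  have hjc : Continuous (Function.uncurry h) := by
    rw [hh]
    unfold Function.uncurry
    simp only
    apply Continuous.mul
    · exact Complex.continuous_ofReal.comp (hvc.comp continuous_fst)
    · apply Complex.continuous_exp.comp
      apply Continuous.mul
      · apply Continuous.add continuous_const
        apply Continuous.mul _ continuous_const
        exact Complex.continuous_ofReal.comp (hlogc.comp continuous_fst)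
      · exact Complex.continuous_ofReal.comp continuous_snd
  have hnorm : ∀ y ξ, ‖h y ξ‖ = v y * Real.exp (-ξ) := by
    intro y ξ
    rw [hh]
    simp only
    rw [norm_mul, Complex.norm_real, Real.norm_of_nonneg (hvpos y).le, Complex.norm_exp]
    congr 2
    simp
  have hjint : Integrable (Function.uncurry h) ((PT (PI m)).prod (volume.restrict (Set.Ioi (0 : ℝ)))) := by
    have h1 : Integrable (fun z : (PI m → UnitAddCircle) × ℝ => v z.1 * Real.exp (-z.2))
        ((PT (PI m)).prod (volume.restrict (Set.Ioi (0 : ℝ)))) :=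
      (integrable_PT hvc).mul_prod (integrableOn_exp_neg_Ioi 0)
    apply h1.mono' hjc.aestronglyMeasurable
    exact Eventually.of_forall fun z => le_of_eq (hnorm z.1 z.2)
  have hswap := integral_integral_swap hjint
  -- inner integral
  have hinner : ∀ y, ∫ ξ in Set.Ioi (0 : ℝ), h y ξ = (v y : ℂ) * (1 / (1 - (Real.log (v y) : ℝ) * I)) := by
    intro y
    rw [hh]
    simp only
    rw [integral_const_mul, kernel_integral]
  have hstep1 : ∫ y, v y / (1 + (Real.log (v y)) ^ 2) ∂(PT (PI m)) =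
      (∫ y, (∫ ξ in Set.Ioi (0 : ℝ), h y ξ) ∂(PT (PI m))).re := by
    have h1 : Integrable (fun y => ∫ ξ in Set.Ioi (0 : ℝ), h y ξ) (PT (PI m)) := hjint.integral_prod_left
    have h2 := integral_re h1
    have h3 : ∀ y, v y / (1 + (Real.log (v y)) ^ 2) = RCLike.re (∫ ξ in Set.Ioi (0 : ℝ), h y ξ) := by
      intro y
      rw [hinner y]
      exact (kernel_re _ _).symm
    simp only [h3]
    exact h2
  -- the product formula
  have hprod : ∀ ξ : ℝ, ‖∫ y, h y ξ ∂(PT (PI m))‖ ≤
      (ZZ m)⁻¹ * (Real.exp (-ξ) * ∏ p ∈ Nat.primesLE (2 ^ m), tau p ξ) := by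
    intro ξ
    have e1 : ∀ y, h y ξ = (((ZZ m) ^ 2)⁻¹ : ℝ) * Complex.exp (((-1 - (Real.log ((ZZ m) ^ 2) : ℝ) * I)) * ξ) *
        ∏ i, ff (c i) ξ (y i) := by
      intro y
      have e2 : ∏ i, ff (c i) ξ (y i) = (bb c y : ℂ) * Complex.exp ((ξ * Real.log (bb c y) : ℝ) * I) := by
        unfold ff bb
        rw [Finset.prod_mul_distrib, ← Complex.exp_sum, Real.log_prod (fun i _ => (gg_pos (norm_c_lt hc i) _).ne')]
        congr 1
        · push_cast; rfl
        · congr 1
          push_cast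
          rw [Finset.mul_sum, Finset.sum_mul]
      rw [e2, hh]
      simp only
      have e3 : Real.log (v y) = Real.log (bb c y) - Real.log ((ZZ m) ^ 2) :=
        Real.log_div (bb_pos hc y).ne' (by positivity)
      rw [e3, hv]
      simp only
      have e4 : Complex.exp ((-1 + ((Real.log (bb c y) - Real.log ((ZZ m) ^ 2) : ℝ) : ℂ) * I) * ξ) =
        Complex.exp (((-1 - (Real.log ((ZZ m) ^ 2) : ℝ) * I)) * ξ) *
          Complex.exp ((ξ * Real.log (bb c y) : ℝ) * I) := by
        rw [← Complex.exp_add]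
        congr 1
        push_cast
        ring
      rw [e4]
      push_cast
      ring
    simp only [e1]
    rw [integral_const_mul, norm_mul, norm_mul, Complex.norm_real, Real.norm_of_nonneg (by positivity),
      Complex.norm_exp]
    unfold PT
    rw [integral_fintype_prod_eq_prod (fun (i : PI m) y => ff (c i) ξ y), norm_prod]
    have e5 : ((-1 - ((Real.log ((ZZ m) ^ 2) : ℝ) : ℂ) * I) * (ξ : ℂ)).re = -ξ := by simp
    rw [e5]
    have e6 : ∏ i : PI m, ‖∫ y, ff (c i) ξ y ∂hm‖ ≤ ZZ m * ∏ p ∈ Nat.primesLE (2 ^ m), tau p ξ := by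
      have e7 : ∏ p ∈ Nat.primesLE (2 ^ m), tau p ξ = ∏ i : PI m, tau (i : ℕ) ξ :=
        (Finset.prod_coe_sort (Nat.primesLE (2 ^ m)) (fun p => tau p ξ)).symm
      rw [ZZ_eq, e7, ← Finset.prod_mul_distrib]
      apply Finset.prod_le_prod
      · intro i _; exact norm_nonneg _
      · intro i _
        exact ff_tau (Nat.mem_primesLE.mp i.2).2.two_le (hc i) ξ
    calc ((ZZ m) ^ 2)⁻¹ * Real.exp (-ξ) * ∏ i : PI m, ‖∫ y, ff (c i) ξ y ∂hm‖
        ≤ ((ZZ m) ^ 2)⁻¹ * Real.exp (-ξ) * (ZZ m * ∏ p ∈ Nat.primesLE (2 ^ m), tau p ξ) :=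
          mul_le_mul_of_nonneg_left e6 (by positivity)
      _ = (ZZ m)⁻¹ * (Real.exp (-ξ) * ∏ p ∈ Nat.primesLE (2 ^ m), tau p ξ) := by
          field_simp
  have hstep2 : ∫ y, v y / (1 + (Real.log (v y)) ^ 2) ∂(PT (PI m)) ≤ (ZZ m)⁻¹ * om m := by
    rw [hstep1, hswap]
    refine le_trans (Complex.re_le_norm _) ?_
    refine le_trans (norm_integral_le_integral_norm _) ?_
    unfold om
    rw [← integral_const_mul]
    apply integral_mono_of_nonneg
    · exact Eventually.of_forall fun ξ => norm_nonneg _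
    · exact (om_integrable m).const_mul _
    · exact Eventually.of_forall fun ξ => hprod ξ
  calc ∫ y, min ((v y) ^ 2) 1 ∂(PT (PI m)) ≤ ∫ y, 2 * (v y / (1 + (Real.log (v y)) ^ 2)) ∂(PT (PI m)) := by
        apply integral_mono
        · apply integrable_PT
          exact (hvc.pow 2).min continuous_const
        · apply integrable_PT
          apply Continuous.mul continuous_const
          apply Continuous.div hvc
          · exact continuous_const.add (hlogc.pow 2)
          · intro y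
            positivity
        · intro y
          exact min_le_kernel (hvpos y)
    _ = 2 * ∫ y, (v y / (1 + (Real.log (v y)) ^ 2)) ∂(PT (PI m)) := integral_const_mul _ _
    _ ≤ 2 * ((ZZ m)⁻¹ * om m) := mul_le_mul_of_nonneg_left hstep2 (by norm_num)
    _ = 2 * om m / ZZ m := by field_simp

end Pool.Agent.Helper65.BL
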