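import Mathlib
import Pool.Agent.Helper65.BL3
import Pool.Agent.Helper65.BL6
open Complex MeasureTheory Filter Topology
open scoped BigOperators
namespace Pool.Agent.Helper65.BL

/-- coefficient of the linear factor -/
noncomputable def cc (p : ℕ) (t : ℝ) : ℂ := (p : ℂ) ^ (-(1 / 2 : ℂ) + t * I)

lemma norm_cc_sq {p : ℕ} (hp : 0 < p) (t : ℝ) : ‖cc p t‖ ^ 2 = 1 / (p : ℝ) := by
  unfold cc
  rw [Complex.norm_natCast_cpow_of_pos hp]
  have : (-(1 / 2 : ℂ) + t * I).re = -(1 / 2 : ℝ) := by simp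
  rw [this, ← Real.rpow_natCast, ← Real.rpow_mul (by positivity)]
  norm_num
  rw [Real.rpow_neg_one]

/-- the Dirichlet polynomial (product) -/
noncomputable def BD (m : ℕ) (t : ℝ) (s : ℂ) : ℂ :=
  ∏ p ∈ Nat.primesLE (2 ^ m), (1 + cc p t * (p : ℂ) ^ (-s))

lemma BD_isDP (m : ℕ) (t : ℝ) : IsDP (BD m t) := by
  unfold BD
  apply IsDP.prod
  intro p hp
  exact (IsDP.const 1).add (IsDP.monomial _ (Nat.mem_primesLE.mp hp).2.one_le)

/-- torus version -/
noncomputable def AA {m : ℕ} (t : ℝ) (y : PI m → UnitAddCircle) : ℂ :=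
  ∏ i : PI m, (1 + cc i t * fourier 1 (y i))

lemma AA_continuous {m : ℕ} (t : ℝ) : Continuous (AA (m := m) t) := by
  unfold AA
  apply continuous_finsetProd
  intro i _
  fun_prop

lemma norm_AA_sq {m : ℕ} (t : ℝ) (y : PI m → UnitAddCircle) :
    ‖AA t y‖ ^ 2 = bb (fun i : PI m => cc i t) y := by
  unfold AA bb gg
  rw [norm_prod, Finset.prod_pow]

lemma hcc {m : ℕ} (t : ℝ) : ∀ i : PI m, ‖cc i t‖ ^ 2 = 1 / ((i : ℕ) : ℝ) := fun i =>
  norm_cc_sq (Nat.mem_primesLE.mp i.2).2.pos t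

lemma BD_flow (m : ℕ) (t τ : ℝ) :
    BD m t ((τ : ℂ) * I) = AA t (flow (fun i : PI m => (i : ℕ)) τ) := by
  unfold BD AA
  rw [← Finset.prod_coe_sort (Nat.primesLE (2 ^ m)) (fun p => 1 + cc p t * (p : ℂ) ^ (-((τ : ℂ) * I)))]
  apply Finset.prod_congr rfl
  intro i _
  rw [fourier_flow]
  congr 2
  have hp : ((i : ℕ) : ℂ) ≠ 0 := by
    exact_mod_cast (Nat.mem_primesLE.mp i.2).2.ne_zero
  rw [Complex.cpow_def_of_ne_zero hp]
  congr 1
  rw [← Complex.natCast_log]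
  push_cast
  ring

lemma one_sub_exp_le {z : ℂ} (hz : 0 ≤ z.re) : ‖Complex.exp (-z) - 1‖ ≤ ‖z‖ := by
  have h := Convex.norm_image_sub_le_of_norm_deriv_le (𝕜 := ℂ) (f := Complex.exp) (s := {w : ℂ | w.re ≤ 0})
    (C := 1) (x := 0) (y := -z) (fun w _ => Complex.differentiable_exp w) (fun w hw => by
      rw [Complex.deriv_exp, Complex.norm_exp, Real.exp_le_one_iff]
      exact hw) (convex_halfSpace_re_le 0) (by simp) (by simpa using hz)
  simpa using h

lemma one_sub_sum_le_prod {α : Type*} (S : Finset α) {x : α → ℝ} (h0 : ∀ i ∈ S, 0 ≤ x i)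
    (h1 : ∀ i ∈ S, x i ≤ 1) : 1 - ∑ i ∈ S, x i ≤ ∏ i ∈ S, (1 - x i) := by
  classical
  induction S using Finset.induction_on with
  | empty => simp
  | insert a S ha ih =>
    rw [Finset.sum_insert ha, Finset.prod_insert ha]
    have ih' := ih (fun i hi => h0 i (Finset.mem_insert_of_mem hi)) (fun i hi => h1 i (Finset.mem_insert_of_mem hi))
    have ha0 := h0 a (Finset.mem_insert_self _ _)
    have ha1 := h1 a (Finset.mem_insert_self _ _)
    have hS : 0 ≤ ∑ i ∈ S, x i := Finset.sum_nonneg fun i hi => h0 i (Finset.mem_insert_of_mem hi)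
    have : (1 - x a) * (1 - ∑ i ∈ S, x i) ≤ (1 - x a) * ∏ i ∈ S, (1 - x i) :=
      mul_le_mul_of_nonneg_left ih' (by linarith)
    nlinarith

lemma BD_lower {m : ℕ} {t : ℝ} {s : ℂ} (hs : 1 / 2 ≤ s.re)
    (hd : ‖s - 1 / 2 - t * I‖ * (3 * m) ≤ 1 / 2) : ZZ m / 2 ≤ ‖BD m t s‖ := by
  set w : ℂ := s - 1 / 2 - t * I with hw
  have hwre : 0 ≤ w.re := by
    rw [hw]; simp; linarith
  set x : ℕ → ℝ := fun p => ‖w‖ * (Real.log p / p) with hx
  have hx0 : ∀ p ∈ Nat.primesLE (2 ^ m), 0 ≤ x p := by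
    intro p hp
    have hp1 : (1 : ℝ) ≤ p := by exact_mod_cast (Nat.mem_primesLE.mp hp).2.one_le
    have := Real.log_nonneg hp1
    simp only [hx]
    positivity
  have hxs : ∑ p ∈ Nat.primesLE (2 ^ m), x p ≤ 1 / 2 := by
    simp only [hx]
    rw [← Finset.mul_sum]
    exact le_trans (mul_le_mul_of_nonneg_left (sum_log_div_le m) (norm_nonneg _)) hd
  have hx1 : ∀ p ∈ Nat.primesLE (2 ^ m), x p ≤ 1 := by
    intro p hp
    have := Finset.single_le_sum hx0 hp
    linarith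
  have hfac : ∀ p ∈ Nat.primesLE (2 ^ m), (1 + 1 / (p : ℝ)) * (1 - x p) ≤ ‖1 + cc p t * (p : ℂ) ^ (-s)‖ := by
    intro p hp
    have hpp := (Nat.mem_primesLE.mp hp).2
    have hp0 : (p : ℂ) ≠ 0 := by exact_mod_cast hpp.ne_zero
    have hpR : (0 : ℝ) < p := by exact_mod_cast hpp.pos
    have hp1 : (1 : ℝ) ≤ p := by exact_mod_cast hpp.one_le
    have hlog := Real.log_nonneg hp1
    have e1 : cc p t * (p : ℂ) ^ (-s) = (p : ℂ)⁻¹ * Complex.exp (-(w * Real.log p)) := by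
      unfold cc
      rw [← Complex.cpow_add _ _ hp0, ← Complex.cpow_neg_one (p : ℂ), ]
      rw [Complex.cpow_def_of_ne_zero hp0, Complex.cpow_def_of_ne_zero hp0, ← Complex.exp_add]
      congr 1
      rw [Complex.natCast_log, hw]
      ring
    have e2 : 1 + cc p t * (p : ℂ) ^ (-s) = ((1 + 1 / (p : ℝ) : ℝ) : ℂ) + (p : ℂ)⁻¹ * (Complex.exp (-(w * Real.log p)) - 1) := by
      rw [e1]; push_cast; ring
    have e3 : ‖(p : ℂ)⁻¹ * (Complex.exp (-(w * Real.log p)) - 1)‖ ≤ (p : ℝ)⁻¹ * (‖w‖ * Real.log p) := by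
      rw [norm_mul, norm_inv, Complex.norm_natCast]
      apply mul_le_mul_of_nonneg_left _ (by positivity)
      have h4 : 0 ≤ (w * Real.log p).re := by
        rw [Complex.re_mul_ofReal]
        exact mul_nonneg hwre hlog
      refine le_trans (one_sub_exp_le h4) ?_
      rw [norm_mul, Complex.norm_real, Real.norm_of_nonneg hlog]
    rw [e2]
    have h5 : ‖((1 + 1 / (p : ℝ) : ℝ) : ℂ)‖ = 1 + 1 / (p : ℝ) := by
      rw [Complex.norm_real, Real.norm_of_nonneg (by positivity)]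
    have h6 := norm_sub_le_norm_add ((1 + 1 / (p : ℝ) : ℝ) : ℂ) ((p : ℂ)⁻¹ * (Complex.exp (-(w * Real.log p)) - 1))
    rw [h5] at h6
    refine le_trans ?_ h6
    have h7 : (p : ℝ)⁻¹ * (‖w‖ * Real.log p) = x p := by
      simp only [hx]; field_simp
    have h8 : 0 ≤ 1 / (p : ℝ) * x p := mul_nonneg (by positivity) (hx0 p hp)
    rw [h7] at e3
    nlinarith
  have hprod : ∏ p ∈ Nat.primesLE (2 ^ m), ((1 + 1 / (p : ℝ)) * (1 - x p)) ≤ ‖BD m t s‖ := by
    unfold BD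
    rw [norm_prod]
    apply Finset.prod_le_prod _ hfac
    intro p hp
    apply mul_nonneg (by positivity)
    linarith [hx1 p hp]
  refine le_trans ?_ hprod
  rw [Finset.prod_mul_distrib]
  have h9 := one_sub_sum_le_prod (Nat.primesLE (2 ^ m)) hx0 hx1
  have h10 : (1 : ℝ) / 2 ≤ ∏ p ∈ Nat.primesLE (2 ^ m), (1 - x p) := by linarith
  have h11 : (∏ p ∈ Nat.primesLE (2 ^ m), (1 + 1 / (p : ℝ))) = ZZ m := rfl
  rw [h11]
  have := ZZ_pos m
  nlinarith

/-- the growth function -/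
noncomputable def BB (σ : ℝ) : ℝ := Real.exp (2 * ∑' n : ℕ, ((n : ℝ) ^ (1 / 2 + σ))⁻¹)

lemma BB_pos (σ : ℝ) : 0 < BB σ := Real.exp_pos _

lemma BB_antitone {σ σ' : ℝ} (h : 1 / 2 < σ) (h' : σ ≤ σ') : BB σ' ≤ BB σ := by
  unfold BB
  apply Real.exp_le_exp.mpr
  apply mul_le_mul_of_nonneg_left _ (by norm_num)
  apply Summable.tsum_le_tsum
  · intro n
    rcases Nat.eq_zero_or_pos n with hn | hn
    · subst hn
      rw [Nat.cast_zero, Real.zero_rpow (by linarith), Real.zero_rpow (by linarith)]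
    · have hn1 : (1 : ℝ) ≤ n := by exact_mod_cast hn
      apply inv_anti₀
      · positivity
      · apply Real.rpow_le_rpow_of_exponent_le hn1
        linarith
  · exact Real.summable_nat_rpow_inv.mpr (by linarith)
  · exact Real.summable_nat_rpow_inv.mpr (by linarith)

lemma BD_upper {m : ℕ} {t : ℝ} {s : ℂ} (hs : 1 / 2 < s.re) : ‖BD m t s‖ ^ 2 ≤ BB s.re := by
  have hsum : Summable (fun n : ℕ => ((n : ℝ) ^ (1 / 2 + s.re))⁻¹) :=
    Real.summable_nat_rpow_inv.mpr (by linarith)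
  have h1 : ‖BD m t s‖ ≤ Real.exp (∑' n : ℕ, ((n : ℝ) ^ (1 / 2 + s.re))⁻¹) := by
    unfold BD
    rw [norm_prod]
    calc ∏ p ∈ Nat.primesLE (2 ^ m), ‖1 + cc p t * (p : ℂ) ^ (-s)‖
        ≤ ∏ p ∈ Nat.primesLE (2 ^ m), Real.exp (((p : ℝ) ^ (1 / 2 + s.re))⁻¹) := by
          apply Finset.prod_le_prod (fun p _ => norm_nonneg _)
          intro p hp
          have hpp := (Nat.mem_primesLE.mp hp).2
          refine le_trans (norm_add_le _ _) ?_
          rw [norm_one, norm_mul, add_comm]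
          have e : ‖cc p t‖ * ‖(p : ℂ) ^ (-s)‖ = ((p : ℝ) ^ (1 / 2 + s.re))⁻¹ := by
            unfold cc
            have hpR : (0 : ℝ) < p := by exact_mod_cast hpp.pos
            rw [Complex.norm_natCast_cpow_of_pos hpp.pos, Complex.norm_natCast_cpow_of_pos hpp.pos,
              ← Real.rpow_add hpR, ← Real.rpow_neg hpR.le]
            congr 1
            simp
            ring
          rw [e]
          exact Real.add_one_le_exp _
      _ = Real.exp (∑ p ∈ Nat.primesLE (2 ^ m), ((p : ℝ) ^ (1 / 2 + s.re))⁻¹) := (Real.exp_sum _ _).symm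
      _ ≤ _ := by
          apply Real.exp_le_exp.mpr
          apply hsum.sum_le_tsum
          intro n _
          positivity
  calc ‖BD m t s‖ ^ 2 ≤ (Real.exp (∑' n : ℕ, ((n : ℝ) ^ (1 / 2 + s.re))⁻¹)) ^ 2 :=
        pow_le_pow_left₀ (norm_nonneg _) h1 2
    _ = BB s.re := by
        unfold BB
        rw [← Real.exp_nat_mul]
        norm_num

end Pool.Agent.Helper65.BL
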