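import Mathlib
import Pool.Agent.Helper65.BL9
open Complex MeasureTheory Filter Topology
open scoped BigOperators
namespace Pool.Agent.Helper65.BL

/-- sign flip in one coordinate -/
def flipS {J : ℕ} (j : Fin J) : (Fin J → ℤˣ) ≃ (Fin J → ℤˣ) := Equiv.mulLeft (Pi.mulSingle j (-1))

lemma flipS_self {J : ℕ} (j : Fin J) (ε : Fin J → ℤˣ) : flipS j ε j = - ε j := by
  unfold flipS
  simp

lemma flipS_ne {J : ℕ} {i j : Fin J} (h : i ≠ j) (ε : Fin J → ℤˣ) : flipS j ε i = ε i := by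
  unfold flipS
  simp [Pi.mulSingle_eq_of_ne h]

/-- the sign as a complex number -/
def sg (u : ℤˣ) : ℂ := ((u : ℤ) : ℂ)

lemma sg_neg (u : ℤˣ) : sg (-u) = - sg u := by
  unfold sg; simp

lemma sg_mul_self (u : ℤˣ) : sg u * sg u = 1 := by
  unfold sg
  rcases Int.units_eq_one_or u with h | h <;> simp [h]

lemma norm_sg (u : ℤˣ) : ‖sg u‖ = 1 := by
  unfold sg
  rcases Int.units_eq_one_or u with h | h <;> simp [h]

lemma conj_sg (u : ℤˣ) : (starRingEnd ℂ) (sg u) = sg u := by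
  unfold sg
  rcases Int.units_eq_one_or u with h | h <;> simp [h]

lemma card_signs (J : ℕ) : Fintype.card (Fin J → ℤˣ) = 2 ^ J := by
  rw [Fintype.card_fun, Fintype.card_units_int, Fintype.card_fin]

lemma sum_sign_prod_ne {J : ℕ} {i j : Fin J} (hij : i ≠ j) :
    ∑ ε : Fin J → ℤˣ, sg (ε i) * sg (ε j) = 0 := by
  have h := Equiv.sum_comp (flipS i) (fun ε => sg (ε i) * sg (ε j))
  simp only [flipS_self, flipS_ne (Ne.symm hij), sg_neg, neg_mul, Finset.sum_neg_distrib] at h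
  have h2 : (2 : ℂ) * ∑ ε : Fin J → ℤˣ, sg (ε i) * sg (ε j) = 0 := by linear_combination -h
  simpa using h2

lemma sum_sign_sq {J : ℕ} (a : Fin J → ℂ) :
    ∑ ε : Fin J → ℤˣ, ‖∑ j, sg (ε j) * a j‖ ^ 2 = 2 ^ J * ∑ j, ‖a j‖ ^ 2 := by
  have h : ∀ z : ℂ, ((‖z‖ ^ 2 : ℝ) : ℂ) = z * (starRingEnd ℂ) z := by
    intro z
    rw [Complex.mul_conj, Complex.normSq_eq_norm_sq]
  have key : ((∑ ε : Fin J → ℤˣ, ‖∑ j, sg (ε j) * a j‖ ^ 2 : ℝ) : ℂ) =
      ((2 ^ J * ∑ j, ‖a j‖ ^ 2 : ℝ) : ℂ) := by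
    rw [Complex.ofReal_sum]
    simp only [h]
    have e1 : ∀ ε : Fin J → ℤˣ, (∑ j, sg (ε j) * a j) * (starRingEnd ℂ) (∑ j, sg (ε j) * a j) =
        ∑ i, ∑ j, (sg (ε i) * sg (ε j)) * (a i * (starRingEnd ℂ) (a j)) := by
      intro ε
      rw [map_sum, Finset.sum_mul_sum]
      apply Finset.sum_congr rfl
      intro i _
      apply Finset.sum_congr rfl
      intro j _
      rw [map_mul, conj_sg]
      ring
    simp only [e1]
    rw [Finset.sum_comm]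
    rw [Complex.ofReal_mul, Complex.ofReal_sum, Finset.mul_sum]
    apply Finset.sum_congr rfl
    intro i _
    rw [Finset.sum_comm, Finset.sum_eq_single i]
    · simp only [sg_mul_self, one_mul, Finset.sum_const, Finset.card_univ, card_signs, h]
      push_cast
      simp
    · intro j _ hj
      rw [← Finset.sum_mul, sum_sign_prod_ne (Ne.symm hj), zero_mul]
    · intro h; exact absurd (Finset.mem_univ i) h
  exact_mod_cast key

lemma flip_avg {J : ℕ} (j : Fin J) (f : (Fin J → ℤˣ) → ℝ) {M : ℝ}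
    (h : ∀ ε, M ≤ f ε + f (flipS j ε)) : 2 ^ J * (M / 2) ≤ ∑ ε, f ε := by
  have h1 := Equiv.sum_comp (flipS j) f
  have h2 : ∑ ε : Fin J → ℤˣ, M ≤ ∑ ε, (f ε + f (flipS j ε)) := Finset.sum_le_sum fun ε _ => h ε
  rw [Finset.sum_add_distrib, h1, Finset.sum_const, Finset.card_univ, card_signs, nsmul_eq_mul] at h2
  push_cast at h2
  linarith

lemma half_le_one {x L : ℝ} (hx : 0 ≤ x) (hL : 0 < L) : x ^ (1 / 2 : ℝ) ≤ L + x ^ 2 / L ^ 3 := by
  rw [← Real.sqrt_eq_rpow]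
  set y := Real.sqrt x with hy
  have hy0 : 0 ≤ y := Real.sqrt_nonneg x
  have hyx : x = y ^ 2 := (Real.sq_sqrt hx).symm
  rw [hyx]
  rcases le_total y L with h | h
  · have : 0 ≤ (y ^ 2) ^ 2 / L ^ 3 := by positivity
    linarith
  · have : y ≤ (y ^ 2) ^ 2 / L ^ 3 := by
      rw [le_div_iff₀ (by positivity)]
      have h3 : L ^ 3 ≤ y ^ 3 := pow_le_pow_left₀ hL.le h 3
      calc y * L ^ 3 ≤ y * y ^ 3 := mul_le_mul_of_nonneg_left h3 hy0
        _ = (y ^ 2) ^ 2 := by ring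
    linarith

lemma half_le_two {x L : ℝ} (hx : 0 ≤ x) (hL : 0 < L) : x ^ (1 / 2 : ℝ) ≤ L * x + 1 / L := by
  rw [← Real.sqrt_eq_rpow]
  set y := Real.sqrt x with hy
  have hy0 : 0 ≤ y := Real.sqrt_nonneg x
  have hyx : x = y ^ 2 := (Real.sq_sqrt hx).symm
  rw [hyx]
  have h1 : L * (1 / L) = 1 := by field_simp
  have h2 : 0 < 1 / L := by positivity
  nlinarith [sq_nonneg (L * y - 1), sq_nonneg (y * L - 1), mul_pos hL h2]

lemma avg_half {J : ℕ} (a : Fin J → ℂ) {L : ℝ} (hL : 0 < L) :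
    ∑ ε : Fin J → ℤˣ, ‖∑ j, sg (ε j) * a j‖ ^ (1 / 2 : ℝ) ≤
      2 ^ J * (L + (1 / L ^ 3 + 1 / L) * (∑ j, min (‖a j‖ ^ 2) 1) + L * ∑ j, ‖a j‖) := by
  have hmin0 : ∀ j, 0 ≤ min (‖a j‖ ^ 2) 1 := fun j => le_min (by positivity) zero_le_one
  have hsum0 : 0 ≤ ∑ j, min (‖a j‖ ^ 2) 1 := Finset.sum_nonneg fun j _ => hmin0 j
  have hsum1 : 0 ≤ ∑ j, ‖a j‖ := Finset.sum_nonneg fun j _ => norm_nonneg _
  have hL3 : 0 < 1 / L ^ 3 := by positivity
  have hL1 : 0 < 1 / L := by positivity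
  by_cases hall : ∀ j, ‖a j‖ ≤ 1
  · have h1 : ∑ ε : Fin J → ℤˣ, ‖∑ j, sg (ε j) * a j‖ ^ (1 / 2 : ℝ) ≤
        ∑ ε : Fin J → ℤˣ, (L + ‖∑ j, sg (ε j) * a j‖ ^ 2 / L ^ 3) :=
      Finset.sum_le_sum fun ε _ => half_le_one (norm_nonneg _) hL
    refine le_trans h1 ?_
    rw [Finset.sum_add_distrib, ← Finset.sum_div, sum_sign_sq, Finset.sum_const, Finset.card_univ,
      card_signs, nsmul_eq_mul]
    have h2 : ∑ j, ‖a j‖ ^ 2 = ∑ j, min (‖a j‖ ^ 2) 1 := by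
      apply Finset.sum_congr rfl
      intro j _
      rw [min_eq_left]
      have := hall j
      have := norm_nonneg (a j)
      nlinarith
    rw [h2]
    push_cast
    have h3 : (2 : ℝ) ^ J * L + 2 ^ J * (∑ j, min (‖a j‖ ^ 2) 1) / L ^ 3 =
        2 ^ J * (L + 1 / L ^ 3 * ∑ j, min (‖a j‖ ^ 2) 1) := by ring
    rw [h3]
    apply mul_le_mul_of_nonneg_left _ (by positivity)
    have h4 : 0 ≤ 1 / L * ∑ j, min (‖a j‖ ^ 2) 1 := mul_nonneg hL1.le hsum0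
    have h5 : 0 ≤ L * ∑ j, ‖a j‖ := mul_nonneg hL.le hsum1
    linarith
  · push Not at hall
    obtain ⟨j0, hj0⟩ := hall
    have hone : 1 ≤ ∑ j, min (‖a j‖ ^ 2) 1 := by
      have : (1 : ℝ) = min (‖a j0‖ ^ 2) 1 := by
        rw [min_eq_right]
        nlinarith
      refine le_trans (le_of_eq this) ?_
      exact Finset.single_le_sum (s := Finset.univ) (f := fun j => min (‖a j‖ ^ 2) 1) (fun j _ => hmin0 j)
        (Finset.mem_univ j0)
    have h1 : ∑ ε : Fin J → ℤˣ, ‖∑ j, sg (ε j) * a j‖ ^ (1 / 2 : ℝ) ≤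
        ∑ ε : Fin J → ℤˣ, (L * (∑ j, ‖a j‖) + 1 / L) := by
      apply Finset.sum_le_sum
      intro ε _
      refine le_trans (half_le_two (norm_nonneg _) hL) ?_
      have : ‖∑ j, sg (ε j) * a j‖ ≤ ∑ j, ‖a j‖ := by
        refine le_trans (norm_sum_le _ _) ?_
        apply Finset.sum_le_sum
        intro j _
        rw [norm_mul, norm_sg, one_mul]
      have := mul_le_mul_of_nonneg_left this hL.le
      linarith
    refine le_trans h1 ?_
    rw [Finset.sum_const, Finset.card_univ, card_signs, nsmul_eq_mul]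
    push_cast
    apply mul_le_mul_of_nonneg_left _ (by positivity)
    have h4 : 1 / L * 1 ≤ 1 / L * ∑ j, min (‖a j‖ ^ 2) 1 := mul_le_mul_of_nonneg_left hone hL1.le
    have h5 : 0 ≤ 1 / L ^ 3 * ∑ j, min (‖a j‖ ^ 2) 1 := mul_nonneg hL3.le hsum0
    linarith

end Pool.Agent.Helper65.BL
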