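import Mathlib

open Complex MeasureTheory Filter Topology Real
open scoped BigOperators ENNReal

namespace Pool.Agent.Helper65.BL

/-- Conformal map of the unit disc onto the half-plane `Re s > 1/2`. -/
noncomputable def phi (w : ℂ) : ℂ := 1 / 2 + (1 + w) / (1 - w)

lemma one_sub_ne_zero {w : ℂ} (hw : ‖w‖ < 1) : (1 : ℂ) - w ≠ 0 := by
  intro h
  have : w = 1 := (sub_eq_zero.mp h).symm
  rw [this, norm_one] at hw
  exact lt_irrefl _ hw

lemma phi_add_half {w : ℂ} (hw : ‖w‖ < 1) : phi w + 1 / 2 = 2 / (1 - w) := by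
  have := one_sub_ne_zero hw
  unfold phi
  field_simp
  ring

lemma phi_re {w : ℂ} (hw : ‖w‖ < 1) :
    (phi w).re - 1 / 2 = (1 - ‖w‖ ^ 2) / ‖1 - w‖ ^ 2 := by
  have h1 := one_sub_ne_zero hw
  have h2 : phi w - 1 / 2 = (1 + w) / (1 - w) := by unfold phi; ring
  have h3 : (phi w).re - 1 / 2 = ((1 + w) / (1 - w)).re := by
    rw [← h2]; simp
  rw [h3, Complex.div_re, ← Complex.normSq_eq_norm_sq, ← Complex.normSq_eq_norm_sq]
  have h4 : Complex.normSq (1 - w) ≠ 0 := by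
    rwa [Ne, Complex.normSq_eq_zero]
  rw [← add_div]
  congr 1
  simp only [Complex.add_re, Complex.one_re, Complex.sub_re, Complex.add_im, Complex.one_im,
    Complex.sub_im, Complex.normSq_apply]
  ring

lemma phi_re_gt {w : ℂ} (hw : ‖w‖ < 1) : 1 / 2 < (phi w).re := by
  have h1 := phi_re hw
  have h2 : 0 < ‖1 - w‖ := norm_pos_iff.mpr (one_sub_ne_zero hw)
  have h3 : 0 < (1 - ‖w‖ ^ 2) / ‖1 - w‖ ^ 2 := by
    apply div_pos _ (by positivity)
    have := norm_nonneg w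
    nlinarith
  linarith

lemma one_sub_norm_le {w : ℂ} (hw : ‖w‖ < 1) :
    1 - ‖w‖ ≤ 5 * (((phi w).re - 1 / 2) / (1 + ‖phi w‖ ^ 2)) := by
  have h1 := phi_re hw
  have h2 : 0 < ‖1 - w‖ := norm_pos_iff.mpr (one_sub_ne_zero hw)
  have h3 : ‖phi w + 1 / 2‖ = 2 / ‖1 - w‖ := by
    rw [phi_add_half hw, norm_div]; norm_num
  have hre := phi_re_gt hw
  have h4 : ‖phi w + 1 / 2‖ ^ 2 = ‖phi w‖ ^ 2 + (phi w).re + 1 / 4 := by
    rw [← Complex.normSq_eq_norm_sq, ← Complex.normSq_eq_norm_sq, Complex.normSq_apply,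
      Complex.normSq_apply]
    simp
    ring
  have h5 : 1 + ‖phi w‖ ^ 2 ≤ 5 / 4 * ‖phi w + 1 / 2‖ ^ 2 := by
    have : (phi w).re ^ 2 ≤ ‖phi w‖ ^ 2 := by
      rw [← Complex.normSq_eq_norm_sq, Complex.normSq_apply]
      nlinarith [sq_nonneg (phi w).im]
    nlinarith
  have h6 : (phi w).re - 1 / 2 = (1 - ‖w‖ ^ 2) / 4 * ‖phi w + 1 / 2‖ ^ 2 := by
    rw [h1, h3]; field_simp; ring
  have h7 : 0 < 1 + ‖phi w‖ ^ 2 := by positivity
  have hn := norm_nonneg w
  rw [← mul_div_assoc, le_div_iff₀ h7]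
  have h8 : 0 ≤ 1 - ‖w‖ := by linarith
  have h9 : 0 ≤ ‖phi w + 1 / 2‖ ^ 2 := by positivity
  calc (1 - ‖w‖) * (1 + ‖phi w‖ ^ 2) ≤ (1 - ‖w‖) * (5 / 4 * ‖phi w + 1 / 2‖ ^ 2) :=
        mul_le_mul_of_nonneg_left h5 h8
    _ ≤ (1 - ‖w‖ ^ 2) * (5 / 4 * ‖phi w + 1 / 2‖ ^ 2) := by
        apply mul_le_mul_of_nonneg_right _ (by positivity)
        nlinarith
    _ = 5 * ((phi w).re - 1 / 2) := by rw [h6]; ring

lemma phi_hasDerivAt {w : ℂ} (hw : ‖w‖ < 1) : HasDerivAt phi (2 / (1 - w) ^ 2) w := by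
  have h1 := one_sub_ne_zero hw
  have h2 : HasDerivAt (fun w : ℂ => (1 + w) / (1 - w)) ((1 * (1 - w) - (1 + w) * (-1)) / (1 - w) ^ 2) w := by
    apply HasDerivAt.div
    · exact (hasDerivAt_id w).const_add 1
    · simpa using (hasDerivAt_id w).const_sub 1
    · exact h1
  have h3 := h2.const_add (1 / 2 : ℂ)
  have e : (2 : ℂ) / (1 - w) ^ 2 = (1 * (1 - w) - (1 + w) * (-1)) / (1 - w) ^ 2 := by ring
  rw [e]
  exact h3

lemma phi_analyticAt {w : ℂ} (hw : ‖w‖ < 1) : AnalyticAt ℂ phi w := by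
  unfold phi
  have h1 := one_sub_ne_zero hw
  fun_prop (disch := assumption)

lemma phi_injOn : Set.InjOn phi (Metric.ball 0 1) := by
  intro w hw v hv h
  rw [mem_ball_zero_iff] at hw hv
  have h1 := phi_add_half hw
  have h2 := phi_add_half hv
  rw [h, h2] at h1
  have hw1 := one_sub_ne_zero hw
  have hv1 := one_sub_ne_zero hv
  rw [div_eq_div_iff hv1 hw1] at h1
  have : (1 : ℂ) - w = 1 - v := by
    have h2 : (2 : ℂ) ≠ 0 := two_ne_zero
    exact mul_left_cancel₀ h2 h1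
  linear_combination -this

lemma untop_map (x : ℕ∞) : (ENat.map (Nat.cast : ℕ → ℤ) x).untop₀ = (x.toNat : ℤ) := by
  induction x using ENat.recTopCoe with
  | top => simp
  | coe n => simp

/-- Jensen upper bound from the Blaschke hypothesis. -/
lemma jensen_bound {F : ℂ → ℂ} (hF : ∀ s : ℂ, 1 / 2 < s.re → AnalyticAt ℂ F s)
    (h0 : F (phi 0) ≠ 0) {C : ℝ}
    (hC : ∀ S : Finset ℂ, (∀ ρ ∈ S, 1 / 2 < ρ.re ∧ F ρ = 0) →
        ∑ ρ ∈ S, (analyticOrderNatAt F ρ : ℝ) * (ρ.re - 1 / 2) / (1 + ‖ρ‖ ^ 2) ≤ C) :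
    ∃ C' : ℝ, ∀ r : ℝ, 0 < r → r < 1 →
      circleAverage (fun w => Real.log ‖F (phi w)‖) 0 r ≤ C' := by
  set h : ℂ → ℂ := fun w => F (phi w) with hh
  have hA : ∀ w : ℂ, ‖w‖ < 1 → AnalyticAt ℂ h w := by
    intro w hw
    exact (hF _ (phi_re_gt hw)).comp (phi_analyticAt hw)
  have hcont : ContinuousAt h 0 := (hA 0 (by simp)).continuousAt
  obtain ⟨ρ₀, hρ₀, hball⟩ : ∃ ρ₀ > 0, ∀ w : ℂ, ‖w‖ < ρ₀ → h w ≠ 0 := by
    have := hcont.eventually_ne h0
    obtain ⟨ε, hε, hb⟩ := Metric.eventually_nhds_iff.mp this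
    exact ⟨ε, hε, fun w hw => hb (by simpa using hw)⟩
  refine ⟨5 * C / ρ₀ + Real.log ‖h 0‖, ?_⟩
  intro r hr0 hr1
  have hr : |r| = r := abs_of_pos hr0
  have hAn : AnalyticOnNhd ℂ h (Metric.closedBall 0 |r|) := by
    intro w hw
    rw [mem_closedBall_zero_iff, hr] at hw
    exact hA w (by linarith)
  have hJ := hAn.circleAverage_log_norm hr0.ne' (by simpa [hh] using h0)
  have hJ' : circleAverage (fun w => Real.log ‖h w‖) 0 r =
      ∑ᶠ u, (MeromorphicOn.divisor h (Metric.closedBall 0 |r|)) u * Real.log (r * ‖0 - u‖⁻¹)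
        + Real.log ‖h 0‖ := hJ
  rw [hJ']
  gcongr
  set D := MeromorphicOn.divisor h (Metric.closedBall 0 |r|) with hD
  have hfin : (Function.support D).Finite := D.finiteSupport (isCompact_closedBall _ _)
  have hsub : Function.support (fun u => (D u : ℝ) * Real.log (r * ‖0 - u‖⁻¹)) ⊆ hfin.toFinset := by
    intro u hu
    simp only [Set.Finite.coe_toFinset, Function.mem_support]
    intro h0'
    apply hu
    simp [h0']
  rw [finsum_eq_sum_of_support_subset _ hsub]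
  -- facts about points of the support
  have hfact : ∀ u ∈ hfin.toFinset, ‖u‖ ≤ r ∧ h u = 0 ∧ (D u : ℝ) = analyticOrderNatAt F (phi u) := by
    intro u hu
    rw [Set.Finite.mem_toFinset, Function.mem_support] at hu
    have hmem : u ∈ Metric.closedBall (0 : ℂ) |r| := by
      by_contra hnot
      exact hu (D.apply_eq_zero_of_notMem hnot)
    have hle : ‖u‖ ≤ r := by rwa [mem_closedBall_zero_iff, hr] at hmem
    have hlt : ‖u‖ < 1 := by linarith
    have hDu : D u = ((analyticOrderAt h u).toNat : ℤ) := by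
      rw [hD, MeromorphicOn.AnalyticOnNhd.divisor_apply hAn hmem, untop_map]
    have hcomp : analyticOrderAt h u = analyticOrderAt F (phi u) := by
      have hd : deriv phi u ≠ 0 := by
        rw [(phi_hasDerivAt hlt).deriv]
        exact div_ne_zero two_ne_zero (pow_ne_zero _ (one_sub_ne_zero hlt))
      exact analyticOrderAt_comp_of_deriv_ne_zero (f := F) (phi_analyticAt hlt) hd
    refine ⟨hle, ?_, ?_⟩
    · by_contra hne
      apply hu
      rw [hDu, (hA u hlt).analyticOrderAt_eq_zero.mpr hne]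
      simp
    · rw [hDu, hcomp]
      simp [analyticOrderNatAt]
  -- termwise bound
  have hterm : ∀ u ∈ hfin.toFinset, (D u : ℝ) * Real.log (r * ‖0 - u‖⁻¹) ≤
      5 / ρ₀ * ((analyticOrderNatAt F (phi u) : ℝ) * ((phi u).re - 1 / 2) / (1 + ‖phi u‖ ^ 2)) := by
    intro u hu
    obtain ⟨hle, hz, hDu⟩ := hfact u hu
    have hlt : ‖u‖ < 1 := by linarith
    have huρ : ρ₀ ≤ ‖u‖ := by
      by_contra hlt'
      push Not at hlt'
      exact hball u hlt' hz
    have hupos : 0 < ‖u‖ := by linarith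
    rw [hDu, zero_sub, norm_neg]
    have hlog : Real.log (r * ‖u‖⁻¹) ≤ (1 - ‖u‖) / ρ₀ := by
      calc Real.log (r * ‖u‖⁻¹) ≤ Real.log (‖u‖⁻¹) := by
            apply Real.log_le_log (by positivity)
            have : 0 < ‖u‖⁻¹ := by positivity
            nlinarith
        _ ≤ ‖u‖⁻¹ - 1 := Real.log_le_sub_one_of_pos (by positivity)
        _ = (1 - ‖u‖) / ‖u‖ := by field_simp
        _ ≤ (1 - ‖u‖) / ρ₀ := by
            apply div_le_div_of_nonneg_left (by linarith) hρ₀ huρ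
    have h5 := one_sub_norm_le hlt
    calc (analyticOrderNatAt F (phi u) : ℝ) * Real.log (r * ‖u‖⁻¹)
        ≤ (analyticOrderNatAt F (phi u) : ℝ) * ((5 * (((phi u).re - 1 / 2) / (1 + ‖phi u‖ ^ 2))) / ρ₀) := by
          apply mul_le_mul_of_nonneg_left _ (by positivity)
          refine le_trans hlog ?_
          exact div_le_div_of_nonneg_right h5 hρ₀.le
      _ = _ := by ring
  refine le_trans (Finset.sum_le_sum hterm) ?_
  rw [← Finset.mul_sum]
  have hinj : Set.InjOn phi (hfin.toFinset : Set ℂ) := by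
    apply phi_injOn.mono
    intro u hu
    rw [mem_ball_zero_iff]
    have := (hfact u (by simpa using hu)).1
    linarith
  have hsum := hC (hfin.toFinset.image phi) (by
    intro ρ hρ
    rw [Finset.mem_image] at hρ
    obtain ⟨u, hu, rfl⟩ := hρ
    obtain ⟨hle, hz, _⟩ := hfact u hu
    exact ⟨phi_re_gt (by linarith), hz⟩)
  rw [Finset.sum_image hinj] at hsum
  calc 5 / ρ₀ * ∑ u ∈ hfin.toFinset, _ ≤ 5 / ρ₀ * C :=
        mul_le_mul_of_nonneg_left hsum (by positivity)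
    _ = 5 * C / ρ₀ := by ring

end Pool.Agent.Helper65.BL
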