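import Mathlib
import Pool.Agent.Helper65.BL7
import Pool.Agent.Helper65.BL10
open Complex MeasureTheory Filter Topology
open scoped BigOperators
namespace Pool.Agent.Helper65.BL

lemma phi_im {w : ℂ} (hw : ‖w‖ < 1) : (phi w).im = 2 * w.im / ‖1 - w‖ ^ 2 := by
  have h1 := one_sub_ne_zero hw
  have h2 : phi w - 1 / 2 = (1 + w) / (1 - w) := by unfold phi; ring
  have h3 : (phi w).im = ((1 + w) / (1 - w)).im := by
    rw [← h2]; simp
  rw [h3, Complex.div_im, ← Complex.normSq_eq_norm_sq]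
  have h4 : Complex.normSq (1 - w) ≠ 0 := by
    rwa [Ne, Complex.normSq_eq_zero]
  rw [← sub_div]
  congr 1
  simp only [Complex.add_re, Complex.one_re, Complex.sub_re, Complex.add_im, Complex.one_im,
    Complex.sub_im]
  ring

lemma phi_arc {r θ : ℝ} (hr0 : 0 < r) (hr1 : r < 1) (h1 : Real.pi / 2 ≤ θ) (h2 : θ ≤ Real.pi) :
    (phi (circleMap 0 r θ)).re - 1 / 2 ≤ 1 - r ^ 2 ∧ 0 ≤ (phi (circleMap 0 r θ)).im ∧
      (phi (circleMap 0 r θ)).im ≤ 1 := by
  set w := circleMap 0 r θ with hw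
  have hwn : ‖w‖ = r := by rw [hw, norm_circleMap_zero, abs_of_pos hr0]
  have hw1 : ‖w‖ < 1 := by rw [hwn]; exact hr1
  have hwre : w.re = r * Real.cos θ := by
    rw [hw, circleMap_zero, Complex.re_ofReal_mul, Complex.exp_ofReal_mul_I_re]
  have hwim : w.im = r * Real.sin θ := by
    rw [hw, circleMap_zero, Complex.im_ofReal_mul, Complex.exp_ofReal_mul_I_im]
  have hcos : Real.cos θ ≤ 0 := Real.cos_nonpos_of_pi_div_two_le_of_le h1 (by linarith [Real.pi_pos])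
  have hsin : 0 ≤ Real.sin θ := Real.sin_nonneg_of_nonneg_of_le_pi (by linarith [Real.pi_pos]) h2
  have hsin1 := Real.sin_le_one θ
  have hsc := Real.sin_sq_add_cos_sq θ
  have hD : ‖1 - w‖ ^ 2 = 1 - 2 * r * Real.cos θ + r ^ 2 := by
    rw [← Complex.normSq_eq_norm_sq, Complex.normSq_apply]
    simp only [Complex.sub_re, Complex.one_re, Complex.sub_im, Complex.one_im, hwre, hwim]
    linear_combination r ^ 2 * hsc
  have hD1 : 1 + r ^ 2 ≤ ‖1 - w‖ ^ 2 := by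
    rw [hD]; nlinarith
  have hDpos : 0 < ‖1 - w‖ ^ 2 := lt_of_lt_of_le (by positivity : 0 < 1 + r ^ 2) hD1
  refine ⟨?_, ?_, ?_⟩
  · rw [phi_re hw1, hwn, div_le_iff₀ hDpos]
    have : 0 ≤ 1 - r ^ 2 := by nlinarith
    nlinarith
  · rw [phi_im hw1, hwim]
    positivity
  · rw [phi_im hw1, hwim, div_le_one hDpos]
    nlinarith [sq_nonneg (r - 1)]

lemma phi_circle_continuous {r : ℝ} (hr0 : 0 < r) (hr1 : r < 1) :
    Continuous (fun θ : ℝ => phi (circleMap 0 r θ)) := by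
  rw [continuous_iff_continuousAt]
  intro θ
  have hn : ‖circleMap 0 r θ‖ < 1 := by
    rw [norm_circleMap_zero, abs_of_pos hr0]; exact hr1
  exact ContinuousAt.comp (f := fun θ : ℝ => circleMap 0 r θ) (phi_analyticAt hn).continuousAt
      (continuous_circleMap 0 r).continuousAt

/-- random polynomial -/
noncomputable def GG (m : ℕ) {J : ℕ} (H : ℝ) (t : Fin J → ℝ) (ε : Fin J → ℤˣ) (s : ℂ) : ℂ :=
  (H : ℂ) * ∑ j, sg (ε j) * (BD m (t j) s ^ 2 / (ZZ m : ℂ) ^ 2)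

lemma GG_isDP (m : ℕ) {J : ℕ} (H : ℝ) (t : Fin J → ℝ) (ε : Fin J → ℤˣ) : IsDP (GG m H t ε) := by
  unfold GG
  apply IsDP.const_mul
  apply IsDP.sum
  intro j _
  have h := (((BD_isDP m (t j)).mul (BD_isDP m (t j))).const_mul (1 / (ZZ m : ℂ) ^ 2)).const_mul (sg (ε j))
  refine Eq.mp ?_ h
  congr 1
  funext s
  ring

/-- torus version -/
noncomputable def GT (m : ℕ) {J : ℕ} (H : ℝ) (t : Fin J → ℝ) (ε : Fin J → ℤˣ) (y : PI m → UnitAddCircle) : ℂ :=
  (H : ℂ) * ∑ j, sg (ε j) * (AA (t j) y ^ 2 / (ZZ m : ℂ) ^ 2)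

lemma GT_continuous (m : ℕ) {J : ℕ} (H : ℝ) (t : Fin J → ℝ) (ε : Fin J → ℤˣ) : Continuous (GT m H t ε) := by
  unfold GT
  apply continuous_const.mul
  apply continuous_finsetSum
  intro j _
  exact continuous_const.mul (((AA_continuous (t j)).pow 2).div_const _)

lemma GG_meanLe (m : ℕ) {J : ℕ} (H : ℝ) (t : Fin J → ℝ) (ε : Fin J → ℤˣ) :
    MeanLe (GG m H t ε) (∫ y, ‖GT m H t ε y‖ ^ (1 / 2 : ℝ) ∂(PT (PI m))) := by
  apply meanLe_of_torus (q := fun i : PI m => (i : ℕ)) (fun i => (Nat.mem_primesLE.mp i.2).2)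
    Subtype.val_injective (GT_continuous m H t ε)
  intro τ
  unfold GG GT
  simp only [BD_flow]

lemma norm_AA_div (m : ℕ) (t : ℝ) (y : PI m → UnitAddCircle) :
    ‖AA t y ^ 2 / (ZZ m : ℂ) ^ 2‖ = bb (fun i : PI m => cc i t) y / (ZZ m) ^ 2 := by
  rw [norm_div, norm_pow, norm_AA_sq, norm_pow, Complex.norm_real, Real.norm_of_nonneg (ZZ_pos m).le]

lemma half_cont {ι : Type*} [Fintype ι] {f : (ι → UnitAddCircle) → ℂ} (hf : Continuous f) :
    Continuous (fun y => ‖f y‖ ^ (1 / 2 : ℝ)) := by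
  apply Continuous.rpow_const hf.norm
  intro y; right; norm_num

/-- expectation bound -/
lemma GT_avg (m : ℕ) {J : ℕ} {H : ℝ} (hH : 0 ≤ H) (t : Fin J → ℝ) {L : ℝ} (hL : 0 < L) :
    ∑ ε : Fin J → ℤˣ, ∫ y, ‖GT m H t ε y‖ ^ (1 / 2 : ℝ) ∂(PT (PI m)) ≤
      2 ^ J * (H ^ (1 / 2 : ℝ) * (L + (1 / L ^ 3 + 1 / L) * (J * (2 * om m / ZZ m)) + L * (J / ZZ m))) := by
  have hZ := ZZ_pos m
  rw [← integral_finsetSum _ (fun ε _ => integrable_PT (half_cont (GT_continuous m H t ε)))]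
  set v : Fin J → (PI m → UnitAddCircle) → ℝ := fun j y => bb (fun i : PI m => cc i (t j)) y / (ZZ m) ^ 2 with hv
  have hvc : ∀ j, Continuous (v j) := fun j => bb_continuous.div_const _
  have hpt : ∀ y, ∑ ε : Fin J → ℤˣ, ‖GT m H t ε y‖ ^ (1 / 2 : ℝ) ≤
      2 ^ J * (H ^ (1 / 2 : ℝ) * (L + (1 / L ^ 3 + 1 / L) * (∑ j, min ((v j y) ^ 2) 1) + L * ∑ j, v j y)) := by
    intro y
    have h1 : ∀ ε : Fin J → ℤˣ, ‖GT m H t ε y‖ ^ (1 / 2 : ℝ) =
        H ^ (1 / 2 : ℝ) * ‖∑ j, sg (ε j) * (AA (t j) y ^ 2 / (ZZ m : ℂ) ^ 2)‖ ^ (1 / 2 : ℝ) := by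
      intro ε
      unfold GT
      rw [norm_mul, Complex.norm_real, Real.norm_of_nonneg hH, Real.mul_rpow hH (norm_nonneg _)]
    simp only [h1]
    rw [← Finset.mul_sum]
    have h2 := avg_half (fun j => AA (t j) y ^ 2 / (ZZ m : ℂ) ^ 2) hL
    simp only [norm_AA_div] at h2
    have h3 : 0 ≤ H ^ (1 / 2 : ℝ) := Real.rpow_nonneg hH _
    calc H ^ (1 / 2 : ℝ) * ∑ ε : Fin J → ℤˣ, ‖∑ j, sg (ε j) * (AA (t j) y ^ 2 / (ZZ m : ℂ) ^ 2)‖ ^ (1 / 2 : ℝ)
        ≤ H ^ (1 / 2 : ℝ) * (2 ^ J * (L + (1 / L ^ 3 + 1 / L) * (∑ j, min ((v j y) ^ 2) 1) + L * ∑ j, v j y)) :=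
          mul_le_mul_of_nonneg_left h2 h3
      _ = _ := by ring
  have hI : ∫ y, ∑ ε : Fin J → ℤˣ, ‖GT m H t ε y‖ ^ (1 / 2 : ℝ) ∂(PT (PI m)) ≤
      ∫ y, 2 ^ J * (H ^ (1 / 2 : ℝ) * (L + (1 / L ^ 3 + 1 / L) * (∑ j, min ((v j y) ^ 2) 1) + L * ∑ j, v j y)) ∂(PT (PI m)) := by
    apply integral_mono
    · apply integrable_PT
      apply continuous_finsetSum
      intro ε _
      exact half_cont (GT_continuous m H t ε)
    · apply integrable_PT
      fun_prop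
    · exact hpt
  refine le_trans hI ?_
  rw [integral_const_mul, integral_const_mul, integral_add, integral_add, integral_const_mul, integral_const_mul,
    integral_finsetSum, integral_finsetSum]
  · apply mul_le_mul_of_nonneg_left _ (by positivity)
    apply mul_le_mul_of_nonneg_left _ (Real.rpow_nonneg hH _)
    have e1 : ∫ _ : PI m → UnitAddCircle, L ∂(PT (PI m)) = L := by simp
    have e2 : ∑ j : Fin J, ∫ y, min ((v j y) ^ 2) 1 ∂(PT (PI m)) ≤ J * (2 * om m / ZZ m) := by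
      calc ∑ j : Fin J, ∫ y, min ((v j y) ^ 2) 1 ∂(PT (PI m)) ≤ ∑ j : Fin J, 2 * om m / ZZ m :=
            Finset.sum_le_sum fun j _ => chaos (hcc (t j))
        _ = _ := by simp
    have e3 : ∑ j : Fin J, ∫ y, v j y ∂(PT (PI m)) = J / ZZ m := by
      have : ∀ j, ∫ y, v j y ∂(PT (PI m)) = 1 / ZZ m := by
        intro j
        rw [hv]
        simp only
        rw [integral_div, integral_bb (hcc (t j))]
        field_simp
      simp only [this]
      simp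
      field_simp
    rw [e1, e3]
    have h4 : 0 ≤ 1 / L ^ 3 + 1 / L := by positivity
    have := mul_le_mul_of_nonneg_left e2 h4
    linarith
  · intro j _; exact integrable_PT (hvc j)
  · intro j _; exact integrable_PT (((hvc j).pow 2).min continuous_const)
  · exact integrable_PT continuous_const
  · apply integrable_PT; fun_prop
  · apply integrable_PT; fun_prop
  · apply integrable_PT; fun_prop

lemma GG_upper (m : ℕ) {J : ℕ} {H : ℝ} (hH : 0 ≤ H) (t : Fin J → ℝ) (ε : Fin J → ℤˣ) {s : ℂ}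
    (hs : 1 / 2 < s.re) : ‖GG m H t ε s‖ ≤ H * (J / (ZZ m) ^ 2) * BB s.re := by
  unfold GG
  rw [norm_mul, Complex.norm_real, Real.norm_of_nonneg hH, mul_assoc]
  apply mul_le_mul_of_nonneg_left _ hH
  refine le_trans (norm_sum_le _ _) ?_
  calc ∑ j : Fin J, ‖sg (ε j) * (BD m (t j) s ^ 2 / (ZZ m : ℂ) ^ 2)‖ ≤ ∑ j : Fin J, BB s.re / (ZZ m) ^ 2 := by
        apply Finset.sum_le_sum
        intro j _
        rw [norm_mul, norm_sg, one_mul, norm_div, norm_pow, norm_pow, Complex.norm_real,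
          Real.norm_of_nonneg (ZZ_pos m).le]
        exact div_le_div_of_nonneg_right (BD_upper hs) (by positivity)
    _ = J / (ZZ m) ^ 2 * BB s.re := by
        simp
        ring

end Pool.Agent.Helper65.BL
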