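import Mathlib
import Pool.Agent.Helper65.BL11
open Complex MeasureTheory Filter Topology
open scoped BigOperators
namespace Pool.Agent.Helper65.BL

/-- lower bound for the two-sign combination -/
lemma pair_max {a b : ℂ} {M : ℝ} (hM : 0 ≤ M) (hb : Real.exp M ≤ ‖b‖) :
    M ≤ min (Real.posLog ‖a + b‖) M + min (Real.posLog ‖a - b‖) M := by
  have h1 : Real.exp M ≤ ‖a + b‖ ∨ Real.exp M ≤ ‖a - b‖ := by
    by_contra hcon
    push Not at hcon
    have h2 : 2 * ‖b‖ ≤ ‖a + b‖ + ‖a - b‖ := by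
      have h3 : (2 : ℂ) * b = (a + b) - (a - b) := by ring
      calc 2 * ‖b‖ = ‖(2 : ℂ) * b‖ := by rw [norm_mul]; norm_num
        _ = ‖(a + b) - (a - b)‖ := by rw [h3]
        _ ≤ _ := norm_sub_le _ _
    linarith [hcon.1, hcon.2]
  have hp : ∀ x : ℝ, 0 ≤ min (Real.posLog x) M := fun x => le_min Real.posLog_nonneg hM
  have hq : ∀ x : ℝ, Real.exp M ≤ x → min (Real.posLog x) M = M := by
    intro x hx
    rw [min_eq_right]
    unfold Real.posLog
    refine le_trans ?_ (le_max_right _ _)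
    rw [Real.le_log_iff_exp_le (lt_of_lt_of_le (Real.exp_pos M) hx)]
    exact hx
  rcases h1 with h | h
  · rw [hq _ h]; linarith [hp ‖a - b‖]
  · rw [hq _ h]; linarith [hp ‖a + b‖]

lemma GG_flip (m : ℕ) {J : ℕ} (H : ℝ) (t : Fin J → ℝ) (ε : Fin J → ℤˣ) (j : Fin J) (s : ℂ) :
    ∃ a : ℂ, GG m H t ε s = a + sg (ε j) * (H * (BD m (t j) s ^ 2 / (ZZ m : ℂ) ^ 2)) ∧
      GG m H t (flipS j ε) s = a - sg (ε j) * (H * (BD m (t j) s ^ 2 / (ZZ m : ℂ) ^ 2)) := by
  classical
  refine ⟨(H : ℂ) * ∑ i ∈ Finset.univ.erase j, sg (ε i) * (BD m (t i) s ^ 2 / (ZZ m : ℂ) ^ 2), ?_, ?_⟩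
  · unfold GG
    rw [← Finset.add_sum_erase _ _ (Finset.mem_univ j)]
    ring
  · unfold GG
    rw [← Finset.add_sum_erase _ _ (Finset.mem_univ j), flipS_self, sg_neg]
    have : ∑ i ∈ Finset.univ.erase j, sg (flipS j ε i) * (BD m (t i) s ^ 2 / (ZZ m : ℂ) ^ 2) =
        ∑ i ∈ Finset.univ.erase j, sg (ε i) * (BD m (t i) s ^ 2 / (ZZ m : ℂ) ^ 2) := by
      apply Finset.sum_congr rfl
      intro i hi
      rw [flipS_ne (Finset.ne_of_mem_erase hi)]
    rw [this]
    ring

lemma exists_params {δ M : ℝ} (hδ : 0 < δ) :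
    ∃ (m : ℕ) (L : ℝ), 1 ≤ m ∧ 0 < L ∧
      (4 * Real.exp M) * (((12 * m + 1 : ℕ) : ℝ) / (ZZ m) ^ 2) ≤ δ ∧
      (4 * Real.exp M) ^ (1 / 2 : ℝ) * (L + (1 / L ^ 3 + 1 / L) * (((12 * m + 1 : ℕ) : ℝ) * (2 * om m / ZZ m)) +
        L * (((12 * m + 1 : ℕ) : ℝ) / ZZ m)) ≤ δ / 4 := by
  set H := 4 * Real.exp M with hH
  have hHpos : 0 < H := by positivity
  set h := H ^ (1 / 2 : ℝ) with hh
  have hhpos : 0 < h := Real.rpow_pos_of_pos hHpos _
  set L := δ / (8 * 651 * h) with hL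
  have hLpos : 0 < L := by positivity
  have hratio : ∀ m : ℕ, 1 ≤ m → ((12 * m + 1 : ℕ) : ℝ) ≤ 650 * ZZ m := by
    intro m hm
    have h1 := ZZ_ge hm
    have h2 : (1 : ℝ) ≤ m := by exact_mod_cast hm
    push_cast
    linarith
  set Q := 650 * 2 * (1 / L ^ 3 + 1 / L) * h with hQ
  have hQpos : 0 < Q := by positivity
  have hev1 : ∀ᶠ m : ℕ in atTop, om m < δ / (8 * Q) := om_tendsto.eventually_lt_const (by positivity)
  obtain ⟨n0, hn0⟩ := exists_nat_ge (50 * 650 * H / δ)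
  obtain ⟨m, hm1, hm2, hm3⟩ := (hev1.and ((eventually_ge_atTop 1).and (eventually_ge_atTop n0))).exists
  refine ⟨m, L, hm2, hLpos, ?_, ?_⟩
  · have hr := hratio m hm2
    have hZ := ZZ_pos m
    have hmn : (n0 : ℝ) ≤ m := by exact_mod_cast hm3
    have hz : 650 * H / δ ≤ ZZ m := by
      have h1 := ZZ_ge hm2
      have : 50 * (650 * H / δ) ≤ 50 * ZZ m := by
        calc 50 * (650 * H / δ) = 50 * 650 * H / δ := by ring
          _ ≤ n0 := hn0
          _ ≤ m := hmn
          _ ≤ 50 * ZZ m := h1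
      linarith
    have h2 : ((12 * m + 1 : ℕ) : ℝ) / (ZZ m) ^ 2 ≤ 650 / ZZ m := by
      rw [div_le_div_iff₀ (by positivity) hZ]
      nlinarith
    calc H * (((12 * m + 1 : ℕ) : ℝ) / (ZZ m) ^ 2) ≤ H * (650 / ZZ m) := mul_le_mul_of_nonneg_left h2 hHpos.le
      _ ≤ δ := by
        rw [← mul_div_assoc, div_le_iff₀ hZ]
        rw [div_le_iff₀ hδ] at hz
        linarith
  · have hr := hratio m hm2
    have hZ := ZZ_pos m
    have h2 : ((12 * m + 1 : ℕ) : ℝ) / ZZ m ≤ 650 := by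
      rw [div_le_iff₀ hZ]; exact hr
    have hom : 0 ≤ om m := by
      unfold om
      apply integral_nonneg
      intro ξ
      exact mul_nonneg (Real.exp_pos _).le (prod_tau_mem m ξ).1
    have h3 : ((12 * m + 1 : ℕ) : ℝ) * (2 * om m / ZZ m) ≤ 650 * 2 * om m := by
      calc ((12 * m + 1 : ℕ) : ℝ) * (2 * om m / ZZ m) = (((12 * m + 1 : ℕ) : ℝ) / ZZ m) * (2 * om m) := by ring
        _ ≤ 650 * (2 * om m) := mul_le_mul_of_nonneg_right h2 (by linarith)
        _ = _ := by ring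
    have h4 : 0 ≤ 1 / L ^ 3 + 1 / L := by positivity
    have h5 : L * (((12 * m + 1 : ℕ) : ℝ) / ZZ m) ≤ L * 650 := mul_le_mul_of_nonneg_left h2 hLpos.le
    have h6 : (1 / L ^ 3 + 1 / L) * (((12 * m + 1 : ℕ) : ℝ) * (2 * om m / ZZ m)) ≤
        (1 / L ^ 3 + 1 / L) * (650 * 2 * om m) := mul_le_mul_of_nonneg_left h3 h4
    have h7 : h * (651 * L) = δ / 8 := by
      rw [hL]; field_simp
    have h8 : h * ((1 / L ^ 3 + 1 / L) * (650 * 2 * om m)) = Q * om m := by
      rw [hQ]; ring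
    have h9 : Q * om m ≤ δ / 8 := by
      have := mul_le_mul_of_nonneg_left hm1.le hQpos.le
      refine le_trans this (le_of_eq ?_)
      field_simp
    calc h * (L + (1 / L ^ 3 + 1 / L) * (((12 * m + 1 : ℕ) : ℝ) * (2 * om m / ZZ m)) +
        L * (((12 * m + 1 : ℕ) : ℝ) / ZZ m))
        ≤ h * (L + (1 / L ^ 3 + 1 / L) * (650 * 2 * om m) + L * 650) := by
          apply mul_le_mul_of_nonneg_left _ hhpos.le
          linarith
      _ = h * (651 * L) + h * ((1 / L ^ 3 + 1 / L) * (650 * 2 * om m)) := by ring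
      _ ≤ δ / 4 := by rw [h7, h8]; linarith

theorem key {δ M : ℝ} (hδ : 0 < δ) (hM : 0 < M) :
    ∃ r₀ : ℝ, r₀ < 1 ∧ ∀ r : ℝ, r₀ < r → 0 < r → r < 1 → ∀ h : ℝ → ℂ, Continuous h →
      ∃ G : ℂ → ℂ, IsDP G ∧ MeanLe G δ ∧ (∀ s : ℂ, 1 / 2 < s.re → ‖G s‖ ≤ δ * BB s.re) ∧
        Real.pi / 8 * M ≤ ∫ θ in (Real.pi / 2)..Real.pi,
          min (Real.posLog ‖h θ + G (phi (circleMap 0 r θ))‖) M := by
  obtain ⟨m, L, hm, hL, hup, havg⟩ := exists_params (M := M) hδ
  have hpi := Real.pi_pos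
  have hmR : (1 : ℝ) ≤ m := by exact_mod_cast hm
  set η : ℝ := 1 / (12 * m) with hη
  have hηpos : 0 < η := by positivity
  set J := 12 * m + 1 with hJ
  set t : Fin J → ℝ := fun j => (j : ℕ) * η with ht
  set H := 4 * Real.exp M with hH
  have hHpos : 0 < H := by positivity
  have hZ := ZZ_pos m
  refine ⟨1 - η / 2, by linarith, ?_⟩
  intro r hr hr0 hr1 h hcont
  -- the functional X
  set X : (Fin J → ℤˣ) → ℝ := fun ε => ∫ θ in (Real.pi / 2)..Real.pi,
      min (Real.posLog ‖h θ + GG m H t ε (phi (circleMap 0 r θ))‖) M with hX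
  set Y : (Fin J → ℤˣ) → ℝ := fun ε => ∫ y, ‖GT m H t ε y‖ ^ (1 / 2 : ℝ) ∂(PT (PI m)) with hY
  have hfc : ∀ ε : Fin J → ℤˣ, Continuous (fun θ : ℝ =>
      min (Real.posLog ‖h θ + GG m H t ε (phi (circleMap 0 r θ))‖) M) := by
    intro ε
    apply Continuous.min _ continuous_const
    apply Real.continuous_posLog.comp
    apply Continuous.norm
    exact hcont.add ((GG_isDP m H t ε).continuous.comp (phi_circle_continuous hr0 hr1))
  -- lower bound for the average of X
  have hXlow : 2 ^ J * (M / 2 * (Real.pi / 2)) ≤ ∑ ε, X ε := by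
    have e1 : ∑ ε, X ε = ∫ θ in (Real.pi / 2)..Real.pi, ∑ ε : Fin J → ℤˣ,
        min (Real.posLog ‖h θ + GG m H t ε (phi (circleMap 0 r θ))‖) M := by
      rw [intervalIntegral.integral_finsetSum]
      intro ε _
      exact (hfc ε).intervalIntegrable _ _
    rw [e1]
    have e2 : (2 : ℝ) ^ J * (M / 2 * (Real.pi / 2)) = ∫ θ in (Real.pi / 2)..Real.pi, (2 ^ J * (M / 2) : ℝ) := by
      rw [intervalIntegral.integral_const, smul_eq_mul]
      ring
    rw [e2]
    apply intervalIntegral.integral_mono_on (by linarith)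
    · exact intervalIntegrable_const
    · apply Continuous.intervalIntegrable
      apply continuous_finsetSum
      intro ε _
      exact hfc ε
    intro θ hθ
    obtain ⟨h1, h2, h3⟩ := phi_arc hr0 hr1 hθ.1 hθ.2
    set s := phi (circleMap 0 r θ) with hs
    have hsre : 1 / 2 < s.re := by
      apply phi_re_gt
      rw [norm_circleMap_zero, abs_of_pos hr0]; exact hr1
    have hre : s.re - 1 / 2 ≤ η := by nlinarith
    -- the index
    set k := ⌊s.im * (12 * m)⌋₊ with hk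
    have hk0 : 0 ≤ s.im * (12 * m) := by positivity
    have hk1 : (k : ℝ) ≤ s.im * (12 * m) := Nat.floor_le hk0
    have hk2 : s.im * (12 * m) < k + 1 := Nat.lt_floor_add_one _
    have hkJ : k < J := by
      have : (k : ℝ) ≤ 12 * m := by nlinarith
      have : k ≤ 12 * m := by exact_mod_cast this
      omega
    set j0 : Fin J := ⟨k, hkJ⟩ with hj0
    have htj : t j0 = k * η := rfl
    have h12 : (12 * (m : ℝ)) * η = 1 := by rw [hη]; field_simp
    have him : |s.im - t j0| ≤ η := by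
      rw [htj, abs_le]
      constructor
      · nlinarith
      · nlinarith
    have hw : ‖s - 1 / 2 - (t j0 : ℝ) * I‖ ≤ 2 * η := by
      refine le_trans (Complex.norm_le_abs_re_add_abs_im _) ?_
      have e3 : (s - 1 / 2 - (t j0 : ℝ) * I).re = s.re - 1 / 2 := by simp
      have e4 : (s - 1 / 2 - (t j0 : ℝ) * I).im = s.im - t j0 := by simp
      rw [e3, e4, abs_of_pos (by linarith)]
      linarith
    have hw3 : ‖s - 1 / 2 - (t j0 : ℝ) * I‖ * (3 * m) ≤ 1 / 2 := by
      calc ‖s - 1 / 2 - (t j0 : ℝ) * I‖ * (3 * m) ≤ 2 * η * (3 * m) :=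
            mul_le_mul_of_nonneg_right hw (by positivity)
        _ = (12 * (m : ℝ)) * η / 2 := by ring
        _ ≤ 1 / 2 := by rw [h12]
    have hBD := BD_lower hsre.le hw3
    have hbig : ∀ u : ℤˣ, Real.exp M ≤ ‖sg u * (H * (BD m (t j0) s ^ 2 / (ZZ m : ℂ) ^ 2))‖ := by
      intro u
      rw [norm_mul, norm_sg, one_mul, norm_mul, norm_div, norm_pow, norm_pow, Complex.norm_real, Complex.norm_real,
        Real.norm_of_nonneg hHpos.le, Real.norm_of_nonneg hZ.le]
      have h5 : (1 : ℝ) / 4 ≤ ‖BD m (t j0) s‖ ^ 2 / ZZ m ^ 2 := by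
        rw [le_div_iff₀ (by positivity)]
        nlinarith
      have := mul_le_mul_of_nonneg_left h5 hHpos.le
      refine le_trans (le_of_eq ?_) this
      rw [hH]; ring
    apply flip_avg j0
    intro ε
    obtain ⟨a, ha1, ha2⟩ := GG_flip m H t ε j0 s
    rw [ha1, ha2, ← add_assoc, ← add_sub_assoc]
    exact pair_max hM.le (hbig _)
  -- upper bound for the average of Y
  have hYup : ∑ ε, Y ε ≤ 2 ^ J * (δ / 4) := by
    refine le_trans (GT_avg m hHpos.le t hL) ?_
    apply mul_le_mul_of_nonneg_left _ (by positivity)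
    exact havg
  have hXle : ∀ ε, X ε ≤ Real.pi / 2 * M := by
    intro ε
    have e2 : Real.pi / 2 * M = ∫ θ in (Real.pi / 2)..Real.pi, M := by
      rw [intervalIntegral.integral_const, smul_eq_mul]
      ring
    rw [e2]
    apply intervalIntegral.integral_mono_on (by linarith)
    · exact (hfc ε).intervalIntegrable _ _
    · exact intervalIntegrable_const
    · intro θ _
      exact min_le_right _ _
  have hYnn : ∀ ε, 0 ≤ Y ε := by
    intro ε
    apply integral_nonneg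
    intro y
    exact Real.rpow_nonneg (norm_nonneg _) _
  -- selection
  set lam' := M * Real.pi / (2 * δ) with hlam
  have hlampos : 0 < lam' := by positivity
  have hsel : ∑ ε : Fin J → ℤˣ, Real.pi / 8 * M ≤ ∑ ε, (X ε - lam' * Y ε) := by
    rw [Finset.sum_const, Finset.card_univ, card_signs, nsmul_eq_mul, Finset.sum_sub_distrib, ← Finset.mul_sum]
    push_cast
    have h1 : lam' * ∑ ε, Y ε ≤ lam' * (2 ^ J * (δ / 4)) := mul_le_mul_of_nonneg_left hYup hlampos.le
    have h0 : lam' * δ = M * Real.pi / 2 := by rw [hlam]; field_simp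
    generalize (2 : ℝ) ^ J = A at h1 hXlow ⊢
    have h2 : lam' * (A * (δ / 4)) = A * (Real.pi / 8 * M) := by
      have e9 : lam' * (A * (δ / 4)) = A * (lam' * δ) / 4 := by ring
      rw [e9, h0]; ring
    have h3 : A * (M / 2 * (Real.pi / 2)) = A * (Real.pi / 8 * M) + A * (Real.pi / 8 * M) := by ring
    linarith
  obtain ⟨ε, _, hε⟩ := Finset.exists_le_of_sum_le (Finset.univ_nonempty) hsel
  refine ⟨GG m H t ε, GG_isDP m H t ε, ?_, ?_, ?_⟩
  · apply (GG_meanLe m H t ε).mono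
    have h1 := hXle ε
    have h2 : lam' * Y ε ≤ lam' * δ := by
      have h7 : lam' * δ = M * Real.pi / 2 := by rw [hlam]; field_simp
      rw [h7]
      have h8 : 0 ≤ Real.pi / 8 * M := by positivity
      have h9 : lam' * Y ε ≤ X ε := by
        have := le_trans h8 hε
        exact sub_nonneg.mp this
      refine le_trans h9 (le_trans h1 (le_of_eq ?_))
      ring
    exact le_of_mul_le_mul_left h2 hlampos
  · intro s hs
    refine le_trans (GG_upper m hHpos.le t ε hs) ?_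
    exact mul_le_mul_of_nonneg_right hup (BB_pos _).le
  · have h1 := hYnn ε
    have h2 : 0 ≤ lam' * Y ε := mul_nonneg hlampos.le h1
    exact le_trans hε (sub_le_self _ h2)

end Pool.Agent.Helper65.BL
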