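import Mathlib
import Pool.Agent.Helper65.BL7

open Complex MeasureTheory Filter Topology Real
open scoped BigOperators ENNReal

namespace Pool.Agent.Helper65.BL

/-- The auxiliary nonnegative function. -/
noncomputable def lam (z : ℂ) (α : ℝ) : ℝ := Real.log (3 + ‖z‖) - Real.log ‖z - circleMap 0 1 α‖

lemma lam_nonneg (z : ℂ) (α : ℝ) : 0 ≤ lam z α := by
  unfold lam
  have h1 : ‖z - circleMap 0 1 α‖ ≤ 3 + ‖z‖ := by
    calc ‖z - circleMap 0 1 α‖ ≤ ‖z‖ + ‖circleMap 0 1 α‖ := norm_sub_le _ _
      _ ≤ 3 + ‖z‖ := by rw [norm_circleMap_zero]; norm_num; linarith [norm_nonneg z]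
  rcases eq_or_lt_of_le (norm_nonneg (z - circleMap 0 1 α)) with h | h
  · rw [← h, Real.log_zero, sub_zero]
    apply Real.log_nonneg
    linarith [norm_nonneg z]
  · linarith [Real.log_le_log h h1]

lemma circleIntegrable_log (z : ℂ) :
    CircleIntegrable (fun a => Real.log ‖z - a‖) 0 1 := by
  have h : MeromorphicOn (fun a : ℂ => z - a) (Metric.sphere 0 |1|) := by
    intro x _
    apply AnalyticAt.meromorphicAt
    fun_prop
  exact h.circleIntegrable_log_norm

lemma integral_lam_le (z : ℂ) :
    ∫⁻ α in Set.Ioc 0 (2 * π), ENNReal.ofReal (lam z α) ≤ ENNReal.ofReal (2 * π * Real.log 4) := by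
  have hpi := Real.pi_pos
  have hint0 := circleIntegrable_log z
  have hint1 : IntervalIntegrable (fun α => Real.log ‖z - circleMap 0 1 α‖) volume 0 (2 * π) := hint0
  have hint2 : IntervalIntegrable (fun α => lam z α) volume 0 (2 * π) := by
    unfold lam
    exact intervalIntegrable_const.sub hint1
  have hint3 : Integrable (fun α => lam z α) (volume.restrict (Set.Ioc 0 (2 * π))) := by
    rwa [intervalIntegrable_iff_integrableOn_Ioc_of_le (by positivity)] at hint2
  rw [← ofReal_integral_eq_lintegral_ofReal hint3 (ae_of_all _ (lam_nonneg z))]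
  apply ENNReal.ofReal_le_ofReal
  rw [← intervalIntegral.integral_of_le (by positivity : (0 : ℝ) ≤ 2 * π)]
  unfold lam
  rw [intervalIntegral.integral_sub intervalIntegrable_const hint1,
    intervalIntegral.integral_const, sub_zero, smul_eq_mul]
  have havg : circleAverage (fun a => Real.log ‖a - z‖) 0 1 = log⁺ ‖z‖ :=
    circleAverage_log_norm_sub_const_eq_posLog
  have h4 : ∫ α in (0 : ℝ)..2 * π, Real.log ‖z - circleMap 0 1 α‖ = 2 * π * log⁺ ‖z‖ := by
    rw [← havg, circleAverage_def, smul_eq_mul, ← mul_assoc, mul_inv_cancel₀ (by positivity), one_mul]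
    congr 1
    ext α
    rw [norm_sub_rev]
  rw [h4, ← mul_sub]
  apply mul_le_mul_of_nonneg_left _ (by positivity)
  rw [Real.posLog_eq_log_max_one (norm_nonneg z), ← Real.log_div (by positivity) (by positivity)]
  apply Real.log_le_log (by positivity)
  rw [div_le_iff₀ (by positivity)]
  have h5 := le_max_left 1 ‖z‖
  have h6 := le_max_right 1 ‖z‖
  linarith

/-- Main complex analysis lemma: an analytic function on the half-plane with unbounded proximity
function cannot satisfy the Blaschke condition for all values of modulus one. -/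
theorem exists_bad_value {F : ℂ → ℂ} (hF : ∀ s : ℂ, 1 / 2 < s.re → AnalyticAt ℂ F s)
    (h0 : ‖F (3 / 2)‖ < 1) {r : ℕ → ℝ} (hr0 : ∀ k, 0 < r k) (hr1 : ∀ k, r k < 1)
    (hlim : Tendsto (fun k => circleAverage (fun w => log⁺ ‖F (phi w)‖) 0 (r k)) atTop atTop) :
    ∃ a : ℂ, ‖a‖ = 1 ∧ ¬ ∃ C : ℝ, ∀ S : Finset ℂ, (∀ ρ ∈ S, 1 / 2 < ρ.re ∧ F ρ - a = 0) →
      ∑ ρ ∈ S, (analyticOrderNatAt (fun s => F s - a) ρ : ℝ) * (ρ.re - 1 / 2) / (1 + ‖ρ‖ ^ 2) ≤ C := by
  by_contra hcon
  push Not at hcon
  have hpi := Real.pi_pos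
  -- continuity on circles
  have hcont : ∀ k, Continuous (fun θ : ℝ => F (phi (circleMap 0 (r k) θ))) := by
    intro k
    rw [continuous_iff_continuousAt]
    intro θ
    have hn : ‖circleMap 0 (r k) θ‖ < 1 := by
      rw [norm_circleMap_zero, abs_of_pos (hr0 k)]; exact hr1 k
    have h1 : ContinuousAt (fun w => F (phi w)) (circleMap 0 (r k) θ) :=
      ((hF _ (phi_re_gt hn)).comp (phi_analyticAt hn)).continuousAt
    exact ContinuousAt.comp (f := fun θ : ℝ => circleMap 0 (r k) θ) h1
      (continuous_circleMap 0 (r k)).continuousAt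
  set g : ℕ → ℝ → ℂ := fun k θ => F (phi (circleMap 0 (r k) θ)) with hg
  -- measurability
  have hmeas : ∀ k, Measurable (fun p : ℝ × ℝ => ENNReal.ofReal (lam (g k p.2) p.1)) := by
    intro k
    apply ENNReal.measurable_ofReal.comp
    unfold lam
    apply Measurable.sub
    · apply Real.measurable_log.comp
      exact ((measurable_const.add (((hcont k).comp continuous_snd).norm.measurable)))
    · apply Real.measurable_log.comp
      exact ((((hcont k).comp continuous_snd).sub
        ((continuous_circleMap 0 1).comp continuous_fst)).norm).measurable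
  set μ := volume.restrict (Set.Ioc (0 : ℝ) (2 * π)) with hμ
  set L : ℕ → ℝ → ℝ≥0∞ := fun k α => ∫⁻ θ, ENNReal.ofReal (lam (g k θ) α) ∂μ with hL
  have hLmeas : ∀ k, Measurable (L k) := fun k => (hmeas k).lintegral_prod_right'
  -- bounded integrals
  have hbound : ∀ k, ∫⁻ α, L k α ∂μ ≤ ENNReal.ofReal (2 * π * Real.log 4) * μ Set.univ := by
    intro k
    rw [hL]
    simp only
    rw [lintegral_lintegral_swap (hmeas k).aemeasurable]
    calc ∫⁻ θ, ∫⁻ α, ENNReal.ofReal (lam (g k θ) α) ∂μ ∂μ
        ≤ ∫⁻ _, ENNReal.ofReal (2 * π * Real.log 4) ∂μ := lintegral_mono fun θ => integral_lam_le _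
      _ = _ := by rw [lintegral_const]
  -- pointwise divergence
  have hdiv : ∀ α : ℝ, Tendsto (fun k => L k α) atTop (𝓝 ⊤) := by
    intro α
    set a := circleMap 0 1 α with ha
    have ha1 : ‖a‖ = 1 := by rw [ha, norm_circleMap_zero, abs_one]
    obtain ⟨C, hC⟩ := hcon a ha1
    have hF' : ∀ s : ℂ, 1 / 2 < s.re → AnalyticAt ℂ (fun s => F s - a) s :=
      fun s hs => (hF s hs).sub analyticAt_const
    have h0' : (fun s => F s - a) (phi 0) ≠ 0 := by
      intro h
      have hphi0 : phi 0 = 3 / 2 := by unfold phi; norm_num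
      rw [hphi0] at h
      have : F (3 / 2) = a := sub_eq_zero.mp h
      rw [this, ha1] at h0
      exact lt_irrefl _ h0
    obtain ⟨C', hC'⟩ := jensen_bound hF' h0' hC
    -- lower bound for L k α
    have hlow : ∀ k, ENNReal.ofReal (2 * π * (circleAverage (fun w => log⁺ ‖F (phi w)‖) 0 (r k) - C')) ≤
        L k α := by
      intro k
      have hc3 : Continuous (fun θ : ℝ => Real.log (3 + ‖g k θ‖)) := by
        apply Continuous.log
        · exact continuous_const.add (hcont k).norm
        · intro θ
          have := norm_nonneg (g k θ)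
          positivity
      have hm : MeromorphicOn (fun w => F (phi w) - a) (Metric.sphere 0 |r k|) := by
        intro w hw
        have hw' : ‖w‖ < 1 := by
          rw [mem_sphere_zero_iff_norm, abs_of_pos (hr0 k)] at hw
          rw [hw]; exact hr1 k
        exact (((hF _ (phi_re_gt hw')).comp (phi_analyticAt hw')).sub analyticAt_const).meromorphicAt
      have hI1 : IntervalIntegrable (fun θ => Real.log ‖g k θ - a‖) volume 0 (2 * π) :=
        hm.circleIntegrable_log_norm
      have hI2 : IntervalIntegrable (fun θ => Real.log (3 + ‖g k θ‖)) volume 0 (2 * π) :=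
        hc3.intervalIntegrable _ _
      have hI3 : IntervalIntegrable (fun θ => lam (g k θ) α) volume 0 (2 * π) := by
        unfold lam
        exact hI2.sub hI1
      have hI4 : Integrable (fun θ => lam (g k θ) α) μ := by
        rwa [intervalIntegrable_iff_integrableOn_Ioc_of_le (by positivity)] at hI3
      have hLk : L k α = ENNReal.ofReal (∫ θ in (0 : ℝ)..2 * π, lam (g k θ) α) := by
        rw [intervalIntegral.integral_of_le (by positivity : (0 : ℝ) ≤ 2 * π)]
        exact (ofReal_integral_eq_lintegral_ofReal hI4 (ae_of_all _ (fun θ => lam_nonneg _ _))).symm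
      rw [hLk]
      apply ENNReal.ofReal_le_ofReal
      have e1 : ∫ θ in (0 : ℝ)..2 * π, lam (g k θ) α =
          (∫ θ in (0 : ℝ)..2 * π, Real.log (3 + ‖g k θ‖)) -
            ∫ θ in (0 : ℝ)..2 * π, Real.log ‖g k θ - a‖ := by
        unfold lam
        rw [intervalIntegral.integral_sub hI2 hI1]
      have e2 : ∫ θ in (0 : ℝ)..2 * π, Real.log ‖g k θ - a‖ =
          2 * π * circleAverage (fun w => Real.log ‖(fun s => F s - a) (phi w)‖) 0 (r k) := by
        rw [circleAverage_def, smul_eq_mul, ← mul_assoc, mul_inv_cancel₀ (by positivity), one_mul]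
      have e3 : 2 * π * circleAverage (fun w => log⁺ ‖F (phi w)‖) 0 (r k) ≤
          ∫ θ in (0 : ℝ)..2 * π, Real.log (3 + ‖g k θ‖) := by
        rw [circleAverage_def, smul_eq_mul, ← mul_assoc, mul_inv_cancel₀ (by positivity), one_mul]
        apply intervalIntegral.integral_mono_on (by positivity)
        · exact (Real.continuous_posLog.comp (hcont k).norm).intervalIntegrable _ _
        · exact hI2
        · intro θ _
          rw [Real.posLog_eq_log_max_one (norm_nonneg _)]
          apply Real.log_le_log (by positivity)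
          apply max_le
          · have := norm_nonneg (g k θ); linarith
          · simp only [hg]; linarith
      have e4 := hC' (r k) (hr0 k) (hr1 k)
      rw [e1, e2, mul_sub]
      have : 2 * π * circleAverage (fun w => Real.log ‖(fun s => F s - a) (phi w)‖) 0 (r k) ≤
          2 * π * C' := mul_le_mul_of_nonneg_left e4 (by positivity)
      linarith
    refine tendsto_of_tendsto_of_tendsto_of_le_of_le ?_ tendsto_const_nhds hlow (fun k => le_top)
    apply ENNReal.tendsto_ofReal_atTop.comp
    apply Tendsto.const_mul_atTop (by positivity)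
    exact tendsto_atTop_add_const_right _ (-C') hlim
  -- Fatou
  have hfatou := lintegral_liminf_le (μ := μ) (u := (atTop : Filter ℕ)) (f := L) hLmeas
  have h1 : ∀ α, liminf (fun k => L k α) atTop = ⊤ := fun α => (hdiv α).liminf_eq
  simp only [h1, lintegral_const] at hfatou
  have hμpos : μ Set.univ = ENNReal.ofReal (2 * π) := by
    rw [hμ, Measure.restrict_apply_univ, Real.volume_Ioc, sub_zero]
  rw [hμpos, ENNReal.top_mul (by simpa using hpi)] at hfatou
  have h2 : liminf (fun k => ∫⁻ α, L k α ∂μ) atTop ≤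
      ENNReal.ofReal (2 * π * Real.log 4) * μ Set.univ := by
    refine liminf_le_of_le (by isBoundedDefault) ?_
    intro b hb
    obtain ⟨k, hk⟩ := hb.exists
    exact le_trans hk (hbound k)
  have h3 : ENNReal.ofReal (2 * π * Real.log 4) * μ Set.univ < ⊤ := by
    rw [hμpos]
    exact ENNReal.mul_lt_top ENNReal.ofReal_lt_top ENNReal.ofReal_lt_top
  exact absurd (le_trans hfatou h2) (not_le.mpr h3)

end Pool.Agent.Helper65.BL
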