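import Mathlib
import Pool.Agent.Helper65.BL8
import Pool.Agent.Helper65.BL12
open Complex MeasureTheory Filter Topology
open scoped BigOperators
namespace Pool.Agent.Helper65.BL

/-- abscissa attached to a radius -/
noncomputable def sig (r : ℝ) : ℝ := 1 / 2 + (1 - r) / (1 + r)

lemma sig_gt {r : ℝ} (h0 : 0 < r) (h1 : r < 1) : 1 / 2 < sig r := by
  unfold sig
  have : 0 < (1 - r) / (1 + r) := div_pos (by linarith) (by linarith)
  linarith

lemma sig_anti {r r' : ℝ} (h0 : 0 < r) (h : r ≤ r') : sig r' ≤ sig r := by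
  unfold sig
  have : (1 - r') / (1 + r') ≤ (1 - r) / (1 + r) := by
    rw [div_le_div_iff₀ (by linarith) (by linarith)]
    nlinarith
  linarith

lemma sig_le_phi {r : ℝ} (h0 : 0 < r) (h1 : r < 1) (θ : ℝ) : sig r ≤ (phi (circleMap 0 r θ)).re := by
  have hn : ‖circleMap 0 r θ‖ = r := by rw [norm_circleMap_zero, abs_of_pos h0]
  have hn1 : ‖circleMap 0 r θ‖ < 1 := by rw [hn]; exact h1
  have h2 := phi_re hn1
  have h3 : ‖1 - circleMap 0 r θ‖ ≤ 1 + r := by
    refine le_trans (norm_sub_le _ _) ?_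
    rw [hn, norm_one]
  have h4 : 0 < ‖1 - circleMap 0 r θ‖ := norm_pos_iff.mpr (one_sub_ne_zero hn1)
  have h5 : (1 - r) / (1 + r) ≤ (1 - ‖circleMap 0 r θ‖ ^ 2) / ‖1 - circleMap 0 r θ‖ ^ 2 := by
    rw [hn, div_le_div_iff₀ (by linarith) (by positivity)]
    have h6 : ‖1 - circleMap 0 r θ‖ ^ 2 ≤ (1 + r) ^ 2 := pow_le_pow_left₀ h4.le h3 2
    have h7 : 0 < 1 - r := by linarith
    nlinarith
  unfold sig
  linarith

/-- one step of the construction -/
lemma step (k : ℕ) (P : ℂ → ℂ) (r : ℝ) (hP : IsDP P) (h0 : 0 < r) (h1 : r < 1) :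
    ∃ (P' : ℂ → ℂ) (r' : ℝ), IsDP P' ∧ 0 < r' ∧ r' < 1 ∧ r ≤ r' ∧
      MeanLe (fun s => P' s - P s) ((1 / 2) ^ (k + 2)) ∧
      (∃ δ : ℝ, 0 < δ ∧ δ ≤ (1 / 2) ^ (k + 2) ∧ δ * BB (sig r) ≤ (1 / 2) ^ (k + 2) ∧
        δ * BB (3 / 2) ≤ (1 / 2) ^ (k + 2) ∧ ∀ s : ℂ, 1 / 2 < s.re → ‖P' s - P s‖ ≤ δ * BB s.re) ∧
      Real.pi / 8 * (k + 1) ≤ ∫ θ in (Real.pi / 2)..Real.pi,
          min (Real.posLog ‖P' (phi (circleMap 0 r' θ))‖) (k + 1) := by
  have hB1 := BB_pos (sig r)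
  have hB2 := BB_pos (3 / 2)
  set e : ℝ := (1 / 2) ^ (k + 2) with he
  have hepos : 0 < e := by positivity
  set δ := min e (min (e / BB (sig r)) (e / BB (3 / 2))) with hδ
  have hδpos : 0 < δ := by
    apply lt_min hepos
    apply lt_min <;> positivity
  have hd1 : δ ≤ e := min_le_left _ _
  have hd2 : δ ≤ e / BB (sig r) := le_trans (min_le_right _ _) (min_le_left _ _)
  have hd3 : δ ≤ e / BB (3 / 2) := le_trans (min_le_right _ _) (min_le_right _ _)
  obtain ⟨r₀, hr₀, hkey⟩ := key (M := (k + 1 : ℝ)) hδpos (by positivity)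
  set r' := (max r₀ r + 1) / 2 with hr'
  have hm1 : max r₀ r < 1 := max_lt hr₀ h1
  have hrr : r ≤ max r₀ r := le_max_right _ _
  have hrr0 : r₀ ≤ max r₀ r := le_max_left _ _
  have hr'1 : r' < 1 := by rw [hr']; linarith
  have hr'0 : 0 < r' := by rw [hr']; linarith
  obtain ⟨G, hG, hMG, hup, hbig⟩ := hkey r' (by rw [hr']; linarith) hr'0 hr'1
    (fun θ => P (phi (circleMap 0 r' θ))) (hP.continuous.comp (phi_circle_continuous hr'0 hr'1))
  have hsub : ∀ s, P s + G s - P s = G s := fun s => by ring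
  refine ⟨fun s => P s + G s, r', hP.add hG, hr'0, hr'1, by rw [hr']; linarith, ?_, ⟨δ, hδpos, hd1, ?_, ?_, ?_⟩, ?_⟩
  · simp only [hsub]
    exact hMG.mono hd1
  · rwa [le_div_iff₀ hB1] at hd2
  · rwa [le_div_iff₀ hB2] at hd3
  · intro s hs
    simp only [hsub]
    exact hup s hs
  · exact hbig

/-- the state space -/
abbrev St : Type := {x : (ℂ → ℂ) × ℝ // IsDP x.1 ∧ 0 < x.2 ∧ x.2 < 1}

lemma step' (k : ℕ) (x : St) : ∃ x' : St, x.1.2 ≤ x'.1.2 ∧
      MeanLe (fun s => x'.1.1 s - x.1.1 s) ((1 / 2) ^ (k + 2)) ∧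
      (∃ δ : ℝ, 0 < δ ∧ δ ≤ (1 / 2) ^ (k + 2) ∧ δ * BB (sig x.1.2) ≤ (1 / 2) ^ (k + 2) ∧
        δ * BB (3 / 2) ≤ (1 / 2) ^ (k + 2) ∧ ∀ s : ℂ, 1 / 2 < s.re → ‖x'.1.1 s - x.1.1 s‖ ≤ δ * BB s.re) ∧
      Real.pi / 8 * (k + 1) ≤ ∫ θ in (Real.pi / 2)..Real.pi,
          min (Real.posLog ‖x'.1.1 (phi (circleMap 0 x'.1.2 θ))‖) (k + 1) := by
  obtain ⟨P', r', a1, a2, a3, a4, a5, a6, a7⟩ := step k x.1.1 x.1.2 x.2.1 x.2.2.1 x.2.2.2
  exact ⟨⟨(P', r'), a1, a2, a3⟩, a4, a5, a6, a7⟩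

/-- the sequence of states -/
noncomputable def seq : ℕ → St
  | 0 => ⟨(fun _ => 0, 1 / 2), IsDP.zero, by norm_num, by norm_num⟩
  | k + 1 => Classical.choose (step' k (seq k))

/-- partial sums -/
noncomputable def PP (k : ℕ) : ℂ → ℂ := (seq k).1.1

/-- radii -/
noncomputable def rr (k : ℕ) : ℝ := (seq k).1.2

lemma PP_zero : PP 0 = fun _ => 0 := rfl

lemma PP_isDP (k : ℕ) : IsDP (PP k) := (seq k).2.1

lemma rr_pos (k : ℕ) : 0 < rr k := (seq k).2.2.1

lemma rr_lt (k : ℕ) : rr k < 1 := (seq k).2.2.2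

lemma rr_mono : Monotone rr := monotone_nat_of_le_succ fun k => (Classical.choose_spec (step' k (seq k))).1

lemma PP_mean (k : ℕ) : MeanLe (fun s => PP (k + 1) s - PP k s) ((1 / 2) ^ (k + 2)) :=
  (Classical.choose_spec (step' k (seq k))).2.1

lemma PP_delta (k : ℕ) : ∃ δ : ℝ, 0 < δ ∧ δ ≤ (1 / 2) ^ (k + 2) ∧ δ * BB (sig (rr k)) ≤ (1 / 2) ^ (k + 2) ∧
        δ * BB (3 / 2) ≤ (1 / 2) ^ (k + 2) ∧ ∀ s : ℂ, 1 / 2 < s.re → ‖PP (k + 1) s - PP k s‖ ≤ δ * BB s.re :=
  (Classical.choose_spec (step' k (seq k))).2.2.1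

lemma PP_big (k : ℕ) : Real.pi / 8 * (k + 1) ≤ ∫ θ in (Real.pi / 2)..Real.pi,
          min (Real.posLog ‖PP (k + 1) (phi (circleMap 0 (rr (k + 1)) θ))‖) (k + 1) :=
  (Classical.choose_spec (step' k (seq k))).2.2.2

/-- increments -/
noncomputable def DD (k : ℕ) (s : ℂ) : ℂ := PP (k + 1) s - PP k s

lemma DD_le (k : ℕ) {s : ℂ} (hs : 1 / 2 < s.re) : ‖DD k s‖ ≤ (1 / 2) ^ (k + 2) * BB s.re := by
  obtain ⟨δ, h1, h2, h3, h4, h5⟩ := PP_delta k
  exact le_trans (h5 s hs) (mul_le_mul_of_nonneg_right h2 (BB_pos _).le)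

lemma DD_le_circle {j k : ℕ} (hjk : j ≤ k) {s : ℂ} (hs : sig (rr j) ≤ s.re) : ‖DD k s‖ ≤ (1 / 2) ^ (k + 2) := by
  obtain ⟨δ, h1, h2, h3, h4, h5⟩ := PP_delta k
  have h6 := sig_gt (rr_pos j) (rr_lt j)
  refine le_trans (h5 s (by linarith)) ?_
  refine le_trans (mul_le_mul_of_nonneg_left ?_ h1.le) h3
  apply BB_antitone (sig_gt (rr_pos k) (rr_lt k))
  exact le_trans (sig_anti (rr_pos j) (rr_mono hjk)) hs

lemma DD_le_base (k : ℕ) : ‖DD k (3 / 2)‖ ≤ (1 / 2) ^ (k + 2) := by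
  obtain ⟨δ, h1, h2, h3, h4, h5⟩ := PP_delta k
  have e : (3 / 2 : ℂ).re = 3 / 2 := by norm_num
  have := h5 (3 / 2) (by rw [e]; norm_num)
  rw [e] at this
  exact le_trans this h4

lemma summable_geo : Summable (fun k : ℕ => ((1 : ℝ) / 2) ^ (k + 2)) := by
  have := summable_geometric_two
  exact (summable_nat_add_iff 2).mpr this

lemma tsum_geo (k : ℕ) : ∑' j : ℕ, ((1 : ℝ) / 2) ^ (j + k + 2) = (1 / 2) ^ (k + 1) := by
  have h : ∀ j : ℕ, ((1 : ℝ) / 2) ^ (j + k + 2) = (1 / 2) ^ (k + 2) * (1 / 2) ^ j := by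
    intro j
    rw [← pow_add]
    congr 1
    ring
  simp only [h]
  rw [tsum_mul_left, tsum_geometric_two]
  rw [pow_succ ((1 : ℝ) / 2) (k + 1)]
  ring

/-- the limit function -/
noncomputable def FF (s : ℂ) : ℂ := ∑' k, DD k s

lemma DD_summable {s : ℂ} (hs : 1 / 2 < s.re) : Summable (fun k => DD k s) := by
  apply Summable.of_norm_bounded (summable_geo.mul_right (BB s.re))
  intro k
  exact DD_le k hs

lemma PP_sum (k : ℕ) (s : ℂ) : PP k s = ∑ j ∈ Finset.range k, DD j s := by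
  unfold DD
  rw [Finset.sum_range_sub (fun j => PP j s), PP_zero]
  simp

lemma PP_tendsto {s : ℂ} (hs : 1 / 2 < s.re) : Tendsto (fun k => PP k s) atTop (𝓝 (FF s)) := by
  have := (DD_summable hs).hasSum.tendsto_sum_nat
  refine this.congr ?_
  intro k
  exact (PP_sum k s).symm

lemma FF_sub {s : ℂ} (hs : 1 / 2 < s.re) (k : ℕ) : FF s - PP k s = ∑' j, DD (j + k) s := by
  unfold FF
  rw [PP_sum, ← (DD_summable hs).sum_add_tsum_nat_add k]
  ring

lemma FF_circle {k : ℕ} {s : ℂ} (hs : sig (rr k) ≤ s.re) : ‖FF s - PP k s‖ ≤ 1 := by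
  have h6 := sig_gt (rr_pos k) (rr_lt k)
  have hs' : 1 / 2 < s.re := by linarith
  rw [FF_sub hs']
  have h1 : ∀ j, ‖DD (j + k) s‖ ≤ (1 / 2) ^ (j + k + 2) := fun j => DD_le_circle (by omega) hs
  have hsum : Summable (fun j : ℕ => ((1 : ℝ) / 2) ^ (j + k + 2)) :=
    (summable_nat_add_iff k).mpr summable_geo
  have h2 := tsum_of_norm_bounded hsum.hasSum h1
  rw [tsum_geo] at h2
  refine le_trans h2 ?_
  apply pow_le_one₀ <;> norm_num

lemma FF_base : ‖FF (3 / 2)‖ < 1 := by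
  have h2 := tsum_of_norm_bounded summable_geo.hasSum DD_le_base
  have h3 := tsum_geo 0
  simp only [add_zero] at h3
  rw [h3] at h2
  refine lt_of_le_of_lt h2 (by norm_num)

lemma DD_diff (k : ℕ) : Differentiable ℂ (DD k) := by
  unfold DD
  exact (PP_isDP (k + 1)).differentiable.sub (PP_isDP k).differentiable

lemma FF_analytic : ∀ s : ℂ, 1 / 2 < s.re → AnalyticAt ℂ FF s := by
  intro s hs
  set σ := (1 / 2 + s.re) / 2 with hσ
  have hσ1 : 1 / 2 < σ := by rw [hσ]; linarith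
  have hσ2 : σ < s.re := by rw [hσ]; linarith
  have hopen : IsOpen {z : ℂ | σ < z.re} := isOpen_lt continuous_const Complex.continuous_re
  have hd : DifferentiableOn ℂ (fun w => ∑' k, DD k w) {z : ℂ | σ < z.re} := by
    apply differentiableOn_tsum_of_summable_norm (summable_geo.mul_right (BB σ))
    · intro k
      exact (DD_diff k).differentiableOn
    · exact hopen
    · intro k w hw
      have hw' : σ < w.re := hw
      refine le_trans (DD_le k (by linarith)) ?_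
      apply mul_le_mul_of_nonneg_left _ (by positivity)
      exact BB_antitone hσ1 hw'.le
  exact hd.analyticAt (hopen.mem_nhds hσ2)

lemma FF_avg (k : ℕ) : 1 / 16 * (k : ℝ) - 1 ≤ Real.circleAverage (fun w => Real.posLog ‖FF (phi w)‖) 0 (rr (k + 1)) := by
  set r := rr (k + 1) with hr
  have hr0 : 0 < r := rr_pos _
  have hr1 : r < 1 := rr_lt _
  have hpi := Real.pi_pos
  have hcont : Continuous (fun θ : ℝ => FF (phi (circleMap 0 r θ))) := by
    rw [continuous_iff_continuousAt]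
    intro θ
    have hn : ‖circleMap 0 r θ‖ < 1 := by
      rw [norm_circleMap_zero, abs_of_pos hr0]; exact hr1
    exact ContinuousAt.comp (f := fun θ : ℝ => circleMap 0 r θ)
      ((FF_analytic _ (phi_re_gt hn)).comp (phi_analyticAt hn)).continuousAt
      (continuous_circleMap 0 r).continuousAt
  have hlc : Continuous (fun θ : ℝ => Real.posLog ‖FF (phi (circleMap 0 r θ))‖) :=
    Real.continuous_posLog.comp hcont.norm
  have h1 : ∫ θ in (Real.pi / 2)..Real.pi, Real.posLog ‖FF (phi (circleMap 0 r θ))‖ ≤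
      ∫ θ in (0 : ℝ)..2 * Real.pi, Real.posLog ‖FF (phi (circleMap 0 r θ))‖ := by
    apply intervalIntegral.integral_mono_interval (by linarith) (by linarith) (by linarith)
    · exact Eventually.of_forall fun θ => Real.posLog_nonneg
    · exact hlc.intervalIntegrable _ _
  have h2 : ∫ θ in (Real.pi / 2)..Real.pi, (min (Real.posLog ‖PP (k + 1) (phi (circleMap 0 r θ))‖) (k + 1) - Real.log 2) ≤
      ∫ θ in (Real.pi / 2)..Real.pi, Real.posLog ‖FF (phi (circleMap 0 r θ))‖ := by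
    apply intervalIntegral.integral_mono_on (by linarith)
    · apply Continuous.intervalIntegrable
      apply Continuous.sub _ continuous_const
      apply Continuous.min _ continuous_const
      exact Real.continuous_posLog.comp
        (((PP_isDP (k + 1)).continuous.comp (phi_circle_continuous hr0 hr1)).norm)
    · exact hlc.intervalIntegrable _ _
    · intro θ _
      set s := phi (circleMap 0 r θ) with hs
      have h3 : ‖FF s - PP (k + 1) s‖ ≤ 1 := FF_circle (sig_le_phi hr0 hr1 θ)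
      have h4 : ‖PP (k + 1) s‖ ≤ ‖FF s‖ + ‖FF s - PP (k + 1) s‖ := by
        have : PP (k + 1) s = FF s - (FF s - PP (k + 1) s) := by ring
        calc ‖PP (k + 1) s‖ = ‖FF s - (FF s - PP (k + 1) s)‖ := by rw [← this]
          _ ≤ _ := norm_sub_le _ _
      have h5 : Real.posLog ‖PP (k + 1) s‖ ≤ Real.posLog (‖FF s‖ + ‖FF s - PP (k + 1) s‖) :=
        Real.monotoneOn_posLog (norm_nonneg _) (by
          have := norm_nonneg (FF s)
          have := norm_nonneg (FF s - PP (k + 1) s)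
          exact Set.mem_Ici.mpr (by linarith)) h4
      have h6 := Real.posLog_add (x := ‖FF s‖) (y := ‖FF s - PP (k + 1) s‖)
      have h7 : Real.posLog ‖FF s - PP (k + 1) s‖ = 0 := by
        rw [Real.posLog_eq_zero_iff, abs_of_nonneg (norm_nonneg _)]
        exact h3
      have h8 := min_le_left (Real.posLog ‖PP (k + 1) s‖) (k + 1 : ℝ)
      linarith
  have h3 : ∫ θ in (Real.pi / 2)..Real.pi, (min (Real.posLog ‖PP (k + 1) (phi (circleMap 0 r θ))‖) (k + 1) - Real.log 2) =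
      (∫ θ in (Real.pi / 2)..Real.pi, min (Real.posLog ‖PP (k + 1) (phi (circleMap 0 r θ))‖) (k + 1)) -
        Real.pi / 2 * Real.log 2 := by
    rw [intervalIntegral.integral_sub, intervalIntegral.integral_const, smul_eq_mul]
    · ring
    · apply Continuous.intervalIntegrable
      apply Continuous.min _ continuous_const
      exact Real.continuous_posLog.comp
        (((PP_isDP (k + 1)).continuous.comp (phi_circle_continuous hr0 hr1)).norm)
    · exact intervalIntegrable_const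
  have h4 := PP_big k
  rw [← hr] at h4
  rw [Real.circleAverage_def, smul_eq_mul]
  have hlog : Real.log 2 ≤ 1 := by linarith [Real.log_two_lt_d9]
  have h5 : Real.pi / 8 * (k + 1) - Real.pi / 2 * Real.log 2 ≤
      ∫ θ in (0 : ℝ)..2 * Real.pi, Real.posLog ‖FF (phi (circleMap 0 r θ))‖ := by linarith
  have h6 : (2 * Real.pi)⁻¹ * (Real.pi / 8 * (k + 1) - Real.pi / 2 * Real.log 2) ≤
      (2 * Real.pi)⁻¹ * ∫ θ in (0 : ℝ)..2 * Real.pi, Real.posLog ‖FF (phi (circleMap 0 r θ))‖ :=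
    mul_le_mul_of_nonneg_left h5 (by positivity)
  have h7 : (2 * Real.pi)⁻¹ * (Real.pi / 8 * (k + 1) - Real.pi / 2 * Real.log 2) =
      1 / 16 * (k + 1) - 1 / 4 * Real.log 2 := by
    field_simp
    ring
  linarith

lemma FF_lim : Tendsto (fun k => Real.circleAverage (fun w => Real.posLog ‖FF (phi w)‖) 0 (rr (k + 1))) atTop atTop := by
  apply tendsto_atTop_mono FF_avg
  apply tendsto_atTop_add_const_right
  apply Tendsto.const_mul_atTop (by norm_num)
  exact tendsto_natCast_atTop_atTop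

/-- mean value of differences -/
lemma PP_mean_ge {K j : ℕ} (h : K ≤ j) : MeanLe (fun s => PP j s - PP K s) ((1 / 2) ^ (K + 1) - (1 / 2) ^ (j + 1)) := by
  induction j, h using Nat.le_induction with
  | base =>
    have : (fun s : ℂ => PP K s - PP K s) = fun _ => 0 := by funext s; ring
    rw [this, sub_self]
    intro ε hε
    refine ⟨1, one_pos, fun T _ => ?_⟩
    simp [hε]
  | succ j hj ih =>
    have h1 := ih.add ((PP_isDP j).sub (PP_isDP K)).continuous ((PP_isDP (j + 1)).sub (PP_isDP j)).continuous (PP_mean j)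
    have e1 : (fun s : ℂ => PP (j + 1) s - PP K s) = fun s => PP j s - PP K s + (PP (j + 1) s - PP j s) := by
      funext s; ring
    rw [e1]
    apply h1.mono
    have : ((1 : ℝ) / 2) ^ (j + 1) = 2 * (1 / 2) ^ (j + 2) := by
      rw [pow_succ ((1 : ℝ) / 2) (j + 1)]; ring
    have e2 : ((1 : ℝ) / 2) ^ (j + 1 + 1) = (1 / 2) ^ (j + 2) := rfl
    rw [e2]
    linarith

lemma MeanLe.neg {D : ℂ → ℂ} {B : ℝ} (h : MeanLe D B) : MeanLe (fun s => - D s) B := by
  intro ε hε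
  obtain ⟨T₀, h0, h1⟩ := h ε hε
  refine ⟨T₀, h0, fun T hT => ?_⟩
  simp only [norm_neg]
  exact h1 T hT

lemma PP_cauchy {K j k : ℕ} (hj : K ≤ j) (hk : K ≤ k) : MeanLe (fun s => PP j s - PP k s) ((1 / 2) ^ K) := by
  have h1 := PP_mean_ge hj
  have h2 := (PP_mean_ge hk).neg
  have h3 := h1.add ((PP_isDP j).sub (PP_isDP K)).continuous
    (((PP_isDP k).sub (PP_isDP K)).continuous.neg) h2
  have e1 : (fun s : ℂ => PP j s - PP k s) = fun s => PP j s - PP K s + -(PP k s - PP K s) := by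
    funext s; ring
  rw [e1]
  apply h3.mono
  have e2 : ((1 : ℝ) / 2) ^ K = 2 * (1 / 2) ^ (K + 1) := by
    rw [pow_succ ((1 : ℝ) / 2) K]; ring
  have e3 : (0 : ℝ) ≤ (1 / 2) ^ (j + 1) := by positivity
  have e4 : (0 : ℝ) ≤ (1 / 2) ^ (k + 1) := by positivity
  linarith

end Pool.Agent.Helper65.BL
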