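import Pool.Agent.Helper95.CFMoves

/-!
MP_717b2e_co, upper bound, module EX: existence of the chord data.
-/

namespace Pool.Agent.Helper95.CF

open Finset

variable {n : ℕ}

/-- a half-open interval closed under the partner map has an even number of points -/
lemma closed_even_Ico (M : NCM n) {lo hi : ℕ} (hb : hi ≤ 2 * n)
    (h : ∀ x, lo ≤ x → x < hi → lo ≤ M.p x ∧ M.p x < hi) : (hi - lo) % 2 = 0 := by
  have h0 : ∀ m ∈ Finset.Ico lo hi, m < 2 * n := by
    intro m hm
    rw [Finset.mem_Ico] at hm
    omega
  have h1 : Even ((Finset.Ico lo hi).attachFin h0).card := by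
    apply M.even_card
    intro j hj
    rw [Finset.mem_attachFin, Finset.mem_Ico] at hj ⊢
    have := h j.val hj.1 hj.2
    rwa [M.p_val] at this
  rw [Finset.card_attachFin, Nat.card_Ico] at h1
  rcases h1 with ⟨k, hk⟩
  omega

/-- the ends in `[0, n-1]` of the chords crossing the gap line, enumerated -/
lemma exists_enum (s : Finset ℕ) : ∃ X : ℕ → ℕ, (∀ i, 1 ≤ i → i ≤ s.card → X i ∈ s) ∧
    (∀ i j, 1 ≤ i → i < j → j ≤ s.card → X i < X j) ∧
    ∀ x ∈ s, ∃ i, 1 ≤ i ∧ i ≤ s.card ∧ X i = x := by
  refine ⟨fun i => if h : i - 1 < s.card then s.orderEmbOfFin rfl ⟨i - 1, h⟩ else 0, ?_, ?_, ?_⟩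
  · intro i h1 h2
    show (if h : i - 1 < s.card then s.orderEmbOfFin rfl ⟨i - 1, h⟩ else 0) ∈ s
    rw [dif_pos (show i - 1 < s.card by omega)]
    exact Finset.orderEmbOfFin_mem _ _ _
  · intro i j h1 h2 h3
    show (if h : i - 1 < s.card then s.orderEmbOfFin rfl ⟨i - 1, h⟩ else 0) <
      (if h : j - 1 < s.card then s.orderEmbOfFin rfl ⟨j - 1, h⟩ else 0)
    rw [dif_pos (show i - 1 < s.card by omega), dif_pos (show j - 1 < s.card by omega)]
    rw [OrderEmbedding.lt_iff_lt, Fin.mk_lt_mk]
    omega
  · intro x hx
    have h1 : x ∈ Set.range (s.orderEmbOfFin rfl) := by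
      rw [Finset.range_orderEmbOfFin]
      exact hx
    obtain ⟨j, hj⟩ := h1
    refine ⟨j.val + 1, by omega, by have := j.isLt; omega, ?_⟩
    show (if h : j.val + 1 - 1 < s.card then s.orderEmbOfFin rfl ⟨j.val + 1 - 1, h⟩ else 0) = x
    rw [dif_pos (show j.val + 1 - 1 < s.card by have := j.isLt; omega)]
    exact hj

theorem exists_chords (hn : n % 2 = 1) (M : NCM n) : ∃ K a b, Chords M K a b := by
  obtain ⟨s, hs⟩ : ∃ s : Finset ℕ, s = (range n).filter fun x => n ≤ M.p x := ⟨_, rfl⟩
  have hmem : ∀ x, x ∈ s ↔ x < n ∧ n ≤ M.p x := by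
    intro x
    rw [hs, mem_filter, mem_range]
  obtain ⟨X, hX1, hX2, hX3⟩ := exists_enum s
  obtain ⟨K, hK⟩ : ∃ K, K = s.card := ⟨_, rfl⟩
  rw [← hK] at hX1 hX2 hX3
  obtain ⟨a, ha⟩ : ∃ a : ℕ → ℕ, a = fun i => if i = 0 then 0 else if i ≤ K then X i + 1
    else n + 1 := ⟨_, rfl⟩
  obtain ⟨b, hb⟩ : ∃ b : ℕ → ℕ, b = fun i => if i = 0 then 0 else if i ≤ K then 2 * n - M.p (X i)
    else n + 1 := ⟨_, rfl⟩
  have a0 : a 0 = 0 := by rw [ha]; simp
  have b0 : b 0 = 0 := by rw [hb]; simp
  have aK : a (K + 1) = n + 1 := by rw [ha]; simp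
  have bK : b (K + 1) = n + 1 := by rw [hb]; simp
  have am : ∀ i, 1 ≤ i → i ≤ K → a i = X i + 1 := by
    intro i h1 h2
    rw [ha]
    show (if i = 0 then 0 else if i ≤ K then X i + 1 else n + 1) = _
    rw [if_neg (by omega), if_pos h2]
  have bm : ∀ i, 1 ≤ i → i ≤ K → b i = 2 * n - M.p (X i) := by
    intro i h1 h2
    rw [hb]
    show (if i = 0 then 0 else if i ≤ K then 2 * n - M.p (X i) else n + 1) = _
    rw [if_neg (by omega), if_pos h2]
  clear ha hb
  have hXs : ∀ i, 1 ≤ i → i ≤ K → X i < n ∧ n ≤ M.p (X i) ∧ M.p (X i) < 2 * n := by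
    intro i h1 h2
    have := (hmem _).1 (hX1 i h1 h2)
    exact ⟨this.1, this.2, M.p_lt (by omega)⟩
  have ainc : ∀ i, i ≤ K → a i < a (i + 1) := by
    intro i hi
    by_cases h0 : i = 0
    · subst h0
      rw [a0]
      by_cases h1 : K = 0
      · rw [← h1, aK]
        omega
      · rw [am (0 + 1) (by omega) (by omega)]
        omega
    · rw [am i (by omega) hi]
      by_cases h1 : i = K
      · subst h1
        rw [aK]
        have := hXs i (by omega) le_rfl
        omega
      · rw [am (i + 1) (by omega) (by omega)]
        have := hX2 i (i + 1) (by omega) (by omega) (by omega)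
        omega
  have binc : ∀ i, i ≤ K → b i < b (i + 1) := by
    intro i hi
    by_cases h0 : i = 0
    · subst h0
      rw [b0]
      by_cases h1 : K = 0
      · rw [← h1, bK]
        omega
      · rw [bm (0 + 1) (by omega) (by omega)]
        have := hXs (0 + 1) (by omega) (by omega)
        omega
    · rw [bm i (by omega) hi]
      have h3 := hXs i (by omega) (by omega)
      by_cases h1 : i = K
      · subst h1
        rw [bK]
        omega
      · rw [bm (i + 1) (by omega) (by omega)]
        have h4 := hX2 i (i + 1) (by omega) (by omega) (by omega)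
        have h5 := hXs (i + 1) (by omega) (by omega)
        have h6 := M.nc.nc (X i) (X (i + 1)) h4 (by omega) (by omega)
        omega
  have amono : ∀ i j, i < j → j ≤ K + 1 → a i < a j := by
    intro i j hij hj
    induction j with
    | zero => omega
    | succ j ih =>
      have h1 := ainc j (by omega)
      rcases Nat.lt_succ_iff_lt_or_eq.1 hij with h2 | h2
      · have := ih h2 (by omega)
        omega
      · subst h2; exact h1
  have bmono : ∀ i j, i < j → j ≤ K + 1 → b i < b j := by
    intro i j hij hj
    induction j with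
    | zero => omega
    | succ j ih =>
      have h1 := binc j (by omega)
      rcases Nat.lt_succ_iff_lt_or_eq.1 hij with h2 | h2
      · have := ih h2 (by omega)
        omega
      · subst h2; exact h1
  have ale : ∀ i, i ≤ K + 1 → a i ≤ n + 1 := by
    intro i hi
    rcases Nat.lt_or_eq_of_le hi with h | h
    · have := amono i (K + 1) h le_rfl
      omega
    · rw [h, aK]
  have ble : ∀ i, i ≤ K + 1 → b i ≤ n + 1 := by
    intro i hi
    rcases Nat.lt_or_eq_of_le hi with h | h
    · have := bmono i (K + 1) h le_rfl
      omega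
    · rw [h, bK]
  have gapA : ∀ i, i ≤ K → ∀ z, a i ≤ z → z + 1 < a (i + 1) →
      a i ≤ M.p z ∧ M.p z + 1 < a (i + 1) := by
    intro i hi z h1 h2
    have h3 := ale (i + 1) (by omega)
    have hz : z < 2 * n := by omega
    have h4 : M.p z < n := by
      by_contra hc
      obtain ⟨l, l1, l2, l3⟩ := hX3 z ((hmem z).2 ⟨by omega, by omega⟩)
      have l4 := am l l1 l2
      rcases lt_trichotomy l (i + 1) with h | h | h
      · rcases Nat.lt_succ_iff_lt_or_eq.1 h with h' | h'
        · have := amono l i h' (by omega)
          omega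
        · subst h'; omega
      · subst h; omega
      · have := amono (i + 1) l h (by omega)
        omega
    have h5 := M.p_p hz
    have h6 := M.p_ne hz
    constructor
    · by_contra hc
      have i1 : 1 ≤ i := by
        by_contra hc'
        have : i = 0 := by omega
        subst this
        omega
      have h7 := am i i1 hi
      have h8 := hXs i i1 hi
      have h9 : M.p z ≠ X i := by
        intro he
        rw [he] at h5
        omega
      have := M.nc.nc (M.p z) (X i) (by omega) (by omega) (by omega)
      omega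
    · by_contra hc
      have i1 : i + 1 ≤ K := by
        by_contra hc'
        have : i = K := by omega
        subst this
        omega
      have h7 := am (i + 1) (by omega) i1
      have h8 := hXs (i + 1) (by omega) i1
      have h9 : M.p z ≠ X (i + 1) := by
        intro he
        rw [he] at h5
        omega
      have := M.nc.nc z (X (i + 1)) (by omega) (by omega) (by omega)
      omega
  have gapB : ∀ i, i ≤ K → ∀ z, 2 * n < z + b (i + 1) → z + b i < 2 * n →
      2 * n < M.p z + b (i + 1) ∧ M.p z + b i < 2 * n := by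
    intro i hi z h1 h2
    have h3 := ble (i + 1) (by omega)
    have hz : z < 2 * n := by omega
    have hpz := M.p_lt hz
    have h5 := M.p_p hz
    have h6 := M.p_ne hz
    have h4 : n ≤ M.p z := by
      by_contra hc
      obtain ⟨l, l1, l2, l3⟩ := hX3 (M.p z) ((hmem _).2 ⟨by omega, by omega⟩)
      have l4 := bm l l1 l2
      rw [l3, h5] at l4
      rcases lt_trichotomy l (i + 1) with h | h | h
      · rcases Nat.lt_succ_iff_lt_or_eq.1 h with h' | h'
        · have := bmono l i h' (by omega)
          omega
        · subst h'; omega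
      · subst h; omega
      · have := bmono (i + 1) l h (by omega)
        omega
    constructor
    · by_contra hc
      have i1 : i + 1 ≤ K := by
        by_contra hc'
        have : i = K := by omega
        subst this
        omega
      have h7 := bm (i + 1) (by omega) i1
      have h8 := hXs (i + 1) (by omega) i1
      have h10 := M.p_p (x := X (i + 1)) (by omega)
      have h9 : M.p z ≠ M.p (X (i + 1)) := by
        intro he
        rw [he, h10] at h5
        omega
      have := M.nc.nc (M.p z) (M.p (X (i + 1))) (by omega) (by omega) (by omega)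
      omega
    · by_contra hc
      have i1 : 1 ≤ i := by
        by_contra hc'
        have : i = 0 := by omega
        subst this
        omega
      have h7 := bm i i1 hi
      have h8 := hXs i i1 hi
      have h10 := M.p_p (x := X i) (by omega)
      have h9 : M.p z ≠ M.p (X i) := by
        intro he
        rw [he, h10] at h5
        omega
      have := M.nc.nc z (M.p (X i)) (by omega) (by omega) (by omega)
      omega
  have apar : ∀ i, i ≤ K + 1 → a i % 2 = i % 2 := by
    intro i
    induction i with
    | zero => intro _; rw [a0]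
    | succ i ih =>
      intro hi
      have h1 := ih (by omega)
      have h2 := ainc i (by omega)
      have h3 := ale (i + 1) (by omega)
      have := closed_even_Ico M (lo := a i) (hi := a (i + 1) - 1) (by omega) (fun x k1 k2 => by
        have := gapA i (by omega) x k1 (by omega)
        omega)
      omega
  have bpar : ∀ i, i ≤ K + 1 → b i % 2 = i % 2 := by
    intro i
    induction i with
    | zero => intro _; rw [b0]
    | succ i ih =>
      intro hi
      have h1 := ih (by omega)
      have h2 := binc i (by omega)
      have h3 := ble (i + 1) (by omega)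
      have := closed_even_Ico M (lo := 2 * n - b (i + 1) + 1) (hi := 2 * n - b i) (by omega)
        (fun x k1 k2 => by
          have := gapB i (by omega) x (by omega) (by omega)
          omega)
      omega
  refine ⟨K, a, b, ⟨?_, ⟨a0, aK, ainc, apar⟩, ⟨b0, bK, binc, bpar⟩, ?_, gapA, gapB⟩⟩
  · have := apar (K + 1) le_rfl
    omega
  · intro i h1 h2
    rw [am i h1 h2, bm i h1 h2, Nat.add_sub_cancel]
    have := hXs i h1 h2
    omega

/-- every chord across the gap line is one of the listed ones -/
theorem Chords.cross {M : NCM n} {K : ℕ} {a b : ℕ → ℕ} (C : Chords M K a b) {x : ℕ} (hx : x < n)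
    (h : n ≤ M.p x) : ∃ i, 1 ≤ i ∧ i ≤ K ∧ x = a i - 1 ∧ M.p x = 2 * n - b i := by
  have hT := C.ga.t
  have hZ := C.ga.z
  obtain ⟨k, k1, k2, k3, k4⟩ := C.ga.locate (i := 0) (j := K + 1) (z := x) (by omega) le_rfl
    (by omega) (by omega)
  have h5 : a (k + 1) ≤ n + 1 := by rw [← hT]; exact C.ga.mono' (by omega) le_rfl
  have h6 : x + 1 = a (k + 1) := by
    by_contra hc
    have := C.gapA k (by omega) x k3 (by omega)
    omega
  have h7 : k + 1 ≤ K := by
    by_contra hc
    have : k = K := by omega
    rw [this] at h6
    omega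
  have h8 : x = a (k + 1) - 1 := by omega
  refine ⟨k + 1, by omega, h7, h8, ?_⟩
  rw [h8]
  exact C.ch (k + 1) (by omega) h7

end Pool.Agent.Helper95.CF
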