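import Pool.Agent.Helper65.CFN3aAcore

/-!
MP_717b2e_co, upper bound: realization of the move N3a, type A.
-/

namespace Pool.Agent.Helper95.CF

open Finset

variable {n : ℕ}

/-- move N3a of type A (`i` even) -/
theorem move_N3aA (hn : n % 2 = 1) {M N : NCM n} {K : ℕ} {a b : ℕ → ℕ} (C : Chords M K a b)
    {i j : ℕ} (hi : 2 ≤ i) (hij : i < j) (hj : j ≤ K) (hp : (i + j) % 2 = 1) (hiA : i % 2 = 0)
    (S : St M N a b i j) (hne : a i + 1 < a j)
    (hl : a i + b i ≤ n + 1) (hu : n + 1 ≤ a j + b j) (hc : n + 1 < b i + a j)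
    (hc' : b (i - 1) + a j < n + 1) :
    ∃ N' : NCM n, St M N' a b (i - 1) (j + 1) ∧ DistLe N N' 3 ∧ U N' - U N ≤ -8 := by
  obtain ⟨i, rfl⟩ : ∃ i', i = i' + 1 := ⟨i - 1, by omega⟩
  rw [Nat.add_sub_cancel] at *
  obtain ⟨e1, e2⟩ := St.ends C (by omega) hij hj S
  have ai := C.a_pos (i := i) (by omega) (by omega)
  have ai2 := C.ga.mono (i := i) (j := i + 1) (by omega) (by omega)
  have aj := C.ga.mono hij (by omega)
  have aj2 := C.ga.mono (i := j) (j := j + 1) (by omega) (by omega)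
  have bi := C.b_pos (i := i) (by omega) (by omega)
  have bi2 := C.gb.mono (i := i) (j := i + 1) (by omega) (by omega)
  have bj := C.gb.mono hij (by omega)
  have bj2 := C.gb.mono (i := j) (j := j + 1) (by omega) (by omega)
  have ajn := C.a_le hj
  have bjn := C.b_le hj
  have pbi : (2 * n - b i - 1 - n) % 2 = 1 := by
    have := C.gb.par i (by omega)
    omega
  have pbi1 : (2 * n - b (i + 1) - n) % 2 = 1 := by
    have := C.gb.par (i + 1) (by omega)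
    omega
  have pai1 : (a (i + 1) - 1) % 2 = 1 := by
    have := C.ga.par (i + 1) (by omega)
    omega
  have paj : (a j - 2) % 2 = 1 := by
    have := C.ga.par j (by omega)
    omega
  have pbj : (2 * n - b j - n) % 2 = 0 := by
    have := C.gb.par j (by omega)
    omega
  clear hiA hp
  have gB : ∀ z, 2 * n < z + b (i + 1) → z + b i < 2 * n →
    2 * n < M.p z + b (i + 1) ∧ M.p z + b i < 2 * n := C.gapB i (by omega)
  obtain ⟨p0, hp0⟩ : ∃ p0, p0 = a (i + 1) - 1 := ⟨_, rfl⟩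
  obtain ⟨p2, hp2⟩ : ∃ p2, p2 = a j - 2 := ⟨_, rfl⟩
  obtain ⟨p1, hp1⟩ : ∃ p1, p1 = N.p p2 := ⟨_, rfl⟩
  obtain ⟨p3, hp3⟩ : ∃ p3, p3 = a j - 1 := ⟨_, rfl⟩
  obtain ⟨p4, hp4⟩ : ∃ p4, p4 = 2 * n - b j := ⟨_, rfl⟩
  obtain ⟨p5, hp5⟩ : ∃ p5, p5 = 2 * n - b (i + 1) := ⟨_, rfl⟩
  obtain ⟨p7, hp7⟩ : ∃ p7, p7 = 2 * n - b i - 1 := ⟨_, rfl⟩
  obtain ⟨p6, hp6⟩ : ∃ p6, p6 = N.p p7 := ⟨_, rfl⟩
  rw [← hp0, ← hp5] at e1
  rw [← hp3, ← hp4] at e2
  rw [← hp7] at pbi
  rw [← hp5] at pbi1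
  rw [← hp0] at pai1
  rw [← hp2] at paj
  rw [← hp4] at pbj
  have e3 := hp1.symm
  have e4 := hp6.symm
  have q0 : ∀ x, p0 < x → x ≤ p2 → p0 < N.p x ∧ N.p x ≤ p2 := by
    intro x h1 h2
    have h3 := S.inA x (by omega) (by omega)
    omega
  have q4 : ∀ x, p4 < x → x < p5 → p4 < N.p x ∧ N.p x < p5 := by
    intro x h1 h2
    have h3 := S.inB x (by omega) (by omega)
    omega
  have q5 : ∀ x, p5 < x → x ≤ p7 → p5 < N.p x ∧ N.p x ≤ p7 := by
    intro x h1 h2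
    rw [S.out x (by omega) (by omega) (by omega)]
    have := gB x (by omega) (by omega)
    omega
  clear gB
  have hin := q0 p2 (by omega) (by omega)
  have hne2 := N.p_ne (x := p2) (by omega)
  rw [e3] at hin hne2
  have par2 := N.p_parity (x := p2) (by omega)
  rw [e3] at par2
  have hin0 := q5 p7 (by omega) (by omega)
  have hne0 := N.p_ne (x := p7) (by omega)
  rw [e4] at hin0 hne0
  have par7 := N.p_parity (x := p7) (by omega)
  rw [e4] at par7
  have m1 : p1 % 2 = 0 := by omega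
  have m6 : (p6 - n) % 2 = 0 := by omega
  have l01 : p0 < p1 := hin.1
  have l12 : p1 < p2 := by omega
  have l23 : p3 = p2 + 1 := by omega
  have l34 : p3 < n := by omega
  have ln : n ≤ p4 := by omega
  have l45 : p4 < p5 := by omega
  have l56 : p5 < p6 := hin0.1
  have l67 : p6 < p7 := by omega
  have l7 : p7 < 2 * n := by omega
  have k1 : p0 + n ≤ p5 := by omega
  have k2 : p4 ≤ n + p3 := by omega
  have k3 : p5 < n + p3 := by omega
  have k4 : n + p3 ≤ p7 := by omega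
  obtain ⟨N', ⟨f0, f1, f2, f3, f4, f5, f6, f7, fu⟩, hd, hU⟩ := N3aA_core hn (N := N) l01 l12 l23
    l34 ln l45 l56 l67 l7 k1 k2 k3 k4 pai1 m1 paj pbj pbi1 m6 e1 e2 e3 e4 q0 q4 q5
  clear e1 e2 e3 e4 q0 q4 q5 pai1 m1 paj pbj pbi1 m6 pbi par2 par7 k1 k2 k3 k4 hp1 hp6 hn hl hu hc
  refine ⟨N', ?_, hd, hU⟩
  apply St.glue C S (by omega) hij (by omega) (by omega)
    (fun z => z = p0 ∨ z = p1 ∨ z = p2 ∨ z = p3 ∨ z = p4 ∨ z = p5 ∨ z = p6 ∨ z = p7) fu
  · rintro z (rfl | rfl | rfl | rfl | rfl | rfl | rfl | rfl) hz <;> omega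
  · rintro z (rfl | rfl | rfl | rfl | rfl | rfl | rfl | rfl) hz <;> omega
  · intro k h1 h2 h3
    have : k = i + 1 ∨ k = j := by omega
    rcases this with rfl | rfl
    · exact ⟨by omega, by omega⟩
    · exact ⟨by omega, by omega⟩

end Pool.Agent.Helper95.CF
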