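import Pool.Agent.Helper65.CFN3aBcore

/-!
MP_717b2e_co, upper bound: realization of the move N3a, type B.
-/

namespace Pool.Agent.Helper95.CF

open Finset

variable {n : ℕ}

/-- move N3a of type B (`i` odd) -/
theorem move_N3aB (hn : n % 2 = 1) {M N : NCM n} {K : ℕ} {a b : ℕ → ℕ} (C : Chords M K a b)
    {i j : ℕ} (hi : 2 ≤ i) (hij : i < j) (hj : j ≤ K) (hp : (i + j) % 2 = 1) (hiB : i % 2 = 1)
    (S : St M N a b i j) (hne : b i + 1 < b j)
    (hl : a i + b i ≤ n + 1) (hu : n + 1 ≤ a j + b j) (hc : n + 1 < a i + b j)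
    (hc' : a (i - 1) + b j < n + 1) :
    ∃ N' : NCM n, St M N' a b (i - 1) (j + 1) ∧ DistLe N N' 3 ∧ U N' - U N ≤ -8 := by
  obtain ⟨i, rfl⟩ : ∃ i', i = i' + 1 := ⟨i - 1, by omega⟩
  rw [Nat.add_sub_cancel] at *
  obtain ⟨e1, e2⟩ := St.ends C (by omega) hij hj S
  have ai := C.a_pos (i := i) (by omega) (by omega)
  have ai2 := C.ga.mono (i := i) (j := i + 1) (by omega) (by omega)
  have aj := C.ga.mono hij (by omega)
  have aj2 := C.ga.mono (i := j) (j := j + 1) (by omega) (by omega)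
  have bi := C.b_pos (i := i) (by omega) (by omega)
  have bi2 := C.gb.mono (i := i) (j := i + 1) (by omega) (by omega)
  have bj := C.gb.mono hij (by omega)
  have bj2 := C.gb.mono (i := j) (j := j + 1) (by omega) (by omega)
  have ajn := C.a_le hj
  have bjn := C.b_le hj
  have pai : (a i) % 2 = 0 := by
    have := C.ga.par i (by omega)
    omega
  have pai1 : (a (i + 1) - 1) % 2 = 0 := by
    have := C.ga.par (i + 1) (by omega)
    omega
  have pbj : (2 * n - b j - n) % 2 = 1 := by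
    have := C.gb.par j (by omega)
    omega
  clear hiB hp
  have gA : ∀ z, a i ≤ z → z + 1 < a (i + 1) → a i ≤ M.p z ∧ M.p z + 1 < a (i + 1) :=
    C.gapA i (by omega)
  obtain ⟨p0, hp0⟩ : ∃ p0, p0 = a i := ⟨_, rfl⟩
  obtain ⟨p1, hp1⟩ : ∃ p1, p1 = N.p p0 := ⟨_, rfl⟩
  obtain ⟨p2, hp2⟩ : ∃ p2, p2 = a (i + 1) - 1 := ⟨_, rfl⟩
  obtain ⟨p3, hp3⟩ : ∃ p3, p3 = a j - 1 := ⟨_, rfl⟩
  obtain ⟨p4, hp4⟩ : ∃ p4, p4 = 2 * n - b j := ⟨_, rfl⟩
  obtain ⟨p5, hp5⟩ : ∃ p5, p5 = 2 * n - b j + 1 := ⟨_, rfl⟩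
  obtain ⟨p6, hp6⟩ : ∃ p6, p6 = N.p p5 := ⟨_, rfl⟩
  obtain ⟨p7, hp7⟩ : ∃ p7, p7 = 2 * n - b (i + 1) := ⟨_, rfl⟩
  rw [← hp2, ← hp7] at e1
  rw [← hp3, ← hp4] at e2
  rw [← hp0] at pai
  rw [← hp2] at pai1
  rw [← hp4] at pbj
  have e3 := hp6.symm
  have e4 := hp1.symm
  have q0 : ∀ x, p0 ≤ x → x < p2 → p0 ≤ N.p x ∧ N.p x < p2 := by
    intro x h1 h2
    rw [S.out x (by omega) (by omega) (by omega)]
    have := gA x (by omega) (by omega)
    omega
  have q2 : ∀ x, p2 < x → x < p3 → p2 < N.p x ∧ N.p x < p3 := by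
    intro x h1 h2
    have h3 := S.inA x (by omega) (by omega)
    omega
  have q5 : ∀ x, p5 ≤ x → x < p7 → p5 ≤ N.p x ∧ N.p x < p7 := by
    intro x h1 h2
    have h3 := S.inB x (by omega) (by omega)
    omega
  clear gA
  have l45 : p5 = p4 + 1 := by omega
  have hin := q5 p5 (by omega) (by omega)
  have hne2 := N.p_ne (x := p5) (by omega)
  rw [e3] at hin hne2
  have par5 := N.p_parity (x := p5) (by omega)
  rw [e3] at par5
  have hin0 := q0 p0 (by omega) (by omega)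
  have hne0 := N.p_ne (x := p0) (by omega)
  rw [e4] at hin0 hne0
  have par0 := N.p_parity (x := p0) (by omega)
  rw [e4] at par0
  have m1 : p1 % 2 = 1 := by omega
  have m5 : (p5 - n) % 2 = 0 := by omega
  have m6 : (p6 - n) % 2 = 1 := by omega
  have l01 : p0 < p1 := by omega
  have l12 : p1 < p2 := hin0.2
  have l23 : p2 < p3 := by omega
  have l34 : p3 < n := by omega
  have ln : n ≤ p4 := by omega
  have l56 : p5 < p6 := by omega
  have l67 : p6 < p7 := hin.2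
  have l7 : p7 < 2 * n := by omega
  have lp : 0 < p0 := by omega
  have k1 : p2 + n ≤ p7 := by omega
  have k2 : p4 ≤ n + p3 := by omega
  have k3 : p4 < n + p2 := by omega
  have k4 : p0 + n ≤ p4 := by omega
  obtain ⟨N', ⟨f0, f1, f2, f3, f4, f5, f6, f7, fu⟩, hd, hU⟩ := N3aB_core hn (N := N) l01 l12 l23
    l34 ln l45 l56 l67 l7 lp k1 k2 k3 k4 pai m1 pbj m5 m6 e1 e2 e3 e4 q0 q2 q5
  clear e1 e2 e3 e4 q0 q2 q5 pai m1 pai1 pbj m5 m6 par0 par5 k1 k2 k3 k4 hp1 hp6 hn hl hu hc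
  refine ⟨N', ?_, hd, hU⟩
  apply St.glue C S (by omega) hij (by omega) (by omega)
    (fun z => z = p0 ∨ z = p1 ∨ z = p2 ∨ z = p3 ∨ z = p4 ∨ z = p5 ∨ z = p6 ∨ z = p7) fu
  · rintro z (rfl | rfl | rfl | rfl | rfl | rfl | rfl | rfl) hz <;> omega
  · rintro z (rfl | rfl | rfl | rfl | rfl | rfl | rfl | rfl) hz <;> omega
  · intro k h1 h2 h3
    have : k = i + 1 ∨ k = j := by omega
    rcases this with rfl | rfl
    · exact ⟨by omega, by omega⟩
    · exact ⟨by omega, by omega⟩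

end Pool.Agent.Helper95.CF
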