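import Pool.Agent.Helper95.CFMoves

/-!
MP_717b2e_co, upper bound: realization of the move N3a, type B, the three flips.
-/

namespace Pool.Agent.Helper95.CF

open Finset

variable {n : ℕ}

/-- the background of the eight points -/
theorem N3aB_bg {N : NCM n} {p0 p1 p2 p3 p4 p5 p6 p7 : ℕ} (l01 : p0 < p1) (l12 : p1 < p2)
    (l23 : p2 < p3) (l34 : p3 < n) (ln : n ≤ p4) (l45 : p5 = p4 + 1) (l56 : p5 < p6)
    (l67 : p6 < p7) (l7 : p7 < 2 * n)
    (e1 : N.p p2 = p7) (e2 : N.p p3 = p4) (e3 : N.p p5 = p6) (e4 : N.p p0 = p1)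
    (q0 : ∀ x, p0 ≤ x → x < p2 → p0 ≤ N.p x ∧ N.p x < p2)
    (q2 : ∀ x, p2 < x → x < p3 → p2 < N.p x ∧ N.p x < p3)
    (q5 : ∀ x, p5 ≤ x → x < p7 → p5 ≤ N.p x ∧ N.p x < p7) :
    Bg n 8 ![p0, p1, p2, p3, p4, p5, p6, p7] (allp 8) N.p := by
  have e1' := N.p_symm (by omega) e1
  have e2' := N.p_symm (by omega) e2
  have e3' := N.p_symm (by omega) e3
  have e4' := N.p_symm (by omega) e4
  apply Bg.mk'
  · simp [Fin.forall_fin_succ]
    omega
  · simp
    omega
  · exact N.nc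
  · simp [Fin.forall_fin_succ, Fin.exists_fin_succ, e1, e1', e2, e2', e3, e3', e4, e4']
  · simp [Fin.forall_fin_succ]
    refine ⟨?_, ?_, ?_, ?_, ?_, ?_, ?_⟩
    · intro x h1 h2
      have h3 := N.nc.nc p0 x h1 (by omega) (by omega)
      omega
    · intro x h1 h2
      have h4 := q0 x (by omega) (by omega)
      have h5 : N.p (N.p x) = x := N.p_p (by omega)
      have h6 : N.p x ≠ p0 := by
        intro h; rw [h] at h5; omega
      have h7 : N.p x ≠ p1 := by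
        intro h; rw [h] at h5; omega
      have h8 := N.sep (x := p0) (y := x) (by omega) (by omega) (by omega) (by omega) (by omega)
      omega
    · intro x h1 h2
      exact q2 x h1 h2
    · intro x h1 h2
      have h3 := N.nc.nc p3 x h1 (by omega) (by omega)
      omega
    · intro x h1 h2
      omega
    · intro x h1 h2
      have h3 := N.nc.nc p5 x h1 (by omega) (by omega)
      omega
    · intro x h1 h2
      have h3 := q5 x (by omega) (by omega)
      have h5 : N.p (N.p x) = x := N.p_p (by omega)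
      have h6 : N.p x ≠ p5 := by
        intro h; rw [h] at h5; omega
      have h7 : N.p x ≠ p6 := by
        intro h; rw [h] at h5; omega
      have h8 := N.sep (x := p5) (y := x) (by omega) (by omega) (by omega) (by omega) (by omega)
      omega

theorem N3aB_core (hn : n % 2 = 1) {N : NCM n} {p0 p1 p2 p3 p4 p5 p6 p7 : ℕ} (l01 : p0 < p1)
    (l12 : p1 < p2)
    (l23 : p2 < p3) (l34 : p3 < n) (ln : n ≤ p4) (l45 : p5 = p4 + 1) (l56 : p5 < p6)
    (l67 : p6 < p7) (l7 : p7 < 2 * n) (lp : 0 < p0)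
    (k1 : p2 + n ≤ p7) (k2 : p4 ≤ n + p3) (k3 : p4 < n + p2) (k4 : p0 + n ≤ p4)
    (m0 : p0 % 2 = 0) (m1 : p1 % 2 = 1) (m4 : (p4 - n) % 2 = 1)
    (m5 : (p5 - n) % 2 = 0) (m6 : (p6 - n) % 2 = 1)
    (e1 : N.p p2 = p7) (e2 : N.p p3 = p4) (e3 : N.p p5 = p6) (e4 : N.p p0 = p1)
    (q0 : ∀ x, p0 ≤ x → x < p2 → p0 ≤ N.p x ∧ N.p x < p2)
    (q2 : ∀ x, p2 < x → x < p3 → p2 < N.p x ∧ N.p x < p3)
    (q5 : ∀ x, p5 ≤ x → x < p7 → p5 ≤ N.p x ∧ N.p x < p7) :
    ∃ N' : NCM n, (N'.p p0 = p3 ∧ N'.p p1 = p2 ∧ N'.p p2 = p1 ∧ N'.p p3 = p0 ∧ N'.p p4 = p5 ∧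
      N'.p p5 = p4 ∧ N'.p p6 = p7 ∧ N'.p p7 = p6 ∧
      (∀ z, z < 2 * n → ¬ (z = p0 ∨ z = p1 ∨ z = p2 ∨ z = p3 ∨ z = p4 ∨ z = p5 ∨ z = p6 ∨
      z = p7) → N'.p z = N.p z)) ∧ DistLe N N' 3 ∧ U N' - U N ≤ -8 := by
  have B := N3aB_bg l01 l12 l23 l34 ln l45 l56 l67 l7 e1 e2 e3 e4 q0 q2 q5
  clear q0 q2 q5
  have e1' := N.p_symm (by omega) e1
  have e2' := N.p_symm (by omega) e2
  have e3' := N.p_symm (by omega) e3
  have e4' := N.p_symm (by omega) e4
  have S0 : Sym 8 (allp 8) ![1, 0, 7, 4, 3, 6, 5, 2] := by constructor <;> decide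
  have S1 : Sym 8 (allp 8) ![1, 0, 5, 4, 3, 2, 7, 6] := by constructor <;> decide
  have S2 : Sym 8 (allp 8) ![5, 2, 1, 4, 3, 0, 7, 6] := by constructor <;> decide
  have S3 : Sym 8 (allp 8) ![3, 2, 1, 0, 5, 4, 7, 6] := by constructor <;> decide
  have hN : N = ins B S0 := by
    apply eq_ins
    · simp [Fin.forall_fin_succ, e1, e1', e2, e2', e3, e3', e4, e4']
    · intro x hx h; rfl
  clear e1 e1' e2 e2' e3 e3' e4 e4'
  have hadj1 : (H n).Adj (ins B S1) (ins B S0) := by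
    clear m0 m1 m4 m5 m6
    apply ins_adj hn B S1 S0 (a := 2) (b := 5) (c := 6) (d := 7)
    · exact ⟨rfl, rfl, rfl, rfl, by decide, by decide, by decide, rfl, rfl, rfl, rfl, by decide⟩
    · simp; omega
    · simp; omega
    · simp; omega
    · simp; omega
  have hadj2 : (H n).Adj (ins B S1) (ins B S2) := by
    clear m0 m1 m4 m5 m6
    apply ins_adj hn B S1 S2 (a := 0) (b := 1) (c := 2) (d := 5)
    · exact ⟨rfl, rfl, rfl, rfl, by decide, by decide, by decide, rfl, rfl, rfl, rfl, by decide⟩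
    · simp; omega
    · simp; omega
    · simp; omega
    · simp; omega
  have hadj3 : (H n).Adj (ins B S3) (ins B S2) := by
    clear m0 m1 m4 m5 m6
    apply ins_adj hn B S3 S2 (a := 0) (b := 3) (c := 4) (d := 5)
    · exact ⟨rfl, rfl, rfl, rfl, by decide, by decide, by decide, rfl, rfl, rfl, rfl, by decide⟩
    · simp; omega
    · simp; omega
    · simp; omega
    · simp; omega
  have f0 : (ins B S3).p p0 = p3 := ins_named B S3 (i := 0) rfl
  have f1 : (ins B S3).p p1 = p2 := ins_named B S3 (i := 1) rfl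
  have f2 : (ins B S3).p p2 = p1 := ins_named B S3 (i := 2) rfl
  have f3 : (ins B S3).p p3 = p0 := ins_named B S3 (i := 3) rfl
  have f4 : (ins B S3).p p4 = p5 := ins_named B S3 (i := 4) rfl
  have f5 : (ins B S3).p p5 = p4 := ins_named B S3 (i := 5) rfl
  have f6 : (ins B S3).p p6 = p7 := ins_named B S3 (i := 6) rfl
  have f7 : (ins B S3).p p7 = p6 := ins_named B S3 (i := 7) rfl
  have fu : ∀ z, z < 2 * n → ¬ (z = p0 ∨ z = p1 ∨ z = p2 ∨ z = p3 ∨ z = p4 ∨ z = p5 ∨ z = p6 ∨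
      z = p7) → (ins B S3).p z = N.p z := by
    clear m0 m1 m4 m5 m6 k1 k2 k3 k4 hN hadj1 hadj2 hadj3 f0 f1 f2 f3 f4 f5 f6 f7
    clear l01 l12 l23 l34 ln l45 l56 l67 l7 lp
    intro z hz h0
    apply ins_unnamed B S3 hz
    simp [Fin.forall_fin_succ]
    omega
  have hU := U_ins_sub B S0 S3
  simp [Fin.sum_univ_succ] at hU
  have hd : DistLe (ins B S0) (ins B S3) 3 :=
    ((DistLe.of_adj hadj1.symm).trans (DistLe.of_adj hadj2)).trans (DistLe.of_adj hadj3.symm)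
  rw [← hN] at hU hd
  refine ⟨ins B S3, ⟨f0, f1, f2, f3, f4, f5, f6, f7, fu⟩, hd, ?_⟩
  clear f0 f1 f2 f3 f4 f5 f6 f7 hd fu
  rw [hU]
  rw [ws_comm n p7 p2, ws_comm n p4 p3, ws_comm n p6 p5, ws_comm n p1 p0, ws_comm n p3 p0,
    ws_comm n p2 p1, ws_comm n p5 p4, ws_comm n p7 p6]
  rw [ws_X (x := p2) (y := p7) (by omega) (by omega) (by omega),
    ws_X (x := p3) (y := p4) (by omega) (by omega) (by omega)]
  have w1 := ws_A_le (n := n) (x := p0) (y := p3) (by omega) (by omega)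
  have w2 := ws_A_le (n := n) (x := p1) (y := p2) (by omega) (by omega)
  have w3 := ws_B_le (n := n) (x := p4) (y := p5) (by omega) (by omega)
  have w4 := ws_B_le (n := n) (x := p6) (y := p7) (by omega) (by omega)
  have w5 := ws_B (n := n) (x := p5) (y := p6) (by omega) (by omega)
  have w6 := ws_A (n := n) (x := p0) (y := p1) (by omega) (by omega) (by omega)
  rw [if_pos (by omega)] at w1
  rw [if_neg (by omega)] at w2
  rw [if_neg (by omega)] at w3
  rw [if_neg (by omega)] at w4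
  rw [if_pos (by omega)] at w5
  rw [if_pos (by omega)] at w6
  clear hU m0 m1 m4 m5 m6 k1 k2 k3 k4
  omega

end Pool.Agent.Helper95.CF
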