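import Pool.Agent.Helper65.CFSymm
import Pool.Agent.Helper95.CFState

/-!
MP_717b2e_co, upper bound, module CH: symmetries of chords and states.
-/

namespace Pool.Agent.Helper95.CF

open Finset

variable {n : ℕ}

theorem Chords.rev {M : NCM n} {K : ℕ} {a b : ℕ → ℕ} (C : Chords M K a b) :
    Chords (rev M) K b a := by
  refine ⟨C.hK, C.gb, C.ga, ?_, ?_, ?_⟩
  · intro i h1 h2
    have e1 := C.a_pos h1 (by omega)
    have e2 := C.b_pos h1 (by omega)
    have e3 := C.a_le h2
    have e4 := C.b_le h2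
    rw [rev_p _ (by omega)]
    have e : 2 * n - 1 - (b i - 1) = 2 * n - b i := by omega
    rw [e, C.ch' h1 h2]
    omega
  · intro i h1 z h2 h3
    have e4 : b (i + 1) ≤ n + 1 := by rw [← C.gb.t]; exact C.gb.mono' (by omega) le_rfl
    have hz : z < 2 * n := by omega
    have h4 := C.gapB i h1 (2 * n - 1 - z) (by omega) (by omega)
    rw [rev_p _ hz]
    have := M.p_lt (x := 2 * n - 1 - z) (by omega)
    omega
  · intro i h1 z h2 h3
    have e4 : a (i + 1) ≤ n + 1 := by rw [← C.ga.t]; exact C.ga.mono' (by omega) le_rfl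
    have hz : z < 2 * n := by omega
    have h4 := C.gapA i h1 (2 * n - 1 - z) (by omega) (by omega)
    rw [rev_p _ hz]
    have := M.p_lt (x := 2 * n - 1 - z) (by omega)
    omega

/-- reflection of a good sequence -/
lemma Good.refl' {S K : ℕ} {a : ℕ → ℕ} (h : Good S K a) (hS : S % 2 = 0) (hK : K % 2 = 1) :
    Good S K (fun i => S - a (K + 1 - i)) := by
  refine ⟨?_, ?_, ?_, ?_⟩
  · show S - a (K + 1 - 0) = 0
    rw [Nat.sub_zero, h.t, Nat.sub_self]
  · show S - a (K + 1 - (K + 1)) = S
    rw [Nat.sub_self, h.z, Nat.sub_zero]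
  · intro i hi
    show S - a (K + 1 - i) < S - a (K + 1 - (i + 1))
    have e1 := h.mono (i := K + 1 - (i + 1)) (j := K + 1 - i) (by omega) (by omega)
    have e2 := h.mono' (i := K + 1 - i) (j := K + 1) (by omega) le_rfl
    have e3 := h.t
    omega
  · intro i hi
    show (S - a (K + 1 - i)) % 2 = i % 2
    have e1 := h.par (K + 1 - i) (by omega)
    have e2 := h.mono' (i := K + 1 - i) (j := K + 1) (by omega) le_rfl
    have e3 := h.t
    omega

theorem Chords.half (hn : n % 2 = 1) {M : NCM n} {K : ℕ} {a b : ℕ → ℕ} (C : Chords M K a b) :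
    Chords (rot^[n] M) K (fun i => n + 1 - b (K + 1 - i)) (fun i => n + 1 - a (K + 1 - i)) := by
  refine ⟨C.hK, C.gb.refl' (by omega) C.hK, C.ga.refl' (by omega) C.hK, ?_, ?_, ?_⟩
  · intro i h1 h2
    obtain ⟨l, hl⟩ : ∃ l, l = K + 1 - i := ⟨_, rfl⟩
    have l1 : 1 ≤ l := by omega
    have l2 : l ≤ K := by omega
    show (rot^[n] M).p (n + 1 - b (K + 1 - i) - 1) = 2 * n - (n + 1 - a (K + 1 - i))
    rw [← hl]
    have e1 := C.a_pos l1 (by omega)
    have e2 := C.b_pos l1 (by omega)
    have e3 := C.a_le l2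
    have e4 := C.b_le l2
    have e5 : n + 1 - b l - 1 + n = 2 * n - b l := by omega
    rw [half_p _ (by omega), hmod_eq (x := n + 1 - b l - 1) (by omega), if_pos (by omega), e5,
      C.ch' l1 l2, hmod_eq (x := a l - 1) (by omega), if_pos (by omega)]
    omega
  · intro i h1 z h2 h3
    obtain ⟨l, hl⟩ : ∃ l, l = K - i := ⟨_, rfl⟩
    have l1 : K + 1 - i = l + 1 := by omega
    have l2 : K + 1 - (i + 1) = l := by omega
    simp only [l1, l2] at h2 h3 ⊢
    have e4 : b (l + 1) ≤ n + 1 := by rw [← C.gb.t]; exact C.gb.mono' (by omega) le_rfl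
    have hz : z < n := by omega
    have h4 := C.gapB l (by omega) (z + n) (by omega) (by omega)
    have h5 := M.p_lt (x := z + n) (by omega)
    rw [half_p _ (by omega), hmod_eq (x := z) (by omega), if_pos hz, hmod_eq h5,
      if_neg (by omega)]
    omega
  · intro i h1 z h2 h3
    obtain ⟨l, hl⟩ : ∃ l, l = K - i := ⟨_, rfl⟩
    have l1 : K + 1 - i = l + 1 := by omega
    have l2 : K + 1 - (i + 1) = l := by omega
    simp only [l1, l2] at h2 h3 ⊢
    have e4 : a (l + 1) ≤ n + 1 := by rw [← C.ga.t]; exact C.ga.mono' (by omega) le_rfl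
    have hz : n ≤ z := by omega
    have h4 := C.gapA l (by omega) (z - n) (by omega) (by omega)
    have h5 := M.p_lt (x := z - n) (by omega)
    rw [half_p _ (by omega), hmod_eq (x := z) (by omega), if_neg (by omega), hmod_eq h5,
      if_pos (by omega)]
    omega

theorem St.half (hn : n % 2 = 1) {M N : NCM n} {K : ℕ} {a b : ℕ → ℕ} (C : Chords M K a b)
    {i j : ℕ} (hij : i < j) (hj : j ≤ K + 1) (S : St M N a b i j) :
    St (rot^[n] M) (rot^[n] N) (fun i => n + 1 - b (K + 1 - i)) (fun i => n + 1 - a (K + 1 - i))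
      (K + 1 - j) (K + 1 - i) := by
  have l1 : K + 1 - (K + 1 - j) = j := by omega
  have l2 : K + 1 - (K + 1 - i) = i := by omega
  have a1 : a j ≤ n + 1 := by rw [← C.ga.t]; exact C.ga.mono' (by omega) le_rfl
  have b1 : b j ≤ n + 1 := by rw [← C.gb.t]; exact C.gb.mono' (by omega) le_rfl
  have a2 := C.ga.mono hij (by omega)
  have b2 := C.gb.mono hij (by omega)
  have hnn : 0 < n := by omega
  refine ⟨?_, ?_, ?_⟩
  · intro z h2 h3
    simp only [l1, l2] at h2 h3 ⊢
    have hz : z < n := by omega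
    have h4 := S.inB (z + n) (by omega) (by omega)
    have h5 := N.p_lt (x := z + n) (by omega)
    rw [half_p _ (by omega), hmod_eq (x := z) (by omega), if_pos hz, hmod_eq h5,
      if_neg (by omega)]
    omega
  · intro z h2 h3
    simp only [l1, l2] at h2 h3 ⊢
    have hz : n ≤ z := by omega
    have h4 := S.inA (z - n) (by omega) (by omega)
    have h5 := N.p_lt (x := z - n) (by omega)
    rw [half_p _ (by omega), hmod_eq (x := z) (by omega), if_neg (by omega), hmod_eq h5,
      if_pos (by omega)]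
    omega
  · intro z hz h2 h3
    simp only [l1, l2] at h2 h3
    rw [half_p _ hz, half_p _ hz, S.out _ (hmod_lt hz)]
    · rw [hmod_eq hz]
      split_ifs <;> omega
    · rw [hmod_eq hz]
      split_ifs <;> omega

end Pool.Agent.Helper95.CF
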