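import Pool.Agent.Helper95.CFRot

/-!
MP_717b2e_co, upper bound, module SY: symmetries of the weight.
-/

namespace Pool.Agent.Helper95.CF

open Finset

variable {n : ℕ}

lemma hmod_eq {x : ℕ} (hx : x < 2 * n) : (x + n) % (2 * n) = if x < n then x + n else x - n := by
  split_ifs with h
  · exact Nat.mod_eq_of_lt (by omega)
  · rw [Nat.mod_eq_sub_mod (by omega), Nat.mod_eq_of_lt (by omega)]
    omega

lemma hmod_lt {x : ℕ} (hx : x < 2 * n) : (x + n) % (2 * n) < 2 * n := by
  rw [hmod_eq hx]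
  split_ifs <;> omega

lemma hmod_hmod {x : ℕ} (hx : x < 2 * n) : ((x + n) % (2 * n) + n) % (2 * n) = x := by
  rw [hmod_eq (hmod_lt hx), hmod_eq hx]
  split_ifs <;> omega

/-- rotation by `n`, pointwise -/
theorem half_p (M : NCM n) {x : ℕ} (hx : x < 2 * n) :
    (rot^[n] M).p x = (M.p ((x + n) % (2 * n)) + n) % (2 * n) := by
  have h := rotk_p M n (hmod_lt hx)
  rwa [hmod_hmod hx] at h

theorem half_half (M : NCM n) : rot^[n] (rot^[n] M) = M := by
  apply NCM.ext_p
  intro x hx
  rw [half_p _ hx, half_p _ (hmod_lt hx), hmod_hmod hx, hmod_hmod (M.p_lt hx)]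

lemma ws_half_aux {x y : ℕ} (hy : y < 2 * n) (hxy : x < y) :
    ws n ((x + n) % (2 * n)) ((y + n) % (2 * n)) = ws n x y := by
  rw [hmod_eq (by omega), hmod_eq hy]
  unfold ws
  rw [if_pos hxy]
  by_cases h1 : y < n
  · rw [if_pos h1, if_pos (show x < n by omega), if_pos (by omega)]
    unfold uw
    split_ifs <;> omega
  · rw [if_neg h1]
    by_cases h2 : x < n
    · rw [if_pos h2, if_neg (by omega)]
      unfold uw
      split_ifs <;> omega
    · rw [if_neg h2, if_pos (by omega)]
      unfold uw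
      split_ifs <;> omega

lemma ws_half {x y : ℕ} (hx : x < 2 * n) (hy : y < 2 * n) (hxy : x ≠ y) :
    ws n ((x + n) % (2 * n)) ((y + n) % (2 * n)) = ws n x y := by
  rcases lt_or_gt_of_ne hxy with h | h
  · exact ws_half_aux hy h
  · rw [ws_comm, ws_comm n x y]
    exact ws_half_aux hx h

theorem U_half (hn : n % 2 = 1) (M : NCM n) : U (rot^[n] M) = U M := by
  unfold U
  apply Finset.sum_nbij' (fun x => (x + n) % (2 * n)) (fun x => (x + n) % (2 * n))
  · intro x hx
    rw [mem_range] at hx ⊢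
    exact hmod_lt hx
  · intro x hx
    rw [mem_range] at hx ⊢
    exact hmod_lt hx
  · intro x hx
    rw [mem_range] at hx
    exact hmod_hmod hx
  · intro x hx
    rw [mem_range] at hx
    exact hmod_hmod hx
  · intro x hx
    rw [mem_range] at hx
    have h1 := hmod_lt hx
    have h2 := ws_half h1 (M.p_lt h1) (M.p_ne h1).symm
    rw [hmod_hmod hx] at h2
    rw [half_p M hx, h2]

/-- negation modulo `2 n` -/
def ng (n x : ℕ) : ℕ := if x = 0 then 0 else 2 * n - x

lemma ng_lt {x : ℕ} (hx : x < 2 * n) : ng n x < 2 * n := by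
  unfold ng
  split_ifs <;> omega

lemma ng_ng {x : ℕ} (hx : x < 2 * n) : ng n (ng n x) = x := by
  unfold ng
  split_ifs <;> omega

lemma rot_rev_p (M : NCM n) {x : ℕ} (hx : x < 2 * n) :
    (rot (rev M)).p x = ng n (M.p (ng n x)) := by
  rw [rot_p _ hx, rev_p _ (dn_lt hx)]
  have e : 2 * n - 1 - dn n x = ng n x := by
    unfold dn ng
    split_ifs <;> omega
  rw [e]
  have h1 := M.p_lt (ng_lt hx)
  generalize M.p (ng n x) = y at h1 ⊢
  unfold up ng
  split_ifs <;> omega

lemma ws_neg_aux (hn : n % 2 = 1) {x y : ℕ} (hy : y < 2 * n) (hlt : x < y)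
    (hxy : (x + y) % 2 = 1) : ws n (ng n x) (ng n y) = ws n x y := by
  unfold ws
  rw [if_pos hlt]
  unfold ng
  rw [if_neg (show ¬ y = 0 by omega)]
  by_cases h0 : x = 0
  · rw [if_pos h0, if_pos (by omega)]
    unfold uw
    split_ifs <;> omega
  · rw [if_neg h0, if_neg (by omega)]
    unfold uw
    by_cases h1 : y < n
    · split_ifs <;> omega
    · by_cases h2 : x < n
      · split_ifs <;> omega
      · split_ifs <;> omega

lemma ws_neg (hn : n % 2 = 1) {x y : ℕ} (hx : x < 2 * n) (hy : y < 2 * n)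
    (hxy : (x + y) % 2 = 1) : ws n (ng n x) (ng n y) = ws n x y := by
  rcases lt_trichotomy x y with h | h | h
  · exact ws_neg_aux hn hy h hxy
  · omega
  · rw [ws_comm, ws_comm n x y]
    exact ws_neg_aux hn hx h (by omega)

theorem U_neg (hn : n % 2 = 1) (M : NCM n) : U (rot (rev M)) = U M := by
  unfold U
  apply Finset.sum_nbij' (fun x => ng n x) (fun x => ng n x)
  · intro x hx
    rw [mem_range] at hx ⊢
    exact ng_lt hx
  · intro x hx
    rw [mem_range] at hx ⊢
    exact ng_lt hx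
  · intro x hx
    rw [mem_range] at hx
    exact ng_ng hx
  · intro x hx
    rw [mem_range] at hx
    exact ng_ng hx
  · intro x hx
    rw [mem_range] at hx
    have h1 := ng_lt hx
    have h2 := ws_neg hn h1 (M.p_lt h1) (M.p_parity h1)
    rw [ng_ng hx] at h2
    rw [rot_rev_p M hx, h2]

theorem Val.half (hn : n % 2 = 1) {M : NCM n} {v : ℤ} (h : Val M v) : Val (rot^[n] M) v := by
  obtain ⟨R, k, h1, h2, h3⟩ := h
  refine ⟨rot^[n] R, k, ?_, h2.rotk hn n, ?_⟩
  · rw [half_p R (x := 0) (by omega), hmod_eq (x := 0) (by omega), if_pos (by omega), Nat.zero_add,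
      R.p_symm (by omega) h1, hmod_eq (x := 0) (by omega), if_pos (by omega), Nat.zero_add]
  · rw [U_half hn, U_half hn]
    exact h3

/-- apply `Val (rev M) v → Val (rot (rev (rev M))) v` -/
theorem Val.rot_of_rev (hn : n % 2 = 1) {M : NCM n} {v : ℤ} (h : Val (rev M) v) :
    Val (rot M) v := by
  obtain ⟨R, k, h1, h2, h3⟩ := h
  have e : U (rot M) = U (rev M) := by
    have := U_neg hn (rev M)
    rwa [rev_rev] at this
  refine ⟨rot (rev R), k, ?_, ?_, ?_⟩
  · rw [rot_rev_p _ (by omega)]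
    have e1 : ng n 0 = 0 := by simp [ng]
    rw [e1, h1]
    unfold ng
    split_ifs <;> omega
  · have := (h2.rev hn).rot hn
    rwa [rev_rev] at this
  · rw [U_neg hn, e]
    exact h3

end Pool.Agent.Helper95.CF
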