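import Pool.Agent.Helper95.CFRot

/-!
MP_717b2e_co, upper bound, module TL: the tail lemmas.
-/

namespace Pool.Agent.Helper95.CF

open Finset

variable {n : ℕ}

/-- plain flip, from side by side to nested -/
lemma flip_SN (hn : n % 2 = 1) {M : NCM n} {a b c d : ℕ} (hab : a < b) (hbc : b < c) (hcd : c < d)
    (hd : d < 2 * n) (hMa : M.p a = b) (hMc : M.p c = d)
    (hgap : ∀ x, b < x → x < c → b < M.p x ∧ M.p x < c)
    (g1 : b ≤ a + n) (g2 : c ≤ b + n) (g3 : d ≤ c + n) (g4 : a + n ≤ d) :
    ∃ N : NCM n, N.p a = d ∧ N.p b = c ∧ N.p c = b ∧ N.p d = a ∧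
      (∀ x, x < 2 * n → x ≠ a → x ≠ b → x ≠ c → x ≠ d → N.p x = M.p x) ∧ (H n).Adj M N ∧
      U N - U M = 2 * ((ws n a d : ℤ) + ws n b c - ws n a b - ws n c d) := by
  have hMb := M.p_symm (by omega) hMa
  have hMd := M.p_symm (by omega) hMc
  have B : Bg n 4 ![a, b, c, d] (allp 4) M.p := by
    apply Bg.mk'
    · simp [Fin.forall_fin_succ]
      omega
    · simp
      omega
    · exact M.nc
    · simp [Fin.forall_fin_succ, Fin.exists_fin_succ, hMa, hMb, hMc, hMd]
    · simp [Fin.forall_fin_succ]
      refine ⟨?_, ?_, ?_⟩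
      · intro x h1 h2
        have := M.nc.nc a x h1 (by omega) (by omega)
        omega
      · intro x h1 h2
        exact hgap x h1 h2
      · intro x h1 h2
        have := M.nc.nc c x h1 (by omega) (by omega)
        omega
  have S0 : Sym 4 (allp 4) ![3, 2, 1, 0] := by constructor <;> decide
  have S1 : Sym 4 (allp 4) ![1, 0, 3, 2] := by constructor <;> decide
  have hM : M = ins B S1 := by
    apply eq_ins
    · simp [Fin.forall_fin_succ, hMa, hMb, hMc, hMd]
    · intro x hx h; rfl
  have hadj : (H n).Adj (ins B S1) (ins B S0) := by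
    apply ins_adj hn B S1 S0 (a := 0) (b := 1) (c := 2) (d := 3)
    · exact ⟨rfl, rfl, rfl, rfl, by decide, by decide, by decide, rfl, rfl, rfl, rfl, by decide⟩
    · simp; omega
    · simp; omega
    · simp; omega
    · simp; omega
  have f0 : (ins B S0).p a = d := ins_named B S0 (i := 0) rfl
  have f1 : (ins B S0).p b = c := ins_named B S0 (i := 1) rfl
  have f2 : (ins B S0).p c = b := ins_named B S0 (i := 2) rfl
  have f3 : (ins B S0).p d = a := ins_named B S0 (i := 3) rfl
  have fu : ∀ z, z < 2 * n → z ≠ a → z ≠ b → z ≠ c → z ≠ d → (ins B S0).p z = M.p z := by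
    intro z hz h0 h1 h2 h3
    apply ins_unnamed B S0 hz
    simp [Fin.forall_fin_succ]
    omega
  have hU := U_ins_sub B S1 S0
  simp [Fin.sum_univ_four] at hU
  rw [← hM] at hU hadj
  refine ⟨ins B S0, f0, f1, f2, f3, fu, hadj, ?_⟩
  rw [hU, ws_comm n d a, ws_comm n c b, ws_comm n b a, ws_comm n d c]
  ring

/-- plain flip, from nested to side by side -/
lemma flip_NS (hn : n % 2 = 1) {M : NCM n} {a b c d : ℕ} (hab : a < b) (hbc : b < c) (hcd : c < d)
    (hd : d < 2 * n) (hMa : M.p a = d) (hMb : M.p b = c)
    (hgap : ∀ x, a < x → x < b → a < M.p x ∧ M.p x < b)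
    (g1 : b ≤ a + n) (g2 : c ≤ b + n) (g3 : d ≤ c + n) (g4 : a + n ≤ d) :
    ∃ N : NCM n, N.p a = b ∧ N.p b = a ∧ N.p c = d ∧ N.p d = c ∧
      (∀ x, x < 2 * n → x ≠ a → x ≠ b → x ≠ c → x ≠ d → N.p x = M.p x) ∧ (H n).Adj M N ∧
      U N - U M = 2 * ((ws n a b : ℤ) + ws n c d - ws n a d - ws n b c) := by
  have hMd := M.p_symm (by omega) hMa
  have hMc := M.p_symm (by omega) hMb
  have B : Bg n 4 ![a, b, c, d] (allp 4) M.p := by
    apply Bg.mk'
    · simp [Fin.forall_fin_succ]
      omega
    · simp
      omega
    · exact M.nc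
    · simp [Fin.forall_fin_succ, Fin.exists_fin_succ, hMa, hMb, hMc, hMd]
    · simp [Fin.forall_fin_succ]
      refine ⟨?_, ?_, ?_⟩
      · intro x h1 h2
        exact hgap x h1 h2
      · intro x h1 h2
        have := M.nc.nc b x h1 (by omega) (by omega)
        omega
      · intro x h1 h2
        have hx : x < 2 * n := by omega
        have k1 := M.nc.nc a x (by omega) (by omega) (by omega)
        have k2 := M.sep (x := b) (y := x) (by omega) (by omega) hx (by omega) (by omega)
        rw [hMb] at k2
        rw [hMa] at k1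
        have k3 : M.p x ≠ c := by
          intro he
          have := M.p_symm hx he
          omega
        have k4 : M.p x ≠ b := by
          intro he
          have := M.p_symm hx he
          omega
        have k5 : ¬ (a < M.p x ∧ M.p x < b) := by
          intro hh
          have := hgap (M.p x) hh.1 hh.2
          rw [M.p_p hx] at this
          omega
        omega
  have S0 : Sym 4 (allp 4) ![3, 2, 1, 0] := by constructor <;> decide
  have S1 : Sym 4 (allp 4) ![1, 0, 3, 2] := by constructor <;> decide
  have hM : M = ins B S0 := by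
    apply eq_ins
    · simp [Fin.forall_fin_succ, hMa, hMb, hMc, hMd]
    · intro x hx h; rfl
  have hadj : (H n).Adj (ins B S1) (ins B S0) := by
    apply ins_adj hn B S1 S0 (a := 0) (b := 1) (c := 2) (d := 3)
    · exact ⟨rfl, rfl, rfl, rfl, by decide, by decide, by decide, rfl, rfl, rfl, rfl, by decide⟩
    · simp; omega
    · simp; omega
    · simp; omega
    · simp; omega
  have f0 : (ins B S1).p a = b := ins_named B S1 (i := 0) rfl
  have f1 : (ins B S1).p b = a := ins_named B S1 (i := 1) rfl
  have f2 : (ins B S1).p c = d := ins_named B S1 (i := 2) rfl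
  have f3 : (ins B S1).p d = c := ins_named B S1 (i := 3) rfl
  have fu : ∀ z, z < 2 * n → z ≠ a → z ≠ b → z ≠ c → z ≠ d → (ins B S1).p z = M.p z := by
    intro z hz h0 h1 h2 h3
    apply ins_unnamed B S1 hz
    simp [Fin.forall_fin_succ]
    omega
  have hU := U_ins_sub B S0 S1
  simp [Fin.sum_univ_four] at hU
  rw [← hM] at hU hadj
  refine ⟨ins B S1, f0, f1, f2, f3, fu, hadj.symm, ?_⟩
  rw [hU, ws_comm n d a, ws_comm n c b, ws_comm n b a, ws_comm n d c]
  ring

/-- an interval closed under the partner map has an even number of points -/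
lemma closed_even (M : NCM n) {a b : ℕ} (hb : b < 2 * n)
    (h : ∀ x, a < x → x < b → a < M.p x ∧ M.p x < b) (hab : a < b) : (b - a) % 2 = 1 := by
  have h1 : Even (Finset.Ioo (⟨a, by omega⟩ : Fin (2 * n)) ⟨b, hb⟩).card := by
    apply M.even_card
    intro j hj
    rw [Finset.mem_Ioo, Fin.lt_def, Fin.lt_def] at hj ⊢
    simp only at hj ⊢
    have := h j.val hj.1 hj.2
    rwa [M.p_val] at this
  rw [Fin.card_Ioo] at h1
  rcases h1 with ⟨k, hk⟩
  simp only at hk
  omega

/-- no chord strictly across the line -/
lemma tail_none (hn : n % 2 = 1) (M : NCM n) (h0 : M.p 0 ≠ n)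
    (h : ∀ x, 0 < x → x < n → ¬ n < M.p x) : Val M 0 := by
  have l0 := M.p_lt (x := 0) (by omega)
  have ln := M.p_lt (x := n) (by omega)
  have q0 := M.p_parity (x := 0) (by omega)
  have qn := M.p_parity (x := n) (by omega)
  have e0 := M.p_ne (x := 0) (by omega)
  have en := M.p_ne (x := n) (by omega)
  obtain ⟨e, he⟩ : ∃ e, e = M.p 0 := ⟨_, rfl⟩
  obtain ⟨f, hf⟩ : ∃ f, f = M.p n := ⟨_, rfl⟩
  have he' := M.p_symm (by omega) he.symm
  have hf' := M.p_symm (by omega) hf.symm
  rw [← he] at l0 q0 e0 h0
  rw [← hf] at ln qn en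
  have f0 : f ≠ 0 := by
    rintro rfl
    omega
  rcases lt_or_gt_of_ne h0 with h1 | h1
  · -- e < n
    have hfe : f ≠ e := by
      rintro rfl
      omega
    have hfe' : ¬ f < e := by
      intro hc
      have := M.nc.nc 0 f (by omega) (by omega) (by omega)
      omega
    -- points between e and min(f, n) are closed
    have hcl : ∀ x, e < x → x < n → x ≠ f → e < M.p x ∧ M.p x < n ∧ M.p x ≠ f := by
      intro x k1 k2 k3
      have k4 := h x (by omega) k2
      have k5 : M.p x ≠ n := by
        intro hc
        have := M.p_symm (by omega) hc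
        omega
      have k6 := M.sep (x := 0) (y := x) (by omega) (by omega) (by omega) (by omega) (by omega)
      rw [← he] at k6
      have k7 : M.p x ≠ e := by
        intro hc
        have := M.p_symm (by omega) hc
        omega
      have k8 : M.p x ≠ 0 := by
        intro hc
        have := M.p_symm (by omega) hc
        omega
      have k9 : M.p x ≠ f := by
        intro hc
        have := M.p_symm (by omega) hc
        omega
      omega
    have hfn : f < n := by
      by_contra hc
      have := closed_even M (a := e) (b := n) (by omega) (fun x k1 k2 => by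
        have := hcl x k1 k2 (by omega)
        omega) h1
      omega
    obtain ⟨N, a1, a2, a3, a4, a5, a6, a7⟩ := flip_SN hn (M := M) (a := 0) (b := e) (c := f)
      (d := n) (by omega) (by omega) (by omega) (by omega) he.symm hf'
      (by
        intro x k1 k2
        have k3 := hcl x k1 (by omega) (by omega)
        have k4 := M.sep (x := f) (y := x) (by omega) (by omega) (by omega) (by omega) (by omega)
        rw [hf'] at k4
        omega) (by omega) (by omega) (by omega) (by omega)
    apply Val.step (DistLe.of_adj a6) (Val.aligned a1)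
    rw [a7, ws_needle (by omega), ws_A (x := e) (y := f) (by omega) (by omega) hfn,
      ws_zero (y := e) (by omega) (by omega), ws_comm n f n, ws_n (y := f) (by omega) (by omega)
        (by omega), if_neg (by omega)]
    norm_num
  · -- e > n
    have hfe : f ≠ e := by
      rintro rfl
      omega
    have hfe' : f < e := by
      have := M.nc.nc 0 n (by omega) (by omega) (by omega)
      omega
    have hcl : ∀ x, 0 < x → x < n → x ≠ f → 0 < M.p x ∧ M.p x < n ∧ M.p x ≠ f := by
      intro x k1 k2 k3
      have k4 := h x (by omega) k2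
      have k5 : M.p x ≠ n := by
        intro hc
        have := M.p_symm (by omega) hc
        omega
      have k8 : M.p x ≠ 0 := by
        intro hc
        have := M.p_symm (by omega) hc
        omega
      have k9 : M.p x ≠ f := by
        intro hc
        have := M.p_symm (by omega) hc
        omega
      omega
    have hfn : n < f := by
      by_contra hc
      have hfn' : f < n := by omega
      have := closed_even M (a := 0) (b := f) (by omega) (fun x k1 k2 => by
        have k3 := hcl x k1 (by omega) (by omega)
        have k4 := M.sep (x := f) (y := x) (by omega) (by omega) (by omega) (by omega) (by omega)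
        rw [hf'] at k4
        omega) (by omega)
      omega
    obtain ⟨N, a1, a2, a3, a4, a5, a6, a7⟩ := flip_NS hn (M := M) (a := 0) (b := n) (c := f)
      (d := e) (by omega) (by omega) (by omega) (by omega) he.symm hf.symm
      (by
        intro x k1 k2
        have k3 := hcl x k1 (by omega) (by omega)
        omega) (by omega) (by omega) (by omega) (by omega)
    apply Val.step (DistLe.of_adj a6) (Val.aligned a1)
    rw [a7, ws_needle (by omega), ws_B (x := f) (y := e) (by omega) (by omega),
      ws_zero (y := e) (by omega) (by omega), ws_n (y := f) (by omega) (by omega)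
        (by omega), if_neg (by omega)]
    norm_num

/-- ends of the chords strictly across the line -/
def crs (M : NCM n) : Finset ℕ := (range n).filter fun x => 0 < x ∧ n < M.p x

lemma mem_crs {M : NCM n} {x : ℕ} : x ∈ crs M ↔ 0 < x ∧ x < n ∧ n < M.p x := by
  simp only [crs, mem_filter, mem_range]
  omega

theorem tail_up (hn : n % 2 = 1) (M : NCM n) (h0 : M.p 0 ≠ n)
    (h : ∀ x, 0 < x → x < n → n < M.p x → M.p x ≤ x + n) : Val M 0 := by
  induction hc : (crs M).card using Nat.strong_induction_on generalizing M with
  | _ k ih =>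
  by_cases hne : (crs M).Nonempty
  swap
  · apply tail_none hn M h0
    intro x h1 h2 h3
    exact hne ⟨x, mem_crs.2 ⟨h1, h2, h3⟩⟩
  obtain ⟨x, hx⟩ : ∃ x, x = (crs M).min' hne := ⟨_, rfl⟩
  have hxm : x ∈ crs M := by rw [hx]; exact Finset.min'_mem _ _
  have hmin : ∀ z, z ∈ crs M → x ≤ z := by
    intro z hz
    rw [hx]
    exact Finset.min'_le _ _ hz
  obtain ⟨x0, xn, xy⟩ := mem_crs.1 hxm
  obtain ⟨y, hy⟩ : ∃ y, y = M.p x := ⟨_, rfl⟩
  obtain ⟨e, he⟩ : ∃ e, e = M.p 0 := ⟨_, rfl⟩
  have hxn := h x x0 xn xy
  have ly := M.p_lt (x := x) (by omega)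
  have l0 := M.p_lt (x := 0) (by omega)
  have q0 := M.p_parity (x := 0) (by omega)
  have e0 := M.p_ne (x := 0) (by omega)
  have he' := M.p_symm (by omega) he.symm
  have hy' := M.p_symm (by omega) hy.symm
  rw [← he] at l0 q0 e0 h0
  rw [← hy] at hxn xy ly
  have hex : e ≠ x := by rintro rfl; omega
  have hey : e ≠ y := by rintro rfl; omega
  have hz : ∀ z, 0 < z → z < x → z ≠ e → 0 < M.p z ∧ M.p z < x ∧ M.p z ≠ e := by
    intro z k1 k2 k3
    have k4 : ¬ n < M.p z := by
      intro hcc
      have := hmin z (mem_crs.2 ⟨k1, by omega, hcc⟩)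
      omega
    have k5 := M.sep (x := x) (y := z) (by omega) (by omega) (by omega) (by omega) (by omega)
    rw [← hy] at k5
    have k6 : M.p z ≠ x := by
      intro hcc
      have := M.p_symm (by omega) hcc
      omega
    have k7 : M.p z ≠ 0 := by
      intro hcc
      have := M.p_symm (by omega) hcc
      omega
    have k8 : M.p z ≠ e := by
      intro hcc
      have := M.p_symm (by omega) hcc
      omega
    omega
  have fin : ∀ N : NCM n, N.p 0 ≠ n → ((¬ n < N.p x)) →
      (∀ z, 0 < z → z < n → n < N.p z → z ≠ x → N.p z = M.p z) → Val N 0 := by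
    intro N k1 k2 k3
    have hsub : crs N ⊆ (crs M).erase x := by
      intro z hz
      obtain ⟨z1, z2, z3⟩ := mem_crs.1 hz
      have z4 : z ≠ x := by rintro rfl; exact k2 z3
      rw [Finset.mem_erase]
      refine ⟨z4, mem_crs.2 ⟨z1, z2, ?_⟩⟩
      rw [← k3 z z1 z2 z3 z4]
      exact z3
    have hlt : (crs N).card < (crs M).card :=
      lt_of_le_of_lt (Finset.card_le_card hsub) (Finset.card_erase_lt_of_mem hxm)
    apply ih _ (by rw [← hc]; exact hlt) N k1 _ rfl
    intro z z1 z2 z3
    have z4 : z ≠ x := by rintro rfl; exact k2 z3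
    have e5 := k3 z z1 z2 z3 z4
    rw [e5] at z3 ⊢
    exact h z z1 z2 z3
  have hcase : e < x ∨ y < e := by
    by_contra hcc
    have := M.nc.nc x e (by omega) (by omega) (by omega)
    omega
  rcases hcase with hex' | hye
  · obtain ⟨N, a1, a2, a3, a4, a5, a6, a7⟩ := flip_SN hn (M := M) (a := 0) (b := e) (c := x)
      (d := y) (by omega) (by omega) (by omega) (by omega) he.symm hy.symm
      (by
        intro z k1 k2
        have k3 := hz z (by omega) k2 (by omega)
        have k4 := M.sep (x := 0) (y := z) (by omega) (by omega) (by omega) (by omega) (by omega)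
        rw [← he] at k4
        omega) (by omega) (by omega) (by omega) (by omega)
    refine Val.step (v := 0) (DistLe.of_adj a6) (fin N (by omega) (by omega) ?_) ?_
    · intro z z1 z2 z3 z4
      apply a5 z (by omega) (by omega) _ z4 (by omega)
      rintro rfl
      omega
    · rw [a7, ws_zero (y := y) (by omega) (by omega), ws_A (x := e) (y := x) (by omega) (by omega)
        (by omega), ws_zero (y := e) (by omega) (by omega), ws_cross (x := x) (y := y) (by omega)
        (by omega) (by omega), if_neg (by omega)]
      norm_num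
  · obtain ⟨N, a1, a2, a3, a4, a5, a6, a7⟩ := flip_NS hn (M := M) (a := 0) (b := x) (c := y)
      (d := e) (by omega) (by omega) (by omega) (by omega) he.symm hy.symm
      (by
        intro z k1 k2
        have k3 := hz z (by omega) k2 (by omega)
        omega) (by omega) (by omega) (by omega) (by omega)
    have py := N.p_parity (x := y) (by omega)
    refine Val.step (v := 0) (DistLe.of_adj a6) (fin N (by omega) (by omega) ?_) ?_
    · intro z z1 z2 z3 z4
      exact a5 z (by omega) (by omega) z4 (by omega) (by omega)
    · rw [a7, ws_zero (y := x) (by omega) (by omega), ws_B (x := y) (y := e) (by omega) (by omega),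
        ws_zero (y := e) (by omega) (by omega), ws_cross (x := x) (y := y) (by omega)
        (by omega) (by omega), if_neg (by omega)]
      norm_num

theorem tail_down (hn : n % 2 = 1) (M : NCM n) (h0 : M.p 0 ≠ n)
    (h : ∀ x, 0 < x → x < n → n < M.p x → x + n ≤ M.p x) : Val M 0 := by
  induction hc : (crs M).card using Nat.strong_induction_on generalizing M with
  | _ k ih =>
  by_cases hne : (crs M).Nonempty
  swap
  · apply tail_none hn M h0
    intro x h1 h2 h3
    exact hne ⟨x, mem_crs.2 ⟨h1, h2, h3⟩⟩
  obtain ⟨x, hx⟩ : ∃ x, x = (crs M).max' hne := ⟨_, rfl⟩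
  have hxm : x ∈ crs M := by rw [hx]; exact Finset.max'_mem _ _
  have hmax : ∀ z, z ∈ crs M → z ≤ x := by
    intro z hz
    rw [hx]
    exact Finset.le_max' _ _ hz
  obtain ⟨x0, xn, xy⟩ := mem_crs.1 hxm
  obtain ⟨y, hy⟩ : ∃ y, y = M.p x := ⟨_, rfl⟩
  obtain ⟨f, hf⟩ : ∃ f, f = M.p n := ⟨_, rfl⟩
  have hxn := h x x0 xn xy
  have ly := M.p_lt (x := x) (by omega)
  have ln := M.p_lt (x := n) (by omega)
  have qn := M.p_parity (x := n) (by omega)
  have en := M.p_ne (x := n) (by omega)
  have hf' := M.p_symm (by omega) hf.symm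
  have hy' := M.p_symm (by omega) hy.symm
  have hins := M.nc.nc x n xn xy (by omega)
  rw [← hf] at ln qn en hins
  rw [← hy] at hxn xy ly hins
  have hz : ∀ z, x < z → z < n → z ≠ f → x < M.p z ∧ M.p z < n ∧ M.p z ≠ f := by
    intro z k1 k2 k3
    have k4 : ¬ n < M.p z := by
      intro hcc
      have := hmax z (mem_crs.2 ⟨by omega, by omega, hcc⟩)
      omega
    have k5 := M.nc.nc x z k1 (by omega) (by omega)
    have k6 : M.p z ≠ n := by
      intro hcc
      have := M.p_symm (by omega) hcc
      omega
    have k8 : M.p z ≠ f := by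
      intro hcc
      have := M.p_symm (by omega) hcc
      omega
    omega
  have fin : ∀ N : NCM n, N.p 0 = M.p 0 → ((¬ n < N.p x)) →
      (∀ z, 0 < z → z < n → n < N.p z → z ≠ x → N.p z = M.p z) → Val N 0 := by
    intro N k1 k2 k3
    have hsub : crs N ⊆ (crs M).erase x := by
      intro z hz
      obtain ⟨z1, z2, z3⟩ := mem_crs.1 hz
      have z4 : z ≠ x := by rintro rfl; exact k2 z3
      rw [Finset.mem_erase]
      refine ⟨z4, mem_crs.2 ⟨z1, z2, ?_⟩⟩
      rw [← k3 z z1 z2 z3 z4]
      exact z3
    have hlt : (crs N).card < (crs M).card :=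
      lt_of_le_of_lt (Finset.card_le_card hsub) (Finset.card_erase_lt_of_mem hxm)
    apply ih _ (by rw [← hc]; exact hlt) N (by rw [k1]; exact h0) _ rfl
    intro z z1 z2 z3
    have z4 : z ≠ x := by rintro rfl; exact k2 z3
    have e5 := k3 z z1 z2 z3 z4
    rw [e5] at z3 ⊢
    exact h z z1 z2 z3
  rcases lt_or_gt_of_ne en with hfn | hfn
  · obtain ⟨N, a1, a2, a3, a4, a5, a6, a7⟩ := flip_NS hn (M := M) (a := x) (b := f) (c := n)
      (d := y) (by omega) (by omega) (by omega) (by omega) hy.symm hf'
      (by
        intro z k1 k2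
        have k3 := hz z (by omega) (by omega) (by omega)
        have k4 := M.sep (x := f) (y := z) (by omega) (by omega) (by omega) (by omega) (by omega)
        rw [hf'] at k4
        omega) (by omega) (by omega) (by omega) (by omega)
    have px := N.p_parity (x := x) (by omega)
    refine Val.step (v := 0) (DistLe.of_adj a6) (fin N (a5 0 (by omega) (by omega) (by omega)
      (by omega) (by omega)) (by omega) ?_) ?_
    · intro z z1 z2 z3 z4
      apply a5 z (by omega) z4 _ (by omega) (by omega)
      rintro rfl
      omega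
    · rw [a7, ws_A (x := x) (y := f) (by omega) (by omega) (by omega),
        ws_n (y := y) (by omega) (by omega) (by omega), ws_cross (x := x) (y := y) (by omega)
        (by omega) (by omega), ws_comm n f n, ws_n (y := f) (by omega) (by omega) (by omega),
        if_neg (by omega)]
      norm_num
  · obtain ⟨N, a1, a2, a3, a4, a5, a6, a7⟩ := flip_NS hn (M := M) (a := x) (b := n) (c := f)
      (d := y) (by omega) (by omega) (by omega) (by omega) hy.symm hf.symm
      (by
        intro z k1 k2
        have k3 := hz z (by omega) (by omega) (by omega)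
        omega) (by omega) (by omega) (by omega) (by omega)
    refine Val.step (v := 0) (DistLe.of_adj a6) (fin N (a5 0 (by omega) (by omega) (by omega)
      (by omega) (by omega)) (by omega) ?_) ?_
    · intro z z1 z2 z3 z4
      exact a5 z (by omega) z4 (by omega) (by omega) (by omega)
    · rw [a7, ws_comm n x n, ws_n (y := x) (by omega) (by omega) (by omega),
        ws_B (x := f) (y := y) (by omega) (by omega), ws_cross (x := x) (y := y) (by omega)
        (by omega) (by omega), ws_n (y := f) (by omega) (by omega) (by omega),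
        if_neg (by omega)]
      norm_num

end Pool.Agent.Helper95.CF
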