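import Pool.Agent.Helper85.LC.Defs

/-!
# MP_816dee_pr (Q1), module B: block extraction
-/

namespace Pool.H85.LC

open Finset

namespace Block

theorem lex_sandwich {α : Type*} [LinearOrder α] : ∀ (p t y : List α),
    ¬ List.Lex (· < ·) y p → ¬ List.Lex (· < ·) (p ++ t) y → p <+: y := by
  intro p
  induction p with
  | nil => intro t y _ _; exact ⟨y, rfl⟩
  | cons a p ih =>
    intro t y h1 h2
    cases y with
    | nil => exact absurd List.Lex.nil h1
    | cons b y =>
      have hab : ¬ b < a := fun h => h1 (List.Lex.rel h)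
      have hba : ¬ a < b := fun h => h2 (List.Lex.rel h)
      have hE : a = b := le_antisymm (not_lt.1 hab) (not_lt.1 hba)
      subst hE
      have h3 : ¬ List.Lex (· < ·) y p := fun h => h1 (List.Lex.cons h)
      have h4 : ¬ List.Lex (· < ·) (p ++ t) y := fun h => h2 (List.Lex.cons h)
      obtain ⟨u, hu⟩ := ih t y h3 h4
      exact ⟨u, by rw [← hu]; rfl⟩

theorem not_lex_self_append {α : Type*} [LinearOrder α] : ∀ (p t : List α),
    ¬ List.Lex (· < ·) (p ++ t) p := by
  intro p
  induction p with
  | nil => intro t h; cases h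
  | cons a p ih =>
    intro t h
    cases h with
    | cons h => exact ih t h
    | rel h => exact lt_irrefl _ h

theorem exists_rank {V β : Type*} [Fintype V] [LinearOrder β] (σ : V → β)
    (hσ : Function.Injective σ) : ∃ rank : V → ℕ, Function.Injective rank ∧
      (∀ v, rank v < Fintype.card V) ∧ (∀ i < Fintype.card V, ∃ v, rank v = i) ∧
      ∀ u v, rank u ≤ rank v ↔ σ u ≤ σ v := by
  let _ := LinearOrder.lift' σ hσ
  let e := Fintype.orderIsoFinOfCardEq V rfl
  refine ⟨fun v => (e.symm v : ℕ), ?_, ?_, ?_, ?_⟩
  · intro u v h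
    exact e.symm.injective (Fin.ext h)
  · intro v
    exact (e.symm v).2
  · intro i hi
    exact ⟨e ⟨i, hi⟩, by simp⟩
  · intro u v
    have : (e.symm u : ℕ) ≤ (e.symm v : ℕ) ↔ u ≤ v := by
      rw [← Fin.le_def]
      exact e.symm.le_iff_le
    exact this

theorem exists_rank_list {V : Type*} [Fintype V] (σ : V → List V)
    (hσ : Function.Injective σ) : ∃ rank : V → ℕ, Function.Injective rank ∧
      (∀ v, rank v < Fintype.card V) ∧ (∀ i < Fintype.card V, ∃ v, rank v = i) ∧
      (∀ a d t, σ d = σ a ++ t → rank a ≤ rank d) ∧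
      (∀ a d z t, σ d = σ a ++ t → rank a ≤ rank z → rank z ≤ rank d → σ a <+: σ z) := by
  let _ : LinearOrder V := IsWellOrder.linearOrder WellOrderingRel
  obtain ⟨rank, hrinj, hrlt, hrsurj, hrle⟩ := exists_rank σ hσ
  refine ⟨rank, hrinj, hrlt, hrsurj, ?_, ?_⟩
  · intro a d t ht
    rw [hrle, ht]
    exact not_lt.1 (not_lex_self_append _ _)
  · intro a d z t ht h1 h2
    rw [hrle] at h1 h2
    rw [ht] at h2
    exact lex_sandwich (σ a) t (σ z) (not_lt.2 h1) (not_lt.2 h2)

theorem exists_interval (K : ℕ) (hK : 1 ≤ K) : ∀ (n : ℕ), K ≤ n → ∀ (w : ℕ → ℕ),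
    ∃ s x, K ≤ x ∧ x ≤ 2 * K ∧ s + x ≤ n ∧
      (∑ i ∈ range n, w i) * x ≤ n * ∑ i ∈ Ico s (s + x), w i := by
  intro n
  induction n using Nat.strong_induction_on with
  | _ n ih =>
    intro hn w
    by_cases h2 : n ≤ 2 * K
    · refine ⟨0, n, hn, h2, by omega, ?_⟩
      rw [zero_add, ← Finset.range_eq_Ico, mul_comm]
    · push Not at h2
      by_cases h0 : (∑ i ∈ range n, w i) * K ≤ n * ∑ i ∈ Ico 0 (0 + K), w i
      · exact ⟨0, K, le_rfl, by omega, by omega, h0⟩
      · push Not at h0
        rw [zero_add, ← Finset.range_eq_Ico] at h0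
        obtain ⟨s, x, h3, h4, h5, h6⟩ := ih (n - K) (by omega) (by omega) (fun i => w (K + i))
        refine ⟨K + s, x, h3, h4, by omega, ?_⟩
        have hsplit : ∑ i ∈ range n, w i = (∑ i ∈ range K, w i) +
            ∑ i ∈ range (n - K), w (K + i) := by
          rw [← Finset.sum_range_add (fun i => w i) K (n - K)]
          congr 2
          omega
        have hIco : ∑ i ∈ Ico (K + s) (K + s + x), w i = ∑ i ∈ Ico s (s + x), w (K + i) := by
          have h7 := Finset.sum_Ico_add' (fun i => w i) s (s + x) K
          have e1 : K + s + x = s + x + K := by omega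
          rw [e1, add_comm K s, ← h7]
          apply Finset.sum_congr rfl
          intro i _
          rw [add_comm]
        rw [hIco]
        set W := ∑ i ∈ range n, w i with hW
        set W0 := ∑ i ∈ range K, w i with hW0
        set W1 := ∑ i ∈ range (n - K), w (K + i) with hW1
        set WX := ∑ i ∈ Ico s (s + x), w (K + i) with hWX
        obtain ⟨m, rfl⟩ : ∃ m, n = K + m := ⟨n - K, by omega⟩
        have hm : 0 < m := by omega
        rw [Nat.add_sub_cancel_left] at h6
        -- h0 : (K+m) * W0 < W * K ; hsplit : W = W0 + W1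
        have h7 : W * m ≤ (K + m) * W1 := by
          have : W * (K + m) = (K + m) * W0 + (K + m) * W1 := by rw [hsplit]; ring
          nlinarith
        have h8 : W * m * x ≤ (K + m) * (m * WX) := by
          calc W * m * x ≤ (K + m) * W1 * x := Nat.mul_le_mul_right _ h7
            _ = (K + m) * (W1 * x) := by ring
            _ ≤ (K + m) * (m * WX) := Nat.mul_le_mul_left _ h6
        have h9 : m * (W * x) ≤ m * ((K + m) * WX) := by
          calc m * (W * x) = W * m * x := by ring
            _ ≤ (K + m) * (m * WX) := h8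
            _ = m * ((K + m) * WX) := by ring
        exact Nat.le_of_mul_le_mul_left h9 hm

theorem sum_div (N : ℕ) (hN : 0 < N) (k : ℕ) : ∑ r ∈ range N, (k + r) / N = k := by
  induction k with
  | zero =>
    apply Finset.sum_eq_zero
    intro r hr
    rw [zero_add]
    exact Nat.div_eq_of_lt (Finset.mem_range.1 hr)
  | succ k ih =>
    have h1 : ∑ r ∈ range N, (k + 1 + r) / N + k / N =
        ∑ r ∈ range N, (k + r) / N + (k + N) / N := by
      have h2 := Finset.sum_range_succ' (fun r => (k + r) / N) N
      have h3 := Finset.sum_range_succ (fun r => (k + r) / N) N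
      simp only [add_zero] at h2
      rw [← h3, h2]
      congr 1
      apply Finset.sum_congr rfl
      intro r _
      congr 1
      omega
    rw [ih, Nat.add_div_right _ hN] at h1
    omega

theorem card_cut (N : ℕ) (hN : 0 < N) (k k' : ℕ) (hk : k ≤ k') :
    ((range N).filter fun r => (k + r) / N ≠ (k' + r) / N).card ≤ k' - k := by
  have h1 : ∀ r ∈ range N, (k + r) / N +
      (if (k + r) / N ≠ (k' + r) / N then 1 else 0) ≤ (k' + r) / N := by
    intro r _
    have h2 : (k + r) / N ≤ (k' + r) / N := Nat.div_le_div_right (by omega)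
    split_ifs with h
    · omega
    · omega
  have h3 := Finset.sum_le_sum h1
  rw [Finset.sum_add_distrib, sum_div N hN, sum_div N hN, ← Finset.card_filter] at h3
  omega

end Block

open Block in
theorem block_extraction {V : Type*} [Fintype V] (π : V → List V) (hπ : IsForest π)
    (P : Finset (V × V)) (L M K : ℕ) (hL : 1 ≤ L) (hM : 1 ≤ M) (hK : 1 ≤ K)
    (hKn : K ≤ Fintype.card V)
    (hP : ∀ a d, (a, d) ∈ P → a ∈ π d ∧ (π d).length ≤ (π a).length + L) :
    ∃ (Λ : Finset V) (x : ℕ), K ≤ x ∧ x ≤ 2 * K ∧ x ≤ Λ.card ∧ Λ.card ≤ x + M * L ∧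
      M * P.card * x ≤
        M * Fintype.card V * pb P Λ + P.card * x := by
  classical
  obtain ⟨N, hNdef⟩ : ∃ N, N = M * L := ⟨_, rfl⟩
  have hN : 0 < N := by rw [hNdef]; positivity
  -- depth
  let k : V → ℕ := fun z => (π z).length - 1
  have hne : ∀ z, π z ≠ [] := by
    intro z h
    have := hπ.last z
    rw [h] at this
    simp at this
  have hlen : ∀ z, (π z).length = k z + 1 := by
    intro z
    have := List.length_pos_iff.2 (hne z)
    simp only [k]
    omega
  have hk : ∀ a d, (a, d) ∈ P → k a ≤ k d ∧ k d ≤ k a + L := by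
    intro a d h
    obtain ⟨h1, h2⟩ := hP a d h
    have h3 := (hπ.closed d a h1).length_le
    rw [hlen, hlen] at h3 h2
    omega
  -- choose the offset
  obtain ⟨r, hr, hcut⟩ : ∃ r < N, M * (P.filter fun e => (k e.1 + r) / N ≠ (k e.2 + r) / N).card
      ≤ P.card := by
    by_contra hcon
    push Not at hcon
    have h1 : ∑ r ∈ range N, M * (P.filter fun e => (k e.1 + r) / N ≠ (k e.2 + r) / N).card
        ≤ P.card * N := by
      rw [← Finset.mul_sum]
      have h2 : ∑ r ∈ range N, (P.filter fun e => (k e.1 + r) / N ≠ (k e.2 + r) / N).card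
          = ∑ e ∈ P, ((range N).filter fun r => (k e.1 + r) / N ≠ (k e.2 + r) / N).card := by
        simp only [Finset.card_filter]
        exact Finset.sum_comm
      have h3 : ∑ e ∈ P, ((range N).filter fun r => (k e.1 + r) / N ≠ (k e.2 + r) / N).card
          ≤ ∑ e ∈ P, L := by
        apply Finset.sum_le_sum
        intro e he
        obtain ⟨h4, h5⟩ := hk e.1 e.2 he
        exact (card_cut N hN _ _ h4).trans (by omega)
      rw [h2]
      calc M * ∑ e ∈ P, ((range N).filter fun r => (k e.1 + r) / N ≠ (k e.2 + r) / N).card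
          ≤ M * ∑ e ∈ P, L := Nat.mul_le_mul_left _ h3
        _ = P.card * N := by rw [Finset.sum_const, smul_eq_mul, hNdef]; ring
    have h4 : ∑ r ∈ range N, P.card <
        ∑ r ∈ range N, M * (P.filter fun e => (k e.1 + r) / N ≠ (k e.2 + r) / N).card := by
      apply Finset.sum_lt_sum_of_nonempty
      · exact ⟨0, Finset.mem_range.2 hN⟩
      · intro r hr
        exact hcon r (Finset.mem_range.1 hr)
    rw [Finset.sum_const, smul_eq_mul, Finset.card_range] at h4
    rw [mul_comm] at h4
    omega
  -- the cut level and the truncated lists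
  let c : V → ℕ := fun z => N * ((k z + r) / N) - r
  have hc : ∀ z, c z ≤ k z := by
    intro z
    have := Nat.mul_div_le (k z + r) N
    simp only [c]
    omega
  have hc2 : ∀ z, k z + 1 ≤ c z + N := by
    intro z
    have := Nat.lt_mul_div_succ (k z + r) hN
    simp only [c]
    rw [Nat.mul_add, mul_one] at this
    omega
  let σ : V → List V := fun z => (π z).drop (c z)
  have hσlast : ∀ z, (σ z).getLast? = some z := by
    intro z
    simp only [σ]
    rw [List.getLast?_drop, if_neg (by rw [hlen]; have := hc z; omega)]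
    exact hπ.last z
  have hσinj : Function.Injective σ := by
    intro u v h
    have h1 := hσlast u
    rw [h, hσlast v] at h1
    exact (Option.some.inj h1).symm
  have hσlen : ∀ z, (σ z).length ≤ N := by
    intro z
    simp only [σ]
    rw [List.length_drop, hlen]
    have := hc2 z
    omega
  have hσmem : ∀ z, z ∈ σ z := by
    intro z
    exact List.mem_of_getLast? (hσlast z)
  have huncut : ∀ a d, (a, d) ∈ P → (k a + r) / N = (k d + r) / N → ∃ t, σ d = σ a ++ t := by
    intro a d had h
    obtain ⟨h1, h2⟩ := hP a d had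
    obtain ⟨t, ht⟩ := hπ.closed d a h1
    refine ⟨t, ?_⟩
    have h3 : c d = c a := by simp only [c]; rw [h]
    simp only [σ]
    rw [h3, ← ht, List.drop_append_of_le_length]
    rw [hlen]
    have := hc a
    omega
  obtain ⟨rank, hrinj, hrlt, hrsurj, hrpre, hrsand⟩ := exists_rank_list σ hσinj
  -- the uncut pairs
  set U := P.filter fun e => (k e.1 + r) / N = (k e.2 + r) / N with hU
  have hUcard : U.card + (P.filter fun e => (k e.1 + r) / N ≠ (k e.2 + r) / N).card = P.card :=
    Finset.card_filter_add_card_filter_not _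
  obtain ⟨s, x, hx1, hx2, hx3, hx4⟩ := exists_interval K hK (Fintype.card V) hKn
    (fun i => (U.filter fun e => rank e.2 = i).card)
  have hsumU : ∑ i ∈ range (Fintype.card V), (U.filter fun e => rank e.2 = i).card = U.card := by
    rw [Finset.card_eq_sum_card_fiberwise (f := fun e => rank e.2)
      (t := range (Fintype.card V))]
    intro e _
    simp only [Finset.coe_range, Set.mem_Iio]
    exact hrlt _
  have hsumI : ∑ i ∈ Ico s (s + x), (U.filter fun e => rank e.2 = i).card =
      (U.filter fun e => rank e.2 ∈ Ico s (s + x)).card := by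
    rw [Finset.sum_card_fiberwise_eq_card_filter]
  rw [hsumU, hsumI] at hx4
  -- the block
  set X : Finset V := univ.filter fun v => rank v ∈ Ico s (s + x) with hX
  have hXcard : X.card = x := by
    rw [← Finset.card_image_of_injective X hrinj]
    have : X.image rank = Ico s (s + x) := by
      ext i
      simp only [Finset.mem_image, hX, Finset.mem_filter, Finset.mem_univ, true_and]
      constructor
      · rintro ⟨v, hv, rfl⟩
        exact hv
      · intro hi
        obtain ⟨v, hv⟩ := hrsurj i (by rw [Finset.mem_Ico] at hi; omega)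
        exact ⟨v, by rw [hv]; exact hi, hv⟩
    rw [this, Nat.card_Ico]
    omega
  obtain ⟨x0, hx0⟩ := hrsurj s (by omega)
  refine ⟨X ∪ (σ x0).toFinset, x, hx1, hx2, ?_, ?_, ?_⟩
  · calc x = X.card := hXcard.symm
      _ ≤ _ := Finset.card_le_card Finset.subset_union_left
  · calc (X ∪ (σ x0).toFinset).card ≤ X.card + (σ x0).toFinset.card := Finset.card_union_le _ _
      _ ≤ x + M * L := by
        rw [hXcard]
        have := (σ x0).toFinset_card_le
        have := hσlen x0
        rw [hNdef] at this
        omega
  · have hsub : (U.filter fun e => rank e.2 ∈ Ico s (s + x)).card ≤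
        pb P (X ∪ (σ x0).toFinset) := by
      unfold pb
      apply Finset.card_le_card
      intro e he
      rw [Finset.mem_filter, hU, Finset.mem_filter] at he
      obtain ⟨⟨heP, heu⟩, her⟩ := he
      rw [Finset.mem_filter]
      have hd : e.2 ∈ X := by
        rw [hX, Finset.mem_filter]
        exact ⟨Finset.mem_univ _, her⟩
      refine ⟨heP, ?_, Finset.mem_union_left _ hd⟩
      by_cases ha : e.1 ∈ X
      · exact Finset.mem_union_left _ ha
      · apply Finset.mem_union_right
        rw [List.mem_toFinset]
        obtain ⟨t, ht⟩ := huncut e.1 e.2 heP heu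
        have h2 : rank e.1 ≤ rank e.2 := hrpre _ _ t ht
        rw [Finset.mem_Ico] at her
        have h3 : rank e.1 < s := by
          by_contra h
          apply ha
          rw [hX, Finset.mem_filter, Finset.mem_Ico]
          exact ⟨Finset.mem_univ _, by omega, by omega⟩
        obtain ⟨y, hy⟩ := hrsand _ _ x0 t ht (by omega) (by omega)
        rw [← hy]
        exact List.mem_append_left _ (hσmem e.1)
    -- final arithmetic
    have h1 : M * P.card ≤ M * U.card + P.card := by
      calc M * P.card = M * U.card +
          M * (P.filter fun e => (k e.1 + r) / N ≠ (k e.2 + r) / N).card := by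
            rw [← hUcard]; ring
        _ ≤ M * U.card + P.card := by omega
    calc M * P.card * x ≤ (M * U.card + P.card) * x := Nat.mul_le_mul_right _ h1
      _ = M * (U.card * x) + P.card * x := by ring
      _ ≤ M * (Fintype.card V * (U.filter fun e => rank e.2 ∈ Ico s (s + x)).card)
          + P.card * x := by
            have := Nat.mul_le_mul_left M hx4
            omega
      _ ≤ M * (Fintype.card V * pb P (X ∪ (σ x0).toFinset)) + P.card * x := by
            have := Nat.mul_le_mul_left M (Nat.mul_le_mul_left (Fintype.card V) hsub)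
            omega
      _ = M * Fintype.card V * pb P (X ∪ (σ x0).toFinset) + P.card * x := by ring

end Pool.H85.LC
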